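import Pool.Agent.Lib_helper27.RS3.Defs3
import Pool.Agent.Lib_helper35.RS2.P_GP

/-!
# RS3, block OPT: a basis which is optimal at `l`
-/

namespace Pool.Agent.RS3

set_option linter.unusedSectionVars false

open Pool.Agent.RSK Pool.Agent.RS2
open NumberField IsDedekindDomain Filter Topology Complex

/-! ## Finite torsion-free modules over an order which is a Dedekind domain -/

section DED

variable {S N : Type} [CommRing S] [IsDedekindDomain S] [Module.Finite ℤ S] [CharZero S]
  [AddCommGroup N] [Module S N] [Module.Finite ℤ N] [Module.IsTorsionFree ℤ N]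

theorem opt_tf : Module.IsTorsionFree S N := by
  rw [Module.isTorsionFree_iff_smul_eq_zero]
  intro a u h
  by_cases ha : a = 0
  · exact Or.inl ha
  refine Or.inr ?_
  have hint : Algebra.IsIntegral ℤ S := Algebra.IsIntegral.of_finite ℤ S
  have halg : IsAlgebraic ℤ a := (hint.isIntegral a).isAlgebraic
  obtain ⟨r, hr, c, hc⟩ := halg.exists_nonzero_dvd (mem_nonZeroDivisors_of_ne_zero ha)
  have h1 : (r : ℤ) • u = 0 := by
    have h2 : (algebraMap ℤ S r) • u = 0 := by
      rw [hc, mul_comm, mul_smul, h, smul_zero]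
    rw [← h2, eq_intCast, Int.cast_smul_eq_zsmul]
  exact (smul_eq_zero.1 h1).resolve_left hr

theorem opt_ded {l : ℕ} (hl : l.Prime) :
    ∃ (n : ℕ) (b : Fin n → N), LinearIndependent S b ∧ ∃ s : ℕ, ¬ l ∣ s ∧
      ∀ u : N, (s : S) • u ∈ Submodule.span S (Set.range b) := by
  classical
  have htf : Module.IsTorsionFree S N := opt_tf
  have hl0 : (l : ℤ) ≠ 0 := by exact_mod_cast hl.ne_zero
  set 𝔭 : Ideal ℤ := Ideal.span {(l : ℤ)} with h𝔭
  have hpp : 𝔭.IsPrime := by
    rw [h𝔭, Ideal.span_singleton_prime hl0]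
    exact Nat.prime_iff_prime_int.1 hl
  have hp0 : 𝔭 ≠ ⊥ := by
    rw [h𝔭, Ne, Ideal.span_singleton_eq_bot]
    exact hl0
  have hinjZ : Function.Injective (algebraMap ℤ S) := (algebraMap ℤ S).injective_int
  set Mo : Submonoid S := Algebra.algebraMapSubmonoid S 𝔭.primeCompl with hMo
  have hMon : Mo ≤ nonZeroDivisors S :=
    map_le_nonZeroDivisors_of_injective _ hinjZ 𝔭.primeCompl_le_nonZeroDivisors
  have hD : IsDedekindDomain (Localization Mo) := IsLocalization.isDedekindDomain S hMon _
  have hfs : FaithfulSMul ℤ S := (faithfulSMul_iff_algebraMap_injective ℤ S).2 hinjZ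
  have hint : Algebra.IsIntegral ℤ S := Algebra.IsIntegral.of_finite ℤ S
  have hPID : IsPrincipalIdealRing (Localization Mo) :=
    IsDedekindDomain.isPrincipalIdealRing_localization_over_prime S 𝔭 hp0
  have hNf : Module.Finite S N := Module.Finite.of_restrictScalars_finite ℤ S N
  obtain ⟨n, B⟩ := Module.basisOfFiniteTypeTorsionFree' (R := Localization Mo)
    (M := LocalizedModule Mo N)
  set f := LocalizedModule.mkLinearMap Mo N with hf
  have hfinj : Function.Injective f := by
    rw [← LinearMap.ker_eq_bot, LinearMap.ker_eq_bot']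
    intro u hu
    obtain ⟨c, hc, h⟩ := (LocalizedModule.mem_ker_mkLinearMap_iff (S := Mo) (m := u)).1 hu
    exact (smul_eq_zero.1 h).resolve_left (nonZeroDivisors.ne_zero (hMon hc))
  -- elements of `N`
  have h1 : ∀ i, ∃ (x : N) (m : Mo), (m : S) • B i = f x := by
    intro i
    obtain ⟨⟨x, m⟩, h⟩ := IsLocalizedModule.surj Mo f (B i)
    exact ⟨x, m, h⟩
  choose b m hbm using h1
  have hloc : ∀ (a : S) (v : LocalizedModule Mo N),
      (algebraMap S (Localization Mo) a) • v = a • v := fun a v => algebraMap_smul _ _ _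
  -- linear independence
  have hli : LinearIndependent S b := by
    rw [Fintype.linearIndependent_iff]
    intro c hc i
    have h2 : ∑ i, (algebraMap S (Localization Mo) (c i * m i)) • B i = 0 := by
      have h3 := congrArg f hc
      rw [map_sum, map_zero] at h3
      rw [← h3]
      refine Finset.sum_congr rfl fun i _ => ?_
      rw [hloc, mul_smul, hbm, map_smul]
    have h4 := Fintype.linearIndependent_iff.1 B.linearIndependent _ h2 i
    have h5 : c i * m i = 0 := by
      apply IsLocalization.injective (Localization Mo) hMon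
      rw [h4, map_zero]
    exact (mul_eq_zero.1 h5).resolve_right (nonZeroDivisors.ne_zero (hMon (m i).2))
  -- every element of `N` has a multiple in the span
  have hsp : ∀ u : N, ∃ s : ℕ, ¬ l ∣ s ∧ (s : S) • u ∈ Submodule.span S (Set.range b) := by
    intro u
    obtain ⟨t, ht⟩ := IsLocalization.exist_integer_multiples_of_finite Mo
      (fun i => B.repr (f u) i)
    choose a ha using ht
    -- the product of the denominators
    set D : S := (t : S) * ∏ i, (m i : S) with hDd
    have hDm : D ∈ Mo := Mo.mul_mem t.2 (Mo.prod_mem fun i _ => (m i).2)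
    have h6 : D • u = ∑ i, (a i * ∏ k ∈ Finset.univ.erase i, (m k : S)) • b i := by
      apply hfinj
      rw [map_smul, map_sum]
      have h7 : f u = ∑ i, B.repr (f u) i • B i := (B.sum_repr (f u)).symm
      have h8 : ∀ i, f ((a i * ∏ k ∈ Finset.univ.erase i, (m k : S)) • b i) =
          (∏ i, (m i : S)) • ((t : S) • (B.repr (f u) i • B i)) := by
        intro i
        have h9 : (t : S) • (B.repr (f u) i • B i) = a i • B i := by
          rw [← smul_assoc]
          have h10 := ha i
          rw [← hloc, ← h10]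
        rw [h9, map_smul, ← hbm, ← mul_smul, ← mul_smul]
        congr 1
        rw [← Finset.mul_prod_erase Finset.univ (fun i => (m i : S)) (Finset.mem_univ i)]
        ring
      rw [Finset.sum_congr rfl fun i _ => h8 i, ← Finset.smul_sum, ← Finset.smul_sum, ← h7, hDd,
        mul_comm, mul_smul]
    obtain ⟨z, hz, hzD⟩ := hDm
    have hzl : ¬ (l : ℤ) ∣ z := by
      intro h
      exact hz (Ideal.mem_span_singleton.2 h)
    refine ⟨z.natAbs, fun h => hzl (Int.natCast_dvd.2 h), ?_⟩
    have h11 : D • u ∈ Submodule.span S (Set.range b) := by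
      rw [h6]
      exact Submodule.sum_mem _ fun i _ => Submodule.smul_mem _ _
        (Submodule.subset_span (Set.mem_range_self i))
    have h12 : D = (z : S) := by rw [← hzD, eq_intCast]
    rw [h12] at h11
    rcases Int.natAbs_eq z with h | h
    · have h13 : ((z.natAbs : ℕ) : S) = (z : S) := by
        rw [← Int.cast_natCast (R := S) z.natAbs, ← h]
      rw [h13]
      exact h11
    · have h13 : ((z.natAbs : ℕ) : S) = -(z : S) := by
        rw [← Int.cast_natCast (R := S) z.natAbs, ← Int.cast_neg]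
        congr 1
        omega
      rw [h13, neg_smul]
      exact Submodule.neg_mem _ h11
  refine ⟨n, b, hli, ?_⟩
  -- uniform multiple
  obtain ⟨k, g, hg⟩ := Module.Finite.exists_fin (R := S) (M := N)
  choose s hs hs2 using hsp
  refine ⟨∏ i, s (g i), ?_, ?_⟩
  · intro h
    obtain ⟨i, _, hi⟩ := (Prime.dvd_finsetProd_iff hl.prime _).1 h
    exact hs _ hi
  · intro u
    have hu : u ∈ Submodule.span S (Set.range g) := by rw [hg]; exact Submodule.mem_top
    induction hu using Submodule.span_induction with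
    | mem v hv =>
      obtain ⟨i, rfl⟩ := hv
      rw [← Finset.mul_prod_erase Finset.univ (fun i => s (g i)) (Finset.mem_univ i)]
      push_cast
      rw [mul_comm, mul_smul]
      exact Submodule.smul_mem _ _ (hs2 _)
    | zero => rw [smul_zero]; exact Submodule.zero_mem _
    | add v w _ _ hv hw => rw [smul_add]; exact Submodule.add_mem _ hv hw
    | smul c v _ hv => rw [smul_comm]; exact Submodule.smul_mem _ _ hv

end DED

/-- subgroups containing a multiple prime to `l` -/
theorem opt_idx {N : Type} [AddCommGroup N] [Module.Finite ℤ N] {A : AddSubgroup N} {l : ℕ}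
    (hl : l.Prime) {s : ℕ} (hs : ¬ l ∣ s) (h : ∀ u : N, s • u ∈ A) :
    A.FiniteIndex ∧ ¬ l ∣ A.index := by
  have hs0 : s ≠ 0 := by
    rintro rfl
    exact hs (dvd_zero l)
  have hk : ∀ x : N ⧸ A, s • x = 0 := by
    intro x
    obtain ⟨u, rfl⟩ := QuotientAddGroup.mk_surjective x
    have h1 := (QuotientAddGroup.eq_zero_iff (N := A) (s • u)).2 (h u)
    rw [← h1]
    rfl
  have hfin : Finite (N ⧸ A) := by
    have hf : Module.Finite ℤ (N ⧸ A) :=
      Module.Finite.of_surjective (QuotientAddGroup.mk' A).toIntLinearMap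
        (QuotientAddGroup.mk'_surjective A)
    apply Module.finite_of_fg_torsion
    intro x
    refine ⟨⟨(s : ℤ), mem_nonZeroDivisors_of_ne_zero (by exact_mod_cast hs0)⟩, ?_⟩
    show (s : ℤ) • x = 0
    rw [natCast_zsmul]
    exact hk x
  have hfi : A.FiniteIndex := AddSubgroup.finiteIndex_of_finite_quotient
  refine ⟨hfi, ?_⟩
  intro hd
  have : Fact l.Prime := ⟨hl⟩
  obtain ⟨x, hx⟩ := exists_prime_addOrderOf_dvd_card' (G := N ⧸ A) l hd
  apply hs
  rw [← hx]
  exact addOrderOf_dvd_of_nsmul_eq_zero (hk x)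

section CYC

variable {G : Type} [CommGroup G] [Fintype G] {p j : ℕ} {P : Subgroup G}

theorem opt_toQ_inj : Function.Injective (toQ G) := by
  intro a b h
  ext g
  have h1 := congrArg (fun z : MonoidAlgebra ℚ G => z.coeff g) h
  simpa [toQ] using h1

/-- the cyclotomic integers as a quotient of `ℤ[G]` -/
theorem opt_cyc (hC : CycP p j P) :
    ∃ (S : Type) (_ : CommRing S) (_ : IsDedekindDomain S) (_ : Module.Finite ℤ S)
      (_ : CharZero S) (f : MonoidAlgebra ℤ G →+* S), Function.Surjective f ∧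
      Module.finrank ℤ S = p ^ (j - 1) * (p - 1) ∧
      ∀ a, f a = 0 → (MonoidAlgebra.single 1 (p : ℤ) - nP P) * a = 0 := by
  classical
  have hp := hC.prime
  have : NeZero (p ^ j) := ⟨pow_ne_zero _ hp.ne_zero⟩
  have hcyc : IsCyclic G := hC.cyc
  obtain ⟨σ, hσ⟩ := hcyc.exists_generator
  have hord : orderOf σ = p ^ j := by rw [orderOf_eq_card_of_forall_mem_zpowers hσ, hC.card]
  have hci : IsCyclotomicExtension {p ^ j} ℚ (CyclotomicField (p ^ j) ℚ) :=
    CyclotomicField.isCyclotomicExtension (p ^ j) ℚ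
  obtain ⟨K, iF, iN, iC⟩ : ∃ (K : Type) (_ : Field K) (_ : NumberField K),
      IsCyclotomicExtension {p ^ j} ℚ K :=
    ⟨CyclotomicField (p ^ j) ℚ, inferInstance,
      IsCyclotomicExtension.numberField {p ^ j} ℚ (CyclotomicField (p ^ j) ℚ), hci⟩
  set ζ : K := IsCyclotomicExtension.zeta (p ^ j) ℚ K with hζd
  have hζ : IsPrimitiveRoot ζ (p ^ j) := IsCyclotomicExtension.zeta_spec (p ^ j) ℚ K
  have hζi : IsPrimitiveRoot hζ.toInteger (p ^ j) := hζ.toInteger_isPrimitiveRoot
  have hζi0 : IsUnit hζ.toInteger := hζi.isUnit (NeZero.ne _)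
  set ζu : (𝓞 K)ˣ := hζi0.unit with hζu
  have hζup : IsPrimitiveRoot ζu (p ^ j) := by
    rw [← IsPrimitiveRoot.coe_units_iff]
    exact hζi
  have hζo : orderOf ζu ∣ orderOf σ := by
    rw [hord, hζup.eq_orderOf]
  set ψ : G →* (𝓞 K)ˣ := monoidHomOfForallMemZpowers hσ hζo with hψ
  have hψg : ψ σ = ζu := monoidHomOfForallMemZpowers_apply_gen hσ hζo
  set f : MonoidAlgebra ℤ G →ₐ[ℤ] 𝓞 K :=
    MonoidAlgebra.lift ℤ (𝓞 K) G ((Units.coeHom (𝓞 K)).comp ψ) with hf
  have hfs : ∀ (x : G) (q : ℤ), f (MonoidAlgebra.single x q) = (q : 𝓞 K) * (ψ x : 𝓞 K) := by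
    intro x q
    rw [hf, MonoidAlgebra.lift_single, zsmul_eq_mul]
    rfl
  refine ⟨𝓞 K, inferInstance, inferInstance, inferInstance, inferInstance, f.toRingHom, ?_, ?_, ?_⟩
  · have h1 : Algebra.adjoin ℤ {hζ.toInteger} = ⊤ := IsCyclotomicExtension.Rat.adjoin_singleton_eq_top hζ
    have h2 : f.range = ⊤ := by
      rw [eq_top_iff, ← h1, Algebra.adjoin_le_iff, Set.singleton_subset_iff]
      refine ⟨MonoidAlgebra.single σ 1, ?_⟩
      show f (MonoidAlgebra.single σ 1) = _
      rw [hfs, hψg, Int.cast_one, one_mul]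
      rfl
    exact AlgHom.range_eq_top f |>.1 h2
  · rw [RingOfIntegers.rank, IsCyclotomicExtension.finrank (n := p ^ j) K
      (Polynomial.cyclotomic.irreducible_rat (NeZero.pos _)), Nat.totient_prime_pow hp hC.pos]
  · intro a ha
    obtain ⟨φ⟩ : Nonempty (K →+* ℂ) := inferInstance
    set τ : 𝓞 K →+* ℂ := φ.comp (algebraMap (𝓞 K) K) with hτ
    have hτi : Function.Injective τ := by
      have h1 : Function.Injective (algebraMap (𝓞 K) K) := RingOfIntegers.coe_injective
      exact φ.injective.comp h1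
    set χ₀ : G →* ℂˣ := (Units.map (τ : 𝓞 K →* ℂ)).comp ψ with hχ₀
    have hχ₀v : ∀ g, ((χ₀ g : ℂˣ) : ℂ) = τ (ψ g : 𝓞 K) := fun g => rfl
    have hχ₀F : Fth P χ₀ := by
      have h1 : 1 < Nat.card P := by rw [hC.cardP]; exact hp.one_lt
      have h2 : Nontrivial P := Finite.one_lt_card_iff_nontrivial.1 h1
      obtain ⟨h, hh⟩ := exists_ne (1 : P)
      refine ⟨h, h.2, fun h3 => hh ?_⟩
      apply Subtype.ext
      obtain ⟨k, hk⟩ := Subgroup.mem_zpowers_iff.1 (hσ (h : G))
      have h4 : (ψ (h : G) : 𝓞 K) = 1 := by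
        apply hτi
        rw [← hχ₀v, h3, map_one, Units.val_one]
      have h5 : ζu ^ k = 1 := by
        rw [← hψg, ← map_zpow, hk]
        exact Units.ext h4
      have h6 : ((p ^ j : ℕ) : ℤ) ∣ k := (hζup.zpow_eq_one_iff_dvd k).1 h5
      show (h : G) = 1
      rw [← hk]
      rw [← hord] at h6
      exact orderOf_dvd_iff_zpow_eq_one.1 h6
    have hev : ∀ b : MonoidAlgebra ℤ G, evZ χ₀ b = τ (f b) := by
      intro b
      have h1 : evZ χ₀ = τ.comp f.toRingHom := by
        apply MonoidAlgebra.ringHom_ext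
        · intro q
          show evQ χ₀ (toQ G (MonoidAlgebra.single 1 q)) = τ (f (MonoidAlgebra.single 1 q))
          rw [l1_toQ_single, l1_evQ_single, hfs, map_mul, map_one, map_one, Units.val_one,
            Units.val_one, map_one, map_intCast]
          push_cast
          ring
        · intro g
          show evQ χ₀ (toQ G (MonoidAlgebra.single g 1)) = τ (f (MonoidAlgebra.single g 1))
          rw [l1_toQ_single, l1_evQ_single, hfs, map_mul, map_intCast, hχ₀v]
          push_cast
          ring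
      rw [h1]
      rfl
    have h0 : evZ χ₀ a = 0 := by
      rw [hev, show f a = 0 from ha, map_zero]
    apply opt_toQ_inj
    apply evQ_inj
    intro χ
    rw [map_mul, map_mul, map_zero, map_zero]
    by_cases hχ : Fth P χ
    · have h1 : evQ χ (toQ G a) = 0 := by
        by_contra h2
        exact fth_conj hC a hχ hχ₀F h2 h0
      rw [h1, mul_zero]
    · have h1 : evQ χ (toQ G (MonoidAlgebra.single 1 (p : ℤ) - nP P)) = 0 := by
        rw [map_sub, map_sub, ev_nP_not hχ, l1_toQ_single, l1_evQ_single, map_one, Units.val_one,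
          hC.cardP]
        push_cast
        ring
      rw [h1, zero_mul]

/-- OPT: a basis which is optimal at `l` -/
theorem opt_exists (hC : CycP p j P) {M : Type} [AddCommGroup M] [Module (MonoidAlgebra ℤ G) M]
    [Module.Finite ℤ M] [Module.IsTorsionFree ℤ M] {r : ℕ}
    (hr : Module.finrank ℤ (mM P M) = r * (p ^ (j - 1) * (p - 1))) {l : ℕ} (hl : l.Prime)
    (hlp : l ≠ p) :
    ∃ b : Fin r → M, (∀ i, nP P • b i = 0) ∧ ¬ l ∣ (mSpn G b).relIndex (mM P M) := by
  classical
  obtain ⟨S, iS, iD, iF, iZ, f, hf, hrk, hker⟩ := opt_cyc hC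
  have hp := hC.prime
  -- the kernel of `nP` as a submodule
  set NS : Submodule (MonoidAlgebra ℤ G) M :=
    LinearMap.ker (LinearMap.lsmul (MonoidAlgebra ℤ G) M (nP P)) with hNS
  have hmem : ∀ u : M, u ∈ NS ↔ nP P • u = 0 := fun u => LinearMap.mem_ker
  have hNSM : NS.toAddSubgroup = mM P M := by
    ext u
    exact hmem u
  have hNM : IsNoetherian ℤ M := inferInstance
  have iNf : Module.Finite ℤ NS :=
    inferInstanceAs (Module.Finite ℤ (NS.restrictScalars ℤ))
  have iNt : Module.IsTorsionFree ℤ NS :=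
    inferInstanceAs (Module.IsTorsionFree ℤ (NS.restrictScalars ℤ))
  have iMf : Module.Finite ℤ (mM P M) := by
    rw [← hNSM]
    exact iNf
  set g : MonoidAlgebra ℤ G →+* AddMonoid.End NS :=
    Module.toAddMonoidEnd (MonoidAlgebra ℤ G) NS with hg
  have hkg : RingHom.ker f ≤ RingHom.ker g := by
    intro a ha
    rw [RingHom.mem_ker] at ha ⊢
    ext u
    show ((a • u : NS) : M) = 0
    rw [Submodule.coe_smul]
    have h1 := hker a ha
    have h2 : ((MonoidAlgebra.single 1 (p : ℤ) - nP P) * a) • (u : M) = 0 := by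
      rw [h1, zero_smul]
    have h3 : nP P • (u : M) = 0 := (hmem u).1 u.2
    have h4 : (MonoidAlgebra.single (1 : G) (p : ℤ)) = ((p : ℕ) : MonoidAlgebra ℤ G) := by
      rw [MonoidAlgebra.natCast_def]
    rw [mul_smul, sub_smul, ← mul_smul (nP P) a, mul_comm (nP P) a, mul_smul a, h3, smul_zero,
      sub_zero, h4, Nat.cast_smul_eq_nsmul] at h2
    have h5 : (p : ℤ) • (a • (u : M)) = 0 := by
      rw [natCast_zsmul]
      exact h2
    exact (smul_eq_zero.1 h5).resolve_left (by exact_mod_cast hp.ne_zero)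
  set h : S →+* AddMonoid.End NS := RingHom.liftOfSurjective f hf ⟨g, hkg⟩ with hh
  have hhf : ∀ a, h (f a) = g a := fun a =>
    RingHom.liftOfRightInverse_comp_apply f _ (Function.rightInverse_surjInv hf) ⟨g, hkg⟩ a
  let iM : Module S NS := Module.compHom NS h
  have hsm : ∀ (a : MonoidAlgebra ℤ G) (u : NS), (f a) • u = a • u := by
    intro a u
    show h (f a) u = a • u
    rw [hhf]
    rfl
  obtain ⟨n, b, hli, s, hs, hsp⟩ := opt_ded (S := S) (N := NS) hl
  -- the span in `NS`
  set Q : Submodule S NS := Submodule.span S (Set.range b) with hQ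
  have hsQ : ∀ u : NS, s • u ∈ Q.toAddSubgroup := by
    intro u
    have h1 := hsp u
    rw [Nat.cast_smul_eq_nsmul] at h1
    exact h1
  obtain ⟨hQi, _⟩ := opt_idx (A := Q.toAddSubgroup) hl hs hsQ
  have iSt : Module.IsTorsionFree ℤ S := inferInstance
  have iSfr : Module.Free ℤ S := inferInstance
  have hrank : n = r := by
    have h1 : Module.finrank ℤ Q.toAddSubgroup = Module.finrank ℤ NS :=
      AddSubgroup.finrank_eq_of_finiteIndex Q.toAddSubgroup
    have h2 : Module.finrank ℤ Q.toAddSubgroup = n * Module.finrank ℤ S := by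
      have e : Q ≃ₗ[S] (Fin n → S) := (Module.Basis.span hli).equivFun
      have e2 : Q.toAddSubgroup ≃ₗ[ℤ] (Fin n → S) := e.toAddEquiv.toIntLinearEquiv
      rw [e2.finrank_eq, Module.finrank_pi_fintype]
      simp
    have h3 : Module.finrank ℤ NS = Module.finrank ℤ (mM P M) := by
      rw [← hNSM]
      rfl
    rw [h2, h3, hr, hrk] at h1
    have hpos : 0 < p ^ (j - 1) * (p - 1) :=
      Nat.mul_pos (pow_pos hp.pos _) (Nat.sub_pos_of_lt hp.one_lt)
    exact Nat.eq_of_mul_eq_mul_right hpos h1
  subst hrank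
  refine ⟨fun i => (b i : M), fun i => (hmem _).1 (b i).2, ?_⟩
  have hspan : ∀ v : NS, v ∈ Q → (v : M) ∈ Submodule.span (MonoidAlgebra ℤ G)
      (Set.range fun i => (b i : M)) := by
    intro v hv
    induction hv using Submodule.span_induction with
    | mem v hv =>
      obtain ⟨i, rfl⟩ := hv
      exact Submodule.subset_span (Set.mem_range_self i)
    | zero => exact Submodule.zero_mem _
    | add v w _ _ hv hw => exact Submodule.add_mem _ hv hw
    | smul c v _ hv =>
      obtain ⟨a, rfl⟩ := hf c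
      rw [hsm, Submodule.coe_smul]
      exact Submodule.smul_mem _ _ hv
  have hfin := opt_idx (A := (mSpn G fun i => (b i : M)).addSubgroupOf (mM P M)) hl hs (by
    intro u
    rw [AddSubgroup.mem_addSubgroupOf]
    have hu : (u : M) ∈ NS := by
      rw [hmem]
      exact u.2
    have h1 := hspan _ (hsQ ⟨(u : M), hu⟩)
    exact h1)
  exact hfin.2

end CYC

end Pool.Agent.RS3
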