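import Pool.Agent.Lib_helper27.RS3.Defs3

/-! # Block TIA: the determinant on the `Γ`-maps from `Y` to the functions on `Ω` -/

namespace Pool.Agent.RS3

open Pool.Agent.RSK Pool.Agent.RS2

section

variable {k : Type} [Field k]

theorem tia_cast {β : Type} {M : β → Type} (g : ∀ b, M b) {b b' : β} (h : b' = b) :
    h ▸ g b' = g b := by
  subst h
  rfl

/-- the determinant of a product of endomorphisms -/
theorem tia_det_pi (ι : Type) [Fintype ι] (M : ι → Type) [∀ i, AddCommGroup (M i)]
    [∀ i, Module k (M i)] [∀ i, FiniteDimensional k (M i)] (f : ∀ i, M i →ₗ[k] M i) :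
    LinearMap.det (LinearMap.pi fun i => (f i).comp (LinearMap.proj i)) =
      ∏ i, LinearMap.det (f i) := by
  revert M
  refine Fintype.induction_empty_option (P := fun ι _ => ∀ (M : ι → Type)
    [∀ i, AddCommGroup (M i)] [∀ i, Module k (M i)] [∀ i, FiniteDimensional k (M i)]
    (f : ∀ i, M i →ₗ[k] M i),
    LinearMap.det (LinearMap.pi fun i => (f i).comp (LinearMap.proj i)) =
      ∏ i, LinearMap.det (f i)) ?_ ?_ ?_ ι
  · intro α β _ e h M _ _ _ f
    let _ : Fintype α := Fintype.ofEquiv β e.symm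
    have h1 := h (fun a => M (e a)) (fun a => f (e a))
    have h2 := LinearMap.det_conj
      (LinearMap.pi fun a : α => (f (e a)).comp (LinearMap.proj (φ := fun a => M (e a)) a))
      (LinearEquiv.piCongrLeft k M e)
    rw [h1] at h2
    rw [← Equiv.prod_comp e (fun b => LinearMap.det (f b)), ← h2]
    congr 1
    ext x b
    obtain ⟨a, rfl⟩ := e.surjective b
    simp only [LinearMap.pi_apply, LinearMap.comp_apply, LinearMap.proj_apply,
      LinearEquiv.coe_coe, LinearEquiv.piCongrLeft, LinearEquiv.piCongrLeft',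
      LinearEquiv.coe_symm_mk', Equiv.piCongrLeft', LinearEquiv.symm_symm]
    exact (tia_cast (fun b => f b (x b)) _).symm
  · intro M _ _ _ f
    rw [Finset.univ_eq_empty, Finset.prod_empty]
    apply LinearMap.det_eq_one_of_finrank_eq_zero
    exact Module.finrank_zero_of_subsingleton
  · intro α _ h M _ _ _ f
    have h1 := h (fun a => M (some a)) (fun a => f (some a))
    have h2 := LinearMap.det_prodMap (f none)
      (LinearMap.pi fun a : α => (f (some a)).comp (LinearMap.proj (φ := fun a => M (some a)) a))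
    have h3 := LinearMap.det_conj
      (LinearMap.pi fun a : Option α => (f a).comp (LinearMap.proj (φ := M) a))
      (LinearEquiv.piOptionEquivProd k)
    rw [h1] at h2
    rw [Fintype.prod_option, ← h2, ← h3]
    congr 1

end

theorem dtW_eq {k : Type} [Field k] {Γ : Type} [Group Γ] [Finite Γ] {Ω Y : Type} [Fintype Ω]
    [Finite Y] (κ : Γ →* Equiv.Perm Ω) {F : Matrix Ω Ω k} (hF : MIv κ F)
    (σ : Γ →* Equiv.Perm Y) :
    (∀ x ∈ WY k κ σ, FY Y F x ∈ WY k κ σ) ∧ dtW κ F σ = dtY κ F σ ∧
      Module.finrank k (WY k κ σ) = ∑ᶠ o : Orb σ, Module.finrank k (ivt k κ (ost σ o)) := by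
  classical
  have hW : ∀ x ∈ WY k κ σ, FY Y F x ∈ WY k κ σ := by
    intro x hx γ y ω
    show ∑ ω', F (κ γ ω) ω' * x (σ γ y) ω' = ∑ ω', F ω ω' * x y ω'
    rw [← Equiv.sum_comp (κ γ)]
    exact Finset.sum_congr rfl fun ω' _ => by rw [hF, hx]
  have hI : ∀ U : Subgroup Γ, ∀ x ∈ ivt k κ U, Matrix.mulVecLin F x ∈ ivt k κ U := by
    intro U x hx u hu ω
    show ∑ ω', F (κ u ω) ω' * x ω' = ∑ ω', F ω ω' * x ω'
    rw [← Equiv.sum_comp (κ u)]
    exact Finset.sum_congr rfl fun ω' _ => by rw [hF, hx u hu]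
  have hout : ∀ y : Y, ∃ γ : Γ, σ γ (Quotient.mk (orb σ) y).out = y := fun y =>
    Quotient.mk_out (s := orb σ) y
  choose g hg using hout
  have hmk : ∀ (γ : Γ) (y : Y), Quotient.mk (orb σ) (σ γ y) = Quotient.mk (orb σ) y :=
    fun γ y => (Quotient.sound (s := orb σ) ⟨γ, rfl⟩).symm
  have key : ∀ (x : ∀ o : Orb σ, ivt k κ (ost σ o)) (y : Y) (γ : Γ) (o : Orb σ)
      (_ : Quotient.mk (orb σ) y = o) (_ : σ γ o.out = y) (ω : Ω),
      (x (Quotient.mk (orb σ) y)).1 ((κ (g y)).symm ω) = (x o).1 ((κ γ).symm ω) := by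
    intro x y γ o ho hγ ω
    subst ho
    have h1 : γ⁻¹ * g y ∈ ost σ (Quotient.mk (orb σ) y) := by
      show σ (γ⁻¹ * g y) (Quotient.mk (orb σ) y).out = (Quotient.mk (orb σ) y).out
      rw [map_mul, Equiv.Perm.mul_apply, hg, map_inv, Equiv.Perm.inv_eq_iff_eq]
      exact hγ.symm
    have h2 := (x (Quotient.mk (orb σ) y)).2 _ h1 ((κ (g y)).symm ω)
    rw [← h2, map_mul, Equiv.Perm.mul_apply, Equiv.apply_symm_apply, map_inv]
    rfl
  let e : WY k κ σ ≃ₗ[k] (∀ o : Orb σ, ivt k κ (ost σ o)) :=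
    { toFun := fun h o => ⟨h.1 o.out, fun u hu ω => by
        have h1 := h.2 u o.out ω
        rw [show σ u o.out = o.out from hu] at h1
        exact h1⟩
      map_add' := fun a b => rfl
      map_smul' := fun c a => rfl
      invFun := fun x => ⟨fun y ω => (x (Quotient.mk (orb σ) y)).1 ((κ (g y)).symm ω), by
        intro γ y ω
        beta_reduce
        rw [key x (σ γ y) (γ * g y) (Quotient.mk (orb σ) y) (hmk γ y) (by
          rw [map_mul, Equiv.Perm.mul_apply, hg]) (κ γ ω)]
        rw [map_mul]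
        show (x (Quotient.mk (orb σ) y)).1 ((κ (g y)).symm ((κ γ).symm (κ γ ω))) = _
        rw [Equiv.symm_apply_apply]⟩
      left_inv := by
        intro h
        apply Subtype.ext
        funext y ω
        show h.1 (Quotient.mk (orb σ) y).out ((κ (g y)).symm ω) = h.1 y ω
        rw [← h.2 (g y), hg, Equiv.apply_symm_apply]
      right_inv := by
        intro x
        funext o
        apply Subtype.ext
        funext ω
        show (x (Quotient.mk (orb σ) o.out)).1 ((κ (g o.out)).symm ω) = (x o).1 ω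
        rw [key x o.out 1 o (Quotient.out_eq o) (by rw [map_one]; rfl) ω, map_one]
        rfl }
  let _ : Fintype (Orb σ) := Fintype.ofFinite _
  refine ⟨hW, ?_, ?_⟩
  · rw [dtW, dif_pos hW, dtY, finprod_eq_prod_of_fintype]
    have h1 : ∀ o : Orb σ, dt κ F (ost σ o) =
        LinearMap.det ((Matrix.mulVecLin F).restrict (hI (ost σ o))) := fun o => by
      rw [dt, dif_pos (hI (ost σ o))]
    rw [Finset.prod_congr rfl fun o _ => h1 o, ← tia_det_pi (Orb σ)
      (fun o => ivt k κ (ost σ o)) (fun o => (Matrix.mulVecLin F).restrict (hI (ost σ o))),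
      ← LinearMap.det_conj ((FY Y F).restrict hW) e]
    congr 1
    refine LinearMap.ext fun x => ?_
    obtain ⟨h, rfl⟩ := e.surjective x
    show e ((FY Y F).restrict hW (e.symm (e h))) = _
    rw [LinearEquiv.symm_apply_apply]
    rfl
  · rw [LinearEquiv.finrank_eq e, Module.finrank_pi_fintype, finsum_eq_sum_of_fintype]

end Pool.Agent.RS3
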