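import Pool.Agent.Lib_helper27.RS3.Defs3

namespace Pool.Agent.RS3

set_option linter.unusedSectionVars false

open Pool.Agent.RSK Pool.Agent.RS2
open NumberField IsDedekindDomain Filter Topology Complex

section TIC

variable {Γ : Type} [Group Γ] {Ω : Type}

/-- the orbits of `U` on `Ω` -/
def tic_rel (κ : Γ →* Equiv.Perm Ω) (U : Subgroup Γ) : Setoid Ω where
  r ω ω' := ∃ u ∈ U, κ u ω = ω'
  iseqv :=
    { refl := fun ω => ⟨1, U.one_mem, by simp⟩
      symm := by
        rintro ω ω' ⟨u, hu, rfl⟩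
        exact ⟨u⁻¹, U.inv_mem hu, by rw [map_inv]; exact (κ u).symm_apply_apply ω⟩
      trans := by
        rintro ω ω' ω'' ⟨u, hu, rfl⟩ ⟨v, hv, rfl⟩
        exact ⟨v * u, U.mul_mem hv hu, by rw [map_mul, Equiv.Perm.mul_apply]⟩ }

/-- the orbits of `U` on `Ω` -/
abbrev tic_Q (κ : Γ →* Equiv.Perm Ω) (U : Subgroup Γ) : Type := Quotient (tic_rel κ U)

variable [Fintype Ω]

theorem tic_fin (κ : Γ →* Equiv.Perm Ω) (U : Subgroup Γ) : Finite (tic_Q κ U) :=
  Finite.of_surjective _ Quotient.mk_surjective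

/-- invariant functions and functions on the orbits -/
noncomputable def tic_e (k : Type) [Field k] (κ : Γ →* Equiv.Perm Ω) (U : Subgroup Γ) :
    (tic_Q κ U → k) ≃ₗ[k] ivt k κ U where
  toFun f := ⟨fun ω => f (Quotient.mk _ ω), fun u hu ω =>
    congrArg f (Quotient.sound (s := tic_rel κ U) ((tic_rel κ U).symm ⟨u, hu, rfl⟩))⟩
  map_add' f g := rfl
  map_smul' c f := rfl
  invFun x := fun q => (x : Ω → k) q.out
  left_inv f := by
    funext q
    exact congrArg f (Quotient.out_eq q)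
  right_inv x := by
    apply Subtype.ext
    funext ω
    obtain ⟨u, hu, h⟩ := Quotient.exact (Quotient.out_eq (Quotient.mk (tic_rel κ U) ω))
    have h2 := x.2 u hu (Quotient.mk (tic_rel κ U) ω).out
    rw [h] at h2
    exact h2.symm

theorem tic_mem {k : Type} [Field k] {κ : Γ →* Equiv.Perm Ω} {F : Matrix Ω Ω k} (hF : MIv κ F)
    (U : Subgroup Γ) : ∀ x ∈ ivt k κ U, Matrix.mulVecLin F x ∈ ivt k κ U := by
  intro x hx u hu ω
  rw [Matrix.mulVecLin_apply]
  show (∑ ω', F (κ u ω) ω' * x ω') = ∑ ω', F ω ω' * x ω'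
  rw [← Equiv.sum_comp (κ u)]
  refine Finset.sum_congr rfl fun ω' _ => ?_
  rw [hF, hx u hu]

open scoped Classical in
/-- the matrix of `F` on the orbits -/
noncomputable def tic_mat {k : Type} [Field k] (κ : Γ →* Equiv.Perm Ω) (F : Matrix Ω Ω k)
    (U : Subgroup Γ) : Matrix (tic_Q κ U) (tic_Q κ U) k :=
  Matrix.of fun q q' => ∑ ω, if Quotient.mk (tic_rel κ U) ω = q' then F q.out ω else 0

open scoped Classical in
theorem tic_det {k : Type} [Field k] {κ : Γ →* Equiv.Perm Ω} {F : Matrix Ω Ω k} (hF : MIv κ F)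
    (U : Subgroup Γ) [Fintype (tic_Q κ U)] :
    dt κ F U = (tic_mat κ F U).det ∧
      Module.finrank k (ivt k κ U) = Fintype.card (tic_Q κ U) := by
  refine ⟨?_, ?_⟩
  · rw [dt, dif_pos (tic_mem hF U), ← LinearMap.det_toLin', ← LinearMap.det_conj _ (tic_e k κ U)]
    congr 1
    refine LinearMap.ext fun x => ?_
    apply (tic_e k κ U).symm.injective
    funext q
    rw [LinearMap.comp_apply, LinearMap.comp_apply]
    have h1 : (tic_e k κ U).symm ((tic_e k κ U : (tic_Q κ U → k) →ₗ[k] ivt k κ U)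
        ((Matrix.toLin' (tic_mat κ F U)) ((tic_e k κ U).symm x))) =
        (Matrix.toLin' (tic_mat κ F U)) ((tic_e k κ U).symm x) :=
      (tic_e k κ U).symm_apply_apply _
    refine Eq.trans ?_ (congrFun h1 q).symm
    show (∑ ω, F q.out ω * (x : Ω → k) ω) =
      ∑ q', (∑ ω, if Quotient.mk (tic_rel κ U) ω = q' then F q.out ω else 0) *
        (x : Ω → k) q'.out
    have h2 : ∀ q', (∑ ω, if Quotient.mk (tic_rel κ U) ω = q' then F q.out ω else 0) *
        (x : Ω → k) q'.out = ∑ ω, if Quotient.mk (tic_rel κ U) ω = q' then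
          F q.out ω * (x : Ω → k) ω else 0 := by
      intro q'
      rw [Finset.sum_mul]
      refine Finset.sum_congr rfl fun ω _ => ?_
      split_ifs with hq
      · obtain ⟨u, hu, h⟩ := Quotient.exact (hq.trans (Quotient.out_eq q').symm)
        have h3 := x.2 u hu ω
        rw [h] at h3
        rw [h3]
      · rw [zero_mul]
    rw [Finset.sum_congr rfl fun q' _ => h2 q', Finset.sum_comm]
    refine Finset.sum_congr rfl fun ω _ => ?_
    rw [Finset.sum_ite_eq, if_pos (Finset.mem_univ _)]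
  · rw [← LinearEquiv.finrank_eq (tic_e k κ U), Module.finrank_fintype_fun_eq_card]

end TIC

theorem dt_base {Γ : Type} [Group Γ] {Ω : Type} [Fintype Ω] (κ : Γ →* Equiv.Perm Ω)
    {F : Matrix Ω Ω ℝ} (hF : MIv κ F) (U : Subgroup Γ) :
    ((dt κ F U : ℝ) : ℂ) = dt κ (F.map (algebraMap ℝ ℂ)) U ∧
      Module.finrank ℂ (ivt ℂ κ U) = Module.finrank ℝ (ivt ℝ κ U) := by
  classical
  have : Finite (tic_Q κ U) := tic_fin κ U
  let _ : Fintype (tic_Q κ U) := Fintype.ofFinite _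
  have hF' : MIv κ (F.map (algebraMap ℝ ℂ)) := fun γ ω ω' =>
    congrArg (algebraMap ℝ ℂ) (hF γ ω ω')
  obtain ⟨h1, h2⟩ := tic_det hF U
  obtain ⟨h3, h4⟩ := tic_det hF' U
  refine ⟨?_, by rw [h2, h4]⟩
  rw [h1, h3]
  have h5 : (((tic_mat κ F U).det : ℝ) : ℂ) = ((algebraMap ℝ ℂ).mapMatrix (tic_mat κ F U)).det :=
    RingHom.map_det (algebraMap ℝ ℂ) (tic_mat κ F U)
  rw [h5]
  congr 1
  ext q q'
  rw [RingHom.mapMatrix_apply, Matrix.map_apply]
  show (algebraMap ℝ ℂ) (∑ ω, if Quotient.mk (tic_rel κ U) ω = q' then F q.out ω else 0) =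
    ∑ ω, if Quotient.mk (tic_rel κ U) ω = q' then (F.map (algebraMap ℝ ℂ)) q.out ω else 0
  rw [map_sum]
  refine Finset.sum_congr rfl fun ω _ => ?_
  split_ifs
  · rfl
  · exact map_zero _

end Pool.Agent.RS3
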