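import Pool.Agent.Lib_helper27.RS3.Defs3

/-!
# Rubin's conjecture for abelian `p`-groups: the conditions on the extension and on `S`
-/

namespace Pool.Agent.RS3

open Pool.Agent.RSK
open NumberField IsDedekindDomain

/-- The condition on a cyclic extension `K/F` of degree `n`: for some power `p ^ m` divisible by
`n`, the group `(ℤ/p^m)ˣ` acts on the field `K` by automorphisms `θ a` with
`θ a ∘ σ = σ ^ a ∘ θ a` for all `σ ∈ Gal(K/F)`, and `θ a ∈ Gal(K/F)` only if `θ a = 1`. -/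
def Hol3 (p n : ℕ) (F K : Type) [Field F] [Field K] [Algebra F K] : Prop :=
  ∃ (m : ℕ) (θ : (ZMod (p ^ m))ˣ →* (K ≃+* K)), n ∣ p ^ m ∧
    (∀ (a : (ZMod (p ^ m))ˣ) (σ : K ≃ₐ[F] K) (x : K),
      θ a (σ x) = (σ ^ (a : ZMod (p ^ m)).val) (θ a x)) ∧
    ∀ (a : (ZMod (p ^ m))ˣ) (σ : K ≃ₐ[F] K), (∀ x, θ a x = σ x) → ∀ x, θ a x = x

/-- `F = F₀(ζ)` for a primitive `n`-th root of unity `ζ`, `[F : F₀] = φ(n)`, and `H = F(B)` where the
`n`-th powers of the elements of `B` are in `F₀`. -/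
structure Kum (F₀ : Type) {F H : Type} [Field F₀] [Field F] [Field H] [Algebra F₀ F]
    [Algebra F₀ H] [Algebra F H] (n : ℕ) (ζ : F) (B : Set H) : Prop where
  /-- `ζ` is a primitive `n`-th root of unity -/
  prim : IsPrimitiveRoot ζ n
  /-- `F = F₀(ζ)` -/
  gen : IntermediateField.adjoin F₀ {ζ} = ⊤
  /-- `[F : F₀] = φ(n)` -/
  deg : Module.finrank F₀ F = n.totient
  /-- `β ^ n ∈ F₀` for all `β ∈ B` -/
  pow : ∀ β ∈ B, ∃ a : F₀, β ^ n = algebraMap F₀ H a
  /-- `H = F(B)` -/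
  top : IntermediateField.adjoin F B = ⊤

/-- `H/F` is a Kummer extension of exponent dividing `p ^ e` which is defined over a number field
`F₀ ⊆ F` with `F = F₀(ζ)`, `[F : F₀] = φ(p^e)` (`Kum`); if `p = 2`, moreover
`[F₀(B) : F₀] = [H : F]`. -/
def KumP (p : ℕ) (F H : Type) [Field F] [NumberField F] [Field H] [NumberField H]
    [Algebra F H] : Prop :=
  ∃ (F₀ : Type) (_ : Field F₀) (_ : NumberField F₀) (_ : Algebra F₀ F) (_ : Algebra F₀ H)
    (_ : IsScalarTower F₀ F H) (e : ℕ) (ζ : F) (B : Set H), Kum F₀ (p ^ e) ζ B ∧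
      (p = 2 → Module.finrank F₀ (IntermediateField.adjoin F₀ B) = Module.finrank F H)

section S

variable {F H : Type} [Field F] [NumberField F] [Field H] [NumberField H] [Algebra F H]
  {G : Type} [CommGroup G] [Fintype G]

/-- `#S ≥ r + 1 + p ^ (d - 1) ((k - d) (p - 1) + 1)` where `#G = p ^ k` and `G` has exponent
`p ^ d`. The archimedean places belong to `S`. -/
def SBig (p r : ℕ) (F : Type) [Field F] [NumberField F] (G : Type) [CommGroup G]
    (S : Finset (HeightOneSpectrum (𝓞 F))) : Prop :=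
  ∃ k d : ℕ, Nat.card G = p ^ k ∧ Monoid.exponent G = p ^ d ∧
    r + 1 + p ^ (d - 1) * ((k - d) * (p - 1) + 1) ≤ Fintype.card (InfinitePlace F) + S.card

/-- `#S ≥ r + 2` and, for all `N ≤ N'` in `G` with `G/N` cyclic, `[G : N] = p [G : N']`,
`#N = p ^ i`: if the places below the `w_l` are the only places in `S` which split completely in
`H^N` (i.e. whose decomposition group is contained in `N`), more than
`[G : N'] (r + 1 + i (p - 1))` places of `H^N'` lie above `S`. -/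
def SSharp (p : ℕ) (ι : G ≃* (H ≃ₐ[F] H)) (S : Finset (HeightOneSpectrum (𝓞 F))) {r : ℕ}
    (w : Fin r → Pl H) : Prop :=
  r + 2 ≤ Fintype.card (InfinitePlace F) + S.card ∧
  ∀ (N N' : Subgroup G) (i : ℕ), IsCyclic (G ⧸ N) → N ≤ N' → N.index = p * N'.index →
    Nat.card N = p ^ i →
    (∀ W : Pl H, InS S (dn F W) → (∀ g : G, act (ι g) W = W → g ∈ N) →
      ∃ l, dn F W = dn F (w l)) →
    N'.index * (r + 1 + i * (p - 1)) < Fintype.card (PS (ovr (Kf ι N') S))

end S

end Pool.Agent.RS3
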