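import Pool.Agent.Lib_helper35.RS3.P_AFF
import Pool.Agent.Lib_helper27.RS3.Defs3

/-!
# RS3: block AT2 (quadratic extensions)
-/

namespace Pool.Agent.RS3

set_option linter.unusedSectionVars false

open Pool.Agent.RSK Pool.Agent.RS2
open NumberField IsDedekindDomain Filter Topology Complex

section AT2

variable {F H : Type} [Field F] [NumberField F] [Field H] [NumberField H] [Algebra F H]
  [IsGalois F H] {G : Type} [CommGroup G] [Fintype G] {ι : G ≃* (H ≃ₐ[F] H)}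

/-- the case of a quadratic extension: `S` and `T` are stable (`F₀ = F`), `m = 1`, `θ = 1` -/
theorem aff_two {P : Subgroup G} (hC : CycP 2 1 P) {g₀ : G}
    (hg : ∀ g : G, g ∈ Subgroup.zpowers g₀) :
    ∃ (θ : (ZMod (2 ^ 1))ˣ →* (H ≃ₐ[F] H)) (ρ : (H ≃ₐ[F] H) →* Equiv.Perm (ZMod (2 ^ 1)))
      (ρ' : (H ≃ₐ[F] H) →* Equiv.Perm (ZMod (2 ^ (1 - 1)))),
      AffD 2 1 1 (rst F ι g₀) θ ρ ρ' := by
  have hrst : ∀ g : G, rst F ι g = ι g := fun g => rfl
  have hsub : ∀ a : (ZMod (2 ^ 1))ˣ, a = 1 := by decide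
  have hval : ((1 : (ZMod (2 ^ 1))ˣ) : ZMod (2 ^ 1)).val = 1 := by decide
  have hord : orderOf g₀ = 2 := by
    rw [orderOf_eq_card_of_forall_mem_zpowers hg, hC.card, pow_one]
  have hord' : orderOf (rst F ι g₀) = 2 ^ 1 := by
    rw [hrst, pow_one, ← hord]
    exact orderOf_injective ι.toMonoidHom ι.injective g₀
  refine ⟨1, ?_⟩
  refine aff_exists Nat.prime_two one_pos le_rfl (rst F ι g₀) 1 hord' (fun a => ?_)
    (fun γ => ?_) fun x a _ => hsub a
  · rw [hsub a, hval]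
    simp
  · obtain ⟨n, hn⟩ := (mem_powers_iff_mem_zpowers).2 (hg (ι.symm γ))
    refine ⟨n, 1, ?_⟩
    have h1 : g₀ ^ n = ι.symm γ := hn
    rw [hrst, ← map_pow, h1]
    simp

end AT2

end Pool.Agent.RS3
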