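import Pool.Agent.Lib_helper27.RS3.Defs3
import Pool.Agent.Lib_helper17.RS.P_CB

/-!
# RS3, block CH3: auxiliary places for the affine action
-/

namespace Pool.Agent.RS3

set_option linter.unusedSectionVars false

open Pool.Agent.RSK Pool.Agent.RS2
open NumberField IsDedekindDomain Filter Topology Complex
open scoped Pointwise

section CH

variable {F₀ F H : Type} [Field F₀] [NumberField F₀] [Field F] [NumberField F] [Field H]
  [NumberField H] [Algebra F₀ F] [Algebra F₀ H] [Algebra F H] [IsScalarTower F₀ F H]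
  [IsGalois F₀ H] [IsGalois F₀ F] [IsGalois F H]
  {G : Type} [CommGroup G] [Fintype G] {ι : G ≃* (H ≃ₐ[F] H)} {p j m : ℕ} {P : Subgroup G}
  {θ : (ZMod (p ^ m))ˣ →* (H ≃ₐ[F₀] H)} {ρ : (H ≃ₐ[F₀] H) →* Equiv.Perm (ZMod (p ^ m))}
  {ρ' : (H ≃ₐ[F₀] H) →* Equiv.Perm (ZMod (p ^ (m - 1)))} {g₀ : G}

/-- auxiliary places for two elements which do not commute -/
theorem ch3_gen (δ : H ≃ₐ[F₀] H) (g₀ : G) (x₀ : H) (hx₀ : δ (ι g₀ x₀) ≠ ι g₀ (δ x₀))
    (B : Finset (HeightOneSpectrum (𝓞 F₀))) {l : ℕ} (hl : l.Prime) :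
    ∃ v₀ : HeightOneSpectrum (𝓞 F₀), v₀ ∉ B ∧ ∀ v ∈ ovr F {v₀},
      Module.finrank ℚ H + 1 < ringChar (𝓞 F ⧸ v.asIdeal) ∧
      l ∣ nv v - 1 ∧ ∀ g : G, IsFr v (ι g) → g ≠ 1 := by
  classical
  set α : H ≃+* H := (ι g₀).toRingEquiv with hα
  set β : H ≃+* H := δ.toRingEquiv with hβ
  set γ : H → H := fun z => α (β (α.symm (β.symm z))) with hγ
  have hγint : ∀ z : 𝓞 H, ∃ u : 𝓞 H, (u : H) = γ z := fun z =>
    ⟨RingOfIntegers.mapRingEquiv α (RingOfIntegers.mapRingEquiv β (RingOfIntegers.mapRingEquiv α.symm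
      (RingOfIntegers.mapRingEquiv β.symm z))), rfl⟩
  -- `γ` is not the identity
  obtain ⟨z₀, u₀, hu₀, hne⟩ : ∃ z u : 𝓞 H, (u : H) = γ z ∧ u ≠ z := by
    by_contra hcon
    push Not at hcon
    have h1 : ∀ z : 𝓞 H, γ z = z := fun z => by
      obtain ⟨u, hu⟩ := hγint z
      rw [← hu, hcon z u hu]
    have h2 : ∀ z : H, γ z = z := fun z => by
      obtain ⟨a, b, hb, rfl⟩ := IsFractionRing.div_surjective (A := 𝓞 H) z
      have h3 : ∀ x y : H, γ (x / y) = γ x / γ y := fun x y => by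
        simp only [hγ, map_div₀]
      rw [h3]
      have h4 := h1 a
      have h5 := h1 b
      rw [show (algebraMap (𝓞 H) H a) = (a : H) from rfl, show (algebraMap (𝓞 H) H b) = (b : H) from rfl, h4, h5]
    have h6 := h2 (β (α x₀))
    simp only [hγ, RingEquiv.symm_apply_apply] at h6
    exact hx₀ h6.symm
  have hd0 : u₀ - z₀ ≠ 0 := sub_ne_zero.2 hne
  set n₀ := Ideal.absNorm (Ideal.span {u₀ - z₀}) with hn₀
  have hn₀pos : 0 < n₀ := by
    rw [hn₀]
    apply Nat.pos_of_ne_zero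
    rw [Ne, Ideal.absNorm_eq_zero_iff, Ideal.span_singleton_eq_bot]
    exact hd0
  set M : ℕ := Module.finrank ℚ H + 1 + l + n₀ + ∑ v ∈ B, nv v with hM
  obtain ⟨q, hq, hMq, hql, w', hqw', hw'⟩ := cb_frob α β hl M (by omega)
  have hq' : ∀ {k : Type} [Field k] [NumberField k] (v : HeightOneSpectrum (𝓞 k)), v.asIdeal ≠ ⊤ :=
    fun v => v.isPrime.ne_top
  -- membership in the conjugates of `w'`
  have hF : ∀ (τ : H ≃ₐ[F₀] H) (f : F), ∃ f' : F, τ (algebraMap F H f) = algebraMap F H f' := fun τ f =>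
    ⟨τ.restrictNormal F f, (AlgEquiv.restrictNormal_commutes τ F f).symm⟩
  have hγF : ∀ (f : F), γ (algebraMap F H f) = algebraMap F H f := fun f => by
    obtain ⟨f', hf'⟩ := hF δ.symm f
    have e1 : β.symm (algebraMap F H f) = algebraMap F H f' := hf'
    have e2 : α.symm (algebraMap F H f') = algebraMap F H f' := (ι g₀).symm.commutes f'
    have e3 : β (algebraMap F H f') = algebraMap F H f := by
      rw [← e1, RingEquiv.apply_symm_apply]
    have e4 : α (algebraMap F H f) = algebraMap F H f := (ι g₀).commutes f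
    show α (β (α.symm (β.symm (algebraMap F H f)))) = _
    rw [e1, e2, e3, e4]
  refine ⟨w'.under (𝓞 F₀), ?_, ?_⟩
  · intro hB
    have h1 : (q : 𝓞 F₀) ∈ (w'.under (𝓞 F₀)).asIdeal := by
      show algebraMap (𝓞 F₀) (𝓞 H) (q : 𝓞 F₀) ∈ w'.asIdeal
      rw [map_natCast]
      exact hqw'
    have h2 : ((nv (w'.under (𝓞 F₀)) : ℕ) : 𝓞 F₀) ∈ (w'.under (𝓞 F₀)).asIdeal := Ideal.absNorm_mem _
    have h3 : nv (w'.under (𝓞 F₀)) ≤ ∑ v ∈ B, nv v :=
      Finset.single_le_sum (f := fun v => nv v) (fun _ _ => Nat.zero_le _) hB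
    have h4 : 0 < nv (w'.under (𝓞 F₀)) := by
      have := nv_two_le (w'.under (𝓞 F₀))
      omega
    exact cb_coprime (hq' _) hq h1 h2 h4 (by omega)
  · intro v hv
    rw [mem_ovr, Finset.mem_singleton] at hv
    obtain ⟨W, hW⟩ := dn_surj (F := F) (H := H) (Sum.inr v)
    obtain ⟨w, rfl⟩ : ∃ w : HeightOneSpectrum (𝓞 H), W = Sum.inr w := by
      rcases W with W | W
      · exact absurd hW (by simp [dn])
      · exact ⟨W, rfl⟩
    have hwv : w.under (𝓞 F) = v := Sum.inr_injective hW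
    have hdn : dn F₀ (Sum.inr w' : Pl H) = dn F₀ (Sum.inr w : Pl H) := by
      rw [← dn_dn (F₀ := F₀) (F := F) (Sum.inr w : Pl H)]
      show Sum.inr (w'.under (𝓞 F₀)) = Sum.inr ((w.under (𝓞 F)).under (𝓞 F₀))
      rw [hwv, hv]
    obtain ⟨τ, hτ⟩ := act_trans hdn
    have hτ' : HeightOneSpectrum.equivOfRingEquiv (RingOfIntegers.mapRingEquiv τ.toRingEquiv) w' = w :=
      Sum.inr_injective hτ
    have hmem : ∀ z : 𝓞 H, z ∈ w.asIdeal ↔ (RingOfIntegers.mapRingEquiv τ.toRingEquiv).symm z ∈ w'.asIdeal := by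
      intro z
      rw [← hτ']
      rfl
    have hvmem : ∀ f : 𝓞 F, f ∈ v.asIdeal ↔ algebraMap (𝓞 F) (𝓞 H) f ∈ w.asIdeal := by
      intro f
      rw [← hwv]
      rfl
    have hqv : (q : 𝓞 F) ∈ v.asIdeal := by
      rw [hvmem, hmem, map_natCast, map_natCast]
      exact hqw'
    have hres : ∀ f : 𝓞 F, f ^ q - f ∈ v.asIdeal := by
      intro f
      rw [hvmem, hmem, map_sub, map_sub, map_pow, map_pow]
      set g := (RingOfIntegers.mapRingEquiv τ.toRingEquiv).symm (algebraMap (𝓞 F) (𝓞 H) f) with hg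
      have h1 : (g : H) = τ.symm (algebraMap F H f) := rfl
      obtain ⟨f', hf'⟩ := hF τ.symm (f : F)
      have h2 : g - g ^ q ∈ w'.asIdeal := by
        apply hw'
        rw [h1, hf']
        exact (hγF f').symm
      have h3 : g ^ q - g = -(g - g ^ q) := by ring
      rw [h3]
      exact w'.asIdeal.neg_mem h2
    have hnv : nv v = q := cb_card v hq hqv hres
    refine ⟨?_, ?_, ?_⟩
    · rw [cb_char v hq hqv]
      omega
    · rw [hnv]
      exact (Nat.modEq_iff_dvd' hq.one_lt.le).1 hql.symm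
    · intro g hg hg1
      rw [hg1] at hg
      have h1 : ∀ z : 𝓞 H, z - z ^ q ∈ w'.asIdeal := by
        intro z
        have h2 := hg w hwv (RingOfIntegers.mapRingEquiv τ.toRingEquiv z)
        rw [hmem, hnv, map_sub, map_pow] at h2
        have h3 : (RingOfIntegers.mapRingEquiv τ.toRingEquiv).symm (RingOfIntegers.mapRingEquiv
            (ι 1).toRingEquiv (RingOfIntegers.mapRingEquiv τ.toRingEquiv z)) = z := by
          rw [RingEquiv.symm_apply_eq]
          ext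
          show (ι 1) (τ z) = τ z
          rw [map_one]
          rfl
        rw [h3, RingEquiv.symm_apply_apply] at h2
        exact h2
      have h4 : u₀ - z₀ ∈ w'.asIdeal := by
        have h5 := hw' z₀ u₀ hu₀
        have h6 : u₀ - z₀ = (u₀ - z₀ ^ q) - (z₀ - z₀ ^ q) := by ring
        rw [h6]
        exact w'.asIdeal.sub_mem h5 (h1 z₀)
      have h7 : (n₀ : 𝓞 H) ∈ w'.asIdeal := by
        have h8 : (n₀ : 𝓞 H) ∈ Ideal.span {u₀ - z₀} := Ideal.absNorm_mem _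
        exact (Ideal.span_singleton_le_iff_mem _).2 h4 h8
      exact cb_coprime (hq' w') hq hqw' h7 hn₀pos (by omega)


/-- two elements which do not commute -/
theorem ch3_nc (hA : AffD p m j (rst F₀ ι g₀) θ ρ ρ') (h2 : 2 < p ^ j) :
    ∃ (δ : H ≃ₐ[F₀] H) (x₀ : H), δ (ι g₀ x₀) ≠ ι g₀ (δ x₀) := by
  by_contra hcon
  push Not at hcon
  have hp := hA.prime
  -- every `θ a` commutes with `c`
  have h1 : ∀ a : (ZMod (p ^ m))ˣ, (rst F₀ ι g₀) ^ (a : ZMod (p ^ m)).val = rst F₀ ι g₀ := by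
    intro a
    rw [← hA.conj a]
    have h : θ a * rst F₀ ι g₀ = rst F₀ ι g₀ * θ a := by
      refine AlgEquiv.ext fun x => ?_
      exact hcon (θ a) x
    rw [h, mul_inv_cancel_right]
  have h3 : ∀ a : (ZMod (p ^ m))ˣ, 1 ≤ (a : ZMod (p ^ m)).val →
      p ^ j ∣ (a : ZMod (p ^ m)).val - 1 := by
    intro a ha
    rw [← hA.ord, orderOf_dvd_iff_pow_eq_one]
    have h4 := h1 a
    obtain ⟨k, hk⟩ : ∃ k, (a : ZMod (p ^ m)).val = k + 1 := ⟨_, (Nat.sub_add_cancel ha).symm⟩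
    rw [hk, pow_succ] at h4
    rw [hk, Nat.add_sub_cancel]
    exact mul_eq_right.1 h4
  have hjm : p ^ j ≤ p ^ m := Nat.pow_le_pow_right hp.pos hA.le
  have hm0 : m ≠ 0 := by
    have := hA.pos
    have := hA.le
    omega
  by_cases hp2 : p = 2
  · subst hp2
    have hcop : Nat.Coprime 3 (2 ^ m) := Nat.Coprime.pow_right m (by decide)
    have h4 := h3 (ZMod.unitOfCoprime 3 hcop)
    have h5 : 2 ^ j ≠ 3 := by
      intro h
      have : (2 : ℕ) ∣ 2 ^ j := dvd_pow_self 2 hA.pos.ne'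
      omega
    rw [ZMod.coe_unitOfCoprime, ZMod.val_natCast_of_lt (by omega)] at h4
    have h6 := Nat.le_of_dvd (by norm_num) (h4 (by norm_num))
    omega
  · have hcop : Nat.Coprime 2 (p ^ m) :=
      Nat.Coprime.pow_right m ((Nat.coprime_primes Nat.prime_two hp).2 (Ne.symm hp2))
    have h4 := h3 (ZMod.unitOfCoprime 2 hcop)
    rw [ZMod.coe_unitOfCoprime, ZMod.val_natCast_of_lt (by omega)] at h4
    have h6 := Nat.le_of_dvd (by norm_num) (h4 (by norm_num))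
    omega

/-- auxiliary places: `cheb2` for the affine action. -/
theorem cheb3 (hA : AffD p m j (rst F₀ ι g₀) θ ρ ρ') (hC : CycP p j P) (h2 : 2 < p ^ j)
    (B : Finset (HeightOneSpectrum (𝓞 F₀))) {l : ℕ} (hl : l.Prime) (hlp : l ≠ p) :
    ∃ v₀ : HeightOneSpectrum (𝓞 F₀), v₀ ∉ B ∧ ∀ v ∈ ovr F {v₀},
      Module.finrank ℚ H + 1 < ringChar (𝓞 F ⧸ v.asIdeal) ∧
      l ∣ nv v - 1 ∧ ∀ g : G, IsFr v (ι g) → g ≠ 1 := by
  obtain ⟨δ, x₀, hx₀⟩ := ch3_nc hA h2
  exact ch3_gen δ g₀ x₀ hx₀ B hl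

end CH

end Pool.Agent.RS3
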