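import Pool.Agent.Lib_helper35.RS3.P_AFF
import Pool.Agent.Lib_helper35.RS3.DefsH
import Pool.Agent.Lib_helper27.RS3.Defs3

/-! RS3, block HOL -/

namespace Pool.Agent.RS3

set_option linter.unusedSectionVars false

open Pool.Agent.RSK Pool.Agent.RS2
open NumberField IsDedekindDomain Filter Topology Complex

/-! ## Reduction to injective `θ` -/

/-- a nontrivial subgroup of the units `≡ 1 mod p^v` contains the units `≡ 1 mod p^(m-1)` -/
theorem hol_sub {p m v : ℕ} (hp : p.Prime) (hv : 1 ≤ v) (hv2 : v + 2 ≤ p * v) (hvm : v < m)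
    (N : Subgroup (ZMod (p ^ m))ˣ) {a : (ZMod (p ^ m))ˣ} (ha : a ∈ N) {x : ℤ}
    (hx : ¬ (p : ℤ) ∣ x) (hax : (a : ZMod (p ^ m)) = 1 + (p : ZMod (p ^ m)) ^ v * (x : ZMod (p ^ m)))
    {b : (ZMod (p ^ m))ˣ} {z : ℤ}
    (hb : (b : ZMod (p ^ m)) = 1 + (p : ZMod (p ^ m)) ^ (m - 1) * (z : ZMod (p ^ m))) : b ∈ N := by
  have hpm0 : ((p : ZMod (p ^ m)) ^ m) = 0 := by
    rw [← Nat.cast_pow, ZMod.natCast_self]
  obtain ⟨y, hy⟩ := ZMod.exists_one_add_mul_pow_prime_pow_eq (R := ℤ) (u := (p : ℤ) ^ v) (v := (p : ℤ)) hp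
    (dvd_pow_self _ (by omega)) (by
      rw [← pow_mul]
      have : (p : ℤ) * (p : ℤ) ^ v * (p : ℤ) = (p : ℤ) ^ (v + 2) := by ring
      rw [this]
      exact pow_dvd_pow _ (by rw [mul_comm]; exact hv2)) x (m - 1 - v)
  set x' : ℤ := x + p * y with hx'
  have hx'p : ¬ (p : ℤ) ∣ x' := by
    intro h
    apply hx
    rw [hx'] at h
    exact (dvd_add_left (Dvd.intro _ rfl)).1 h
  have e1 : (p : ℤ) ^ (m - 1 - v) * (p : ℤ) ^ v = (p : ℤ) ^ (m - 1) := by
    rw [← pow_add, Nat.sub_add_cancel (by omega)]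
  rw [e1] at hy
  set t : ℕ := p ^ (m - 1 - v) with ht
  have h1 : ((a ^ t : (ZMod (p ^ m))ˣ) : ZMod (p ^ m)) =
      1 + (p : ZMod (p ^ m)) ^ (m - 1) * (x' : ZMod (p ^ m)) := by
    rw [Units.val_pow_eq_pow_val, hax]
    have h2 := congrArg (Int.cast : ℤ → ZMod (p ^ m)) hy
    push_cast at h2
    rw [h2, hx']
  have hsq : (p : ZMod (p ^ m)) ^ (m - 1) * (p : ZMod (p ^ m)) ^ (m - 1) = 0 := by
    rw [← pow_add]
    have : m - 1 + (m - 1) = m + (m - 2) := by omega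
    rw [this, pow_add, hpm0, zero_mul]
  have h3 : ∀ k : ℕ, ((1 : ZMod (p ^ m)) + (p : ZMod (p ^ m)) ^ (m - 1) * (x' : ZMod (p ^ m))) ^ k =
      1 + (p : ZMod (p ^ m)) ^ (m - 1) * ((k : ZMod (p ^ m)) * (x' : ZMod (p ^ m))) := by
    intro k
    induction k with
    | zero => simp
    | succ k ih =>
      rw [pow_succ, ih]
      push_cast
      linear_combination ((k : ZMod (p ^ m)) * (x' : ZMod (p ^ m)) * (x' : ZMod (p ^ m))) * hsq
  -- choose `k` with `k x' = z mod p`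
  obtain ⟨k, hk⟩ : ∃ k : ℕ, (p : ℤ) ∣ k * x' - z := by
    have hfact : Fact p.Prime := ⟨hp⟩
    have hx0 : ((x' : ℤ) : ZMod p) ≠ 0 := by
      rw [Ne, ZMod.intCast_zmod_eq_zero_iff_dvd]
      exact hx'p
    refine ⟨((z : ZMod p) / (x' : ZMod p)).val, ?_⟩
    rw [← ZMod.intCast_zmod_eq_zero_iff_dvd]
    push_cast
    rw [ZMod.natCast_zmod_val, div_mul_cancel₀ _ hx0, sub_self]
  have h4 : b = (a ^ t) ^ k := by
    apply Units.ext
    rw [Units.val_pow_eq_pow_val, h1, h3, hb]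
    congr 1
    obtain ⟨w, hw⟩ := hk
    have h5 : (k : ZMod (p ^ m)) * (x' : ZMod (p ^ m)) = (z : ZMod (p ^ m)) + p * (w : ZMod (p ^ m)) := by
      have h6 : (k : ℤ) * x' = z + p * w := by linarith
      have h7 := congrArg (Int.cast : ℤ → ZMod (p ^ m)) h6
      push_cast at h7
      exact h7
    rw [h5, mul_add, ← mul_assoc, ← pow_succ, Nat.sub_add_cancel (by omega), hpm0, zero_mul,
      add_zero]
  rw [h4]
  exact N.pow_mem (N.pow_mem ha _) _

/-! ## The main construction -/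

section HOLR

variable {F K : Type} [Field F] [NumberField F] [Field K] [NumberField K] [Algebra F K]

/-- an automorphism over `F` as a ring automorphism -/
def holR (F K : Type) [Field F] [Field K] [Algebra F K] : (K ≃ₐ[F] K) →* RingAut K where
  toFun σ := σ.toRingEquiv
  map_one' := rfl
  map_mul' _ _ := rfl

theorem holR_apply (σ : K ≃ₐ[F] K) (x : K) : holR F K σ x = σ x := rfl

theorem holR_inj : Function.Injective (holR F K) := by
  intro a b h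
  ext x
  exact DFunLike.congr_fun h x

theorem holR_fin : Finite (RingAut K) :=
  Finite.of_injective (fun σ : RingAut K => (σ : K ≃+* K).toRingHom) fun a b h => by
    ext x
    exact DFunLike.congr_fun h x

end HOLR

section HOLM

variable {F H : Type} [Field F] [NumberField F] [Field H] [NumberField H] [Algebra F H]
  [IsGalois F H]

/-- the group of the `σ θ(a)` -/
def holG {m p : ℕ} (θ : (ZMod (p ^ m))ˣ →* RingAut H)
    (hconj : ∀ (a : (ZMod (p ^ m))ˣ) (σ : H ≃ₐ[F] H),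
      θ a * holR F H σ = holR F H σ ^ (a : ZMod (p ^ m)).val * θ a) : Subgroup (RingAut H) where
  carrier := {γ | ∃ (σ : H ≃ₐ[F] H) (a : (ZMod (p ^ m))ˣ), γ = holR F H σ * θ a}
  one_mem' := ⟨1, 1, by rw [map_one, map_one, one_mul]⟩
  mul_mem' := by
    rintro _ _ ⟨σ, a, rfl⟩ ⟨τ, b, rfl⟩
    refine ⟨σ * τ ^ (a : ZMod (p ^ m)).val, a * b, ?_⟩
    calc holR F H σ * θ a * (holR F H τ * θ b) = holR F H σ * (θ a * holR F H τ) * θ b := by group
      _ = holR F H σ * (holR F H τ ^ (a : ZMod (p ^ m)).val * θ a) * θ b := by rw [hconj]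
      _ = _ := by rw [map_mul, map_pow, map_mul]; group
  inv_mem' := by
    rintro _ ⟨σ, a, rfl⟩
    refine ⟨σ⁻¹ ^ ((a⁻¹ : (ZMod (p ^ m))ˣ) : ZMod (p ^ m)).val, a⁻¹, ?_⟩
    rw [map_pow, ← hconj, mul_inv_rev, map_inv, map_inv]

variable {G : Type} [CommGroup G] [Fintype G] {ι : G ≃* (H ≃ₐ[F] H)} {p j : ℕ}
  {P : Subgroup G} {g₀ : G}

theorem hol_main (hC : CycP p j P) (hg : ∀ g : G, g ∈ Subgroup.zpowers g₀) {m : ℕ} (hjm : j ≤ m)
    (θ : (ZMod (p ^ m))ˣ →* RingAut H)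
    (hconj : ∀ (a : (ZMod (p ^ m))ˣ) (σ : H ≃ₐ[F] H),
      θ a * holR F H σ = holR F H σ ^ (a : ZMod (p ^ m)).val * θ a)
    (htriv : ∀ (a : (ZMod (p ^ m))ˣ) (σ : H ≃ₐ[F] H), θ a = holR F H σ → a = 1) :
    ∃ (F₀ : Type) (_ : Field F₀) (_ : NumberField F₀) (_ : Algebra F₀ F) (_ : Algebra F₀ H)
      (_ : IsScalarTower F₀ F H) (_ : IsGalois F₀ H) (_ : IsGalois F₀ F) (m : ℕ)
      (θ : (ZMod (p ^ m))ˣ →* (H ≃ₐ[F₀] H)) (ρ : (H ≃ₐ[F₀] H) →* Equiv.Perm (ZMod (p ^ m)))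
      (ρ' : (H ≃ₐ[F₀] H) →* Equiv.Perm (ZMod (p ^ (m - 1)))),
      AffD p m j (rst F₀ ι g₀) θ ρ ρ' := by
  have hfinA : Finite (RingAut H) := holR_fin
  set Γ : Subgroup (RingAut H) := holG θ hconj with hΓ
  have hmemΓ : ∀ γ : RingAut H, γ ∈ Γ ↔ ∃ (σ : H ≃ₐ[F] H) (a : (ZMod (p ^ m))ˣ),
      γ = holR F H σ * θ a := fun γ => Iff.rfl
  have hθΓ : ∀ a, θ a ∈ Γ := fun a => (hmemΓ _).2 ⟨1, a, by rw [map_one, one_mul]⟩
  have hσΓ : ∀ σ : H ≃ₐ[F] H, holR F H σ ∈ Γ := fun σ => (hmemΓ _).2 ⟨σ, 1, by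
    rw [map_one, mul_one]⟩
  let F₀ : Subfield H := FixedPoints.subfield Γ H
  have memF : ∀ x : H, x ∈ F₀ ↔ ∀ γ ∈ Γ, γ x = x := fun x =>
    ⟨fun hx γ hγ => hx ⟨γ, hγ⟩, fun hx γ => hx γ.1 γ.2⟩
  have hFR : F₀ ≤ (algebraMap F H).fieldRange := by
    intro x hx
    rw [RingHom.mem_fieldRange]
    have := (IsGalois.mem_range_algebraMap_iff_fixed (F := F) (E := H) x).mpr fun σ =>
      (memF x).mp hx _ (hσΓ σ)
    exact this
  -- the automorphisms in `Γ` map `F` to `F`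
  have hst : ∀ γ ∈ Γ, ∀ y : F, ∃ y' : F, γ (algebraMap F H y) = algebraMap F H y' := by
    intro γ hγ y
    obtain ⟨σ, a, rfl⟩ := (hmemΓ γ).1 hγ
    have h4 : θ a (algebraMap F H y) ∈ Set.range (algebraMap F H) := by
      rw [IsGalois.mem_range_algebraMap_iff_fixed]
      intro σ'
      have h5 := hconj a⁻¹ σ'
      have h6 := DFunLike.congr_fun h5 (θ a (algebraMap F H y))
      have h7 : θ a⁻¹ (holR F H σ' (θ a (algebraMap F H y))) =
          (holR F H σ' ^ ((a⁻¹ : (ZMod (p ^ m))ˣ) : ZMod (p ^ m)).val)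
            ((θ a⁻¹ * θ a) (algebraMap F H y)) := h6
      rw [← map_mul, inv_mul_cancel, map_one, ← map_pow] at h7
      have h8 : θ a⁻¹ (holR F H σ' (θ a (algebraMap F H y))) = algebraMap F H y :=
        h7.trans (AlgEquiv.commutes _ y)
      have h9 : (θ a * θ a⁻¹) (holR F H σ' (θ a (algebraMap F H y))) =
          θ a (algebraMap F H y) := congrArg (θ a) h8
      rw [← map_mul, mul_inv_cancel, map_one] at h9
      exact h9
    obtain ⟨y', hy'⟩ := h4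
    refine ⟨y', ?_⟩
    show σ (θ a (algebraMap F H y)) = _
    rw [← hy', σ.commutes]
  -- the maps
  let e : F ≃+* (algebraMap F H).fieldRange :=
    RingEquiv.ofBijective (algebraMap F H).rangeRestrictField
    ⟨fun a b hab => (algebraMap F H).injective (congrArg Subtype.val hab),
      fun y => by
        obtain ⟨x, hx⟩ := y.2
        exact ⟨x, Subtype.ext hx⟩⟩
  have he : ∀ x, algebraMap F H (e.symm x) = x := fun x => by
    have h4 : (e (e.symm x)) = x := e.apply_symm_apply x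
    exact congrArg Subtype.val h4
  let φ : F₀ →+* F := (e.symm : _ →+* F).comp (Subfield.inclusion hFR)
  have hφ : ∀ x : F₀, algebraMap F H (φ x) = x := fun x => he _
  let i1 : Algebra F₀ F := φ.toAlgebra
  have i3 : IsScalarTower F₀ F H := IsScalarTower.of_algebraMap_eq fun x => (hφ x).symm
  have i5 : IsGalois F₀ H := IsGalois.of_fixed_field H Γ
  -- automorphisms over `F₀`
  have autF : ∀ γ : H ≃ₐ[F₀] H, ∃ g ∈ Γ, ∀ x, γ x = g x := by
    intro γ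
    obtain ⟨g, hg⟩ := (FixedPoints.toAlgAut_bijective Γ H).surjective γ
    exact ⟨g.1, g.2, fun x => (DFunLike.congr_fun hg x).symm⟩
  have i7 : IsGalois F₀ F := by
    have hnorm : Normal F₀ (IsScalarTower.toAlgHom F₀ F H).fieldRange := by
      rw [IntermediateField.normal_iff_forall_map_le']
      intro γ x hx
      rw [IntermediateField.mem_map] at hx
      obtain ⟨z, hz, rfl⟩ := hx
      obtain ⟨y, rfl⟩ := hz
      obtain ⟨g, hg, hgx⟩ := autF γ
      obtain ⟨y', hy'⟩ := hst g hg y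
      refine ⟨y', ?_⟩
      show algebraMap F H y' = γ (algebraMap F H y)
      rw [hgx, hy']
    have hn2 : Normal F₀ F :=
      Normal.of_algEquiv (IsScalarTower.toAlgHom F₀ F H).equivFieldRange.symm
    exact ⟨⟩
  let θ' : (ZMod (p ^ m))ˣ →* (H ≃ₐ[F₀] H) :=
    (MulSemiringAction.toAlgAut Γ F₀ H).comp (θ.codRestrict Γ hθΓ)
  have hθ' : ∀ a, holR F₀ H (θ' a) = θ a := fun a => by
    ext x
    rfl
  have hc' : ∀ g : G, holR F₀ H (rst F₀ ι g) = holR F H (ι g) := fun g => by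
    ext x
    rfl
  have hrinj : Function.Injective (rst F₀ ι) := by
    intro a b hab
    apply ι.injective
    apply holR_inj
    rw [← hc', ← hc', hab]
  have hordc : orderOf (rst F₀ ι g₀) = p ^ j := by
    rw [orderOf_injective (rst F₀ ι) hrinj g₀, orderOf_eq_card_of_forall_mem_zpowers hg, hC.card]
  have conj : ∀ a : (ZMod (p ^ m))ˣ, θ' a * rst F₀ ι g₀ * (θ' a)⁻¹ =
      rst F₀ ι g₀ ^ (a : ZMod (p ^ m)).val := by
    intro a
    apply holR_inj
    rw [map_mul, map_mul, map_inv, map_pow, hθ', hc', hconj, mul_inv_cancel_right]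
  have dec : ∀ γ : H ≃ₐ[F₀] H, ∃ (x : ℕ) (a : (ZMod (p ^ m))ˣ),
      γ = rst F₀ ι g₀ ^ x * θ' a := by
    intro γ
    obtain ⟨g, hgΓ, hgx⟩ := autF γ
    obtain ⟨σ, a, rfl⟩ := (hmemΓ g).1 hgΓ
    have hfin : IsOfFinOrder g₀ := isOfFinOrder_of_finite g₀
    obtain ⟨k, hk⟩ := hfin.mem_powers_iff_mem_zpowers.mpr (hg (ι.symm σ))
    refine ⟨k, a, ?_⟩
    apply holR_inj
    rw [map_mul, map_pow, hθ', hc', ← map_pow, ← map_pow]
    have hk' : g₀ ^ k = ι.symm σ := hk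
    rw [hk', MulEquiv.apply_symm_apply]
    ext x
    exact hgx x
  have triv : ∀ (x : ℕ) (a : (ZMod (p ^ m))ˣ), rst F₀ ι g₀ ^ x * θ' a = 1 → a = 1 := by
    intro x a h
    have h1 := congrArg (holR F₀ H) h
    rw [map_mul, map_pow, hθ', hc', map_one, ← map_pow] at h1
    have h2 : θ a = holR F H ((ι g₀ ^ x)⁻¹) := by
      rw [map_inv]
      exact eq_inv_of_mul_eq_one_right h1
    exact htriv a _ h2
  obtain ⟨ρ, ρ', hA⟩ := aff_exists hC.prime hC.pos hjm (rst F₀ ι g₀) θ' hordc conj dec triv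
  exact ⟨F₀, inferInstance, NumberField.of_subfield F₀, i1, inferInstance, i3, i5, i7, m, θ', ρ,
    ρ', hA⟩

end HOLM

section HOL

variable {F H : Type} [Field F] [NumberField F] [Field H] [NumberField H] [Algebra F H]
  [IsGalois F H] {G : Type} [CommGroup G] [Fintype G] {ι : G ≃* (H ≃ₐ[F] H)} {p j : ℕ}
  {P : Subgroup G} {g₀ : G}

/-- If the kernel of `θ` is not trivial then `m` can be lowered. -/
theorem hol_desc (ι : G ≃* (H ≃ₐ[F] H)) (hC : CycP p j P) (hg : ∀ g : G, g ∈ Subgroup.zpowers g₀) (hpj : 3 ≤ p ^ j)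
    {m : ℕ} (hjm : j ≤ m) (θ : (ZMod (p ^ m))ˣ →* RingAut H)
    (hconj : ∀ (a : (ZMod (p ^ m))ˣ) (σ : H ≃ₐ[F] H),
      θ a * holR F H σ = holR F H σ ^ (a : ZMod (p ^ m)).val * θ a)
    (htriv : ∀ (a : (ZMod (p ^ m))ˣ) (σ : H ≃ₐ[F] H), θ a = holR F H σ → θ a = 1)
    {a₀ : (ZMod (p ^ m))ˣ} (ha : θ a₀ = 1) (ha1 : a₀ ≠ 1) :
    j ≤ m - 1 ∧ 1 ≤ m ∧ ∃ θ' : (ZMod (p ^ (m - 1)))ˣ →* RingAut H,
      (∀ (a : (ZMod (p ^ (m - 1)))ˣ) (σ : H ≃ₐ[F] H),
        θ' a * holR F H σ = holR F H σ ^ (a : ZMod (p ^ (m - 1))).val * θ' a) ∧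
      ∀ (a : (ZMod (p ^ (m - 1)))ˣ) (σ : H ≃ₐ[F] H), θ' a = holR F H σ → θ' a = 1 := by
  have hp := hC.prime
  have hj := hC.pos
  have hfact : Fact p.Prime := ⟨hp⟩
  have hne : NeZero (p ^ m) := ⟨pow_ne_zero _ hp.ne_zero⟩
  have hne' : NeZero (p ^ (m - 1)) := ⟨pow_ne_zero _ hp.ne_zero⟩
  have hordg : orderOf (ι g₀) = p ^ j := by
    rw [MulEquiv.orderOf_eq, orderOf_eq_card_of_forall_mem_zpowers hg, hC.card]
  have hpowσ : ∀ σ : H ≃ₐ[F] H, orderOf σ ∣ p ^ j := by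
    intro σ
    have h1 : orderOf σ = orderOf (ι.symm σ) := (MulEquiv.orderOf_eq ι.symm σ).symm
    rw [h1, ← hC.card]
    exact orderOf_dvd_natCard _
  -- `a₀ = 1 mod p^j`
  set k : ℕ := (a₀ : ZMod (p ^ m)).val with hk
  have hk1 : k ≡ 1 [MOD p ^ j] := by
    have h1 := hconj a₀ (ι g₀)
    rw [ha, one_mul, mul_one, ← map_pow] at h1
    have h2 := holR_inj h1
    rw [← hordg, ← pow_eq_pow_iff_modEq, pow_one]
    exact h2.symm
  have hkz : ((k : ℤ) : ZMod (p ^ m)) = (a₀ : ZMod (p ^ m)) := by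
    rw [hk, Int.cast_natCast, ZMod.natCast_zmod_val]
  have hw0 : ((k : ℤ) - 1) ≠ 0 := by
    intro h
    apply ha1
    apply Units.ext
    rw [← hkz]
    have : (k : ℤ) = 1 := by linarith
    rw [this, Int.cast_one, Units.val_one]
  have hfm : FiniteMultiplicity (p : ℤ) ((k : ℤ) - 1) := by
    rw [Int.finiteMultiplicity_iff]
    exact ⟨by rw [Int.natAbs_natCast]; exact hp.one_lt.ne', hw0⟩
  obtain ⟨x, hwx, hxp⟩ := hfm.exists_eq_pow_mul_and_not_dvd
  set v : ℕ := multiplicity (p : ℤ) ((k : ℤ) - 1) with hv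
  have hjv : j ≤ v := by
    rw [hv, ← hfm.pow_dvd_iff_le_multiplicity]
    have h1 := (Nat.modEq_iff_dvd.1 hk1.symm)
    push_cast at h1
    exact h1
  have hvm : v < m := by
    by_contra hcon
    push Not at hcon
    apply ha1
    apply Units.ext
    rw [← hkz]
    have h1 : (p : ℤ) ^ m ∣ (k : ℤ) - 1 := by
      rw [hwx]
      exact Dvd.dvd.mul_right (pow_dvd_pow _ hcon) _
    have h2 : (((k : ℤ) - 1 : ℤ) : ZMod (p ^ m)) = 0 := by
      rw [ZMod.intCast_zmod_eq_zero_iff_dvd]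
      push_cast
      exact h1
    rw [Int.cast_sub, Int.cast_one, sub_eq_zero] at h2
    rw [h2, Units.val_one]
  have hax : (a₀ : ZMod (p ^ m)) = 1 + (p : ZMod (p ^ m)) ^ v * (x : ZMod (p ^ m)) := by
    rw [← hkz]
    have h1 : (k : ℤ) = 1 + (p : ℤ) ^ v * x := by linarith
    have h2 := congrArg (Int.cast : ℤ → ZMod (p ^ m)) h1
    rw [h2]
    push_cast
    rfl
  have hv2 : v + 2 ≤ p * v := by
    rcases Nat.lt_or_ge p 3 with h3 | h3
    · have hp2 : p = 2 := by have := hp.two_le; omega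
      have hj2 : 2 ≤ j := by
        by_contra hcon
        have : j = 1 := by omega
        rw [this, hp2] at hpj
        norm_num at hpj
      rw [hp2]
      omega
    · have h4 : 3 * v ≤ p * v := Nat.mul_le_mul_right _ h3
      omega
  have hdvd : p ^ (m - 1) ∣ p ^ m := pow_dvd_pow _ (Nat.sub_le _ _)
  have hval : ∀ b : (ZMod (p ^ m))ˣ, ((ZMod.unitsMap hdvd b : (ZMod (p ^ (m - 1)))ˣ) :
      ZMod (p ^ (m - 1))) = (((b : ZMod (p ^ m)).val : ℕ) : ZMod (p ^ (m - 1))) := by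
    intro b
    rw [ZMod.unitsMap_val, ZMod.cast_eq_val]
  have hker : (ZMod.unitsMap hdvd).ker ≤ θ.ker := by
    intro b hb
    rw [MonoidHom.mem_ker] at hb
    have h1 := hval b
    rw [hb, Units.val_one] at h1
    have h2 : ((p ^ (m - 1) : ℕ) : ℤ) ∣ (((b : ZMod (p ^ m)).val : ℕ) : ℤ) - 1 := by
      rw [← ZMod.intCast_zmod_eq_zero_iff_dvd]
      rw [Int.cast_sub, Int.cast_natCast, ← h1, Int.cast_one, sub_self]
    obtain ⟨z, hz⟩ := h2
    refine hol_sub hp (by omega) hv2 hvm θ.ker (MonoidHom.mem_ker.2 ha) hxp hax (z := z) ?_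
    have h3 : (((b : ZMod (p ^ m)).val : ℕ) : ℤ) = 1 + (p : ℤ) ^ (m - 1) * z := by
      push_cast at hz
      linarith
    have h4 := congrArg (Int.cast : ℤ → ZMod (p ^ m)) h3
    rw [Int.cast_natCast, ZMod.natCast_zmod_val] at h4
    rw [h4]
    push_cast
    rfl
  have hsurj : Function.Surjective (ZMod.unitsMap hdvd) := ZMod.unitsMap_surjective hdvd
  set θ'' : (ZMod (p ^ (m - 1)))ˣ →* RingAut H :=
    MonoidHom.liftOfSurjective (ZMod.unitsMap hdvd) hsurj ⟨θ, hker⟩ with hθ''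
  have hθb : ∀ b, θ'' (ZMod.unitsMap hdvd b) = θ b := fun b =>
    MonoidHom.liftOfRightInverse_comp_apply _ _ _ ⟨θ, hker⟩ b
  refine ⟨by omega, by omega, θ'', ?_, ?_⟩
  · intro a σ
    obtain ⟨b, rfl⟩ := hsurj a
    rw [hθb, hconj, hval, ZMod.val_natCast]
    congr 1
    rw [← map_pow, ← map_pow]
    congr 1
    rw [pow_eq_pow_iff_modEq]
    exact ((Nat.mod_modEq _ _).of_dvd ((hpowσ σ).trans (pow_dvd_pow _ (by omega)))).symm
  · intro a σ h
    obtain ⟨b, rfl⟩ := hsurj a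
    rw [hθb] at h ⊢
    exact htriv b σ h

theorem hol3_aff (hC : CycP p j P) (hg : ∀ g : G, g ∈ Subgroup.zpowers g₀)
    (hH : Hol3 p (p ^ j) F H) :
    ∃ (F₀ : Type) (_ : Field F₀) (_ : NumberField F₀) (_ : Algebra F₀ F) (_ : Algebra F₀ H)
      (_ : IsScalarTower F₀ F H) (_ : IsGalois F₀ H) (_ : IsGalois F₀ F) (m : ℕ)
      (θ : (ZMod (p ^ m))ˣ →* (H ≃ₐ[F₀] H)) (ρ : (H ≃ₐ[F₀] H) →* Equiv.Perm (ZMod (p ^ m)))
      (ρ' : (H ≃ₐ[F₀] H) →* Equiv.Perm (ZMod (p ^ (m - 1)))),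
      AffD p m j (rst F₀ ι g₀) θ ρ ρ' := by
  classical
  have hp := hC.prime
  obtain ⟨m₁, θ₁, hdvd, h1, h2⟩ := hH
  have hjm₁ : j ≤ m₁ := (Nat.pow_dvd_pow_iff_le_right hp.one_lt).1 hdvd
  rcases Nat.lt_or_ge (p ^ j) 3 with hpj | hpj
  · -- `p ^ j = 2`
    have hj := hC.pos
    have hp2 : p = 2 := by
      have h3 : p ≤ p ^ j := Nat.le_self_pow (by omega) p
      have := hp.two_le
      omega
    subst hp2
    have hj1 : j = 1 := by
      by_contra hne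
      have h3 : 2 ^ 2 ≤ 2 ^ j := Nat.pow_le_pow_right (by norm_num) (by omega)
      omega
    subst hj1
    have hsub : ∀ a : (ZMod (2 ^ 1))ˣ, a = 1 := by decide
    refine hol_main hC hg (m := 1) le_rfl 1 ?_ fun a σ _ => hsub a
    intro a σ
    rw [hsub a, MonoidHom.one_apply, one_mul, mul_one]
    have : ((1 : (ZMod (2 ^ 1))ˣ) : ZMod (2 ^ 1)).val = 1 := by decide
    rw [this, pow_one]
  · have hex : ∃ m, j ≤ m ∧ ∃ θ : (ZMod (p ^ m))ˣ →* RingAut H,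
      (∀ (a : (ZMod (p ^ m))ˣ) (σ : H ≃ₐ[F] H),
        θ a * holR F H σ = holR F H σ ^ (a : ZMod (p ^ m)).val * θ a) ∧
      ∀ (a : (ZMod (p ^ m))ˣ) (σ : H ≃ₐ[F] H), θ a = holR F H σ → θ a = 1 := by
      refine ⟨m₁, hjm₁, θ₁, fun a σ => ?_, fun a σ h => ?_⟩
      · rw [← map_pow]
        ext x
        exact h1 a σ x
      · ext x
        exact h2 a σ (fun x => DFunLike.congr_fun h x) x
    obtain ⟨hjm, θ, hconj, htriv⟩ := Nat.find_spec hex
    refine hol_main hC hg hjm θ hconj fun a σ h => ?_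
    by_contra hne
    obtain ⟨q1, q2, q3⟩ := hol_desc ι hC hg hpj hjm θ hconj htriv (htriv a σ h) hne
    exact Nat.find_min hex (m := Nat.find hex - 1) (by omega) ⟨q1, q3⟩

end HOL

end Pool.Agent.RS3
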