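import Pool.Agent.Lib_helper27.RS3.Defs3
import Pool.Agent.Lib_helper35.RS2.P_GP
import Pool.Agent.Lib_helper17.RS.P_AA

/-!
# RS3, block AWY: integrality at `l` from the norm
-/

namespace Pool.Agent.RS3

set_option linter.unusedSectionVars false

open Pool.Agent.RSK Pool.Agent.RS2
open NumberField IsDedekindDomain Filter Topology Complex

section AWY

variable {G : Type} [CommGroup G] [Fintype G] {p j : ℕ} {P : Subgroup G}

theorem awy_range (hC : CycP p j P) {χ : G →* ℂˣ} (hχ : Fth P χ) :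
    χ.range = rootsOfUnity (p ^ j) ℂ := by
  have : NeZero (p ^ j) := ⟨pow_ne_zero _ hC.prime.ne_zero⟩
  apply Subgroup.eq_of_le_of_card_ge
  · rintro z ⟨g, rfl⟩
    rw [_root_.mem_rootsOfUnity, ← map_pow, ← hC.card, pow_card_eq_one', map_one]
  · refine (card_rootsOfUnity ℂ (p ^ j)).trans ?_
    have h1 : Nat.card χ.range = Nat.card G :=
      Nat.card_congr (MonoidHom.ofInjective (fth_inj hC hχ)).toEquiv.symm
    rw [h1, hC.card]

/-- two faithful characters differ by an automorphism -/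
theorem awy_aut (hC : CycP p j P) {χ ψ : G →* ℂˣ} (hχ : Fth P χ) (hψ : Fth P ψ) :
    ∃ e : MulAut G, ∀ g, χ (e g) = ψ g := by
  refine ⟨(MonoidHom.ofInjective (fth_inj hC hψ)).trans ((MulEquiv.subgroupCongr
    ((awy_range hC hψ).trans (awy_range hC hχ).symm)).trans
      (MonoidHom.ofInjective (fth_inj hC hχ)).symm), fun g => ?_⟩
  have h1 := MulEquiv.apply_symm_apply (MonoidHom.ofInjective (fth_inj hC hχ))
    (MulEquiv.subgroupCongr ((awy_range hC hψ).trans (awy_range hC hχ).symm)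
      (MonoidHom.ofInjective (fth_inj hC hψ) g))
  have h2 := congrArg (fun z : χ.range => (z : ℂˣ)) h1
  exact h2

/-- the values of integral elements are integral -/
theorem awy_int (χ : G →* ℂˣ) (v : MonoidAlgebra ℤ G) : IsIntegral ℤ (evQ χ (toQ G v)) := by
  induction v using MonoidAlgebra.induction_on with
  | of g =>
    have h : MonoidAlgebra.of ℤ G g = MonoidAlgebra.single g 1 := rfl
    rw [h, l1_toQ_single, l1_evQ_single]
    push_cast
    rw [one_mul]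
    refine IsIntegral.of_pow (n := Nat.card G) Nat.card_pos ?_
    have : (χ g) ^ Nat.card G = 1 := by
      rw [← map_pow, pow_card_eq_one', map_one]
    rw [← Units.val_pow_eq_pow_val, this, Units.val_one]
    exact isIntegral_one
  | add a b ha hb =>
    rw [map_add, map_add]
    exact ha.add hb
  | smul c a ha =>
    rw [map_zsmul, map_zsmul, zsmul_eq_mul]
    exact (isIntegral_algebraMap (R := ℤ) (A := ℂ) (x := c)).mul ha

theorem awy_scal (χ : G →* ℂˣ) (k : ℕ) (x : MonoidAlgebra ℚ G) :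
    evQ χ (MonoidAlgebra.single 1 (k : ℚ) * x) = (k : ℂ) * evQ χ x := by
  rw [map_mul, l1_evQ_single, map_one, Units.val_one, mul_one]
  push_cast
  rfl

/-- `pF` as a finite product -/
theorem awy_pF [Fintype {χ : G →* ℂˣ // Fth P χ}] (φ : (G →* ℂˣ) → ℂ) :
    pF P φ = ∏ χ : {χ : G →* ℂˣ // Fth P χ}, φ χ.1 := by
  unfold pF
  exact finprod_eq_prod_of_fintype _

/-- the value at every character is integral at `l` -/
theorem awy_val (hC : CycP p j P) {l : ℕ} (hl : l.Prime) (x : MonoidAlgebra ℚ G)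
    (hx : toQ G (nP P) * x = 0)
    (hsym : ∀ e : MulAut G, ∃ (k : ℕ) (v : MonoidAlgebra ℤ G), ¬ l ∣ k ∧
      MonoidAlgebra.single 1 (k : ℚ) * x = toQ G v * MonoidAlgebra.mapDomain e x)
    (hN : ∃ (k : ℕ) (n : ℤ), ¬ l ∣ k ∧ (k : ℂ) * pF P (fun χ => evQ χ x) = n) (χ : G →* ℂˣ) :
    ∃ k : ℕ, ¬ l ∣ k ∧ IsIntegral ℤ ((k : ℂ) * evQ χ x) := by
  classical
  by_cases hχ : Fth P χ
  · have hfin : Finite (G →* ℂˣ) := dual_finite
    have : Fintype {χ : G →* ℂˣ // Fth P χ} := Fintype.ofFinite _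
    obtain ⟨K, n, hK, hn⟩ := hN
    rw [awy_pF] at hn
    -- `k_ψ χ(x) = a_ψ ψ(x)`
    have h1 : ∀ ψ : {χ : G →* ℂˣ // Fth P χ}, ∃ (k : ℕ) (a : ℂ), ¬ l ∣ k ∧ IsIntegral ℤ a ∧
        (k : ℂ) * evQ χ x = a * evQ ψ.1 x := by
      intro ψ
      obtain ⟨e, he⟩ := awy_aut hC hχ ψ.2
      obtain ⟨k, v, hk, hv⟩ := hsym e
      refine ⟨k, evQ χ (toQ G v), hk, awy_int χ v, ?_⟩
      have h2 := congrArg (evQ χ) hv
      rw [awy_scal, map_mul, aa_map] at h2
      have h3 : χ.comp e.toMonoidHom = ψ.1 := by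
        ext g
        exact congrArg Units.val (he g)
      rw [h3] at h2
      exact h2
    choose k a hk ha hka using h1
    set φ : ℕ := Fintype.card {χ : G →* ℂˣ // Fth P χ} with hφ
    have hφ0 : 0 < φ := Fintype.card_pos_iff.2 ⟨⟨χ, hχ⟩⟩
    -- `(∏ k_ψ) K χ(x)^φ = (∏ a_ψ) n`
    have h2 : (K : ℂ) * (∏ ψ, (k ψ : ℂ)) * evQ χ x ^ φ = (∏ ψ, a ψ) * n := by
      have h3 : ∏ ψ, ((k ψ : ℂ) * evQ χ x) = ∏ ψ, (a ψ * evQ ψ.1 x) :=
        Finset.prod_congr rfl fun ψ _ => hka ψ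
      rw [Finset.prod_mul_distrib, Finset.prod_mul_distrib, Finset.prod_const, Finset.card_univ]
        at h3
      rw [← hn, mul_assoc, h3]
      ring
    set L : ℕ := K * ∏ ψ, k ψ with hL
    have hLl : ¬ l ∣ L := by
      intro h
      rcases hl.dvd_mul.1 h with h | h
      · exact hK h
      · obtain ⟨ψ, _, hψ⟩ := (Prime.dvd_finsetProd_iff hl.prime _).1 h
        exact hk ψ hψ
    refine ⟨L, hLl, ?_⟩
    have h3 : IsIntegral ℤ (((L : ℂ) * evQ χ x) ^ φ) := by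
      obtain ⟨q, hq⟩ : ∃ q, φ = q + 1 := ⟨φ - 1, by omega⟩
      have h4 : ((L : ℂ) * evQ χ x) ^ φ = (L : ℂ) ^ q * ((∏ ψ, a ψ) * n) := by
        rw [← h2, mul_pow, hL]
        push_cast
        rw [hq, pow_succ]
        ring
      rw [h4]
      refine IsIntegral.mul ?_ (IsIntegral.mul ?_ ?_)
      · have : ((L : ℂ) ^ q) = algebraMap ℤ ℂ ((L : ℤ) ^ q) := by push_cast; rfl
        rw [this]
        exact isIntegral_algebraMap
      · exact IsIntegral.prod _ fun ψ _ => ha ψ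
      · exact isIntegral_algebraMap (R := ℤ) (A := ℂ)
    exact IsIntegral.of_pow hφ0 h3
  · refine ⟨1, fun h => hl.one_lt.ne' (Nat.dvd_one.1 h), ?_⟩
    rw [(nP_zero_iff x).1 hx χ hχ, mul_zero]
    exact isIntegral_zero

theorem away3 (hC : CycP p j P) {l : ℕ} (hl : l.Prime) (hlp : l ≠ p) (x : MonoidAlgebra ℚ G)
    (hx : toQ G (nP P) * x = 0)
    (hsym : ∀ e : MulAut G, ∃ (k : ℕ) (v : MonoidAlgebra ℤ G), ¬ l ∣ k ∧
      MonoidAlgebra.single 1 (k : ℚ) * x = toQ G v * MonoidAlgebra.mapDomain e x)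
    (hN : ∃ (k : ℕ) (n : ℤ), ¬ l ∣ k ∧ (k : ℂ) * pF P (fun χ => evQ χ x) = n) :
    ∃ (k : ℕ) (a : MonoidAlgebra ℤ G), ¬ l ∣ k ∧ MonoidAlgebra.single 1 (k : ℚ) * x = toQ G a := by
  classical
  have hfin : Finite (G →* ℂˣ) := dual_finite
  have : Fintype (G →* ℂˣ) := Fintype.ofFinite _
  choose k hk hint using awy_val hC hl x hx hsym hN
  set K : ℕ := ∏ χ : G →* ℂˣ, k χ with hK
  have hKl : ¬ l ∣ K := by
    intro h
    obtain ⟨ψ, _, hψ⟩ := (Prime.dvd_finsetProd_iff hl.prime _).1 h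
    exact hk ψ hψ
  have hKi : ∀ χ : G →* ℂˣ, IsIntegral ℤ ((K : ℂ) * evQ χ x) := by
    intro χ
    obtain ⟨m, hm⟩ : k χ ∣ K := Finset.dvd_prod_of_mem k (Finset.mem_univ χ)
    have h1 : (K : ℂ) * evQ χ x = algebraMap ℤ ℂ (m : ℤ) * ((k χ : ℂ) * evQ χ x) := by
      rw [hm]
      push_cast
      show _ = (m : ℂ) * _
      ring
    rw [h1]
    exact isIntegral_algebraMap.mul (hint χ)
  have hcoef : ∀ g : G, ∃ m : ℤ, (m : ℚ) = ((K * p ^ j : ℕ) : ℚ) * x.coeff g := by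
    intro g
    have h1 : ((((K * p ^ j : ℕ) : ℚ) * x.coeff g : ℚ) : ℂ) =
        ∑ χ : G →* ℂˣ, ((K : ℂ) * evQ χ x) * (χ g⁻¹ : ℂ) := by
      have h2 : ∀ χ : G →* ℂˣ, ((K : ℂ) * evQ χ x) * (χ g⁻¹ : ℂ) =
          (K : ℂ) * (evQ χ x * (χ g⁻¹ : ℂ)) := by
        intro χ
        ring
      rw [Finset.sum_congr rfl fun χ _ => h2 χ, ← Finset.mul_sum, aa_inv, hC.card]
      push_cast
      ring
    have h3 : IsIntegral ℤ ((((K * p ^ j : ℕ) : ℚ) * x.coeff g : ℚ) : ℂ) := by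
      rw [h1]
      refine IsIntegral.sum _ fun χ _ => (hKi χ).mul ?_
      refine IsIntegral.of_pow (n := Nat.card G) Nat.card_pos ?_
      have : (χ g⁻¹) ^ Nat.card G = 1 := by
        rw [← map_pow, pow_card_eq_one', map_one]
      rw [← Units.val_pow_eq_pow_val, this, Units.val_one]
      exact isIntegral_one
    have h4 : IsIntegral ℤ (((K * p ^ j : ℕ) : ℚ) * x.coeff g : ℚ) :=
      (isIntegral_algebraMap_iff (R := ℤ) (A := ℚ) (B := ℂ) (algebraMap ℚ ℂ).injective).1 h3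
    obtain ⟨m, hm⟩ := IsIntegrallyClosed.isIntegral_iff.1 h4
    exact ⟨m, hm⟩
  choose m hm using hcoef
  refine ⟨K * p ^ j, MonoidAlgebra.ofCoeff (Finsupp.equivFunOnFinite.symm m), ?_, ?_⟩
  · intro h
    rcases hl.dvd_mul.1 h with h | h
    · exact hKl h
    · exact hlp ((Nat.prime_dvd_prime_iff_eq hl hC.prime).1 (hl.dvd_of_dvd_pow h))
  · ext g
    rw [MonoidAlgebra.coeff_single_one_mul, ← hm g]
    simp [toQ]

end AWY

end Pool.Agent.RS3
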