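import Pool.Agent.Lib_helper35.RS2.P_LY
import Pool.Agent.Lib_helper35.RS2.P_NF
import Pool.Agent.Lib_helper27.RS3.Defs3

/-!
# RS3: the norm is integral at `l`
-/

namespace Pool.Agent.RS3

set_option linter.unusedSectionVars false

open Pool.Agent.RSK Pool.Agent.RS2
open NumberField IsDedekindDomain Filter Topology Complex

theorem norm_l2 {F H : Type} [Field F] [NumberField F] [Field H]
    [NumberField H] [Algebra F H] [IsGalois F H] {G : Type} [CommGroup G] [Fintype G]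
    {ι : G ≃* (H ≃ₐ[F] H)} {r : ℕ} {w : Fin r → Pl H}
    {fr : HeightOneSpectrum (𝓞 F) → G} {p j : ℕ} {P : Subgroup G}
    {S T : Finset (HeightOneSpectrum (𝓞 F))} (hC : CycP p j P)
    (hD : DataW ι S T r w fr) {c : (G →* ℂˣ) → ℂ} (hc : LeadF S T r fr P c)
    {b : Fin r → UM ι S T} {x : MonoidAlgebra ℚ G} (hco : Core2 ι S T P w c b x) {l : ℕ}
    (hl : l.Prime) (hlp : l ≠ p) (hB : ¬ l ∣ (mSpn G b).relIndex (mM P (UM ι S T))) :
    ∃ (k : ℕ) (n : ℤ), ¬ l ∣ k ∧ (k : ℂ) * pF P (fun χ => evQ χ x) = n := by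
  obtain ⟨ιE, hE⟩ := lay_exists (ι := ι) P
  obtain ⟨a, n, h⟩ := norm_int2 hC hD hE hc hco
  refine ⟨p ^ a * (mSpn G b).relIndex (mM P (UM ι S T)), n, ?_, ?_⟩
  · intro h1
    rcases (Nat.Prime.dvd_mul hl).1 h1 with h2 | h2
    · exact hlp ((Nat.prime_dvd_prime_iff_eq hl hC.prime).1 (hl.dvd_of_dvd_pow h2))
    · exact hB h2
  · push_cast
    exact h

end Pool.Agent.RS3
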