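import Pool.Agent.Lib_helper27.RS3.Defs3
import Pool.Agent.Lib_helper35.RS2.P_A7
import Pool.Agent.Lib_helper35.RS2.P_A6
import Pool.Agent.Lib_helper35.RS2.P_A3b
import Pool.Agent.Lib_helper35.RS2.P_B2
import Pool.Agent.Lib_helper35.RS2.P_A4
import Pool.Agent.Lib_helper35.RS2.P_A3a
import Pool.Agent.Lib_helper35.RS2.ArtD

/-!
# RS3, block ART: the Artin formalism for `Γ`-sets
-/

namespace Pool.Agent.RS3

set_option linter.unusedSectionVars false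

open Pool.Agent.RSK Pool.Agent.RS2
open NumberField IsDedekindDomain Filter Topology Complex

section CNT

variable {Γ Y : Type} [Group Γ] [Finite Γ] [Finite Y]

/-- a decomposition of the set of the `γ` with `γ⁻¹ g γ` in a stabilizer -/
noncomputable def art_equiv (σ : Γ →* Equiv.Perm Y) (g : Γ) (o : Orb σ)
    (s : ∀ y : {y : Y // σ g y = y ∧ (Quotient.mk (orb σ) y : Orb σ) = o},
      {γ : Γ // σ γ o.out = y.1}) :
    {γ : Γ // γ⁻¹ * g * γ ∈ ost σ o} ≃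
      {y : Y // σ g y = y ∧ (Quotient.mk (orb σ) y : Orb σ) = o} × (ost σ o) where
  toFun γ :=
    have h1 : σ g (σ γ.1 o.out) = σ γ.1 o.out := by
      have h := γ.2
      have h' : σ (γ.1⁻¹ * g * γ.1) o.out = o.out := h
      rw [map_mul, map_mul, map_inv, Equiv.Perm.mul_apply, Equiv.Perm.mul_apply,
        Equiv.Perm.inv_eq_iff_eq] at h'
      exact h'
    have h2 : (Quotient.mk (orb σ) (σ γ.1 o.out) : Orb σ) = o := by
      conv_rhs => rw [← Quotient.out_eq o]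
      exact Quotient.sound ⟨γ.1⁻¹, by rw [map_inv]; exact (σ γ.1).symm_apply_apply _⟩
    (⟨σ γ.1 o.out, h1, h2⟩, ⟨(s ⟨σ γ.1 o.out, h1, h2⟩).1⁻¹ * γ.1, by
      show σ ((s ⟨σ γ.1 o.out, h1, h2⟩).1⁻¹ * γ.1) o.out = o.out
      rw [map_mul, map_inv, Equiv.Perm.mul_apply, Equiv.Perm.inv_eq_iff_eq]
      exact (s ⟨σ γ.1 o.out, h1, h2⟩).2.symm⟩)
  invFun q := ⟨(s q.1).1 * q.2.1, by
    have h2 : σ q.2.1 o.out = o.out := q.2.2
    show σ (((s q.1).1 * q.2.1)⁻¹ * g * ((s q.1).1 * q.2.1)) o.out = o.out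
    rw [map_mul, map_mul, map_inv, map_mul, Equiv.Perm.mul_apply, Equiv.Perm.mul_apply,
      Equiv.Perm.inv_eq_iff_eq, Equiv.Perm.mul_apply, h2, (s q.1).2, q.1.2.1]⟩
  left_inv γ := Subtype.ext (by
    show (s _).1 * ((s _).1⁻¹ * γ.1) = γ.1
    rw [mul_inv_cancel_left])
  right_inv q := by
    have h2 : σ q.2.1 o.out = o.out := q.2.2
    have h3 : σ ((s q.1).1 * q.2.1) o.out = q.1.1 := by
      rw [map_mul, Equiv.Perm.mul_apply, h2, (s q.1).2]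
    obtain ⟨⟨y, hy⟩, u⟩ := q
    have e1 : (⟨σ ((s ⟨y, hy⟩).1 * u.1) o.out, by rw [h3]; exact hy.1, by rw [h3]; exact hy.2⟩ :
        {y : Y // σ g y = y ∧ (Quotient.mk (orb σ) y : Orb σ) = o}) = ⟨y, hy⟩ := Subtype.ext h3
    refine Prod.ext e1 (Subtype.ext ?_)
    show (s ⟨σ ((s ⟨y, hy⟩).1 * u.1) o.out, _⟩).1⁻¹ * ((s ⟨y, hy⟩).1 * u.1) = u.1
    rw [show (s ⟨σ ((s ⟨y, hy⟩).1 * u.1) o.out, by rw [h3]; exact hy.1, by rw [h3]; exact hy.2⟩).1 =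
      (s ⟨y, hy⟩).1 from by rw [e1], inv_mul_cancel_left]

theorem art_fix (σ : Γ →* Equiv.Perm Y) (g : Γ) (o : Orb σ) :
    (Nat.card (ost σ o) : ℂ)⁻¹ * Nat.card {γ : Γ // γ⁻¹ * g * γ ∈ ost σ o} =
      Nat.card {y : Y // σ g y = y ∧ (Quotient.mk (orb σ) y : Orb σ) = o} := by
  have hs : ∀ y : {y : Y // σ g y = y ∧ (Quotient.mk (orb σ) y : Orb σ) = o},
      ∃ γ : Γ, σ γ o.out = y.1 := by
    intro y
    have h : (Quotient.mk (orb σ) o.out : Orb σ) = Quotient.mk (orb σ) y.1 := by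
      rw [Quotient.out_eq, y.2.2]
    exact Quotient.exact h
  rw [Nat.card_congr (art_equiv σ g o (fun y => ⟨_, (hs y).choose_spec⟩)), Nat.card_prod]
  have : (Nat.card (ost σ o) : ℂ) ≠ 0 := by exact_mod_cast Nat.card_pos.ne'
  push_cast
  field_simp

theorem art_perm (σ : Γ →* Equiv.Perm Y) (g : Γ) [Fintype (Orb σ)] :
    ∑ o : Orb σ, (Nat.card (ost σ o) : ℂ)⁻¹ * Nat.card {γ : Γ // γ⁻¹ * g * γ ∈ ost σ o} =
      Nat.card {y : Y // σ g y = y} := by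
  classical
  simp_rw [art_fix]
  rw [← Nat.cast_sum]
  congr 1
  rw [← Nat.card_sigma]
  refine Nat.card_congr
    { toFun := fun q => ⟨q.2.1, q.2.2.1⟩
      invFun := fun y => ⟨Quotient.mk (orb σ) y.1, ⟨y.1, y.2, rfl⟩⟩
      left_inv := ?_
      right_inv := fun y => rfl }
  rintro ⟨o, y, h1, h2⟩
  subst h2
  rfl

end CNT

section FLD

variable {F₀ F H : Type} [Field F₀] [NumberField F₀] [Field F] [NumberField F] [Field H]
  [NumberField H] [Algebra F₀ F] [Algebra F₀ H] [Algebra F H] [IsScalarTower F₀ F H]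
  [IsGalois F₀ H] [IsGalois F H] {S₀ T₀ : Finset (HeightOneSpectrum (𝓞 F₀))}

theorem art_eeR (U : Subgroup (H ≃ₐ[F₀] H)) : eeR F₀ (FX U) H = U := by
  have : FiniteDimensional F₀ H := Module.Finite.of_restrictScalars_finite ℚ F₀ H
  conv_rhs => rw [← IntermediateField.fixingSubgroup_fixedField U]
  ext γ
  rw [ee_mem_R, IntermediateField.mem_fixingSubgroup_iff]
  exact ⟨fun h x hx => h ⟨x, hx⟩, fun h x => h x.1 x.2⟩

theorem art_zY (hST : Disjoint S₀ T₀)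
    (hun : ∀ W : HeightOneSpectrum (𝓞 H), W.under (𝓞 F₀) ∉ S₀ →
      Algebra.IsUnramifiedAt (𝓞 F₀) W.asIdeal) {φ : HeightOneSpectrum (𝓞 F₀) → H ≃ₐ[F₀] H}
    (hφ : FrSys S₀ φ) {Y : Type} [Finite Y] (σ : (H ≃ₐ[F₀] H) →* Equiv.Perm Y) {s : ℂ}
    (hs : 1 < s.re) :
    zY S₀ T₀ σ s = artL S₀ T₀ φ (fun g => (Nat.card {y // σ g y = y} : ℂ)) s := by
  classical
  have : FiniteDimensional F₀ H := Module.Finite.of_restrictScalars_finite ℚ F₀ H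
  have : Finite (H ≃ₐ[F₀] H) := inferInstance
  have : Fintype (Orb σ) := Fintype.ofFinite _
  have h1 : (fun g : H ≃ₐ[F₀] H => (Nat.card {y // σ g y = y} : ℂ)) =
      fun g => ∑ o ∈ (Finset.univ : Finset (Orb σ)),
        ((1 : ℤ) : ℂ) * indF F₀ (1 : (H ≃ₐ[FX (ost σ o)] H) →* ℂˣ) g := by
    funext g
    rw [← art_perm]
    refine Finset.sum_congr rfl fun o _ => ?_
    rw [Int.cast_one, one_mul, indF_one, art_eeR]
  rw [h1, artL_sum Finset.univ (fun _ => 1)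
    (fun o => indF F₀ (1 : (H ≃ₐ[FX (ost σ o)] H) →* ℂˣ)) hs, zY, finprod_eq_prod_of_fintype]
  refine Finset.prod_congr rfl fun o _ => ?_
  rw [zpow_one, artL_zst hφ hST hun hs]

open scoped Classical in
/-- `∑_{f_w | k} f_w = #{γ : γ⁻¹ φ^k γ ∈ U} / #U` for the places `w` of `H^U` above `v₀` -/
theorem art_plc {v₀ : HeightOneSpectrum (𝓞 F₀)} {W : HeightOneSpectrum (𝓞 H)}
    (hW : W.under (𝓞 F₀) = v₀)
    (hun : ∀ W : HeightOneSpectrum (𝓞 H), W.under (𝓞 F₀) = v₀ →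
      Algebra.IsUnramifiedAt (𝓞 F₀) W.asIdeal)
    {φ : H ≃ₐ[F₀] H} (hφ : ∀ x : 𝓞 H,
      RingOfIntegers.mapRingEquiv φ.toRingEquiv x - x ^ nv v₀ ∈ W.asIdeal)
    (U : Subgroup (H ≃ₐ[F₀] H)) :
    ∃ f : HeightOneSpectrum (𝓞 (FX U)) → ℕ, (∀ u ∈ ovr (FX U) {v₀}, 0 < f u ∧ nv u = nv v₀ ^ f u) ∧
      ∀ k : ℕ, 0 < k → (∑ u ∈ ovr (FX U) {v₀}, if f u ∣ k then f u else 0) * Nat.card U =
        Nat.card {γ : H ≃ₐ[F₀] H // γ⁻¹ * φ ^ k * γ ∈ U} := by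
  have hφ' : FrAt W φ := by
    intro x
    rw [hW]
    exact hφ x
  refine ⟨fun u => rdeg F₀ u, fun u hu => ?_, fun k _ => ?_⟩
  · have h1 := rdeg_spec (F₀ := F₀) u
    rw [mem_ovr, Finset.mem_singleton] at hu
    rw [hu] at h1
    exact h1
  · have h1 := indF_pow hun hW hφ' (1 : (H ≃ₐ[FX U] H) →* ℂˣ) (fun _ => 1)
      (fun _ _ _ _ => by rw [MonoidHom.one_apply, Units.val_one]) k
    rw [indF_one, art_eeR] at h1
    have h2 : (Nat.card U : ℂ) ≠ 0 := by exact_mod_cast Nat.card_pos.ne'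
    have h3 : (((∑ u ∈ ovr (FX U) {v₀}, if rdeg F₀ u ∣ k then rdeg F₀ u else 0) * Nat.card U : ℕ) : ℂ) =
        ((Nat.card {γ : H ≃ₐ[F₀] H // γ⁻¹ * φ ^ k * γ ∈ U} : ℕ) : ℂ) := by
      rw [inv_mul_eq_iff_eq_mul₀ h2] at h1
      rw [h1]
      push_cast
      rw [mul_comm]
      congr 1
      refine Finset.sum_congr rfl fun u _ => ?_
      rw [one_pow, mul_one]
    exact_mod_cast h3

theorem art_ind {G : Type} [CommGroup G] [Fintype G] {ι : G ≃* (H ≃ₐ[F] H)} (χ : G →* ℂˣ)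
    (γ : H ≃ₐ[F₀] H) [Fintype (H ≃ₐ[F₀] H)] [DecidableEq (H ≃ₐ[F₀] H)] :
    indF F₀ (χ.comp ι.symm.toMonoidHom) γ = (Nat.card G : ℂ)⁻¹ *
      ∑ δ : H ≃ₐ[F₀] H, ∑ h : G, if δ⁻¹ * γ * δ = rst F₀ ι h then (χ h : ℂ) else 0 := by
  classical
  rw [indF, Nat.card_congr ι.symm.toEquiv, finsum_eq_sum_of_fintype]
  congr 1
  refine Finset.sum_congr rfl fun δ _ => ?_
  by_cases hex : ∃ h : G, δ⁻¹ * γ * δ = rst F₀ ι h
  · obtain ⟨h, hh⟩ := hex
    have hu : ∀ h' : G, δ⁻¹ * γ * δ = rst F₀ ι h' ↔ h' = h := by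
      intro h'
      constructor
      · intro h1
        have h2 : (ι h').restrictScalars F₀ = (ι h).restrictScalars F₀ := by
          rw [hh] at h1
          exact h1.symm
        exact ι.injective (AlgEquiv.restrictScalars_injective F₀ h2)
      · rintro rfl
        exact hh
    simp_rw [hu, Finset.sum_ite_eq', Finset.mem_univ, if_true]
    have hs : ∀ σ : {σ : H ≃ₐ[F] H // σ.restrictScalars F₀ = δ⁻¹ * γ * δ}, σ = ⟨ι h, hh.symm⟩ := by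
      intro σ
      refine Subtype.ext (AlgEquiv.restrictScalars_injective F₀ ?_)
      rw [σ.2]
      exact hh
    have : Unique {σ : H ≃ₐ[F] H // σ.restrictScalars F₀ = δ⁻¹ * γ * δ} :=
      ⟨⟨⟨ι h, hh.symm⟩⟩, hs⟩
    rw [finsum_unique, hs default]
    show ((χ (ι.symm (ι h)) : ℂˣ) : ℂ) = χ h
    rw [MulEquiv.symm_apply_apply]
  · have : IsEmpty {σ : H ≃ₐ[F] H // σ.restrictScalars F₀ = δ⁻¹ * γ * δ} := by
      refine ⟨fun σ => hex ⟨ι.symm σ.1, σ.2.symm.trans ?_⟩⟩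
      show σ.1.restrictScalars F₀ = (ι (ι.symm σ.1)).restrictScalars F₀
      rw [MulEquiv.apply_symm_apply]
    rw [finsum_of_isEmpty]
    symm
    refine Finset.sum_eq_zero fun h _ => if_neg fun h1 => hex ⟨h, h1⟩

variable {G : Type} [CommGroup G] [Fintype G] {ι : G ≃* (H ≃ₐ[F] H)}
  {fr : HeightOneSpectrum (𝓞 F) → G}

open scoped Classical in
theorem art {Y Y' : Type} [Finite Y] [Finite Y'] (σ : (H ≃ₐ[F₀] H) →* Equiv.Perm Y)
    (σ' : (H ≃ₐ[F₀] H) →* Equiv.Perm Y') {χ : G →* ℂˣ}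
    (hcf : ∀ γ : H ≃ₐ[F₀] H, (Nat.card {y // σ γ y = y} : ℂ) * Nat.card G =
      (Nat.card {y // σ' γ y = y} : ℂ) * Nat.card G +
        ∑ δ : H ≃ₐ[F₀] H, ∑ h : G, if δ⁻¹ * γ * δ = rst F₀ ι h then (χ h : ℂ) else 0)
    (hST : Disjoint S₀ T₀)
    (hun : ∀ W : HeightOneSpectrum (𝓞 H), W.under (𝓞 F₀) ∉ S₀ →
      Algebra.IsUnramifiedAt (𝓞 F₀) W.asIdeal)
    (hfr : ∀ v, v ∉ ovr F S₀ → IsFr v (ι (fr v))) {s : ℂ} (hs : 1 < s.re) :
    zY S₀ T₀ σ s = LST (ovr F S₀) (ovr F T₀) fr χ s * zY S₀ T₀ σ' s := by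
  obtain ⟨φ, hφ⟩ := frSys_exists (H := H) S₀
  have hG : (Nat.card G : ℂ) ≠ 0 := by exact_mod_cast Nat.card_pos.ne'
  rw [art_zY hST hun hφ σ hs, art_zY hST hun hφ σ' hs,
    ← artL_ab hφ hST hun ι fr hfr χ hs, ← artL_add _ _ hs]
  congr 1
  funext γ
  rw [Pi.add_apply, art_ind]
  have h := hcf γ
  field_simp
  rw [h]
  ring

end FLD

end Pool.Agent.RS3
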