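import Pool.Agent.Lib_helper27.RS3.Defs3

/-!
# RS3, block DTN: the determinant on the invariants is not zero
-/

namespace Pool.Agent.RS3

set_option linter.unusedSectionVars false

open Pool.Agent.RSK Pool.Agent.RS2
open NumberField IsDedekindDomain Filter Topology Complex

/-- an invariant matrix maps invariant functions to invariant functions -/
theorem dtn_inv {k : Type} [CommRing k] {Γ : Type} [Group Γ] {Ω : Type} [Fintype Ω]
    (κ : Γ →* Equiv.Perm Ω) (F : Matrix Ω Ω k) (hF : MIv κ F) (U : Subgroup Γ) :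
    ∀ x ∈ ivt k κ U, Matrix.mulVecLin F x ∈ ivt k κ U := by
  intro x hx u hu ω
  rw [Matrix.mulVecLin_apply]
  show ∑ ω', F (κ u ω) ω' * x ω' = ∑ ω', F ω ω' * x ω'
  rw [← Equiv.sum_comp (κ u)]
  refine Finset.sum_congr rfl fun ω' _ => ?_
  rw [hF u ω ω', hx u hu ω']

/-- `F` is invertible on all invariants if it is injective. -/
theorem dt_ne {Γ : Type} [Group Γ] {Ω : Type} [Fintype Ω] (κ : Γ →* Equiv.Perm Ω)
    (F : Matrix Ω Ω ℝ) (hF : MIv κ F) (hne : ∀ x : Ω → ℝ, (∀ P, ∑ Q, F P Q * x Q = 0) → x = 0)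
    (U : Subgroup Γ) : dt κ F U ≠ 0 := by
  intro h0
  unfold dt at h0
  rw [dif_pos (dtn_inv κ F hF U)] at h0
  have h1 := LinearMap.bot_lt_ker_of_det_eq_zero h0
  obtain ⟨x, hx, hx0⟩ := Submodule.exists_mem_ne_zero_of_ne_bot h1.ne'
  apply hx0
  rw [LinearMap.mem_ker] at hx
  have h2 : Matrix.mulVecLin F x.1 = 0 := by
    have := congrArg Subtype.val hx
    exact this
  refine Subtype.ext (hne x.1 fun P => ?_)
  exact congrFun h2 P

end Pool.Agent.RS3
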