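import Pool.Agent.Lib_helper27.RS3.Defs3

namespace Pool.Agent.RS3

set_option linter.unusedSectionVars false

open Pool.Agent.RSK Pool.Agent.RS2
open NumberField IsDedekindDomain Filter Topology Complex

theorem nd_mat {Γ P : Type} [Finite Γ] [Fintype P] [DecidableEq P] (A B : Γ → Matrix P P ℚ)
    (C : Matrix P P ℝ) (hC : C.det ≠ 0)
    (h : ∀ γ, C * (A γ).map (algebraMap ℚ ℝ) = (B γ).map (algebraMap ℚ ℝ) * C) :
    ∃ C₀ : Matrix P P ℚ, C₀.det ≠ 0 ∧ ∀ γ, C₀ * A γ = B γ * C₀ := by
  classical
  let E : Submodule ℚ ℝ := Submodule.span ℚ (Set.range fun ij : P × P => C ij.1 ij.2)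
  have hmem : ∀ i j, C i j ∈ E := fun i j => Submodule.subset_span ⟨(i, j), rfl⟩
  have : FiniteDimensional ℚ E := FiniteDimensional.span_of_finite ℚ (Set.finite_range _)
  let b := Module.finBasis ℚ E
  let n := Module.finrank ℚ E
  let Ci : Fin n → Matrix P P ℚ := fun k => Matrix.of fun i j => b.repr ⟨C i j, hmem i j⟩ k
  have hCi : ∀ i j, C i j = ∑ k, ((b k : E) : ℝ) * (Ci k i j : ℝ) := by
    intro i j
    have h1 := b.sum_repr ⟨C i j, hmem i j⟩
    have h2 := congrArg (Submodule.subtype E) h1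
    rw [map_sum] at h2
    have h3 : ∀ k, (Submodule.subtype E) (b.repr ⟨C i j, hmem i j⟩ k • b k) =
        ((b k : E) : ℝ) * (Ci k i j : ℝ) := by
      intro k
      rw [map_smul, Rat.smul_def, mul_comm]
      rfl
    rw [Finset.sum_congr rfl fun k _ => h3 k] at h2
    exact h2.symm
  have hcomm : ∀ k γ, Ci k * A γ = B γ * Ci k := by
    intro k γ
    ext i j
    rw [Matrix.mul_apply, Matrix.mul_apply]
    have h1 := congrFun (congrFun (h γ) i) j
    rw [Matrix.mul_apply, Matrix.mul_apply] at h1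
    have h2 : (∑ l, (A γ l j) • (⟨C i l, hmem i l⟩ : E)) =
        ∑ l, (B γ i l) • (⟨C l j, hmem l j⟩ : E) := by
      apply Submodule.subtype_injective E
      rw [map_sum, map_sum]
      have e1 : ∀ l, (Submodule.subtype E) ((A γ l j) • (⟨C i l, hmem i l⟩ : E)) =
          C i l * ((A γ).map (algebraMap ℚ ℝ)) l j := by
        intro l
        rw [map_smul, Rat.smul_def, mul_comm]
        rfl
      have e2 : ∀ l, (Submodule.subtype E) ((B γ i l) • (⟨C l j, hmem l j⟩ : E)) =
          ((B γ).map (algebraMap ℚ ℝ)) i l * C l j := by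
        intro l
        rw [map_smul, Rat.smul_def]
        rfl
      rw [Finset.sum_congr rfl fun l _ => e1 l, Finset.sum_congr rfl fun l _ => e2 l]
      exact h1
    have h3 := congrArg (fun v => b.repr v k) h2
    simp only [map_sum, map_smul, Finsupp.coe_finsetSum, Finset.sum_apply, Finsupp.smul_apply,
      smul_eq_mul] at h3
    rw [Finset.sum_congr rfl fun l _ => mul_comm (Ci k i l) (A γ l j)]
    exact h3
  let M : Matrix P P (MvPolynomial (Fin n) ℚ) :=
    Matrix.of fun i j => ∑ k, MvPolynomial.X k * MvPolynomial.C (Ci k i j)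
  have hM : M.det ≠ 0 := by
    intro h0
    apply hC
    have h1 : (MvPolynomial.aeval (fun k => ((b k : E) : ℝ)) M.det) = C.det := by
      have h2 : (MvPolynomial.aeval (fun k => ((b k : E) : ℝ)) :
          MvPolynomial (Fin n) ℚ →ₐ[ℚ] ℝ) M.det =
          ((MvPolynomial.aeval (fun k => ((b k : E) : ℝ)) :
          MvPolynomial (Fin n) ℚ →ₐ[ℚ] ℝ).mapMatrix M).det := AlgHom.map_det _ _
      rw [h2]
      congr 1
      ext i j
      rw [AlgHom.mapMatrix_apply, Matrix.map_apply, hCi i j]
      show (MvPolynomial.aeval (fun k => ((b k : E) : ℝ)))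
        (∑ k, MvPolynomial.X k * MvPolynomial.C (Ci k i j)) = _
      rw [map_sum]
      refine Finset.sum_congr rfl fun k _ => ?_
      rw [map_mul, MvPolynomial.aeval_X, MvPolynomial.aeval_C]
      rfl
    rw [← h1, h0, map_zero]
  obtain ⟨q, hq⟩ : ∃ q : Fin n → ℚ, MvPolynomial.eval q M.det ≠ 0 := by
    by_contra hne
    push Not at hne
    apply hM
    apply MvPolynomial.funext
    intro x
    rw [hne x, map_zero]
  refine ⟨Matrix.of fun i j => ∑ k, q k * Ci k i j, ?_, fun γ => ?_⟩
  · have h2 : MvPolynomial.eval q M.det = ((MvPolynomial.eval q).mapMatrix M).det :=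
      RingHom.map_det _ _
    rw [h2] at hq
    have h3 : (MvPolynomial.eval q).mapMatrix M = Matrix.of fun i j => ∑ k, q k * Ci k i j := by
      ext i j
      rw [RingHom.mapMatrix_apply, Matrix.map_apply]
      show (MvPolynomial.eval q) (∑ k, MvPolynomial.X k * MvPolynomial.C (Ci k i j)) = _
      rw [map_sum]
      refine Finset.sum_congr rfl fun k _ => ?_
      rw [map_mul, MvPolynomial.eval_X, MvPolynomial.eval_C]
    rw [h3] at hq
    exact hq
  · have h4 : (Matrix.of fun i j => ∑ k, q k * Ci k i j) = ∑ k, q k • Ci k := by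
      ext i j
      rw [Matrix.sum_apply]
      rfl
    rw [h4, Finset.sum_mul, Finset.mul_sum]
    refine Finset.sum_congr rfl fun k _ => ?_
    rw [Matrix.smul_mul, Matrix.mul_smul, hcomm]

end Pool.Agent.RS3
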