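import Pool.Agent.Lib_helper17.RS.P_CN
import Pool.Agent.Lib_helper17.RS.P_AD1
import Pool.Agent.Lib_helper35.RS3.P_ND
import Pool.Agent.Lib_helper27.RS3.Defs3

/-!
Block FXE: the matrix `log ∘ φ⁻¹`. Uses `nd_mat` (block ND).
-/

namespace Pool.Agent.RS3

set_option linter.unusedSectionVars false

open Pool.Agent.RSK Pool.Agent.RS2
open NumberField IsDedekindDomain Filter Topology Complex

/-! ### `S`-units in a basis -/

section fxe1

variable {k : Type} [Field k] [NumberField k] {S T : Finset (HeightOneSpectrum (𝓞 k))} {n : ℕ}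
  (b : Module.Basis (Fin n) ℤ (Additive (Un S T)))

/-- the unit with given coordinates -/
noncomputable def fxeU (y : Option (Fin n) → ℤ) : Additive (Un S T) := ∑ i, y (some i) • b i

/-- the unit with given coordinates -/
noncomputable def fxeV (y : Option (Fin n) → ℤ) : kˣ := ((Additive.toMul (fxeU b y) : Un S T) : kˣ)

theorem fxeV_mem (y : Option (Fin n) → ℤ) : fxeV b y ∈ Un S T := Subtype.prop _

theorem fxe_zpow (W : Pl k) (u : kˣ) (a : ℤ) : lg W ((u ^ a : kˣ) : k) = a * lg W (u : k) := by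
  have hnat : ∀ (v : kˣ) (l : ℕ), lg W ((v ^ l : kˣ) : k) = l * lg W (v : k) := by
    intro v l
    induction l with
    | zero => rw [pow_zero, Units.val_one, lg_one, Nat.cast_zero, zero_mul]
    | succ l ih =>
      rw [pow_succ, Units.val_mul, lg_mul W (Units.ne_zero _) (Units.ne_zero _), ih, Nat.cast_succ]
      ring
  have hinv : lg W ((u⁻¹ : kˣ) : k) = -lg W (u : k) := by
    have h := lg_mul W (u⁻¹).ne_zero u.ne_zero
    rw [← Units.val_mul, inv_mul_cancel, Units.val_one, lg_one] at h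
    linarith
  obtain ⟨l, rfl | rfl⟩ := a.eq_nat_or_neg
  · rw [zpow_natCast, hnat, Int.cast_natCast]
  · rw [zpow_neg, zpow_natCast, ← inv_pow, hnat, hinv, Int.cast_neg, Int.cast_natCast]
    ring

/-- the logarithm as a homomorphism -/
noncomputable def fxeL (W : Pl k) : Additive (Un S T) →+ ℝ where
  toFun u := lg W (((Additive.toMul u : Un S T) : kˣ) : k)
  map_zero' := lg_one W
  map_add' := fun u v => by
    show lg W ((((Additive.toMul u : Un S T) : kˣ) * ((Additive.toMul v : Un S T) : kˣ) : kˣ) : k) = _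
    rw [Units.val_mul, lg_mul W (Units.ne_zero _) (Units.ne_zero _)]

theorem fxe_sum (P : PS S) (y : Option (Fin n) → ℤ) :
    ∑ o, lmat S (bu b) P o * (y o : ℝ) = lg P.pl (fxeV b y : k) + (y none : ℝ) := by
  rw [Fintype.sum_option]
  have h1 : lg P.pl (fxeV b y : k) = fxeL (S := S) (T := T) P.pl (fxeU b y) := rfl
  have h2 : lmat S (bu b) P none = 1 := rfl
  rw [h1, h2, one_mul, add_comm]
  congr 1
  unfold fxeU
  rw [map_sum]
  apply Finset.sum_congr rfl
  intro i _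
  rw [map_zsmul, zsmul_eq_mul, mul_comm]
  rfl

theorem fxe_repr {u : kˣ} (hu : u ∈ Un S T) (s : ℤ) :
    ∃ y : Option (Fin n) → ℤ, fxeV b y = u ∧ y none = s := by
  refine ⟨fun o => o.elim s (fun i => b.repr (Additive.ofMul (⟨u, hu⟩ : Un S T)) i), ?_, rfl⟩
  unfold fxeV fxeU
  have h := b.sum_repr (Additive.ofMul (⟨u, hu⟩ : Un S T))
  show ((Additive.toMul (∑ i, b.repr (Additive.ofMul (⟨u, hu⟩ : Un S T)) i • b i) : Un S T) : kˣ) = u
  rw [h]
  rfl

end fxe1

/-- a common denominator -/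
theorem fxe_den {Ω : Type} [Fintype Ω] (D : Matrix Ω Ω ℚ) :
    ∃ (N : ℕ) (z : Ω → Ω → ℤ), 0 < N ∧ ∀ i j, (N : ℚ) * D i j = z i j := by
  classical
  refine ⟨∏ q : Ω × Ω, (D q.1 q.2).den, fun i j => (D i j).num *
    ∏ q ∈ Finset.univ.erase (i, j), ((D q.1 q.2).den : ℤ),
    Finset.prod_pos fun q _ => (D q.1 q.2).pos, fun i j => ?_⟩
  rw [← Finset.mul_prod_erase Finset.univ (fun q : Ω × Ω => (D q.1 q.2).den)
    (Finset.mem_univ (i, j))]
  push_cast
  have h1 : ((D i j).den : ℚ) * D i j = (D i j).num := by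
    rw [mul_comm]
    exact Rat.mul_den_eq_num _
  rw [← h1]
  ring

section FLD

variable {F₀ F H : Type} [Field F₀] [NumberField F₀] [Field F] [NumberField F] [Field H]
  [NumberField H] [Algebra F₀ F] [Algebra F₀ H] [Algebra F H] [IsScalarTower F₀ F H]
  [IsGalois F₀ H] [IsGalois F H] {S₀ T₀ : Finset (HeightOneSpectrum (𝓞 F₀))}

theorem fx_exists (hST : Disjoint S₀ T₀) (htf : TFree (ovr H S₀) (ovr H T₀)) :
    ∃ (M : Matrix (PS (ovr H S₀)) (PS (ovr H S₀)) ℝ) (N : ℕ), IsFX S₀ T₀ M N := by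
  classical
  have hST' : Disjoint (ovr H S₀) (ovr H T₀) := by
    rw [Finset.disjoint_left] at hST ⊢
    intro W h1 h2
    exact hST (mem_ovr.1 h1) (mem_ovr.1 h2)
  obtain ⟨n, ⟨b⟩⟩ := un_exists hST' htf
  obtain ⟨hn, hreg, -, -⟩ := cnf hST' htf b
  have hcard : Fintype.card (Option (Fin n)) = Fintype.card (PS (ovr H S₀)) := by
    rw [Fintype.card_option, Fintype.card_fin, hn]
  let e : Option (Fin n) ≃ PS (ovr H S₀) := Fintype.equivOfCardEq hcard
  let C : Matrix (PS (ovr H S₀)) (PS (ovr H S₀)) ℝ :=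
    Matrix.of fun P Q => lmat (ovr H S₀) (bu b) P (e.symm Q)
  have hC : C.det ≠ 0 := by
    have h1 : adet (lmat (ovr H S₀) (bu b)) ≠ 0 := by
      intro h
      unfold regS at hreg
      rw [h, zero_div] at hreg
      exact lt_irrefl _ hreg
    rw [adet_eq _ e] at h1
    have h2 : (Matrix.of fun i j : Option (Fin n) => lmat (ovr H S₀) (bu b) (e i) j) =
        C.submatrix e e := by
      ext i j
      show _ = lmat (ovr H S₀) (bu b) (e i) (e.symm (e j))
      rw [Equiv.symm_apply_apply]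
      rfl
    rw [h2, Matrix.det_submatrix_equiv_self] at h1
    intro h3
    rw [h3, abs_zero] at h1
    exact h1 rfl
  have hCs : ∀ (P : PS (ovr H S₀)) (y : Option (Fin n) → ℤ),
      ∑ Q, C P Q * (y (e.symm Q) : ℝ) = lg P.pl (fxeV b y : H) + (y none : ℝ) := by
    intro P y
    rw [← fxe_sum, ← Equiv.sum_comp e.symm]
    rfl
  -- the action in coordinates
  have hact : ∀ (γ : H ≃ₐ[F₀] H) (o : Option (Fin n)), ∃ a : Option (Fin n) → ℤ,
      ∀ P : PS (ovr H S₀), lg P.pl (fxeV b a : H) + (a none : ℝ) =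
        lmat (ovr H S₀) (bu b) (acH H S₀ γ⁻¹ P) o := by
    intro γ o
    rcases o with _ | i
    · refine ⟨fun o => o.elim 1 (fun _ => 0), fun P => ?_⟩
      have h1 : fxeV b (fun o : Option (Fin n) => o.elim (1 : ℤ) (fun _ => 0)) = 1 := by
        unfold fxeV fxeU
        have h2 : ∑ i : Fin n, ((fun o : Option (Fin n) => o.elim (1 : ℤ) (fun _ => 0)) (some i)) •
            b i = 0 := by
          apply Finset.sum_eq_zero
          intro i _
          show (0 : ℤ) • b i = 0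
          rw [zero_smul]
        rw [h2]
        rfl
      rw [h1, Units.val_one, lg_one, zero_add]
      show ((1 : ℤ) : ℝ) = 1
      rw [Int.cast_one]
    · have hmem : γ • bu b i ∈ Un (ovr H S₀) (ovr H T₀) := un_smul γ (Subtype.prop _)
      obtain ⟨y, hy1, hy2⟩ := fxe_repr b hmem 0
      refine ⟨y, fun P => ?_⟩
      rw [hy1, hy2]
      have h1 := lg_act γ (acH H S₀ γ⁻¹ P).pl (bu b i : H)
      have h2 : act γ (acH H S₀ γ⁻¹ P).pl = P.pl := by
        rw [acH_pl, ← act_mul, mul_inv_cancel, act_one]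
      rw [h2] at h1
      rw [Int.cast_zero, add_zero]
      exact h1
  choose a ha using hact
  let A : (H ≃ₐ[F₀] H) → Matrix (PS (ovr H S₀)) (PS (ovr H S₀)) ℚ := fun γ =>
    Matrix.of fun Q Q' => (a γ (e.symm Q') (e.symm Q) : ℚ)
  let B : (H ≃ₐ[F₀] H) → Matrix (PS (ovr H S₀)) (PS (ovr H S₀)) ℚ := fun γ =>
    Matrix.of fun P Q => if Q = acH H S₀ γ⁻¹ P then 1 else 0
  have hCA : ∀ γ, C * (A γ).map (algebraMap ℚ ℝ) = (B γ).map (algebraMap ℚ ℝ) * C := by
    intro γ
    ext P Q'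
    rw [Matrix.mul_apply, Matrix.mul_apply]
    have h1 : ∀ Q, C P Q * (A γ).map (algebraMap ℚ ℝ) Q Q' =
        C P Q * (a γ (e.symm Q') (e.symm Q) : ℝ) := by
      intro Q
      congr 1
    rw [Finset.sum_congr rfl (fun Q _ => h1 Q), hCs P (a γ (e.symm Q')), ha]
    have h2 : ∀ Q, (B γ).map (algebraMap ℚ ℝ) P Q * C Q Q' =
        if Q = acH H S₀ γ⁻¹ P then C Q Q' else 0 := by
      intro Q
      show algebraMap ℚ ℝ (if Q = acH H S₀ γ⁻¹ P then 1 else 0) * C Q Q' = _
      split_ifs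
      · rw [map_one, one_mul]
      · rw [map_zero, zero_mul]
    rw [Finset.sum_congr rfl (fun Q _ => h2 Q), Finset.sum_ite_eq' Finset.univ,
      if_pos (Finset.mem_univ _)]
    rfl
  have hfinΓ : Finite (H ≃ₐ[F₀] H) := by
    have := Module.Finite.of_restrictScalars_finite ℚ F₀ H
    infer_instance
  obtain ⟨C₀, hC₀, hC₀A⟩ := nd_mat A B C hC hCA
  have hunit : IsUnit C₀.det := isUnit_iff_ne_zero.2 hC₀
  have hDB : ∀ γ, C₀⁻¹ * B γ = A γ * C₀⁻¹ := by
    intro γ
    have h1 := hC₀A γ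
    calc C₀⁻¹ * B γ = C₀⁻¹ * (B γ * C₀) * C₀⁻¹ := by
          rw [← Matrix.mul_assoc, Matrix.mul_nonsing_inv_cancel_right _ _ hunit]
      _ = C₀⁻¹ * (C₀ * A γ) * C₀⁻¹ := by rw [h1]
      _ = A γ * C₀⁻¹ := by rw [Matrix.nonsing_inv_mul_cancel_left _ _ hunit]
  let M : Matrix (PS (ovr H S₀)) (PS (ovr H S₀)) ℝ := C * (C₀⁻¹).map (algebraMap ℚ ℝ)
  have hMB : ∀ γ, M * (B γ).map (algebraMap ℚ ℝ) = (B γ).map (algebraMap ℚ ℝ) * M := by
    intro γ
    show C * (C₀⁻¹).map (algebraMap ℚ ℝ) * (B γ).map (algebraMap ℚ ℝ) = _ * (C * _)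
    rw [Matrix.mul_assoc, ← Matrix.map_mul, hDB, Matrix.map_mul, ← Matrix.mul_assoc, hCA,
      Matrix.mul_assoc]
  obtain ⟨N, z, hN, hz⟩ := fxe_den C₀⁻¹
  refine ⟨M, N, ?_, ?_, hN, ?_, ?_⟩
  · -- invariance
    intro γ P Q
    have h1 := congrFun (congrFun (hMB γ⁻¹) P) (acH H S₀ γ Q)
    rw [Matrix.mul_apply, Matrix.mul_apply] at h1
    have h2 : ∀ R, M P R * (B γ⁻¹).map (algebraMap ℚ ℝ) R (acH H S₀ γ Q) =
        if R = Q then M P R else 0 := by
      intro R
      show M P R * algebraMap ℚ ℝ (if acH H S₀ γ Q = acH H S₀ γ⁻¹⁻¹ R then 1 else 0) = _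
      rw [inv_inv]
      by_cases h : R = Q
      · rw [if_pos h, if_pos (by rw [h]), map_one, mul_one]
      · rw [if_neg h, if_neg (fun h' => h ((acH H S₀ γ).injective h').symm), map_zero, mul_zero]
    have h3 : ∀ R, (B γ⁻¹).map (algebraMap ℚ ℝ) P R * M R (acH H S₀ γ Q) =
        if R = acH H S₀ γ P then M R (acH H S₀ γ Q) else 0 := by
      intro R
      show algebraMap ℚ ℝ (if R = acH H S₀ γ⁻¹⁻¹ P then 1 else 0) * _ = _
      rw [inv_inv]
      split_ifs
      · rw [map_one, one_mul]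
      · rw [map_zero, zero_mul]
    rw [Finset.sum_congr rfl (fun R _ => h2 R), Finset.sum_congr rfl (fun R _ => h3 R),
      Finset.sum_ite_eq' Finset.univ, Finset.sum_ite_eq' Finset.univ, if_pos (Finset.mem_univ _),
      if_pos (Finset.mem_univ _)] at h1
    exact h1.symm
  · -- injectivity
    intro x hx
    have h1 : M.det ≠ 0 := by
      show (C * (C₀⁻¹).map (algebraMap ℚ ℝ)).det ≠ 0
      rw [Matrix.det_mul]
      apply mul_ne_zero hC
      have h2 : ((C₀⁻¹).map (algebraMap ℚ ℝ)).det = algebraMap ℚ ℝ (C₀⁻¹).det :=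
        ((algebraMap ℚ ℝ).map_det _).symm
      rw [h2, Matrix.det_nonsing_inv, Ring.inverse_eq_inv']
      intro h3
      rw [map_eq_zero, inv_eq_zero] at h3
      exact hC₀ h3
    exact Matrix.eq_zero_of_mulVec_eq_zero h1 (funext hx)
  · -- integrality
    intro x
    let y : Option (Fin n) → ℤ := fun o => ∑ Q, z (e o) Q * x Q
    refine ⟨fxeV b y, fxeV_mem b y, y none, fun P => ?_⟩
    rw [← hCs P y]
    have h1 : ∀ Q, (N : ℝ) * (M P Q * (x Q : ℝ)) = ∑ R, C P R * ((z R Q : ℝ) * (x Q : ℝ)) := by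
      intro Q
      have h2 : M P Q = ∑ R, C P R * algebraMap ℚ ℝ (C₀⁻¹ R Q) := rfl
      rw [h2, Finset.sum_mul, Finset.mul_sum]
      apply Finset.sum_congr rfl
      intro R _
      have h3 : (N : ℝ) * algebraMap ℚ ℝ (C₀⁻¹ R Q) = (z R Q : ℝ) := by
        have h4 := congrArg (algebraMap ℚ ℝ) (hz R Q)
        rw [map_mul, map_natCast, map_intCast] at h4
        exact h4
      rw [← h3]
      ring
    rw [Finset.mul_sum, Finset.sum_congr rfl (fun Q _ => h1 Q), Finset.sum_comm]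
    apply Finset.sum_congr rfl
    intro R _
    rw [← Finset.mul_sum]
    congr 1
    show _ = ((∑ Q, z (e (e.symm R)) Q * x Q : ℤ) : ℝ)
    rw [Equiv.apply_symm_apply]
    push_cast
    rfl
  · -- rationality
    intro u hu s
    obtain ⟨y, hy1, hy2⟩ := fxe_repr b hu s
    refine ⟨fun Q => ∑ R, C₀ Q R * (y (e.symm R) : ℚ), fun P => ?_⟩
    rw [← hy1, ← hy2, ← hCs P y]
    have h1 : M * C₀.map (algebraMap ℚ ℝ) = C := by
      show C * (C₀⁻¹).map (algebraMap ℚ ℝ) * C₀.map (algebraMap ℚ ℝ) = C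
      rw [Matrix.mul_assoc, ← Matrix.map_mul, Matrix.nonsing_inv_mul _ hunit,
        Matrix.map_one _ (map_zero _) (map_one _), Matrix.mul_one]
    have h2 : ∀ R, C P R = ∑ Q, M P Q * algebraMap ℚ ℝ (C₀ Q R) := by
      intro R
      rw [← h1, Matrix.mul_apply]
      rfl
    have h3 : ∀ R, C P R * (y (e.symm R) : ℝ) =
        ∑ Q, M P Q * (algebraMap ℚ ℝ (C₀ Q R) * (y (e.symm R) : ℝ)) := by
      intro R
      rw [h2, Finset.sum_mul]
      apply Finset.sum_congr rfl
      intro Q _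
      ring
    rw [Finset.sum_congr rfl (fun R _ => h3 R), Finset.sum_comm]
    apply Finset.sum_congr rfl
    intro Q _
    rw [← Finset.mul_sum]
    congr 1
    push_cast
    rfl

end FLD

end Pool.Agent.RS3
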