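import Pool.Agent.Lib_helper27.RS3.Defs3

/-!
# RS3, block REA: the determinant on the invariants by evaluation at representatives
-/

namespace Pool.Agent.RS3

/-- an invariant matrix maps invariant functions to invariant functions -/
theorem rea_map {Γ : Type} [Group Γ] {Ω : Type} [Fintype Ω] (κ : Γ →* Equiv.Perm Ω)
    {M : Matrix Ω Ω ℝ} (hM : MIv κ M) (U : Subgroup Γ) :
    ∀ x ∈ ivt ℝ κ U, Matrix.mulVecLin M x ∈ ivt ℝ κ U := by
  intro x hx u hu ω
  simp only [Matrix.mulVecLin_apply, Matrix.mulVec, dotProduct]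
  rw [← Equiv.sum_comp (κ u) fun ω' => M (κ u ω) ω' * x ω']
  refine Finset.sum_congr rfl fun ω' _ => ?_
  rw [hM u ω ω', hx u hu ω']

/-- functions invariant under `U` are functions on the set `Q` of orbits -/
noncomputable def reaE {Γ : Type} [Group Γ] {Ω Q : Type} (κ : Γ →* Equiv.Perm Ω)
    (U : Subgroup Γ) (pr : Ω → Q) (hpr : ∀ ω ω', pr ω = pr ω' ↔ ∃ u ∈ U, κ u ω = ω')
    (s : Q → Ω) (hs : ∀ q, pr (s q) = q) : ivt ℝ κ U ≃ₗ[ℝ] (Q → ℝ) where
  toFun x := fun q => x.1 (s q)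
  map_add' x y := rfl
  map_smul' c x := rfl
  invFun y := ⟨fun ω => y (pr ω), by
    intro u hu ω
    show y (pr (κ u ω)) = y (pr ω)
    rw [(hpr ω (κ u ω)).2 ⟨u, hu, rfl⟩]⟩
  left_inv x := by
    apply Subtype.ext
    funext ω
    show x.1 (s (pr ω)) = x.1 ω
    obtain ⟨u, hu, h⟩ := (hpr (s (pr ω)) ω).1 (hs (pr ω))
    rw [← x.2 u hu (s (pr ω)), h]
  right_inv y := by
    funext q
    show y (pr (s q)) = y q
    rw [hs]

/-- `pr` identifies the `U`-orbits of `Ω` with `Q`, `s` is a section. -/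
theorem dt_eval {Γ : Type} [Group Γ] {Ω Q : Type} [Fintype Ω] [Fintype Q] [DecidableEq Q]
    (κ : Γ →* Equiv.Perm Ω) {M : Matrix Ω Ω ℝ} (hM : MIv κ M) (U : Subgroup Γ) (pr : Ω → Q)
    (hpr : ∀ ω ω', pr ω = pr ω' ↔ ∃ u ∈ U, κ u ω = ω') (s : Q → Ω) (hs : ∀ q, pr (s q) = q)
    (x : Q → Ω → ℝ) (hx : ∀ q, x q ∈ ivt ℝ κ U) :
    Module.finrank ℝ (ivt ℝ κ U) = Fintype.card Q ∧
      Matrix.det (Matrix.of fun q q' => ∑ ω, M (s q) ω * x q' ω) =
        dt κ M U * Matrix.det (Matrix.of fun q q' => x q' (s q)) := by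
  refine ⟨?_, ?_⟩
  · rw [(reaE κ U pr hpr s hs).finrank_eq, Module.finrank_pi]
  · have h := rea_map κ hM U
    have hdt : dt κ M U = LinearMap.det ((Matrix.mulVecLin M).restrict h) := by
      unfold dt
      exact dif_pos h
    rw [hdt, ← LinearMap.det_conj _ (reaE κ U pr hpr s hs), ← LinearMap.det_toMatrix',
      ← Matrix.det_mul]
    congr 1
    ext q q'
    have h2 : (LinearMap.toMatrix' ((reaE κ U pr hpr s hs : ivt ℝ κ U →ₗ[ℝ] (Q → ℝ)) ∘ₗ
        ((Matrix.mulVecLin M).restrict h) ∘ₗ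
        ((reaE κ U pr hpr s hs).symm : (Q → ℝ) →ₗ[ℝ] ivt ℝ κ U))).mulVec
          (fun q => x q' (s q)) q = ∑ ω, M (s q) ω * x q' ω := by
      rw [LinearMap.toMatrix'_mulVec]
      have h3 : (reaE κ U pr hpr s hs).symm (fun q => x q' (s q)) = ⟨x q', hx q'⟩ := by
        rw [LinearEquiv.symm_apply_eq]
        rfl
      simp only [LinearMap.comp_apply, LinearEquiv.coe_coe, h3]
      rfl
    rw [Matrix.of_apply, ← h2]
    rfl

end Pool.Agent.RS3
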