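import Pool.Agent.Lib_helper27.RS3.Defs3
import Pool.Agent.Lib_helper17.RS.P_TW
import Pool.Agent.Lib_helper17.RS.P_UP1
import Pool.Agent.Lib_helper17.RS.P_UP2

/-!
# RS3: block REB (the places of a fixed field)
-/

namespace Pool.Agent.RS3

set_option linter.unusedSectionVars false

open Pool.Agent.RSK Pool.Agent.RS2
open NumberField IsDedekindDomain Filter Topology Complex

section REB

variable {F₀ H : Type} [Field F₀] [NumberField F₀] [Field H]
  [NumberField H] [Algebra F₀ H]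

/-- the place below -/
noncomputable def reb_pr (S₀ : Finset (HeightOneSpectrum (𝓞 F₀))) (U : Subgroup (H ≃ₐ[F₀] H)) :
    PS (ovr H S₀) → PS (ovr (FX U) S₀)
  | Sum.inl w => Sum.inl (w.comap (algebraMap (FX U) H))
  | Sum.inr v => Sum.inr ⟨v.1.under (𝓞 (FX U)), by
      rw [mem_ovr, tw_under]
      exact mem_ovr.1 v.2⟩

theorem reb_pl (S₀ : Finset (HeightOneSpectrum (𝓞 F₀))) (U : Subgroup (H ≃ₐ[F₀] H))
    (P : PS (ovr H S₀)) : (reb_pr S₀ U P).pl = dn (FX U) P.pl := by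
  rcases P with w | v <;> rfl

theorem reb_surj (S₀ : Finset (HeightOneSpectrum (𝓞 F₀))) (U : Subgroup (H ≃ₐ[F₀] H)) :
    Function.Surjective (reb_pr S₀ U) := by
  intro Q
  obtain ⟨W, hW⟩ := dn_surj (H := H) Q.pl
  rcases W with w | W
  · refine ⟨Sum.inl w, PS_ext ?_⟩
    rw [reb_pl]
    exact hW
  · rcases Q with q | q
    · exact absurd hW (by simp [dn, PS.pl])
    · have h1 : W.under (𝓞 (FX U)) = q.1 := Sum.inr_injective hW
      refine ⟨Sum.inr ⟨W, ?_⟩, PS_ext ?_⟩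
      · have h2 := mem_ovr.1 q.2
        rw [← h1, tw_under] at h2
        exact mem_ovr.2 h2
      · rw [reb_pl]
        exact hW

/-- an element of `U` is an automorphism over the fixed field -/
theorem reb_lift (U : Subgroup (H ≃ₐ[F₀] H)) {u : H ≃ₐ[F₀] H} (hu : u ∈ U) :
    ∃ σ : H ≃ₐ[FX U] H, σ.restrictScalars F₀ = u := by
  refine ⟨{ u with
    commutes' := fun x => ?_ }, ?_⟩
  · exact (IntermediateField.mem_fixedField_iff U (x : H)).1 x.2 u hu
  · ext x
    rfl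

theorem reb_mem [IsGalois F₀ H] (U : Subgroup (H ≃ₐ[F₀] H)) (σ : H ≃ₐ[FX U] H) :
    σ.restrictScalars F₀ ∈ U := by
  have h : (IntermediateField.fixedField U).fixingSubgroup = U :=
    IntermediateField.fixingSubgroup_fixedField U
  have h2 : σ.restrictScalars F₀ ∈ (IntermediateField.fixedField U).fixingSubgroup := by
    rw [IntermediateField.mem_fixingSubgroup_iff]
    intro x hx
    exact σ.commutes ⟨x, hx⟩
  exact h.le h2

/-- the place of `H^U` below a place of `H` above `S₀` -/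
theorem pl_fix [IsGalois F₀ H] (S₀ : Finset (HeightOneSpectrum (𝓞 F₀)))
    (U : Subgroup (H ≃ₐ[F₀] H)) :
    ∃ pr : PS (ovr H S₀) → PS (ovr (FX U) S₀), Function.Surjective pr ∧
      (∀ P, (pr P).pl = dn (FX U) P.pl) ∧
      (∀ P Q, pr P = pr Q ↔ ∃ u ∈ U, acH H S₀ u P = Q) ∧
      ∀ P, ∃ n : ℕ, 0 < n ∧ ∀ x : FX U, lg P.pl (x : H) = n * lg (pr P).pl x := by
  have hgal : IsGalois (FX U) H := IsGalois.tower_top_of_isGalois F₀ (FX U) H
  refine ⟨reb_pr S₀ U, reb_surj S₀ U, reb_pl S₀ U, fun P Q => ⟨fun h => ?_, ?_⟩, fun P => ?_⟩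
  · have h1 : dn (FX U) P.pl = dn (FX U) Q.pl := by
      rw [← reb_pl, ← reb_pl, h]
    obtain ⟨σ, hσ⟩ := act_trans h1
    refine ⟨σ.restrictScalars F₀, reb_mem U σ, PS_ext ?_⟩
    rw [acH_pl, act_restrict]
    exact hσ
  · rintro ⟨u, hu, rfl⟩
    obtain ⟨σ, rfl⟩ := reb_lift U hu
    apply PS_ext
    rw [reb_pl, reb_pl, acH_pl, act_restrict, dn_act]
  · obtain ⟨n, hn, hx⟩ := lg_up (F := FX U) P.pl
    refine ⟨n, hn, fun x => ?_⟩
    rw [reb_pl]
    exact hx x

end REB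

end Pool.Agent.RS3
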