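import Pool.Agent.Lib_helper17.RS.P_AD2
import Pool.Agent.Lib_helper17.RS.P_UR
import Pool.Agent.Lib_helper17.RS.P_TW
import Pool.Agent.Lib_helper17.RS.P_PF
import Pool.Agent.Lib_helper35.RS3.P_REA
import Pool.Agent.Lib_helper35.RS3.P_REB
import Pool.Agent.Lib_helper27.RS3.Defs3

/-!
# RS3, block REG: the regulators of the fixed fields
-/

namespace Pool.Agent.RS3

set_option linter.unusedSectionVars false

open Pool.Agent.RSK Pool.Agent.RS2
open NumberField IsDedekindDomain Filter Topology Complex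

/-- a row can be scaled -/
theorem reg_row {P Q : Type} [Fintype P] [Fintype Q] (M : P → Q → ℝ) (c : P → ℝ) :
    adet (fun i j => c i * M i j) = |∏ i, c i| * adet M := by
  classical
  have h := adet_mul' (Matrix.diagonal c) M
  rw [Matrix.det_diagonal] at h
  rw [← h]
  congr 1
  funext i j
  rw [Finset.sum_eq_single i]
  · rw [Matrix.diagonal_apply_eq]
  · intro l _ hl
    rw [Matrix.diagonal_apply_ne' _ hl, zero_mul]
  · intro h
    exact absurd (Finset.mem_univ i) h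

/-- the linear algebra: `adet` of the logarithms at the places above -/
theorem reg_alg {P : Type} [Fintype P] {n : ℕ} (hc : Fintype.card P = n + 1)
    (L : P → Fin n → ℝ) (hL : ∀ j, ∑ i, L i j = 0) (c : P → ℕ) (hcp : ∀ i, 0 < c i) :
    ∃ t : ℚ, 0 < t ∧
      adet (fun i (j : Option (Fin n)) => j.elim 1 fun j => (c i : ℝ) * L i j) =
        t * (adet (fun i (j : Option (Fin n)) => j.elim 1 (L i)) / Fintype.card P) := by
  have h1 : (fun i (j : Option (Fin n)) => (j.elim 1 fun j => (c i : ℝ) * L i j : ℝ)) =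
      fun i j => (c i : ℝ) * j.elim ((c i : ℝ)⁻¹) (L i) := by
    funext i j
    have hi : (c i : ℝ) ≠ 0 := by
      have := hcp i
      positivity
    rcases j with _ | j
    · show (1 : ℝ) = c i * (c i : ℝ)⁻¹
      rw [mul_inv_cancel₀ hi]
    · rfl
  have h2 := adet_col L hL (by rw [Fintype.card_fin]; exact hc) (fun i => (c i : ℝ)⁻¹)
  have hP : (Fintype.card P : ℝ) ≠ 0 := by
    rw [hc]
    positivity
  have hne : Nonempty P := Fintype.card_pos_iff.1 (by omega)
  refine ⟨(∏ i, (c i : ℚ)) * ∑ i, (c i : ℚ)⁻¹, ?_, ?_⟩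
  · refine mul_pos (Finset.prod_pos fun i _ => ?_) (Finset.sum_pos (fun i _ => ?_)
      Finset.univ_nonempty)
    · exact_mod_cast hcp i
    · have := hcp i
      positivity
  · rw [h1, reg_row]
    have h3 : 0 ≤ ∏ i, (c i : ℝ) := Finset.prod_nonneg fun i _ => Nat.cast_nonneg _
    have h4 : 0 ≤ ∑ i, (c i : ℝ)⁻¹ := Finset.sum_nonneg fun i _ => inv_nonneg.2 (Nat.cast_nonneg _)
    rw [abs_of_nonneg h4] at h2
    rw [abs_of_nonneg h3]
    push_cast
    rw [mul_assoc]
    congr 1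
    rw [mul_div_assoc', eq_div_iff hP]
    exact h2

section FLD

variable {F₀ F H : Type} [Field F₀] [NumberField F₀] [Field F] [NumberField F] [Field H]
  [NumberField H] [Algebra F₀ F] [Algebra F₀ H] [Algebra F H] [IsScalarTower F₀ F H]
  [IsGalois F₀ H] [IsGalois F H] {S₀ T₀ : Finset (HeightOneSpectrum (𝓞 F₀))}

/-- rational vectors whose images are invariant are invariant -/
theorem reg_inv {M : Matrix (PS (ovr H S₀)) (PS (ovr H S₀)) ℝ} {N : ℕ} (hM : IsFX S₀ T₀ M N)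
    (U : Subgroup (H ≃ₐ[F₀] H)) (x : PS (ovr H S₀) → ℝ)
    (h : ∀ u ∈ U, ∀ P, ∑ Q, M (acH H S₀ u P) Q * x Q = ∑ Q, M P Q * x Q) :
    x ∈ ivt ℝ (acH H S₀) U := by
  intro u hu
  have h1 : (fun Q => x (acH H S₀ u Q) - x Q) = 0 := by
    refine hM.ne _ fun P => ?_
    have h2 : ∑ Q, M P Q * x (acH H S₀ u Q) = ∑ Q, M (acH H S₀ u P) Q * x Q := by
      rw [← Equiv.sum_comp (acH H S₀ u) fun Q => M (acH H S₀ u P) Q * x Q]
      refine Finset.sum_congr rfl fun Q _ => ?_
      rw [hM.inv u P Q]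
    have h3 := h u hu P
    simp only [mul_sub, Finset.sum_sub_distrib]
    rw [h2, h3, sub_self]
  intro ω
  have h2 := congrFun h1 ω
  exact sub_eq_zero.1 h2

theorem reg_fix (hST : Disjoint S₀ T₀) (htf : TFree (ovr H S₀) (ovr H T₀))
    {M : Matrix (PS (ovr H S₀)) (PS (ovr H S₀)) ℝ} {N : ℕ} (hM : IsFX S₀ T₀ M N)
    (U : Subgroup (H ≃ₐ[F₀] H)) {n : ℕ}
    (b : Module.Basis (Fin n) ℤ (Additive (Un (ovr (FX U) S₀) (ovr (FX U) T₀)))) :
    n + 1 = Module.finrank ℝ (ivt ℝ (acH H S₀) U) ∧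
    ∃ q : ℚ, q ≠ 0 ∧ regS (ovr (FX U) S₀) (bu b) = q * dt (acH H S₀) M U := by
  classical
  obtain ⟨pr, hsur, hdn, hpr, hlg⟩ := pl_fix S₀ U
  -- the hypotheses of the class number formula for the fixed field
  have hd : Disjoint (ovr (FX U) S₀) (ovr (FX U) T₀) := by
    rw [Finset.disjoint_left]
    intro W h1 h2
    rw [mem_ovr] at h1 h2
    exact Finset.disjoint_left.1 hST h1 h2
  have htf' : TFree (ovr (FX U) S₀) (ovr (FX U) T₀) := by
    refine RSK.tf_F (H := H) ?_
    rw [ovr_ovr, ovr_ovr]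
    exact htf
  obtain ⟨hcard, hreg, -, -⟩ := cnf hd htf' b
  -- a section of `pr`
  choose s hs using hsur
  have hfr : Module.finrank ℝ (ivt ℝ (acH H S₀) U) = Fintype.card (PS (ovr (FX U) S₀)) :=
    (dt_eval (acH H S₀) hM.inv U pr hpr s hs (fun _ => 0) fun _ => Submodule.zero_mem _).1
  refine ⟨by rw [hfr, hcard], ?_⟩
  -- the units of the fixed field in `H`
  have hmem : ∀ i, Units.map (algebraMap (FX U) H : FX U →* H) (bu b i) ∈
      Un (ovr H S₀) (ovr H T₀) := by
    intro i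
    have h1 := (un_map (H := H) (bu b i)).2 (Additive.toMul (b i) :
      Un (ovr (FX U) S₀) (ovr (FX U) T₀)).2
    rwa [ovr_ovr, ovr_ovr] at h1
  choose X hX using fun i => hM.rat _ (hmem i) 0
  obtain ⟨X₀, hX₀⟩ := hM.rat 1 (Subgroup.one_mem _) 1
  set Xo : Option (Fin n) → PS (ovr H S₀) → ℚ := fun o => o.elim X₀ X with hXo
  set V : Option (Fin n) → PS (ovr H S₀) → ℝ :=
    fun o P => o.elim 1 fun i => lg P.pl (((bu b i : (FX U)ˣ) : FX U) : H) with hV
  have hval : ∀ o P, ∑ Q, M P Q * (Xo o Q : ℝ) = V o P := by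
    intro o P
    rcases o with _ | i
    · have h1 := hX₀ P
      rw [Units.val_one, lg_one, zero_add, Int.cast_one] at h1
      exact h1
    · have h1 := hX i P
      rw [Int.cast_zero, add_zero] at h1
      exact h1
  have hVinv : ∀ o, ∀ u ∈ U, ∀ P, V o (acH H S₀ u P) = V o P := by
    intro o u hu P
    rcases o with _ | i
    · rfl
    · show lg (acH H S₀ u P).pl (((bu b i : (FX U)ˣ) : FX U) : H) =
        lg P.pl (((bu b i : (FX U)ˣ) : FX U) : H)
      rw [acH_pl]
      have h1 : u (((bu b i : (FX U)ˣ) : FX U) : H) = (((bu b i : (FX U)ˣ) : FX U) : H) :=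
        ((bu b i : (FX U)ˣ) : FX U).2 ⟨u, hu⟩
      conv_lhs => rw [← h1]
      exact lg_act u P.pl _
  have hinv : ∀ o, (fun Q => (Xo o Q : ℝ)) ∈ ivt ℝ (acH H S₀) U := by
    intro o
    refine reg_inv hM U _ fun u hu P => ?_
    rw [hval, hval, hVinv o u hu P]
  obtain ⟨g⟩ : Nonempty (Option (Fin n) ≃ PS (ovr (FX U) S₀)) :=
    Fintype.card_eq.1 (by rw [Fintype.card_option, Fintype.card_fin]; exact hcard)
  have hdet := (dt_eval (acH H S₀) hM.inv U pr hpr s hs
    (fun q Q => (Xo (g.symm q) Q : ℝ)) fun q => hinv (g.symm q)).2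
  -- the left hand side
  choose c hc hcl using fun q => hlg (s q)
  obtain ⟨t, ht, hreg2⟩ := reg_alg hcard.symm (fun q i => lg q.pl ((bu b i : (FX U)ˣ) : FX U))
    (fun i => sum_lg (Additive.toMul (b i) : Un (ovr (FX U) S₀) (ovr (FX U) T₀)).2) c hc
  have hreg3 : adet (fun (q : PS (ovr (FX U) S₀)) (j : Option (Fin n)) =>
      j.elim 1 fun j => (c q : ℝ) * lg q.pl ((bu b j : (FX U)ˣ) : FX U)) =
      t * regS (ovr (FX U) S₀) (bu b) := by
    rw [hreg2]
    congr 2
    congr 1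
    funext q o
    rcases o with _ | i
    · rfl
    · rfl
  have hlhs : |Matrix.det (Matrix.of fun q q' : PS (ovr (FX U) S₀) =>
      ∑ ω, M (s q) ω * (Xo (g.symm q') ω : ℝ))| = t * regS (ovr (FX U) S₀) (bu b) := by
    rw [← hreg3, adet_eq _ g, ← Matrix.det_submatrix_equiv_self g]
    congr 2
    ext o o'
    rw [Matrix.submatrix_apply, Matrix.of_apply, Matrix.of_apply, Equiv.symm_apply_apply, hval]
    rcases o' with _ | i
    · rfl
    · show lg (s (g o)).pl (((bu b i : (FX U)ˣ) : FX U) : H) = _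
      rw [hcl (g o), hs]
      rfl
  -- the rational determinant
  set D : ℚ := Matrix.det (Matrix.of fun q q' : PS (ovr (FX U) S₀) => Xo (g.symm q') (s q)) with hD
  have hDr : Matrix.det (Matrix.of fun q q' : PS (ovr (FX U) S₀) =>
      (Xo (g.symm q') (s q) : ℝ)) = (D : ℝ) := by
    have h1 := RingHom.map_det (algebraMap ℚ ℝ)
      (Matrix.of fun q q' : PS (ovr (FX U) S₀) => Xo (g.symm q') (s q))
    rw [← hD] at h1
    have h2 : (algebraMap ℚ ℝ) D = (D : ℝ) := rfl
    rw [← h2, h1]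
    rfl
  rw [hdet, hDr] at hlhs
  have ht' : (t : ℝ) ≠ 0 := by exact_mod_cast ht.ne'
  have hfin : regS (ovr (FX U) S₀) (bu b) = |dt (acH H S₀) M U * (D : ℝ)| / t := by
    rw [hlhs, mul_div_cancel_left₀ _ ht']
  rcases le_or_gt 0 (dt (acH H S₀) M U * (D : ℝ)) with h0 | h0
  · have h1 : regS (ovr (FX U) S₀) (bu b) = ((D / t : ℚ) : ℝ) * dt (acH H S₀) M U := by
      rw [hfin, abs_of_nonneg h0]
      push_cast
      ring
    refine ⟨D / t, ?_, h1⟩
    rintro h2
    rw [h2, Rat.cast_zero, zero_mul] at h1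
    exact hreg.ne' h1
  · have h1 : regS (ovr (FX U) S₀) (bu b) = ((-(D / t) : ℚ) : ℝ) * dt (acH H S₀) M U := by
      rw [hfin, abs_of_neg h0]
      push_cast
      ring
    refine ⟨-(D / t), ?_, h1⟩
    rintro h2
    rw [h2, Rat.cast_zero, zero_mul] at h1
    exact hreg.ne' h1

end FLD

end Pool.Agent.RS3
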