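import Pool.Agent.Lib_helper17.RS.P_UR
import Pool.Agent.Lib_helper35.RS3.P_REG
import Pool.Agent.Lib_helper27.RS3.Defs3

/-!
# Rubin's conjecture for abelian `p`-groups, block ZL: the leading term of `zY`
-/

namespace Pool.Agent.RS3

set_option linter.unusedSectionVars false

open Pool.Agent.RSK Pool.Agent.RS2
open NumberField IsDedekindDomain Filter Topology Complex

section FLD

variable {F₀ F H : Type} [Field F₀] [NumberField F₀] [Field F] [NumberField F] [Field H]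
  [NumberField H] [Algebra F₀ F] [Algebra F₀ H] [Algebra F H] [IsScalarTower F₀ F H]
  [IsGalois F₀ H] [IsGalois F H] {S₀ T₀ : Finset (HeightOneSpectrum (𝓞 F₀))}

omit [IsGalois F₀ H] in
theorem zl_under (U : Subgroup (H ≃ₐ[F₀] H)) (W : HeightOneSpectrum (𝓞 H)) :
    (W.under (𝓞 (FX U))).under (𝓞 F₀) = W.under (𝓞 F₀) := by
  apply HeightOneSpectrum.ext
  ext x
  show algebraMap (𝓞 (FX U)) (𝓞 H) (algebraMap (𝓞 F₀) (𝓞 (FX U)) x) ∈ W.asIdeal ↔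
    algebraMap (𝓞 F₀) (𝓞 H) x ∈ W.asIdeal
  have h : algebraMap (𝓞 (FX U)) (𝓞 H) (algebraMap (𝓞 F₀) (𝓞 (FX U)) x) =
    algebraMap (𝓞 F₀) (𝓞 H) x := rfl
  rw [h]

omit [IsGalois F₀ H] in
theorem zl_ovr (U : Subgroup (H ≃ₐ[F₀] H)) (S : Finset (HeightOneSpectrum (𝓞 F₀))) :
    ovr H (ovr (FX U) S) = ovr H S := by
  ext W
  rw [mem_ovr, mem_ovr, mem_ovr, zl_under]

omit [IsGalois F₀ H] in
theorem zl_tfree (htf : TFree (ovr H S₀) (ovr H T₀)) (U : Subgroup (H ≃ₐ[F₀] H)) :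
    TFree (ovr (FX U) S₀) (ovr (FX U) T₀) := by
  apply RSK.tf_F (F := FX U) (H := H)
  rw [zl_ovr, zl_ovr]
  exact htf

omit [IsGalois F₀ H] in
theorem zl_disj (hST : Disjoint S₀ T₀) (U : Subgroup (H ≃ₐ[F₀] H)) :
    Disjoint (ovr (FX U) S₀) (ovr (FX U) T₀) := by
  rw [Finset.disjoint_left]
  intro W h1 h2
  rw [mem_ovr] at h1 h2
  exact Finset.disjoint_left.1 hST h1 h2

/-- the leading term for one fixed field -/
theorem zl_one (hST : Disjoint S₀ T₀) (htf : TFree (ovr H S₀) (ovr H T₀))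
    {M : Matrix (PS (ovr H S₀)) (PS (ovr H S₀)) ℝ} {N : ℕ} (hM : IsFX S₀ T₀ M N)
    (U : Subgroup (H ≃ₐ[F₀] H)) :
    ∃ (n : ℕ) (q : ℚ) (Z : ℂ → ℂ), q ≠ 0 ∧ MeromorphicOn Z Set.univ ∧
      n + 1 = Module.finrank ℝ (ivt ℝ (acH H S₀) U) ∧
      (∀ s : ℂ, 1 < s.re → Z s = zST (ovr (FX U) S₀) (ovr (FX U) T₀) s) ∧
      Tendsto (fun s : ℂ => Z s / s ^ n) (𝓝[≠] 0) (𝓝 ((q * dt (acH H S₀) M U : ℝ) : ℂ)) := by
  have h1 := zl_disj hST U
  have h2 := zl_tfree htf U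
  obtain ⟨n, ⟨b⟩⟩ := un_exists h1 h2
  obtain ⟨-, -, hA0, Z, hZm, hZe, hZt⟩ := cnf h1 h2 b
  obtain ⟨hn, q, hq, hreg⟩ := reg_fix hST htf hM U b
  refine ⟨n, (-1) ^ ((ovr (FX U) T₀).card + 1) * (hA (ovr (FX U) S₀) (ovr (FX U) T₀) : ℚ) * q, Z,
    ?_, hZm, hn, hZe, ?_⟩
  · refine mul_ne_zero (mul_ne_zero (pow_ne_zero _ (by norm_num)) ?_) hq
    exact_mod_cast hA0.ne'
  · rw [hreg] at hZt
    have e : ((((-1) ^ ((ovr (FX U) T₀).card + 1) *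
        (hA (ovr (FX U) S₀) (ovr (FX U) T₀) : ℚ) * q : ℚ) : ℝ) * dt (acH H S₀) M U : ℝ) =
      (-1) ^ ((ovr (FX U) T₀).card + 1) * ((hA (ovr (FX U) S₀) (ovr (FX U) T₀) : ℝ) *
        (q * dt (acH H S₀) M U)) := by
      push_cast
      ring
    rw [e]
    push_cast at hZt ⊢
    exact hZt

theorem zY_lead (hST : Disjoint S₀ T₀) (htf : TFree (ovr H S₀) (ovr H T₀))
    {M : Matrix (PS (ovr H S₀)) (PS (ovr H S₀)) ℝ} {N : ℕ} (hM : IsFX S₀ T₀ M N)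
    {Y : Type} [Finite Y] (σ : (H ≃ₐ[F₀] H) →* Equiv.Perm Y) :
    ∃ (n : ℕ) (q : ℚ) (Z : ℂ → ℂ), q ≠ 0 ∧ MeromorphicOn Z Set.univ ∧
      n + Nat.card (Orb σ) = ∑ᶠ o : Orb σ, Module.finrank ℝ (ivt ℝ (acH H S₀) (ost σ o)) ∧
      (∀ s : ℂ, 1 < s.re → Z s = zY S₀ T₀ σ s) ∧
      Tendsto (fun s : ℂ => Z s / s ^ n) (𝓝[≠] 0) (𝓝 ((q * dtY (acH H S₀) M σ : ℝ) : ℂ)) := by
  classical
  have hfin : Finite (Orb σ) := Quotient.finite _
  have : Fintype (Orb σ) := Fintype.ofFinite _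
  choose n q Z hq hZm hn hZe hZt using fun o : Orb σ => zl_one hST htf hM (ost σ o)
  refine ⟨∑ o, n o, ∏ o, q o, fun s => ∏ o, Z o s, Finset.prod_ne_zero_iff.2 fun o _ => hq o,
    ?_, ?_, fun s hs => ?_, ?_⟩
  · intro z _
    exact MeromorphicAt.fun_prod fun o _ => hZm o z (Set.mem_univ z)
  · rw [finsum_eq_sum_of_fintype, Nat.card_eq_fintype_card, ← Finset.card_univ,
      Finset.card_eq_sum_ones, ← Finset.sum_add_distrib]
    exact Finset.sum_congr rfl fun o _ => hn o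
  · unfold zY
    rw [finprod_eq_prod_of_fintype]
    exact Finset.prod_congr rfl fun o _ => hZe o s hs
  · unfold dtY
    rw [finprod_eq_prod_of_fintype]
    have h1 : Tendsto (fun s : ℂ => ∏ o, (Z o s / s ^ n o)) (𝓝[≠] 0)
        (𝓝 (∏ o, ((q o * dt (acH H S₀) M (ost σ o) : ℝ) : ℂ))) :=
      tendsto_finsetProd _ fun o _ => hZt o
    have e : (((∏ o, q o : ℚ) : ℝ) * ∏ o, dt (acH H S₀) M (ost σ o) : ℝ) =
        ∏ o, ((q o : ℝ) * dt (acH H S₀) M (ost σ o)) := by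
      rw [Finset.prod_mul_distrib]
      push_cast
      rfl
    rw [e, Complex.ofReal_prod]
    refine h1.congr fun s => ?_
    rw [Finset.prod_div_distrib, Finset.prod_pow_eq_pow_sum]

end FLD

end Pool.Agent.RS3
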