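import Pool.Agent.Lib_helper35.RS3.P_TI
import Pool.Agent.Lib_helper35.RS2.P_GP
import Pool.Agent.Lib_helper17.RS.P_PF
import Pool.Agent.Lib_helper17.RS.P_XA1
import Pool.Agent.Lib_helper17.RS.P_TW
import Pool.Agent.Lib_helper17.RS.P_RF1
import Pool.Agent.Lib_helper17.RS.P_CS
import Pool.Agent.Lib_helper17.RS.P_UP2
import Pool.Agent.Lib_helper17.RS.P_LL
import Pool.Agent.Lib_helper17.RS.P_EB
import Pool.Agent.Lib_helper35.RS3.P_ART
import Pool.Agent.Lib_helper35.RS3.P_CFI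
import Pool.Agent.Lib_helper35.RS3.P_DTN
import Pool.Agent.Lib_helper35.RS3.P_FXE
import Pool.Agent.Lib_helper35.RS3.P_ZL
import Pool.Agent.Lib_helper27.RS3.Defs3

/-!
# Rational Stark for a layer: units with given logarithms
-/

namespace Pool.Agent.RS3

set_option linter.unusedSectionVars false

open Pool.Agent.RSK Pool.Agent.RS2
open NumberField IsDedekindDomain Filter Topology Complex

section A

variable {k : Type} [Field k] [NumberField k]

/-- a unit with trivial logarithms is trivial -/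
theorem stk_uni {S T : Finset (HeightOneSpectrum (𝓞 k))} (htf : TFree S T) {u : kˣ}
    (hu : u ∈ Un S T) (h : ∀ P : PS S, lg P.pl (u : k) = 0) : u = 1 := by
  classical
  have h1 : ∀ v, ordv v (u : k) = 0 := by
    intro v
    by_cases hv : v ∈ S
    · have h2 := h (Sum.inr ⟨v, hv⟩)
      have h3 : lg (Sum.inr v) (u : k) = 0 := h2
      rw [lg_ordv v u.ne_zero] at h3
      have h4 : 0 < Real.log (nv v) := Real.log_pos (by
        have := nv_two_le v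
        exact_mod_cast (lt_of_lt_of_le (by norm_num) this))
      rcases mul_eq_zero.1 h3 with h5 | h5
      · have h6 : (ordv v (u : k) : ℝ) = 0 := by linarith [neg_eq_zero.1 h5]
        exact_mod_cast h6
      · exact absurd h5 h4.ne'
    · exact (xa1_ordv_iff v u.ne_zero).mpr (hu.1 v hv)
  obtain ⟨e, he⟩ := (dvx_zero_iff u).1 h1
  have h2 : e ∈ NumberField.Units.torsion k := by
    rw [NumberField.Units.mem_torsion]
    intro w
    have h3 : (w.mult : ℝ) * Real.log (w (u : k)) = 0 := h (Sum.inl w)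
    have h4 : Real.log (w (u : k)) = 0 := by
      rcases mul_eq_zero.1 h3 with h5 | h5
      · exact absurd h5 (by
          have := NumberField.InfinitePlace.mult_pos (w := w)
          positivity)
      · exact h5
    have h5 : w (u : k) = 1 := by
      have h6 : 0 < w (u : k) := NumberField.InfinitePlace.pos_iff.2 u.ne_zero
      exact Real.eq_one_of_pos_of_log_eq_zero h6 h4
    rw [← he] at h5
    exact h5
  obtain ⟨n, hn, hn'⟩ := isOfFinOrder_iff_pow_eq_one.1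
    ((CommGroup.mem_torsion _).1 h2)
  refine htf u hu n hn ?_
  rw [← he, ← map_pow, hn', map_one]

theorem stk_uni2 {S T : Finset (HeightOneSpectrum (𝓞 k))} (htf : TFree S T) {u : kˣ}
    (hu : u ∈ Un S T) {s : ℝ} (h : ∀ P : PS S, lg P.pl (u : k) = s) : u = 1 := by
  have h1 := sum_lg hu
  rw [Finset.sum_congr rfl fun P _ => h P, Finset.sum_const, nsmul_eq_mul] at h1
  have h2 : s = 0 := by
    rcases mul_eq_zero.1 h1 with h3 | h3
    · have : Nonempty (PS S) := ⟨Sum.inl (Classical.arbitrary _)⟩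
      have : (Finset.univ : Finset (PS S)).card ≠ 0 := by
        rw [Finset.card_univ]
        exact Fintype.card_ne_zero
      exact absurd (Nat.cast_eq_zero.1 h3) this
    · exact h3
  subst h2
  exact stk_uni htf hu h

end A

section B

variable {F₀ H : Type} [Field F₀] [NumberField F₀] [Field H] [NumberField H] [Algebra F₀ H]
  {S₀ T₀ : Finset (HeightOneSpectrum (𝓞 F₀))} {M : Matrix (PS (ovr H S₀)) (PS (ovr H S₀)) ℝ}
  {N : ℕ}

/-- `u` is a unit with the logarithms `N M(x)`, up to a constant. -/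
def RelU (T₀ : Finset (HeightOneSpectrum (𝓞 F₀))) (M : Matrix (PS (ovr H S₀)) (PS (ovr H S₀)) ℝ)
    (N : ℕ) (x : PS (ovr H S₀) → ℤ) (u : Hˣ) : Prop :=
  u ∈ Un (ovr H S₀) (ovr H T₀) ∧ ∃ s : ℝ, ∀ P : PS (ovr H S₀),
    N * ∑ Q, M P Q * (x Q : ℝ) = lg P.pl (u : H) + s

theorem relU_uniq (htf : TFree (ovr H S₀) (ovr H T₀)) {x : PS (ovr H S₀) → ℤ} {u v : Hˣ}
    (hu : RelU T₀ M N x u) (hv : RelU T₀ M N x v) : u = v := by
  obtain ⟨hu, s, hs⟩ := hu
  obtain ⟨hv, t, ht⟩ := hv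
  have h : u * v⁻¹ = 1 := by
    refine stk_uni2 htf ((Un _ _).mul_mem hu ((Un _ _).inv_mem hv)) (s := t - s) fun P => ?_
    have h1 := hs P
    have h2 := ht P
    have h3 : lg P.pl ((u * v⁻¹ : Hˣ) : H) + lg P.pl (v : H) = lg P.pl (u : H) := by
      rw [← lg_mul _ (Units.ne_zero _) v.ne_zero, ← Units.val_mul, inv_mul_cancel_right]
    linarith
  exact mul_inv_eq_one.1 h

theorem relU_zero : RelU T₀ M N (0 : PS (ovr H S₀) → ℤ) 1 :=
  ⟨(Un _ _).one_mem, 0, fun P => by simp [lg_one]⟩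

theorem relU_add {x y : PS (ovr H S₀) → ℤ} {u v : Hˣ} (hu : RelU T₀ M N x u)
    (hv : RelU T₀ M N y v) : RelU T₀ M N (x + y) (u * v) := by
  obtain ⟨hu, s, hs⟩ := hu
  obtain ⟨hv, t, ht⟩ := hv
  refine ⟨(Un _ _).mul_mem hu hv, s + t, fun P => ?_⟩
  rw [Units.val_mul, lg_mul _ u.ne_zero v.ne_zero]
  have h1 := hs P
  have h2 := ht P
  have h3 : ∑ Q, M P Q * (((x + y) Q : ℤ) : ℝ) = ∑ Q, M P Q * (x Q : ℝ) + ∑ Q, M P Q * (y Q : ℝ) := by
    rw [← Finset.sum_add_distrib]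
    refine Finset.sum_congr rfl fun Q _ => ?_
    rw [Pi.add_apply]
    push_cast
    ring
  rw [h3]
  linarith

theorem relU_sum {ι' : Type} (s : Finset ι') {x : ι' → PS (ovr H S₀) → ℤ} {u : ι' → Hˣ}
    (h : ∀ i ∈ s, RelU T₀ M N (x i) (u i)) : RelU T₀ M N (∑ i ∈ s, x i) (∏ i ∈ s, u i) := by
  classical
  induction s using Finset.induction_on with
  | empty => simpa using relU_zero
  | insert a s ha ih =>
    rw [Finset.sum_insert ha, Finset.prod_insert ha]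
    exact relU_add (h a (Finset.mem_insert_self a s))
      (ih fun i hi => h i (Finset.mem_insert_of_mem hi))

/-- the action of `σ` on functions on the places -/
noncomputable def actx (σ : H ≃ₐ[F₀] H) (x : PS (ovr H S₀) → ℤ) : PS (ovr H S₀) → ℤ :=
  fun P => x (acH H S₀ σ⁻¹ P)

theorem actx_apply (σ : H ≃ₐ[F₀] H) (x : PS (ovr H S₀) → ℤ) (P : PS (ovr H S₀)) :
    actx σ x (acH H S₀ σ P) = x P := by
  unfold actx
  rw [map_inv, Equiv.Perm.inv_def, Equiv.symm_apply_apply]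

theorem stk_un_smul (σ : H ≃ₐ[F₀] H) {u : Hˣ} (hu : u ∈ Un (ovr H S₀) (ovr H T₀)) :
    σ • u ∈ Un (ovr H S₀) (ovr H T₀) := un_smul σ hu

theorem relU_act (hM : MIv (acH H S₀) M) (σ : H ≃ₐ[F₀] H) {x : PS (ovr H S₀) → ℤ} {u : Hˣ}
    (hu : RelU T₀ M N x u) : RelU T₀ M N (actx σ x) (σ • u) := by
  obtain ⟨hu, s, hs⟩ := hu
  refine ⟨stk_un_smul σ hu, s, fun P => ?_⟩
  obtain ⟨P, rfl⟩ := (acH H S₀ σ).surjective P
  have h1 : ((σ • u : Hˣ) : H) = σ (u : H) := rfl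
  rw [acH_pl, h1, lg_act, ← hs P]
  congr 1
  rw [← Equiv.sum_comp (acH H S₀ σ)]
  refine Finset.sum_congr rfl fun Q _ => ?_
  rw [hM σ P Q, actx_apply]

end B

end Pool.Agent.RS3

/-!
# Rational Stark for a layer: the elements `b_i`
-/

namespace Pool.Agent.RS3

set_option linter.unusedSectionVars false

open Pool.Agent.RSK Pool.Agent.RS2
open NumberField IsDedekindDomain Filter Topology Complex

section C

variable {F₀ F H : Type} [Field F₀] [NumberField F₀] [Field F] [NumberField F] [Field H]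
  [NumberField H] [Algebra F₀ F] [Algebra F₀ H] [Algebra F H] [IsScalarTower F₀ F H]
  [IsGalois F₀ H] [IsGalois F H] {S₀ T₀ : Finset (HeightOneSpectrum (𝓞 F₀))}
  {G : Type} [CommGroup G] [Fintype G] {ι : G ≃* (H ≃ₐ[F] H)} {r : ℕ} {w : Fin r → Pl H}
  {fr : HeightOneSpectrum (𝓞 F) → G} {p j m : ℕ} {P : Subgroup G}
  {M : Matrix (PS (ovr H S₀)) (PS (ovr H S₀)) ℝ} {N : ℕ}
  {θ : (ZMod (p ^ m))ˣ →* (H ≃ₐ[F₀] H)} {ρ : (H ≃ₐ[F₀] H) →* Equiv.Perm (ZMod (p ^ m))}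
  {ρ' : (H ≃ₐ[F₀] H) →* Equiv.Perm (ZMod (p ^ (m - 1)))} {g₀ : G}

theorem rst_inj (F₀ : Type) {F H : Type} [Field F₀] [Field F] [Field H] [Algebra F₀ F]
    [Algebra F₀ H] [Algebra F H] [IsScalarTower F₀ F H] {G : Type} [CommGroup G]
    (ι : G ≃* (H ≃ₐ[F] H)) : Function.Injective (rst F₀ ι) := by
  intro g h hgh
  apply ι.injective
  ext x
  exact congrArg (fun f : H ≃ₐ[F₀] H => f x) hgh

theorem stk_gen (hA : AffD p m j (rst F₀ ι g₀) θ ρ ρ') (hC : CycP p j P) (g : G) :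
    g ∈ Subgroup.zpowers g₀ := by
  have h1 : orderOf g₀ = p ^ j := by
    rw [← hA.ord, orderOf_injective _ (rst_inj F₀ ι)]
  have h2 : Subgroup.zpowers g₀ = ⊤ := by
    refine Subgroup.eq_top_of_card_eq _ ?_
    rw [Nat.card_zpowers, h1, hC.card]
  rw [h2]
  exact Subgroup.mem_top g

theorem stk_conj (hA : AffD p m j (rst F₀ ι g₀) θ ρ ρ') (hC : CycP p j P) (σ : H ≃ₐ[F₀] H) :
    ∃ n : ℕ, ∀ g : G, σ * rst F₀ ι g = rst F₀ ι (g ^ n) * σ := by
  obtain ⟨x, a, rfl⟩ := hA.dec σ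
  refine ⟨(a : ZMod (p ^ m)).val, fun g => ?_⟩
  obtain ⟨k, rfl⟩ := (mem_powers_iff_mem_zpowers.2 (stk_gen hA hC g) : g ∈ Submonoid.powers g₀)
  have h1 : ∀ k : ℕ, θ a * (rst F₀ ι g₀) ^ k =
      ((rst F₀ ι g₀) ^ (a : ZMod (p ^ m)).val) ^ k * θ a := by
    intro k
    rw [← hA.conj a, conj_pow, inv_mul_cancel_right]
  show (rst F₀ ι g₀ ^ x * θ a) * rst F₀ ι (g₀ ^ k) = rst F₀ ι ((g₀ ^ k) ^ _) *
    (rst F₀ ι g₀ ^ x * θ a)
  rw [map_pow, mul_assoc, h1, map_pow, map_pow, ← mul_assoc, ← mul_assoc, ← pow_mul, ← pow_mul,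
    ← pow_add, ← pow_add, mul_comm k, add_comm]

/-- `δ_ω` -/
noncomputable def dl (ω : PS (ovr H S₀)) : PS (ovr H S₀) → ℤ := by
  classical exact Pi.single ω 1

theorem actx_dl (σ : H ≃ₐ[F₀] H) (ω : PS (ovr H S₀)) : actx σ (dl ω) = dl (acH H S₀ σ ω) := by
  classical
  funext Q
  unfold actx dl
  rw [Pi.single_apply, Pi.single_apply, map_inv, Equiv.Perm.inv_def]
  by_cases h : Q = acH H S₀ σ ω
  · rw [if_pos h, if_pos (by rw [h, Equiv.symm_apply_apply])]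
  · rw [if_neg h, if_neg (fun h' => h (by rw [← h', Equiv.apply_symm_apply]))]

theorem actx_add (σ : H ≃ₐ[F₀] H) (x y : PS (ovr H S₀) → ℤ) :
    actx σ (x + y) = actx σ x + actx σ y := rfl

theorem actx_sub (σ : H ≃ₐ[F₀] H) (x y : PS (ovr H S₀) → ℤ) :
    actx σ (x - y) = actx σ x - actx σ y := rfl

theorem actx_smul (σ : H ≃ₐ[F₀] H) (k : ℤ) (x : PS (ovr H S₀) → ℤ) :
    actx σ (k • x) = k • actx σ x := rfl

theorem actx_sum {ι' : Type} (s : Finset ι') (σ : H ≃ₐ[F₀] H) (x : ι' → PS (ovr H S₀) → ℤ) :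
    actx σ (∑ i ∈ s, x i) = ∑ i ∈ s, actx σ (x i) := by
  funext Q
  unfold actx
  rw [Finset.sum_apply, Finset.sum_apply]

variable [Fintype P]

/-- `p δ_ω - ∑_{h ∈ P} δ_{h ω}` -/
noncomputable def xnew (F₀ : Type) [Field F₀] [NumberField F₀] [Algebra F₀ F] [Algebra F₀ H]
    [IsScalarTower F₀ F H] {S₀ : Finset (HeightOneSpectrum (𝓞 F₀))} (ι : G ≃* (H ≃ₐ[F] H)) (p : ℕ)
    (P : Subgroup G) [Fintype P] (ω : PS (ovr H S₀)) : PS (ovr H S₀) → ℤ :=
  (p : ℤ) • dl ω - ∑ h : P, dl (acH H S₀ (rst F₀ ι (h : G)) ω)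

theorem actx_xnew (hA : AffD p m j (rst F₀ ι g₀) θ ρ ρ') (hC : CycP p j P) (σ : H ≃ₐ[F₀] H)
    (ω : PS (ovr H S₀)) : actx σ (xnew F₀ ι p P ω) = xnew F₀ ι p P (acH H S₀ σ ω) := by
  classical
  unfold xnew
  rw [actx_sub, actx_smul, actx_sum, actx_dl]
  congr 1
  obtain ⟨n, hn⟩ := stk_conj hA hC σ
  let e : P → P := fun h => ⟨(h : G) ^ n, P.pow_mem h.2 n⟩
  have he : Function.Injective e := by
    intro h h' hh
    have h1 : (h : G) ^ n = (h' : G) ^ n := congrArg Subtype.val hh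
    have h2 : σ * rst F₀ ι (h : G) = σ * rst F₀ ι (h' : G) := by rw [hn, hn, h1]
    exact Subtype.ext (rst_inj F₀ ι (mul_left_cancel h2))
  have he' : Function.Bijective e := ⟨he, Finite.surjective_of_injective he⟩
  rw [← Equiv.sum_comp (Equiv.ofBijective e he')
    (fun h : P => dl (acH H S₀ (rst F₀ ι (h : G)) (acH H S₀ σ ω)))]
  refine Finset.sum_congr rfl fun h _ => ?_
  rw [actx_dl]
  congr 1
  show acH H S₀ σ (acH H S₀ (rst F₀ ι (h : G)) ω) =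
    acH H S₀ (rst F₀ ι ((h : G) ^ n)) (acH H S₀ σ ω)
  rw [← Equiv.Perm.mul_apply, ← map_mul, hn, map_mul, Equiv.Perm.mul_apply]

theorem sum_xnew (hC : CycP p j P) (ω : PS (ovr H S₀)) :
    ∑ h : P, xnew F₀ ι p P (acH H S₀ (rst F₀ ι (h : G)) ω) = 0 := by
  classical
  unfold xnew
  rw [Finset.sum_sub_distrib, sub_eq_zero, Finset.sum_comm]
  have h1 : ∀ h' : P, ∑ h : P, dl (acH H S₀ (rst F₀ ι (h' : G)) (acH H S₀ (rst F₀ ι (h : G)) ω)) =
      ∑ h : P, dl (acH H S₀ (rst F₀ ι (h : G)) ω) := by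
    intro h'
    rw [← Equiv.sum_comp (Equiv.mulLeft h') (fun h : P => dl (acH H S₀ (rst F₀ ι (h : G)) ω))]
    refine Finset.sum_congr rfl fun h _ => ?_
    congr 1
    rw [Equiv.coe_mulLeft, Subgroup.coe_mul, map_mul, map_mul, Equiv.Perm.mul_apply]
  rw [Finset.sum_congr rfl fun h' _ => h1 h', Finset.sum_const, ← Finset.smul_sum,
    Finset.card_univ, ← Nat.card_eq_fintype_card, hC.cardP]
  rw [natCast_zsmul]

theorem sum_M_xnew (x : PS (ovr H S₀)) (ω : PS (ovr H S₀)) :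
    ∑ Q, M x Q * ((xnew F₀ ι p P ω Q : ℤ) : ℝ) =
      p * M x ω - ∑ h : P, M x (acH H S₀ (rst F₀ ι (h : G)) ω) := by
  classical
  have h1 : ∀ ω' : PS (ovr H S₀), ∑ Q, M x Q * ((dl ω' Q : ℤ) : ℝ) = M x ω' := by
    intro ω'
    unfold dl
    rw [Finset.sum_eq_single ω']
    · rw [Pi.single_eq_same]
      simp
    · intro b _ hb
      rw [Pi.single_eq_of_ne hb]
      simp
    · intro h
      exact absurd (Finset.mem_univ _) h
  have h2 : ∀ Q, M x Q * ((xnew F₀ ι p P ω Q : ℤ) : ℝ) = p * (M x Q * ((dl ω Q : ℤ) : ℝ)) -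
      ∑ h : P, M x Q * ((dl (acH H S₀ (rst F₀ ι (h : G)) ω) Q : ℤ) : ℝ) := by
    intro Q
    unfold xnew
    rw [Pi.sub_apply, Pi.smul_apply, Finset.sum_apply, smul_eq_mul, ← Finset.mul_sum]
    push_cast
    ring
  rw [Finset.sum_congr rfl fun Q _ => h2 Q, Finset.sum_sub_distrib, ← Finset.mul_sum, h1,
    Finset.sum_comm, Finset.sum_congr rfl fun h _ => h1 _]

end C

end Pool.Agent.RS3

/-!
# Rational Stark for a layer: the determinant of the elements `b_i`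
-/

namespace Pool.Agent.RS3

set_option linter.unusedSectionVars false

open Pool.Agent.RSK Pool.Agent.RS2
open NumberField IsDedekindDomain Filter Topology Complex

section D

variable {F₀ F H : Type} [Field F₀] [NumberField F₀] [Field F] [NumberField F] [Field H]
  [NumberField H] [Algebra F₀ F] [Algebra F₀ H] [Algebra F H] [IsScalarTower F₀ F H]
  [IsGalois F₀ H] [IsGalois F H] {S₀ T₀ : Finset (HeightOneSpectrum (𝓞 F₀))}
  {G : Type} [CommGroup G] [Fintype G] {ι : G ≃* (H ≃ₐ[F] H)} {r : ℕ} {w : Fin r → Pl H}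
  {fr : HeightOneSpectrum (𝓞 F) → G} {p j m : ℕ} {P : Subgroup G}
  {M : Matrix (PS (ovr H S₀)) (PS (ovr H S₀)) ℝ} {N : ℕ}
  {θ : (ZMod (p ^ m))ˣ →* (H ≃ₐ[F₀] H)} {ρ : (H ≃ₐ[F₀] H) →* Equiv.Perm (ZMod (p ^ m))}
  {ρ' : (H ≃ₐ[F₀] H) →* Equiv.Perm (ZMod (p ^ (m - 1)))} {g₀ : G}

theorem stk_sum_chi {χ : G →* ℂˣ} (hχ : Fth P χ) : ∑ γ : G, (χ γ : ℂ) = 0 := by
  obtain ⟨h, -, hh⟩ := hχ
  have h1 : (χ h : ℂ) * ∑ γ : G, (χ γ : ℂ) = ∑ γ : G, (χ γ : ℂ) := by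
    rw [Finset.mul_sum, ← Equiv.sum_comp (Equiv.mulLeft h) (fun γ : G => (χ γ : ℂ))]
    refine Finset.sum_congr rfl fun γ _ => ?_
    rw [Equiv.coe_mulLeft, map_mul, Units.val_mul]
  have h2 : ((χ h : ℂ) - 1) * ∑ γ : G, (χ γ : ℂ) = 0 := by
    rw [sub_mul, h1, one_mul, sub_self]
  rcases mul_eq_zero.1 h2 with h3 | h3
  · exact absurd (Units.ext (sub_eq_zero.1 h3)) hh
  · exact h3

theorem stk_sum_chiP [Fintype P] {χ : G →* ℂˣ} (hχ : Fth P χ) :
    ∑ h : P, (χ (h : G) : ℂ) = 0 := by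
  obtain ⟨h, hP, hh⟩ := hχ
  have h1 : (χ h : ℂ) * ∑ γ : P, (χ (γ : G) : ℂ) = ∑ γ : P, (χ (γ : G) : ℂ) := by
    rw [Finset.mul_sum, ← Equiv.sum_comp (Equiv.mulLeft (⟨h, hP⟩ : P))
      (fun γ : P => (χ (γ : G) : ℂ))]
    refine Finset.sum_congr rfl fun γ _ => ?_
    rw [Equiv.coe_mulLeft, Subgroup.coe_mul, map_mul, Units.val_mul]
  have h2 : ((χ h : ℂ) - 1) * ∑ γ : P, (χ (γ : G) : ℂ) = 0 := by
    rw [sub_mul, h1, one_mul, sub_self]
  rcases mul_eq_zero.1 h2 with h3 | h3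
  · exact absurd (Units.ext (sub_eq_zero.1 h3)) hh
  · exact h3

/-- the matrix of the logarithms of units with logarithms `N M(xnew w_j)` -/
theorem stk_entry [Fintype P] (hM : MIv (acH H S₀) M) {χ : G →* ℂˣ} (hχ : Fth P χ)
    {ω ω' : PS (ovr H S₀)} {u : Hˣ} {s : ℝ} (hu : ∀ Q : PS (ovr H S₀),
      N * ∑ R, M Q R * ((xnew F₀ ι p P ω' R : ℤ) : ℝ) = lg Q.pl (u : H) + s) :
    ∑ γ, ((lg (act (ι γ) ω.pl) (u : H) : ℝ) : ℂ) * (χ γ : ℂ) =
      (N * p : ℂ) * ∑ γ : G, (χ γ : ℂ) * (M (acH H S₀ (rst F₀ ι γ) ω) ω' : ℂ) := by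
  have h1 : ∀ γ : G, ((lg (act (ι γ) ω.pl) (u : H) : ℝ) : ℂ) =
      (N : ℂ) * (p * (M (acH H S₀ (rst F₀ ι γ) ω) ω' : ℂ) -
        ∑ h : P, (M (acH H S₀ (rst F₀ ι γ) ω) (acH H S₀ (rst F₀ ι (h : G)) ω') : ℂ)) - (s : ℂ) := by
    intro γ
    have h2 := hu (acH H S₀ (rst F₀ ι γ) ω)
    rw [sum_M_xnew, acH_pl] at h2
    have h3 : act (rst F₀ ι γ) ω.pl = act (ι γ) ω.pl := act_restrict (ι γ) ω.pl
    rw [h3] at h2
    have h4 : lg (act (ι γ) ω.pl) (u : H) = N * (p * M (acH H S₀ (rst F₀ ι γ) ω) ω' -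
      ∑ h : P, M (acH H S₀ (rst F₀ ι γ) ω) (acH H S₀ (rst F₀ ι (h : G)) ω')) - s := by
      linarith
    rw [h4]
    push_cast
    ring
  have h5 : ∑ γ : G, (χ γ : ℂ) * ∑ h : P,
      (M (acH H S₀ (rst F₀ ι γ) ω) (acH H S₀ (rst F₀ ι (h : G)) ω') : ℂ) = 0 := by
    have h6 : ∀ h : P, ∑ γ : G, (χ γ : ℂ) *
        (M (acH H S₀ (rst F₀ ι γ) ω) (acH H S₀ (rst F₀ ι (h : G)) ω') : ℂ) =
        (χ (h : G) : ℂ) * ∑ γ : G, (χ γ : ℂ) * (M (acH H S₀ (rst F₀ ι γ) ω) ω' : ℂ) := by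
      intro h
      rw [← Equiv.sum_comp (Equiv.mulLeft (h : G)), Finset.mul_sum]
      refine Finset.sum_congr rfl fun γ _ => ?_
      rw [Equiv.coe_mulLeft, map_mul, map_mul, map_mul, Equiv.Perm.mul_apply, hM, Units.val_mul,
        mul_assoc]
    rw [Finset.sum_congr rfl fun γ _ => Finset.mul_sum _ _ _, Finset.sum_comm,
      Finset.sum_congr rfl fun h _ => h6 h, ← Finset.sum_mul, stk_sum_chiP hχ, zero_mul]
  have h7 := stk_sum_chi hχ
  calc ∑ γ, ((lg (act (ι γ) ω.pl) (u : H) : ℝ) : ℂ) * (χ γ : ℂ)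
      = ∑ γ : G, ((N * p : ℂ) * ((χ γ : ℂ) * (M (acH H S₀ (rst F₀ ι γ) ω) ω' : ℂ)) -
          (N : ℂ) * ((χ γ : ℂ) * ∑ h : P,
            (M (acH H S₀ (rst F₀ ι γ) ω) (acH H S₀ (rst F₀ ι (h : G)) ω') : ℂ)) -
          (s : ℂ) * (χ γ : ℂ)) := by
        refine Finset.sum_congr rfl fun γ _ => ?_
        rw [h1]
        ring
    _ = _ := by
        rw [Finset.sum_sub_distrib, Finset.sum_sub_distrib, ← Finset.mul_sum, ← Finset.mul_sum,
          ← Finset.mul_sum, h5, h7]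
        ring

end D

end Pool.Agent.RS3

/-!
# Rational Stark for a layer
-/

namespace Pool.Agent.RS3

set_option linter.unusedSectionVars false

open Pool.Agent.RSK Pool.Agent.RS2
open NumberField IsDedekindDomain Filter Topology Complex

section E

variable {F₀ F H : Type} [Field F₀] [NumberField F₀] [Field F] [NumberField F] [Field H]
  [NumberField H] [Algebra F₀ F] [Algebra F₀ H] [Algebra F H] [IsScalarTower F₀ F H]
  [IsGalois F₀ H] [IsGalois F H] {S₀ T₀ : Finset (HeightOneSpectrum (𝓞 F₀))}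
  {G : Type} [CommGroup G] [Fintype G] {ι : G ≃* (H ≃ₐ[F] H)} {r : ℕ} {w : Fin r → Pl H}
  {fr : HeightOneSpectrum (𝓞 F) → G} {p j m : ℕ} {P : Subgroup G}
  {θ : (ZMod (p ^ m))ˣ →* (H ≃ₐ[F₀] H)} {ρ : (H ≃ₐ[F₀] H) →* Equiv.Perm (ZMod (p ^ m))}
  {ρ' : (H ≃ₐ[F₀] H) →* Equiv.Perm (ZMod (p ^ (m - 1)))} {g₀ : G}

theorem stk_inS (Q : PS (ovr H S₀)) : InS (ovr F S₀) (dn F Q.pl) := by
  rcases Q with v | v
  · trivial
  · show v.1.under (𝓞 F) ∈ ovr F S₀
    rw [mem_ovr, tw_under]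
    exact mem_ovr.1 v.2

theorem stk_act_inj (τ : H ≃ₐ[F₀] H) {X Y : Pl H} (h : act τ X = act τ Y) : X = Y := by
  have h1 := congrArg (act τ⁻¹) h
  rwa [← act_mul, ← act_mul, inv_mul_cancel, act_one, act_one] at h1

theorem stk_lift {W : Pl H} (hW : InS (ovr F S₀) (dn F W)) :
    ∃ Q : PS (ovr H S₀), Q.pl = W := by
  rcases W with v | v
  · exact ⟨Sum.inl v, rfl⟩
  · have h1 : v.under (𝓞 F) ∈ ovr F S₀ := hW
    rw [mem_ovr, tw_under] at h1
    exact ⟨Sum.inr ⟨v, mem_ovr.2 h1⟩, rfl⟩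

/-- `Γ` permutes the split places -/
theorem stk_perm (hA : AffD p m j (rst F₀ ι g₀) θ ρ ρ') (hC : CycP p j P)
    (hD : DataW ι (ovr F S₀) (ovr F T₀) r w fr) (τ : H ≃ₐ[F₀] H) :
    ∃ (π : Equiv.Perm (Fin r)) (g : Fin r → G), ∀ i, act τ (w i) = act (ι (g i)) (w (π i)) := by
  obtain ⟨n, hn⟩ := stk_conj hA hC τ
  have hinS : ∀ i, InS (ovr F S₀) (dn F (act τ (w i))) := by
    intro i
    obtain ⟨Q, hQ⟩ := stk_lift (hD.mem i)
    rw [← hQ, ← acH_pl]
    exact stk_inS _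
  have hsplit : ∀ i, ∀ σ : H ≃ₐ[F] H, act σ (act τ (w i)) = act τ (w i) → σ = 1 := by
    intro i σ hσ
    -- `σ = ι g`, `g = g'^n`
    have hsurj : Function.Surjective (fun g : G => g ^ n) := by
      refine Finite.surjective_of_injective fun g h hgh => ?_
      have h2 : τ * rst F₀ ι g = τ * rst F₀ ι h := by
        rw [hn, hn]
        exact congrArg (fun x => rst F₀ ι x * τ) hgh
      exact rst_inj F₀ ι (mul_left_cancel h2)
    obtain ⟨g, hg⟩ := hsurj (ι.symm σ)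
    have hσ' : σ = ι (g ^ n) := by rw [show g ^ n = ι.symm σ from hg, MulEquiv.apply_symm_apply]
    have h3 : act (τ * rst F₀ ι g) (w i) = act τ (w i) := by
      rw [hn, act_mul]
      have h4 : act (rst F₀ ι (g ^ n)) (act τ (w i)) = act (ι (g ^ n)) (act τ (w i)) :=
        act_restrict _ _
      rw [h4, ← hσ', hσ]
    rw [act_mul] at h3
    have h5 : act (rst F₀ ι g) (w i) = w i := stk_act_inj τ h3
    have h7 : act (ι g) (w i) = w i := by
      rw [← h5]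
      conv_rhs => rw [← h5]
      have h8 : act (rst F₀ ι g) (act (rst F₀ ι g) (w i)) = act (ι g) (act (rst F₀ ι g) (w i)) :=
        act_restrict _ _
      rw [← h8]
    have h9 := hD.split i _ h7
    have h10 : g = 1 := by
      apply ι.injective
      rw [h9, map_one]
    rw [hσ', h10, one_pow, map_one]
  have h1 : ∀ i, ∃ l g, act τ (w i) = act (ι g) (w l) := by
    intro i
    obtain ⟨l, hl⟩ := hD.all _ (hinS i) (hsplit i)
    obtain ⟨σ, hσ⟩ := act_trans hl.symm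
    exact ⟨l, ι.symm σ, by rw [MulEquiv.apply_symm_apply, hσ]⟩
  choose l g hlg using h1
  have hl : Function.Injective l := by
    intro i i' hii
    -- `τ w_i = g w_l`, `τ w_i' = g' w_l`
    have h2 : act τ (w i) = act (ι (g i * (g i')⁻¹)) (act τ (w i')) := by
      rw [hlg, hlg, hii, ← act_mul, ← map_mul, inv_mul_cancel_right]
    have hsurj : Function.Surjective (fun g : G => g ^ n) := by
      refine Finite.surjective_of_injective fun g h hgh => ?_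
      have h2 : τ * rst F₀ ι g = τ * rst F₀ ι h := by
        rw [hn, hn]
        exact congrArg (fun x => rst F₀ ι x * τ) hgh
      exact rst_inj F₀ ι (mul_left_cancel h2)
    obtain ⟨x, hx⟩ := hsurj (g i * (g i')⁻¹)
    have h3 : act τ (w i) = act τ (act (rst F₀ ι x) (w i')) := by
      rw [← act_mul, hn, act_mul, show x ^ n = g i * (g i')⁻¹ from hx, h2]
      exact (act_restrict _ _).symm
    have h4 : w i = act (ι x) (w i') := by
      rw [stk_act_inj τ h3]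
      exact act_restrict _ _
    refine hD.inj i i' ?_
    rw [h4, dn_act]
  exact ⟨Equiv.ofBijective l ⟨hl, Finite.surjective_of_injective hl⟩, g, fun i => hlg i⟩

end E

end Pool.Agent.RS3

/-!
# Rational Stark for a layer: the main theorem
-/

namespace Pool.Agent.RS3

set_option linter.unusedSectionVars false

open Pool.Agent.RSK Pool.Agent.RS2
open NumberField IsDedekindDomain Filter Topology Complex

section E

variable {F₀ F H : Type} [Field F₀] [NumberField F₀] [Field F] [NumberField F] [Field H]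
  [NumberField H] [Algebra F₀ F] [Algebra F₀ H] [Algebra F H] [IsScalarTower F₀ F H]
  [IsGalois F₀ H] [IsGalois F H] {S₀ T₀ : Finset (HeightOneSpectrum (𝓞 F₀))}
  {G : Type} [CommGroup G] [Fintype G] {ι : G ≃* (H ≃ₐ[F] H)} {r : ℕ} {w : Fin r → Pl H}
  {fr : HeightOneSpectrum (𝓞 F) → G} {p j m : ℕ} {P : Subgroup G}
  {θ : (ZMod (p ^ m))ˣ →* (H ≃ₐ[F₀] H)} {ρ : (H ≃ₐ[F₀] H) →* Equiv.Perm (ZMod (p ^ m))}
  {ρ' : (H ≃ₐ[F₀] H) →* Equiv.Perm (ZMod (p ^ (m - 1)))} {g₀ : G}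

theorem stk_zY_ne {Y : Type} [Finite Y] (σ : (H ≃ₐ[F₀] H) →* Equiv.Perm Y) {s : ℂ}
    (hs : 1 < s.re) : zY S₀ T₀ σ s ≠ 0 := by
  have := Fintype.ofFinite (Orb σ)
  unfold zY
  rw [finprod_eq_prod_of_fintype]
  exact Finset.prod_ne_zero_iff.2 fun o _ => zST_ne_zero _ _ hs

theorem stk_dtY_ne {M : Matrix (PS (ovr H S₀)) (PS (ovr H S₀)) ℝ} {N : ℕ}
    (hM : IsFX S₀ T₀ M N) {Y : Type} [Finite Y] (σ : (H ≃ₐ[F₀] H) →* Equiv.Perm Y) :
    dtY (acH H S₀) M σ ≠ 0 := by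
  have := Fintype.ofFinite (Orb σ)
  unfold dtY
  rw [finprod_eq_prod_of_fintype]
  exact Finset.prod_ne_zero_iff.2 fun o _ => dt_ne _ M hM.inv hM.ne _

theorem stk_div {f g : ℂ → ℂ} {r n : ℕ} {A B : ℂ} (hB : B ≠ 0)
    (h1 : Tendsto (fun s : ℂ => f s / s ^ (r + n)) (𝓝[≠] 0) (𝓝 A))
    (h2 : Tendsto (fun s : ℂ => g s / s ^ n) (𝓝[≠] 0) (𝓝 B)) :
    Tendsto (fun s : ℂ => (f s / g s) / s ^ r) (𝓝[≠] 0) (𝓝 (A / B)) := by
  refine (h1.div h2 hB).congr' ?_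
  filter_upwards [self_mem_nhdsWithin] with s hs
  have hs' : s ≠ 0 := hs
  show f s / s ^ (r + n) / (g s / s ^ n) = f s / g s / s ^ r
  by_cases hg : g s = 0
  · rw [hg]
    simp
  · have h3 : s ^ n ≠ 0 := pow_ne_zero _ hs'
    have h4 : s ^ r ≠ 0 := pow_ne_zero _ hs'
    rw [pow_add]
    field_simp

omit [IsGalois F₀ H] [IsGalois F H] in
theorem stk_toQ_single (n : ℤ) : toQ G (MonoidAlgebra.single 1 n) = MonoidAlgebra.single 1 (n : ℚ) := by
  simp [toQ]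

theorem stark3 (hA : AffD p m j (rst F₀ ι g₀) θ ρ ρ') (hC : CycP p j P)
    (hD : DataW ι (ovr F S₀) (ovr F T₀) r w fr) (hST : Disjoint S₀ T₀)
    (hun : ∀ W : HeightOneSpectrum (𝓞 H), W.under (𝓞 F₀) ∉ S₀ →
      Algebra.IsUnramifiedAt (𝓞 F₀) W.asIdeal) :
    ∃ c₀ : ℝ, c₀ ≠ 0 ∧ LeadF (ovr F S₀) (ovr F T₀) r fr P (fun _ => (c₀ : ℂ)) ∧
      ∃ (b : Fin r → UM ι (ovr F S₀) (ovr F T₀)) (q : ℚ),
        Core2 ι (ovr F S₀) (ovr F T₀) P w (fun _ => (c₀ : ℂ)) b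
          (MonoidAlgebra.single 1 q * toQ G (MonoidAlgebra.single 1 (p : ℤ) - nP P)) ∧
        ∀ τ : H ≃ₐ[F₀] H, ∃ (π : Equiv.Perm (Fin r)) (g : Fin r → G),
          ∀ i, τ • (b i).val = ι (g i) • (b (π i)).val := by
  classical
  have hp := hC.prime
  have hp0 : (p : ℚ) ≠ 0 := Nat.cast_ne_zero.2 hp.ne_zero
  have := ti_finite (n := m) hp
  have := ti_finite (n := m - 1) hp
  have hPfin : Fintype P := Fintype.ofFinite P
  -- torsion-freeness
  have htf : TFree (ovr H S₀) (ovr H T₀) := by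
    intro x hx n hn h
    refine hD.tf x ?_ n hn h
    rw [ovr_ovr]
    exact hx.2
  obtain ⟨M, N, hM⟩ := fx_exists (F₀ := F₀) (H := H) hST htf
  have hN0 : (N : ℚ) ≠ 0 := Nat.cast_ne_zero.2 hM.pos.ne'
  -- the places
  have hw' : ∀ i, ∃ Q : PS (ovr H S₀), Q.pl = w i := fun i => stk_lift (hD.mem i)
  choose w' hw' using hw'
  have hact : ∀ (g : G) (Q : PS (ovr H S₀)), (acH H S₀ (rst F₀ ι g) Q).pl = act (ι g) Q.pl :=
    fun g Q => by
      rw [acH_pl]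
      exact act_restrict (ι g) Q.pl
  have h1 : ∀ i g, acH H S₀ (rst F₀ ι g) (w' i) = w' i → g = 1 := by
    intro i g h
    have h2 := congrArg PS.pl h
    rw [hact, hw'] at h2
    apply ι.injective
    rw [map_one]
    exact hD.split i _ h2
  have h2 : ∀ i i' g, acH H S₀ (rst F₀ ι g) (w' i) = w' i' → i = i' := by
    intro i i' g h
    have h3 := congrArg PS.pl h
    rw [hact, hw', hw'] at h3
    refine hD.inj i i' ?_
    rw [← h3, dn_act]
  have h3 : ∀ ω : PS (ovr H S₀), (∀ g, acH H S₀ (rst F₀ ι g) ω = ω → g = 1) →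
      ∃ i g, ω = acH H S₀ (rst F₀ ι g) (w' i) := by
    intro ω hω
    obtain ⟨i, hi⟩ := hD.all ω.pl (stk_inS ω) (fun σ hσ => by
      have h4 := hω (ι.symm σ) (PS_ext (by rw [hact, MulEquiv.apply_symm_apply, hσ]))
      rw [← ι.apply_symm_apply σ, h4, map_one])
    obtain ⟨σ, hσ⟩ := act_trans hi.symm
    refine ⟨i, ι.symm σ, PS_ext ?_⟩
    rw [hact, MulEquiv.apply_symm_apply, hw', hσ]
  -- the determinant
  have hdt : ∀ χ : G →* ℂˣ, Fth P χ →
      ((dtY (acH H S₀) M ρ : ℝ) : ℂ) =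
        (Fchi ((acH H S₀).comp (rst F₀ ι)) M w' χ).det * ((dtY (acH H S₀) M ρ' : ℝ) : ℂ) :=
    fun χ hχ => dt_aff hA hC (rst F₀ ι) rfl (rst_inj F₀ ι) (acH H S₀) hM.inv w' h1 h2 h3 hχ
  have hdim := dim_aff hA hC (rst F₀ ι) rfl (rst_inj F₀ ι) (acH H S₀) w' h1 h2 h3
  have hdY : dtY (acH H S₀) M ρ ≠ 0 := stk_dtY_ne hM ρ
  have hdY' : dtY (acH H S₀) M ρ' ≠ 0 := stk_dtY_ne hM ρ'
  -- the zeta functions
  obtain ⟨n, q, Z, hq, hZ1, hn, hZ2, hZ3⟩ := zY_lead hST htf hM ρ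
  obtain ⟨n', q', Z', hq', hZ1', hn', hZ2', hZ3'⟩ := zY_lead hST htf hM ρ'
  have hnn : n = r + n' := by omega
  subst hnn
  have hqR : (q : ℝ) ≠ 0 := Rat.cast_ne_zero.2 hq
  have hqR' : (q' : ℝ) ≠ 0 := Rat.cast_ne_zero.2 hq'
  have hlead : Tendsto (fun s : ℂ => (Z s / Z' s) / s ^ r) (𝓝[≠] 0)
      (𝓝 (((q * dtY (acH H S₀) M ρ / (q' * dtY (acH H S₀) M ρ') : ℝ)) : ℂ)) := by
    rw [Complex.ofReal_div]
    exact stk_div (Complex.ofReal_ne_zero.2 (mul_ne_zero hqR' hdY')) hZ3 hZ3'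
  refine ⟨q * dtY (acH H S₀) M ρ / (q' * dtY (acH H S₀) M ρ'),
    div_ne_zero (mul_ne_zero hqR hdY) (mul_ne_zero hqR' hdY'), ?_, ?_⟩
  · intro χ hχ
    refine ⟨fun s => Z s / Z' s, hZ1.div hZ1', fun s hs => ?_, hlead⟩
    have h4 := art ρ ρ' (cfi hA hC (rst F₀ ι) (rst_inj F₀ ι) rfl hχ) hST hun hD.frob hs
      (T₀ := T₀) (S₀ := S₀)
    show Z s / Z' s = _
    rw [hZ2 s hs, hZ2' s hs, h4, mul_div_cancel_right₀ _ (stk_zY_ne ρ' hs)]
  · -- the units
    have hu : ∀ ω : PS (ovr H S₀), ∃ u, RelU T₀ M N (xnew F₀ ι p P ω) u := by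
      intro ω
      obtain ⟨u, hu, s, hs⟩ := hM.int (xnew F₀ ι p P ω)
      exact ⟨u, hu, (s : ℝ), hs⟩
    choose u hu using hu
    have hact_u : ∀ (σ : H ≃ₐ[F₀] H) ω, σ • u ω = u (acH H S₀ σ ω) := by
      intro σ ω
      refine relU_uniq htf (x := xnew F₀ ι p P (acH H S₀ σ ω)) ?_ (hu _)
      rw [← actx_xnew hA hC]
      exact relU_act hM.inv σ (hu ω)
    have hmem : ∀ ω, u ω ∈ Un (ovr H (ovr F S₀)) (ovr H (ovr F T₀)) := by
      intro ω
      rw [ovr_ovr, ovr_ovr]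
      exact (hu ω).1
    have hnp : ∀ ω, ∏ h : P, u (acH H S₀ (rst F₀ ι (h : G)) ω) = 1 := by
      intro ω
      refine relU_uniq (T₀ := T₀) (M := M) (N := N) htf (x := 0) ?_ relU_zero
      rw [← sum_xnew (F₀ := F₀) (ι := ι) hC ω]
      exact relU_sum _ fun h _ => hu _
    refine ⟨fun i => UM.mk (u (w' i)) (hmem _),
      (q / q') / ((p : ℚ) * ((N : ℚ) * p) ^ r), ⟨?_, ?_, ?_⟩, ?_⟩
    · intro i
      rw [nP_sum, Finset.sum_smul]
      apply UM.ext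
      have h5 : ∀ (s : Finset P), (∑ h ∈ s, MonoidAlgebra.single (h : G) (1 : ℤ) •
          (UM.mk (u (w' i)) (hmem _) : UM ι (ovr F S₀) (ovr F T₀))).val =
          ∏ h ∈ s, u (acH H S₀ (rst F₀ ι (h : G)) (w' i)) := by
        intro s
        induction s using Finset.induction_on with
        | empty => rfl
        | insert a s ha ih =>
          rw [Finset.sum_insert ha, Finset.prod_insert ha, UM.val_add, ih, um_single_smul,
            ← hact_u]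
          rfl
      rw [h5, hnp]
      rfl
    · rw [nP_zero_iff]
      intro χ hχ
      rw [map_mul, map_sub, map_sub, ev_nP_not hχ, stk_toQ_single, cs_evQ_single, cs_evQ_single,
        hC.cardP]
      push_cast
      ring
    · intro χ hχ
      have hN0' : (N : ℂ) ≠ 0 := Nat.cast_ne_zero.2 hM.pos.ne'
      have hp0' : (p : ℂ) ≠ 0 := Nat.cast_ne_zero.2 hp.ne_zero
      have h5 : evR χ (wmat ι (ovr F S₀) (ovr F T₀) w (fun i => UM.mk (u (w' i)) (hmem _))).det =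
          ((N : ℂ) * p) ^ r * (Fchi ((acH H S₀).comp (rst F₀ ι)) M w' χ).det := by
        have h10 : ((N : ℂ) * p) ^ r * (Fchi ((acH H S₀).comp (rst F₀ ι)) M w' χ).det =
            (((N : ℂ) * p) • Fchi ((acH H S₀).comp (rst F₀ ι)) M w' χ).det := by
          rw [Matrix.det_smul, Fintype.card_fin]
        rw [RSK.rf1_ev, h10]
        congr 1
        ext i k
        rw [Matrix.of_apply, Matrix.smul_apply, smul_eq_mul, UM.val_mk]
        obtain ⟨-, s, hs⟩ := hu (w' k)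
        have h11 := stk_entry (N := N) (ω := w' i) hM.inv hχ hs
        rw [hw' i] at h11
        exact h11
      have h6 := hdt χ hχ
      rw [h5, map_mul, map_sub, map_sub, ev_nP hχ, stk_toQ_single, cs_evQ_single, cs_evQ_single]
      have h7 : (Fchi ((acH H S₀).comp (rst F₀ ι)) M w' χ).det =
          ((dtY (acH H S₀) M ρ : ℝ) : ℂ) / ((dtY (acH H S₀) M ρ' : ℝ) : ℂ) := by
        rw [h6, mul_div_cancel_right₀ _ (Complex.ofReal_ne_zero.2 hdY')]
      rw [h7]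
      have h8 : ((dtY (acH H S₀) M ρ' : ℝ) : ℂ) ≠ 0 := Complex.ofReal_ne_zero.2 hdY'
      have h9 : (q' : ℂ) ≠ 0 := Rat.cast_ne_zero.2 hq'
      push_cast
      field_simp
      ring
    · intro τ
      obtain ⟨π, g, hπ⟩ := stk_perm hA hC hD τ
      refine ⟨π, g, fun i => ?_⟩
      rw [UM.val_mk, UM.val_mk, hact_u]
      have h6 : acH H S₀ τ (w' i) = acH H S₀ (rst F₀ ι (g i)) (w' (π i)) := by
        apply PS_ext
        rw [acH_pl, hw', hπ, hact, hw']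
      rw [h6, ← hact_u]
      rfl

end E

end Pool.Agent.RS3
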