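import Pool.Agent.Lib_helper35.RS3.P_OPT
import Pool.Agent.Lib_helper35.RS2.P_GP
import Pool.Agent.Lib_helper27.RS3.Defs3

/-!
# RS3, block SYM: change of basis and symmetry
-/

namespace Pool.Agent.RS3

set_option linter.unusedSectionVars false

open Pool.Agent.RSK Pool.Agent.RS2
open NumberField IsDedekindDomain Filter Topology Complex

section ALG

variable {G : Type} [CommGroup G] [Fintype G] {p j : ℕ} {P : Subgroup G}

theorem sym_p (a : ℤ) : (MonoidAlgebra.single (1 : G) a : MonoidAlgebra ℤ G) = (a : MonoidAlgebra ℤ G) := by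
  rw [MonoidAlgebra.intCast_def]
  rfl

theorem sym_pb {M : Type} [AddCommGroup M] [Module (MonoidAlgebra ℤ G) M] {u : M}
    (hu : nP P • u = 0) (a : MonoidAlgebra ℤ G) :
    ((MonoidAlgebra.single 1 (p : ℤ) - nP P) * a) • u = (p : ℤ) • (a • u) := by
  rw [mul_comm, mul_smul, sub_smul, hu, sub_zero, sym_p, Int.cast_smul_eq_zsmul, smul_comm]

/-- independence of `b'` -/
theorem sym_ind (hC : CycP p j P) {M : Type} [AddCommGroup M] [Module (MonoidAlgebra ℤ G) M]
    [Module.Finite ℤ M] [Module.IsTorsionFree ℤ M] {r : ℕ} {b' : Fin r → M}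
    (hb' : ∀ i, nP P • b' i = 0)
    (hr : Module.finrank ℤ (mM P M) = r * (p ^ (j - 1) * (p - 1)))
    (hB' : (mSpn G b').relIndex (mM P M) ≠ 0) (a : Fin r → MonoidAlgebra ℤ G)
    (ha : ∑ i, a i • b' i = 0) (i : Fin r) :
    (MonoidAlgebra.single 1 (p : ℤ) - nP P) * a i = 0 := by
  classical
  obtain ⟨S, iS, iD, iF, iZ, f, hf, hrk, hker⟩ := opt_cyc hC
  have hp := hC.prime
  let Ψ : (Fin r → MonoidAlgebra ℤ G) →ₗ[ℤ] M :=
    (AddMonoidHom.mk' (fun a : Fin r → MonoidAlgebra ℤ G => ∑ i, a i • b' i) (by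
      intro a a'
      rw [← Finset.sum_add_distrib]
      exact Finset.sum_congr rfl fun i _ => by rw [Pi.add_apply, add_smul])).toIntLinearMap
  let Φ : (Fin r → MonoidAlgebra ℤ G) →ₗ[ℤ] (Fin r → S) :=
    (AddMonoidHom.mk' (fun a : Fin r → MonoidAlgebra ℤ G => fun i => f (a i)) (by
      intro a a'
      funext i
      exact map_add f _ _)).toIntLinearMap
  have hΦs : Function.Surjective Φ := by
    intro s
    choose a ha using fun i => hf (s i)
    exact ⟨a, funext ha⟩
  have hkk : LinearMap.ker Φ ≤ LinearMap.ker Ψ := by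
    intro a ha
    rw [LinearMap.mem_ker] at ha ⊢
    have h1 : ∀ i, f (a i) = 0 := fun i => congrFun ha i
    have h2 : (p : ℤ) • ∑ i, a i • b' i = 0 := by
      rw [Finset.smul_sum]
      refine Finset.sum_eq_zero fun i _ => ?_
      rw [← sym_pb (hb' i), hker _ (h1 i), zero_smul]
    exact (smul_eq_zero.1 h2).resolve_left (by exact_mod_cast hp.ne_zero)
  let Ω : (Fin r → S) →ₗ[ℤ] M :=
    ((LinearMap.ker Φ).liftQ Ψ hkk).comp (Φ.quotKerEquivOfSurjective hΦs).symm.toLinearMap
  have hΩ : ∀ a, Ω (Φ a) = Ψ a := by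
    intro a
    show (LinearMap.ker Φ).liftQ Ψ hkk ((Φ.quotKerEquivOfSurjective hΦs).symm (Φ a)) = Ψ a
    rw [show (Φ.quotKerEquivOfSurjective hΦs).symm (Φ a) = Submodule.Quotient.mk a from by
      rw [LinearEquiv.symm_apply_eq]
      rfl]
    rfl
  have hrange : (LinearMap.range Ω).toAddSubgroup = mSpn G b' := by
    ext u
    show u ∈ LinearMap.range Ω ↔ u ∈ Submodule.span (MonoidAlgebra ℤ G) (Set.range b')
    rw [Submodule.mem_span_range_iff_exists_fun]
    constructor
    · rintro ⟨s, rfl⟩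
      obtain ⟨a, rfl⟩ := hΦs s
      exact ⟨a, (hΩ a).symm⟩
    · rintro ⟨a, rfl⟩
      exact ⟨Φ a, hΩ a⟩
  have hle : mSpn G b' ≤ mM P M := by
    intro u hu
    have hu' : u ∈ Submodule.span (MonoidAlgebra ℤ G) (Set.range b') := hu
    rw [Submodule.mem_span_range_iff_exists_fun] at hu'
    obtain ⟨a, rfl⟩ := hu'
    show nP P • ∑ i, a i • b' i = 0
    rw [Finset.smul_sum]
    exact Finset.sum_eq_zero fun i _ => by rw [smul_comm, hb', smul_zero]
  have hfin : Module.finrank ℤ (mSpn G b') = Module.finrank ℤ (mM P M) := by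
    have h1 : ((mSpn G b').addSubgroupOf (mM P M)).FiniteIndex := ⟨hB'⟩
    have hNM : IsNoetherian ℤ M := inferInstance
    have iMf : Module.Finite ℤ (mM P M) :=
      inferInstanceAs (Module.Finite ℤ (AddSubgroup.toIntSubmodule (mM P M)))
    have iMt : Module.IsTorsionFree ℤ (mM P M) :=
      inferInstanceAs (Module.IsTorsionFree ℤ (AddSubgroup.toIntSubmodule (mM P M)))
    rw [← AddSubgroup.finrank_eq_of_finiteIndex ((mSpn G b').addSubgroupOf (mM P M))]
    exact (AddSubgroup.addSubgroupOfEquivOfLe hle).toIntLinearEquiv.finrank_eq.symm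
  have hR : Module.finrank ℤ (LinearMap.range Ω) = r * Module.finrank ℤ S := by
    rw [hrk, ← hr, ← hfin, ← hrange]
    rfl
  have hd : Module.finrank ℤ (Fin r → S) = r * Module.finrank ℤ S := by
    rw [Module.finrank_pi_fintype]
    simp
  have hk0 : Module.finrank ℤ (LinearMap.ker Ω) = 0 := by
    have h1 := Submodule.finrank_quotient_add_finrank (LinearMap.ker Ω)
    rw [Ω.quotKerEquivRange.finrank_eq, hR, hd] at h1
    omega
  have hk : LinearMap.ker Ω = ⊥ := Submodule.finrank_eq_zero.1 hk0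
  have h1 : Φ a ∈ LinearMap.ker Ω := by
    rw [LinearMap.mem_ker, hΩ]
    exact ha
  rw [hk, Submodule.mem_bot] at h1
  exact hker _ (congrFun h1 i)

/-- the automorphism of `ℤ[G]` -/
noncomputable def sE (e : MulAut G) : MonoidAlgebra ℤ G →+* MonoidAlgebra ℤ G :=
  MonoidAlgebra.mapDomainRingHom ℤ e.toMonoidHom

theorem sE_single (e : MulAut G) (g : G) (a : ℤ) :
    sE e (MonoidAlgebra.single g a) = MonoidAlgebra.single (e g) a := by
  show MonoidAlgebra.mapDomain _ _ = _
  rw [MonoidAlgebra.mapDomain_single]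
  rfl

theorem sE_toQ (e : MulAut G) (a : MonoidAlgebra ℤ G) :
    toQ G (sE e a) = MonoidAlgebra.mapDomain e (toQ G a) := by
  induction a using MonoidAlgebra.induction_on with
  | of g =>
    show toQ G (sE e (MonoidAlgebra.single g 1)) = MonoidAlgebra.mapDomain e (toQ G (MonoidAlgebra.single g 1))
    rw [sE_single, l1_toQ_single, l1_toQ_single, MonoidAlgebra.mapDomain_single]
  | add a b ha hb => rw [map_add, map_add, map_add, ha, hb, MonoidAlgebra.mapDomain_add]
  | smul k a ha =>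
    rw [map_zsmul, map_zsmul, map_zsmul, ha]
    exact (map_zsmul (MonoidAlgebra.mapDomainRingHom ℚ e.toMonoidHom) k (toQ G a)).symm

theorem sE_smul (e : MulAut G) {M : Type} [AddCommGroup M] [Module (MonoidAlgebra ℤ G) M]
    (τ : M ≃+ M) (hτ : ∀ (g : G) u, τ (MonoidAlgebra.single g (1 : ℤ) • u) =
      MonoidAlgebra.single (e g) (1 : ℤ) • τ u) (a : MonoidAlgebra ℤ G) (u : M) :
    τ (a • u) = sE e a • τ u := by
  induction a using MonoidAlgebra.induction_on with
  | of g =>
    show τ (MonoidAlgebra.single g (1 : ℤ) • u) = sE e (MonoidAlgebra.single g 1) • τ u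
    rw [hτ, sE_single]
  | add a b ha hb => rw [map_add, add_smul, add_smul, map_add, ha, hb]
  | smul k a ha => rw [map_zsmul, smul_assoc, smul_assoc, map_zsmul, ha]

theorem aut_P (hC : CycP p j P) (e : MulAut G) {h : G} (hh : h ∈ P) : e h ∈ P := by
  have hpf : Fact p.Prime := ⟨hC.prime⟩
  by_cases h1 : h = 1
  · rw [h1, map_one]
    exact one_mem P
  · have h2 : e h ≠ 1 := fun h3 => h1 (by
      rw [← map_one e] at h3
      exact e.injective h3)
    have h4 : orderOf h = p := by
      have h5 : h ^ p = 1 := by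
        have h6 : (⟨h, hh⟩ : P) ^ Nat.card P = 1 := pow_card_eq_one'
        rw [hC.cardP] at h6
        exact congrArg Subtype.val h6
      exact orderOf_eq_prime h5 h1
    have h5 : Nat.card (Subgroup.zpowers (e h)) = p := by
      rw [Nat.card_zpowers, ← h4]
      exact MulEquiv.orderOf_eq e h
    have h6 : P = Subgroup.zpowers (e h) :=
      Subgroup.eq_of_le_of_card_ge (cycp_le hC h2) (by rw [h5, hC.cardP])
    rw [h6]
    exact Subgroup.mem_zpowers _

theorem sE_nP (hC : CycP p j P) (e : MulAut G) : sE e (nP P) = nP P := by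
  classical
  have : Fintype P := Fintype.ofFinite P
  let ε : P ≃ P :=
    { toFun := fun h => ⟨e h, aut_P hC e h.2⟩
      invFun := fun h => ⟨e⁻¹ (h : G), aut_P hC e⁻¹ h.2⟩
      left_inv := fun h => Subtype.ext (by
        show e⁻¹ (e (h : G)) = h
        rw [← MulAut.mul_apply, inv_mul_cancel, MulAut.one_apply])
      right_inv := fun h => Subtype.ext (by
        show e (e⁻¹ (h : G)) = h
        rw [← MulAut.mul_apply, mul_inv_cancel, MulAut.one_apply]) }
  rw [nP_sum, map_sum, ← Equiv.sum_comp ε (fun x : P => MonoidAlgebra.single (x : G) (1 : ℤ))]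
  exact Finset.sum_congr rfl fun x _ => sE_single e x 1

/-- the matrix of `u` with respect to `b'` -/
theorem sym_coef {M : Type} [AddCommGroup M] [Module (MonoidAlgebra ℤ G) M] {r : ℕ}
    {b' : Fin r → M} {k : ℕ} (hk : (mSpn G b').relIndex (mM P M) = k) (u : Fin r → M)
    (hu : ∀ i, nP P • u i = 0) : ∃ c : Matrix (Fin r) (Fin r) (MonoidAlgebra ℤ G),
      ∀ i, ∑ m, c i m • b' m = k • u i := by
  have h1 : ∀ i, ∃ c : Fin r → MonoidAlgebra ℤ G, ∑ m, c m • b' m = k • u i := by
    intro i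
    have h2 : ((mSpn G b').addSubgroupOf (mM P M)).index • (⟨u i, hu i⟩ : mM P M) ∈
        (mSpn G b').addSubgroupOf (mM P M) := AddSubgroup.nsmul_index_mem _ _
    have h3 : ((mSpn G b').addSubgroupOf (mM P M)).index = k := hk
    rw [h3] at h2
    have h4 : k • u i ∈ Submodule.span (MonoidAlgebra ℤ G) (Set.range b') := h2
    exact Submodule.mem_span_range_iff_exists_fun _ |>.1 h4
  choose c hc using h1
  exact ⟨Matrix.of c, hc⟩

theorem sym3 (hC : CycP p j P) {M : Type} [AddCommGroup M] [Module (MonoidAlgebra ℤ G) M]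
    [Module.Finite ℤ M] [Module.IsTorsionFree ℤ M] {r : ℕ} (b b' : Fin r → M)
    (hb : ∀ i, nP P • b i = 0) (hb' : ∀ i, nP P • b' i = 0)
    (hr : Module.finrank ℤ (mM P M) = r * (p ^ (j - 1) * (p - 1))) {l : ℕ} (hl : l.Prime)
    (hB' : ¬ l ∣ (mSpn G b').relIndex (mM P M)) (q : ℚ)
    (τ : MulAut G → (M ≃+ M))
    (hτ : ∀ e (g : G) u, τ e (MonoidAlgebra.single g (1 : ℤ) • u) =
      MonoidAlgebra.single (e g) (1 : ℤ) • τ e u)
    (hτb : ∀ e, ∃ (π : Equiv.Perm (Fin r)) (g : Fin r → G),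
      ∀ i, τ e (b i) = MonoidAlgebra.single (g i) (1 : ℤ) • b (π i)) :
    ∃ x' : MonoidAlgebra ℚ G, toQ G (nP P) * x' = 0 ∧
      (∀ (A : Type) [CommRing A] (f : MonoidAlgebra ℤ G →+* A) (f' : MonoidAlgebra ℚ G →+* A)
        (_ : ∀ a, f' (toQ G a) = f a) (ψ : Fin r → M → A)
        (_ : ∀ i u v, ψ i (u + v) = ψ i u + ψ i v) (_ : ∀ i a u, ψ i (a • u) = f a * ψ i u),
        f' x' * Matrix.det (Matrix.of fun i k => ψ i (b' k)) =
          f' (MonoidAlgebra.single 1 q * toQ G (MonoidAlgebra.single 1 (p : ℤ) - nP P)) *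
            Matrix.det (Matrix.of fun i k => ψ i (b k))) ∧
      ∀ e : MulAut G, ∃ (k : ℕ) (v : MonoidAlgebra ℤ G), ¬ l ∣ k ∧
        MonoidAlgebra.single 1 (k : ℚ) * x' = toQ G v * MonoidAlgebra.mapDomain e x' := by
  classical
  obtain ⟨k, hk⟩ : ∃ k, (mSpn G b').relIndex (mM P M) = k := ⟨_, rfl⟩
  have hkl : ¬ l ∣ k := by rw [← hk]; exact hB'
  have hk0 : k ≠ 0 := by
    rintro rfl
    exact hkl (dvd_zero l)
  have hpn : nP P * nP P = (p : MonoidAlgebra ℤ G) * nP P := by
    have : Fintype P := Fintype.ofFinite P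
    have h1 : nP P * nP P = ∑ h : P, MonoidAlgebra.single (h : G) (1 : ℤ) * nP P := by
      conv_lhs => rw [nP_sum (P := P), Finset.sum_mul, ← nP_sum (P := P)]
    rw [h1, Finset.sum_congr rfl fun h _ => single_nP h.2, Finset.sum_const, Finset.card_univ,
      ← Nat.card_eq_fintype_card, hC.cardP, nsmul_eq_mul]
  obtain ⟨c, hc⟩ := sym_coef hk b hb
  set D : MonoidAlgebra ℤ G := MonoidAlgebra.single 1 (p : ℤ) - nP P with hD
  have hsp : (MonoidAlgebra.single 1 (p : ℤ) : MonoidAlgebra ℤ G) = (p : MonoidAlgebra ℤ G) := by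
    rw [sym_p]
    exact Int.cast_natCast p
  have hnD : nP P * D = 0 := by
    rw [hD, mul_sub, hpn, hsp, mul_comm (nP P), sub_self]
  refine ⟨MonoidAlgebra.single 1 (q / (k : ℚ) ^ r) * toQ G (D * c.det), ?_, ?_, ?_⟩
  · rw [mul_left_comm, ← map_mul, ← mul_assoc, hnD, zero_mul, map_zero, mul_zero]
  · intro A _ f f' hff ψ hψ hψs
    have hψn : ∀ i (n : ℕ) u, ψ i (n • u) = (n : A) * ψ i u := by
      intro i n u
      have h1 := hψs i (n : MonoidAlgebra ℤ G) u
      rwa [map_natCast, Nat.cast_smul_eq_nsmul] at h1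
    have hψ0 : ∀ i, ψ i 0 = 0 := by
      intro i
      have h1 := hψn i 0 0
      rwa [zero_smul, Nat.cast_zero, zero_mul] at h1
    have hψS : ∀ i (s : Finset (Fin r)) (u : Fin r → M), ψ i (∑ m ∈ s, u m) = ∑ m ∈ s, ψ i (u m) := by
      intro i s u
      induction s using Finset.induction_on with
      | empty => rw [Finset.sum_empty, Finset.sum_empty, hψ0]
      | insert m s hm ih => rw [Finset.sum_insert hm, Finset.sum_insert hm, hψ, ih]
    have h1 : (k : A) ^ r * Matrix.det (Matrix.of fun i m => ψ i (b m)) =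
        Matrix.det (Matrix.of fun i m => ψ i (b' m)) * f c.det := by
      have h2 : (k : A) • (Matrix.of fun i m => ψ i (b m)) =
          (Matrix.of fun i m => ψ i (b' m)) * (f.mapMatrix c).transpose := by
        ext i m
        rw [Matrix.mul_apply, Matrix.smul_apply, Matrix.of_apply, smul_eq_mul, ← hψn, ← hc, hψS]
        refine Finset.sum_congr rfl fun n _ => ?_
        rw [hψs, Matrix.of_apply, Matrix.transpose_apply, RingHom.mapMatrix_apply,
          Matrix.map_apply, mul_comm]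
      rw [RingHom.map_det, ← Matrix.det_transpose (f.mapMatrix c), ← Matrix.det_mul, ← h2,
        Matrix.det_smul, Fintype.card_fin]
    have h3 : f' (MonoidAlgebra.single 1 q) = f' (MonoidAlgebra.single 1 (q / (k : ℚ) ^ r)) *
        (k : A) ^ r := by
      rw [← map_natCast f', ← map_pow, ← map_mul]
      congr 1
      have h4 : ((k : MonoidAlgebra ℚ G)) ^ r = MonoidAlgebra.single 1 ((k : ℚ) ^ r) := by
        rw [MonoidAlgebra.natCast_def, MonoidAlgebra.single_pow, one_pow]
      rw [h4, MonoidAlgebra.single_mul_single, one_mul, div_mul_cancel₀]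
      exact pow_ne_zero _ (by exact_mod_cast hk0)
    rw [map_mul, hff, map_mul, map_mul, hff, h3]
    linear_combination (-(f' (MonoidAlgebra.single 1 (q / (k : ℚ) ^ r)) * f D)) * h1
  · intro e
    obtain ⟨π, g, hg⟩ := hτb e
    have hsm := sE_smul e (τ e) (hτ e)
    obtain ⟨d, hd⟩ := sym_coef hk (fun m => τ e (b' m)) (fun m => by
      rw [← sE_nP hC e, ← hsm, hb', map_zero])
    -- the relation
    have h1 : ∀ i n, D * ((k : MonoidAlgebra ℤ G) * (MonoidAlgebra.single (g i) (1 : ℤ) * c (π i) n)) =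
        D * (((sE e).mapMatrix c * d) i n) := by
      intro i n
      have h2 : ∑ n, ((k : MonoidAlgebra ℤ G) * (MonoidAlgebra.single (g i) (1 : ℤ) * c (π i) n) -
          ((sE e).mapMatrix c * d) i n) • b' n = 0 := by
        have h3 : ∑ n, ((k : MonoidAlgebra ℤ G) * (MonoidAlgebra.single (g i) (1 : ℤ) * c (π i) n)) • b' n =
            (k : MonoidAlgebra ℤ G) • (k : MonoidAlgebra ℤ G) • τ e (b i) := by
          rw [hg, smul_comm ((k : ℕ) : MonoidAlgebra ℤ G) (MonoidAlgebra.single (g i) (1 : ℤ)),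
            Nat.cast_smul_eq_nsmul (MonoidAlgebra ℤ G) k (b (π i)), ← hc, Finset.smul_sum,
            Finset.smul_sum]
          exact Finset.sum_congr rfl fun n _ => by rw [mul_smul, mul_smul]
        have h4 : ∑ n, (((sE e).mapMatrix c * d) i n) • b' n =
            (k : MonoidAlgebra ℤ G) • (k : MonoidAlgebra ℤ G) • τ e (b i) := by
          have h5 : (k : MonoidAlgebra ℤ G) • τ e (b i) = ∑ m, sE e (c i m) • τ e (b' m) := by
            rw [Nat.cast_smul_eq_nsmul, ← map_nsmul, ← hc, map_sum]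
            exact Finset.sum_congr rfl fun m _ => hsm _ _
          rw [h5, Finset.smul_sum]
          have h6 : ∀ m, (k : MonoidAlgebra ℤ G) • sE e (c i m) • τ e (b' m) =
              ∑ n, (sE e (c i m) * d m n) • b' n := by
            intro m
            rw [smul_comm, Nat.cast_smul_eq_nsmul, ← hd, Finset.smul_sum]
            exact Finset.sum_congr rfl fun n _ => by rw [mul_smul]
          rw [Finset.sum_congr rfl fun m _ => h6 m, Finset.sum_comm]
          refine Finset.sum_congr rfl fun n _ => ?_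
          rw [Matrix.mul_apply, Finset.sum_smul]
          rfl
        rw [← sub_eq_zero] at h4
        rw [← sub_eq_zero.2 (h3.trans (sub_eq_zero.1 h4).symm), ← Finset.sum_sub_distrib]
        exact Finset.sum_congr rfl fun n _ => sub_smul _ _ _
      have h3 := sym_ind hC hb' hr (by rw [hk]; exact hk0) _ h2 n
      rw [← hD, mul_sub, sub_eq_zero] at h3
      exact h3
    -- the determinants
    set A1 : Matrix (Fin r) (Fin r) (MonoidAlgebra ℤ G) :=
      Matrix.of fun i n => (k : MonoidAlgebra ℤ G) * (MonoidAlgebra.single (g i) (1 : ℤ) * c (π i) n)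
      with hA1
    have h2 : D * A1.det = D * ((sE e).mapMatrix c * d).det := by
      let I : Ideal (MonoidAlgebra ℤ G) := LinearMap.ker (LinearMap.lsmul _ (MonoidAlgebra ℤ G) D)
      have hI : ∀ a, a ∈ I ↔ D * a = 0 := fun a => LinearMap.mem_ker
      have h3 : (Ideal.Quotient.mk I).mapMatrix A1 =
          (Ideal.Quotient.mk I).mapMatrix ((sE e).mapMatrix c * d) := by
        ext i n
        rw [RingHom.mapMatrix_apply, RingHom.mapMatrix_apply, Matrix.map_apply, Matrix.map_apply,
          Ideal.Quotient.eq, hI, mul_sub, sub_eq_zero]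
        exact h1 i n
      have h4 := congrArg Matrix.det h3
      rw [← RingHom.map_det, ← RingHom.map_det, Ideal.Quotient.eq, hI, mul_sub, sub_eq_zero] at h4
      exact h4
    have h3 : A1.det = (k : MonoidAlgebra ℤ G) ^ r * (MonoidAlgebra.single (∏ i, g i) (1 : ℤ) *
        (((Equiv.Perm.sign π : ℤ) : MonoidAlgebra ℤ G) * c.det)) := by
      have h4 : A1 = Matrix.of fun i n => ((k : MonoidAlgebra ℤ G) * MonoidAlgebra.single (g i) (1 : ℤ)) *
          (c.submatrix π id) i n := by
        ext i n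
        rw [hA1, Matrix.of_apply, Matrix.of_apply, Matrix.submatrix_apply, id_eq, mul_assoc]
      rw [h4, Matrix.det_mul_column, Matrix.det_permute, Finset.prod_mul_distrib, Finset.prod_const,
        Finset.card_univ, Fintype.card_fin, mul_assoc]
      congr 2
      exact (map_prod (MonoidAlgebra.of ℤ G) g Finset.univ).symm
    have hsg : ((Equiv.Perm.sign π : ℤ) : MonoidAlgebra ℤ G) * ((Equiv.Perm.sign π : ℤ) : MonoidAlgebra ℤ G) = 1 := by
      rw [← Int.cast_mul, ← Units.val_mul, Int.units_mul_self, Units.val_one, Int.cast_one]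
    have hgi : MonoidAlgebra.single (∏ i, g i)⁻¹ (1 : ℤ) * MonoidAlgebra.single (∏ i, g i) (1 : ℤ) =
        (1 : MonoidAlgebra ℤ G) := by
      rw [MonoidAlgebra.single_mul_single, inv_mul_cancel, one_mul]
      rfl
    have hDe : sE e D = D := by
      rw [hD, map_sub, sE_nP hC, sE_single, map_one]
    have hkl' : ¬ l ∣ k ^ r := fun h => hkl (hl.dvd_of_dvd_pow h)
    refine ⟨k ^ r, MonoidAlgebra.single (∏ i, g i)⁻¹ (1 : ℤ) *
      (((Equiv.Perm.sign π : ℤ) : MonoidAlgebra ℤ G) * d.det), hkl', ?_⟩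
    have h4 : MonoidAlgebra.mapDomain e (MonoidAlgebra.single 1 (q / (k : ℚ) ^ r) *
        toQ G (D * c.det)) = MonoidAlgebra.single 1 (q / (k : ℚ) ^ r) *
          toQ G (D * ((sE e).mapMatrix c).det) := by
      have h5 : MonoidAlgebra.mapDomain e (MonoidAlgebra.single 1 (q / (k : ℚ) ^ r) *
          toQ G (D * c.det)) = MonoidAlgebra.mapDomain e (MonoidAlgebra.single 1 (q / (k : ℚ) ^ r)) *
            MonoidAlgebra.mapDomain e (toQ G (D * c.det)) :=
        map_mul (MonoidAlgebra.mapDomainRingHom ℚ e.toMonoidHom) _ _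
      rw [h5, ← sE_toQ, map_mul (sE e), hDe, ← RingHom.map_det, MonoidAlgebra.mapDomain_single,
        map_one]
    have h6 : (MonoidAlgebra.single (1 : G) ((k ^ r : ℕ) : ℚ) : MonoidAlgebra ℚ G) =
        toQ G ((k : MonoidAlgebra ℤ G) ^ r) := by
      rw [map_pow, map_natCast, ← Nat.cast_pow, MonoidAlgebra.natCast_def]
    rw [h4, h6, mul_left_comm, mul_left_comm (toQ G _), ← map_mul, ← map_mul]
    congr 2
    rw [Matrix.det_mul, h3] at h2
    linear_combination (MonoidAlgebra.single (∏ i, g i)⁻¹ (1 : ℤ) *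
      ((Equiv.Perm.sign π : ℤ) : MonoidAlgebra ℤ G)) * h2 -
      (D * (k : MonoidAlgebra ℤ G) ^ r * c.det * ((Equiv.Perm.sign π : ℤ) : MonoidAlgebra ℤ G) *
        ((Equiv.Perm.sign π : ℤ) : MonoidAlgebra ℤ G)) * hgi -
      (D * (k : MonoidAlgebra ℤ G) ^ r * c.det) * hsg

end ALG

end Pool.Agent.RS3
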