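import Pool.Agent.Lib_helper35.RS2.K_UR
import Pool.Agent.Lib_helper17.RS.P_TW
import Pool.Agent.Lib_helper35.RS3.P_AWY
import Pool.Agent.Lib_helper35.RS2.P_LY
import Pool.Agent.Lib_helper35.RS3.P_NL
import Pool.Agent.Lib_helper35.RS3.P_OPT
import Pool.Agent.Lib_helper35.RS3.P_STK
import Pool.Agent.Lib_helper35.RS3.P_SYM
import Pool.Agent.Lib_helper35.RS2.P_NF
import Pool.Agent.Lib_helper27.RS3.Defs3

/-!
# RS3, block LC3: integrality at `l`
-/

namespace Pool.Agent.RS3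

set_option linter.unusedSectionVars false

open Pool.Agent.RSK Pool.Agent.RS2
open NumberField IsDedekindDomain Filter Topology Complex

theorem lc3_evR_toR {G : Type} [CommGroup G] (χ : G →* ℂˣ) (a : MonoidAlgebra ℤ G) :
    evR χ (toR G a) = evZ χ a := by
  have h : ((evR χ : MonoidAlgebra ℝ G →ₐ[ℝ] ℂ) : MonoidAlgebra ℝ G →+* ℂ).comp (toR G) =
      evZ χ := by
    refine MonoidAlgebra.ringHom_ext (fun n => ?_) (fun g => ?_)
    · simp [evR, evZ, evQ, toR, toQ]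
    · simp [evR, evZ, evQ, toR, toQ]
  exact congrArg (fun f : MonoidAlgebra ℤ G →+* ℂ => f a) h

section Grp

variable {Γ G : Type} [Group Γ] [CommGroup G] [Fintype G]

/-- every automorphism of `G` is a conjugation by an element of `Γ` -/
theorem lc3_conj {p m j : ℕ} {P : Subgroup G} (hC : CycP p j P) (f : G →* Γ)
    (hf : Function.Injective f) {g₀ : G} {θ : (ZMod (p ^ m))ˣ →* Γ}
    {ρ : Γ →* Equiv.Perm (ZMod (p ^ m))} {ρ' : Γ →* Equiv.Perm (ZMod (p ^ (m - 1)))}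
    (hA : AffD p m j (f g₀) θ ρ ρ') (e : MulAut G) :
    ∃ τ : Γ, ∀ g : G, τ * f g = f (e g) * τ := by
  have hord : orderOf g₀ = p ^ j := by
    rw [← hA.ord]
    exact (orderOf_injective f hf g₀).symm
  have hgen : ∀ g : G, ∃ n : ℕ, g₀ ^ n = g := by
    intro g
    have h1 : Subgroup.zpowers g₀ = ⊤ := by
      apply Subgroup.eq_top_of_card_eq
      rw [Nat.card_zpowers, hord, hC.card]
    have h2 : g ∈ Subgroup.zpowers g₀ := by rw [h1]; exact Subgroup.mem_top g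
    rw [← mem_powers_iff_mem_zpowers] at h2
    exact h2
  obtain ⟨s, hs⟩ := hgen (e g₀)
  have hcop : Nat.Coprime s p := by
    have h1 : orderOf (g₀ ^ s) = p ^ j := by
      rw [hs, ← hord]
      exact orderOf_injective e.toMonoidHom e.injective g₀
    have h2 : orderOf (g₀ ^ s) = orderOf g₀ / Nat.gcd (orderOf g₀) s := orderOf_pow g₀
    rw [h1, hord] at h2
    have hpj : 0 < p ^ j := Nat.pow_pos hA.prime.pos
    have h3 : Nat.gcd (p ^ j) s = 1 := by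
      have hd : Nat.gcd (p ^ j) s ∣ p ^ j := Nat.gcd_dvd_left _ _
      have h4 : Nat.gcd (p ^ j) s * (p ^ j / Nat.gcd (p ^ j) s) = p ^ j := Nat.mul_div_cancel' hd
      rw [← h2] at h4
      exact Nat.eq_of_mul_eq_mul_right hpj (by rw [h4, one_mul])
    have h5 : Nat.Coprime (p ^ j) s := h3
    exact (Nat.Coprime.coprime_dvd_left (dvd_pow_self p hA.pos.ne') h5).symm
  have hcopm : Nat.Coprime s (p ^ m) := hcop.pow_right m
  have hne : NeZero (p ^ m) := ⟨(Nat.pow_pos hA.prime.pos).ne'⟩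
  have hval : ((ZMod.unitOfCoprime s hcopm : (ZMod (p ^ m))ˣ) : ZMod (p ^ m)).val = s % p ^ m := by
    rw [ZMod.coe_unitOfCoprime, ZMod.val_natCast]
  have hconj := hA.conj (ZMod.unitOfCoprime s hcopm)
  rw [hval] at hconj
  have hpow : (f g₀) ^ (s % p ^ m) = (f g₀) ^ s := by
    rw [← pow_mod_orderOf (f g₀) (s % p ^ m), ← pow_mod_orderOf (f g₀) s, hA.ord,
      Nat.mod_mod_of_dvd _ (pow_dvd_pow p hA.le)]
  rw [hpow] at hconj
  refine ⟨θ (ZMod.unitOfCoprime s hcopm), fun g => ?_⟩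
  obtain ⟨n, rfl⟩ := hgen g
  have h1 : θ (ZMod.unitOfCoprime s hcopm) * f (g₀ ^ n) * (θ (ZMod.unitOfCoprime s hcopm))⁻¹ =
      f (e (g₀ ^ n)) := by
    rw [map_pow f, map_pow e, map_pow f, ← hs, map_pow f, ← hconj, conj_pow]
  rw [← h1]
  group

end Grp

section FLD

variable {F₀ F H : Type} [Field F₀] [NumberField F₀] [Field F] [NumberField F] [Field H]
  [NumberField H] [Algebra F₀ F] [Algebra F₀ H] [Algebra F H] [IsScalarTower F₀ F H]
  [IsGalois F₀ H] [IsGalois F H] {S₀ T₀ : Finset (HeightOneSpectrum (𝓞 F₀))}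

theorem lc3_mem (τ : H ≃ₐ[F₀] H) {x : Hˣ} (hx : x ∈ Un (ovr H (ovr F S₀)) (ovr H (ovr F T₀))) :
    τ • x ∈ Un (ovr H (ovr F S₀)) (ovr H (ovr F T₀)) := by
  rw [ovr_ovr, ovr_ovr] at hx ⊢
  exact un_smul τ hx

variable {G : Type} [CommGroup G] [Fintype G] {ι : G ≃* (H ≃ₐ[F] H)} {r : ℕ} {w : Fin r → Pl H}
  {fr : HeightOneSpectrum (𝓞 F) → G} {p j m : ℕ} {P : Subgroup G}

/-- the action of `Gal(H/F₀)` on the units -/
noncomputable def lc3_tau (ι : G ≃* (H ≃ₐ[F] H)) (S₀ T₀ : Finset (HeightOneSpectrum (𝓞 F₀)))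
    (τ : H ≃ₐ[F₀] H) : UM ι (ovr F S₀) (ovr F T₀) ≃+ UM ι (ovr F S₀) (ovr F T₀) where
  toFun u := UM.mk (τ • u.val) (lc3_mem τ u.val_mem)
  invFun u := UM.mk (τ⁻¹ • u.val) (lc3_mem τ⁻¹ u.val_mem)
  left_inv u := UM.ext (by rw [UM.val_mk, UM.val_mk, smul_smul, inv_mul_cancel, one_smul])
  right_inv u := UM.ext (by rw [UM.val_mk, UM.val_mk, smul_smul, mul_inv_cancel, one_smul])
  map_add' u v := UM.ext (by
    rw [UM.val_mk, UM.val_add, UM.val_add, UM.val_mk, UM.val_mk, smul_mul'])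

theorem lc3_tau_val (τ : H ≃ₐ[F₀] H) (u : UM ι (ovr F S₀) (ovr F T₀)) :
    (lc3_tau ι S₀ T₀ τ u).val = τ • u.val := rfl

theorem lc3_tau_smul {e : MulAut G} {τ : H ≃ₐ[F₀] H}
    (hτ : ∀ g : G, τ * rst F₀ ι g = rst F₀ ι (e g) * τ) (g : G)
    (u : UM ι (ovr F S₀) (ovr F T₀)) :
    lc3_tau ι S₀ T₀ τ (MonoidAlgebra.single g (1 : ℤ) • u) =
      MonoidAlgebra.single (e g) (1 : ℤ) • lc3_tau ι S₀ T₀ τ u := by
  apply UM.ext
  rw [lc3_tau_val, um_single_smul, um_single_smul, lc3_tau_val]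
  apply Units.ext
  exact congrArg (fun σ : H ≃ₐ[F₀] H => σ (u.val : H)) (hτ g)

/-- the determinants of the logarithms -/
theorem lc3_core {S T : Finset (HeightOneSpectrum (𝓞 F))} {c : (G →* ℂˣ) → ℂ}
    {b b' : Fin r → UM ι S T} {x x' : MonoidAlgebra ℚ G} (hco : Core2 ι S T P w c b x)
    (hb' : ∀ i, nP P • b' i = 0) (hx' : toQ G (nP P) * x' = 0)
    (h : ∀ (A : Type) [CommRing A] (f : MonoidAlgebra ℤ G →+* A) (f' : MonoidAlgebra ℚ G →+* A)
      (_ : ∀ a, f' (toQ G a) = f a) (ψ : Fin r → UM ι S T → A)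
      (_ : ∀ i u v, ψ i (u + v) = ψ i u + ψ i v) (_ : ∀ i a u, ψ i (a • u) = f a * ψ i u),
      f' x' * Matrix.det (Matrix.of fun i k => ψ i (b' k)) =
        f' x * Matrix.det (Matrix.of fun i k => ψ i (b k))) :
    Core2 ι S T P w c b' x' where
  minus := hb'
  xminus := hx'
  value := by
    intro χ hχ
    rw [← hco.value χ hχ]
    have h1 := h ℂ (evZ χ) (evQ χ : MonoidAlgebra ℚ G →+* ℂ) (fun a => rfl)
      (fun i u => evR χ (wl ι S T (w i) u))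
      (fun i u v => by rw [map_add, map_add])
      (fun i a u => by
        rw [map_smul]
        show evR χ (toR G a * wl ι S T (w i) u) = evZ χ a * evR χ (wl ι S T (w i) u)
        rw [map_mul, lc3_evR_toR])
    have h2 : ∀ b : Fin r → UM ι S T, evR χ (wmat ι S T w b).det =
        Matrix.det (Matrix.of fun i k => evR χ (wl ι S T (w i) (b k))) := by
      intro b
      rw [AlgHom.map_det]
      rfl
    rw [h2, h2]
    exact h1

variable {θ : (ZMod (p ^ m))ˣ →* (H ≃ₐ[F₀] H)} {ρ : (H ≃ₐ[F₀] H) →* Equiv.Perm (ZMod (p ^ m))}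
  {ρ' : (H ≃ₐ[F₀] H) →* Equiv.Perm (ZMod (p ^ (m - 1)))} {g₀ : G}

theorem lcore3 (hA : AffD p m j (rst F₀ ι g₀) θ ρ ρ') (hC : CycP p j P)
    (hD : DataW ι (ovr F S₀) (ovr F T₀) r w fr) (hST : Disjoint S₀ T₀)
    (hun : ∀ W : HeightOneSpectrum (𝓞 H), W.under (𝓞 F₀) ∉ S₀ →
      Algebra.IsUnramifiedAt (𝓞 F₀) W.asIdeal) {l : ℕ} (hl : l.Prime) (hlp : l ≠ p) :
    LCore2 ι (ovr F S₀) (ovr F T₀) P w fr l := by
  obtain ⟨c₀, hc₀, hc, b, q, hco, hsy⟩ := stark3 hA hC hD hST hun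
  have hfin : Module.Finite ℤ (UM ι (ovr F S₀) (ovr F T₀)) := um_finite hD
  have htf : Module.IsTorsionFree ℤ (UM ι (ovr F S₀) (ovr F T₀)) := um_tf hD
  obtain ⟨ιE, hE⟩ := lay_exists (ι := ι) P
  have hrk := um_rank2 hC hD hE
  obtain ⟨b', hb', hB'⟩ := opt_exists hC hrk hl hlp
  have hinj : Function.Injective (rst F₀ ι) := by
    intro g h hgh
    apply ι.injective
    apply AlgEquiv.ext
    intro x
    exact congrArg (fun σ : H ≃ₐ[F₀] H => σ x) hgh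
  choose τ hτ using fun e : MulAut G => lc3_conj hC (rst F₀ ι) hinj hA e
  obtain ⟨x', hx', hdet, hsym⟩ := sym3 hC b b' hco.minus hb' hrk hl hB' q
    (fun e => lc3_tau ι S₀ T₀ (τ e)) (fun e g u => lc3_tau_smul (hτ e) g u) (fun e => by
      obtain ⟨π, g, h⟩ := hsy (τ e)
      refine ⟨π, g, fun i => UM.ext ?_⟩
      rw [lc3_tau_val, um_single_smul]
      exact h i)
  have hco' := lc3_core hco hb' hx' hdet
  obtain ⟨k, a, hk, ha⟩ := away3 hC hl hlp x' hx' hsym (norm_l2 hC hD hc hco' hl hlp hB')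
  refine ⟨fun _ => (c₀ : ℂ), hc, fun χ _ => Complex.ofReal_ne_zero.2 hc₀, b', x', hco', fun ψ => ?_⟩
  refine ⟨k, a * (pmat ψ b').det, hk, ?_⟩
  rw [← mul_assoc, ha, map_mul]

end FLD

end Pool.Agent.RS3
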