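import Pool.Agent.Lib_helper17.RS.P_TF
import Pool.Agent.Lib_helper35.RS3.P_AT2
import Pool.Agent.Lib_helper35.RS2.P_CH
import Pool.Agent.Lib_helper35.RS3.P_CH3
import Pool.Agent.Lib_helper35.RS3.P_HOL
import Pool.Agent.Lib_helper35.RS3.P_LC3
import Pool.Agent.Lib_helper35.RS3.DefsH
import Pool.Agent.Lib_helper27.RS3.Defs3

/-!
# RS3, block LA3: integrality outside `p` for arbitrary `S` and `T`
-/

namespace Pool.Agent.RS3

set_option linter.unusedSectionVars false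

open Pool.Agent.RSK Pool.Agent.RS2
open NumberField IsDedekindDomain Filter Topology Complex

/-- the ramified places -/
theorem la3_ram (F₀ H : Type) [Field F₀] [NumberField F₀] [Field H] [NumberField H] [Algebra F₀ H] :
    ∃ B : Finset (HeightOneSpectrum (𝓞 F₀)), ∀ W : HeightOneSpectrum (𝓞 H),
      W.under (𝓞 F₀) ∉ B → Algebra.IsUnramifiedAt (𝓞 F₀) W.asIdeal := by
  classical
  have hne : differentIdeal (𝓞 F₀) (𝓞 H) ≠ ⊥ := differentIdeal_ne_bot
  have hfin := Ideal.finite_factors hne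
  refine ⟨hfin.toFinset.image (fun W => W.under (𝓞 F₀)), fun W hW => ?_⟩
  have hp : W.asIdeal.IsPrime := W.isPrime
  rw [← not_dvd_differentIdeal_iff]
  intro hd
  exact hW (Finset.mem_image_of_mem _ (hfin.mem_toFinset.2 hd))

section LA

variable {F H : Type} [Field F] [NumberField F] [Field H] [NumberField H] [Algebra F H]
  [IsGalois F H] {G : Type} [CommGroup G] [Fintype G] {p j : ℕ} {P : Subgroup G}
  {ι : G ≃* (H ≃ₐ[F] H)} {S T : Finset (HeightOneSpectrum (𝓞 F))} {r : ℕ}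
  {w : Fin r → Pl H} {fr : HeightOneSpectrum (𝓞 F) → G}

theorem la3_ovr (S : Finset (HeightOneSpectrum (𝓞 F))) : ovr F S = S := by
  ext W
  rw [mem_ovr]
  refine iff_of_eq (congrArg (fun v => v ∈ S) ?_)
  refine HeightOneSpectrum.ext ?_
  ext x
  rfl

/-- roots of unity -/
theorem la3_tf (hD : Data ι S T r w fr) :
    ∀ x : Hˣ, x ∈ KT (ovr H T) → ∀ n : ℕ, 0 < n → x ^ n = 1 → x = 1 := by
  intro x hx n hn h
  refine un_torsion hD (x := x) ⟨fun v _ => ?_, hx⟩ hn h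
  have h1 : v.valuation H (x : H) ^ n = 1 := by
    rw [← map_pow, ← Units.val_pow_eq_pow_val, h, Units.val_one, map_one]
  exact (pow_eq_one_iff.1 h1).resolve_right hn.ne'

theorem la3_dataW (hD : Data ι S T r w fr) : DataW ι S T r w fr :=
  { disj := hD.disj
    unram := hD.unram
    tf := la3_tf hD
    mem := hD.mem
    split := hD.split
    inj := hD.inj
    all := hD.all
    card := hD.card
    frob := hD.frob }

theorem la3_two (hC : CycP p j P) (hD : Data ι S T r w fr) {l : ℕ}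
    (hl : l.Prime) (hlp : l ≠ p) (h2 : p ^ j = 2) {g₀ : G} (hg : ∀ g : G, g ∈ Subgroup.zpowers g₀) :
    LCore2 ι S T P w fr l := by
  have hp2 : p = 2 := by
    have h1 : p ∣ 2 := by
      rw [← h2]
      exact dvd_pow_self p hC.pos.ne'
    exact (Nat.prime_dvd_prime_iff_eq hC.prime Nat.prime_two).1 h1
  subst hp2
  have hj : j = 1 := Nat.pow_right_injective (le_refl 2) (by simpa using h2)
  subst hj
  obtain ⟨θ, ρ, ρ', hA⟩ := aff_two (F := F) (ι := ι) hC hg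
  have hs := lcore3 (S₀ := S) (T₀ := T) (r := r) (w := w) (fr := fr) hA hC
    (by rw [la3_ovr, la3_ovr]; exact la3_dataW hD) hD.disj hD.unram hl hlp
  rw [la3_ovr, la3_ovr] at hs
  exact hs

theorem la3_main {F₀ : Type} [Field F₀] [NumberField F₀] [Algebra F₀ F] [Algebra F₀ H]
    [IsScalarTower F₀ F H] [IsGalois F₀ H] [IsGalois F₀ F] {m : ℕ}
    {θ : (ZMod (p ^ m))ˣ →* (H ≃ₐ[F₀] H)} {ρ : (H ≃ₐ[F₀] H) →* Equiv.Perm (ZMod (p ^ m))}
    {ρ' : (H ≃ₐ[F₀] H) →* Equiv.Perm (ZMod (p ^ (m - 1)))} {g₀ : G}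
    (hA : AffD p m j (rst F₀ ι g₀) θ ρ ρ')
    (hC : CycP p j P) (hD : Data ι S T r w fr) {l : ℕ}
    (hl : l.Prime) (hlp : l ≠ p) (h2 : 2 < p ^ j) : LCore2 ι S T P w fr l := by
  classical
  obtain ⟨B, hB⟩ := la3_ram F₀ H
  obtain ⟨S₀, hS₀⟩ : ∃ S₀ : Finset (HeightOneSpectrum (𝓞 F₀)),
      S₀ = S.image (fun v => v.under (𝓞 F₀)) ∪ B := ⟨_, rfl⟩
  obtain ⟨v₀, hv₀, hv⟩ := cheb3 hA hC h2 (S₀ ∪ T.image (fun v => v.under (𝓞 F₀))) hl hlp
  rw [Finset.mem_union, not_or] at hv₀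
  have hm1 : ∀ v : HeightOneSpectrum (𝓞 F), v ∈ ovr F {v₀} ↔ v.under (𝓞 F₀) = v₀ := fun v => by
    rw [mem_ovr, Finset.mem_singleton]
  have hSS : S ⊆ ovr F S₀ := fun v hvS => by
    rw [mem_ovr, hS₀, Finset.mem_union]
    exact Or.inl (Finset.mem_image_of_mem _ hvS)
  have hd0 : Disjoint S₀ {v₀} := Finset.disjoint_singleton_right.2 hv₀.1
  have hd1 : Disjoint (ovr F S₀) (ovr F {v₀}) := by
    rw [Finset.disjoint_left]
    intro v h1 h2
    rw [hm1] at h2
    rw [mem_ovr, h2] at h1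
    exact hv₀.1 h1
  have hdS : Disjoint S (ovr F {v₀}) := Finset.disjoint_of_subset_left hSS hd1
  have hdT : Disjoint T (ovr F {v₀}) := by
    rw [Finset.disjoint_left]
    intro v h1 h2
    rw [hm1] at h2
    apply hv₀.2
    rw [← h2]
    exact Finset.mem_image_of_mem _ h1
  obtain ⟨v₁, hv₁⟩ : ∃ v₁ : HeightOneSpectrum (𝓞 F), v₁ ∈ ovr F {v₀} := by
    obtain ⟨W, hW⟩ := dn_surj (F := F₀) (H := F) (Sum.inr v₀)
    rcases W with W | W
    · exact absurd hW (by simp [dn])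
    · refine ⟨W, ?_⟩
      rw [hm1]
      simpa [dn] using hW
  have hfin : Module.finrank ℚ F ≤ Module.finrank ℚ H := by
    rw [← Module.finrank_mul_finrank ℚ F H]
    exact Nat.le_mul_of_pos_right _ Module.finrank_pos
  have hD1 : Data ι S (ovr F {v₀}) r w fr :=
    { disj := hdS
      unram := hD.unram
      tors := Or.inr ⟨v₁, hv₁, lt_of_le_of_lt (Nat.add_le_add_right hfin 1) (hv v₁ hv₁).1⟩
      mem := hD.mem
      split := hD.split
      inj := hD.inj
      all := hD.all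
      card := hD.card
      frob := hD.frob }
  have hT1 : ∀ v ∈ ovr F {v₀}, fr v ≠ 1 ∧ l ∣ nv v - 1 := fun v h =>
    ⟨(hv v h).2.2 _ (hD.frob v (fun h' => Finset.disjoint_left.1 hdS h' h)), (hv v h).2.1⟩
  refine chain_T2 hC hl hlp hdT hD hD1 hT1 ?_
  have hcs := Finset.card_le_card hSS
  refine chain_S2 hC hl hlp hd1 ((ovr F S₀).card - S.card) hD1 hSS (by omega) ?_
  intro r₁ w₁ hD₂ _
  have hunr : ∀ W : HeightOneSpectrum (𝓞 H), W.under (𝓞 F₀) ∉ S₀ →
      Algebra.IsUnramifiedAt (𝓞 F₀) W.asIdeal := by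
    intro W hW
    refine hB W (fun h => hW ?_)
    rw [hS₀, Finset.mem_union]
    exact Or.inr h
  exact lcore3 hA hC (la3_dataW hD₂) hd0 hunr hl hlp

theorem lcore_all3 (hC : CycP p j P) (hH : Hol3 p (p ^ j) F H) (hD : Data ι S T r w fr) {l : ℕ}
    (hl : l.Prime) (hlp : l ≠ p) : LCore2 ι S T P w fr l := by
  have hcyc := hC.cyc
  obtain ⟨g₀, hg⟩ := IsCyclic.exists_generator (α := G)
  by_cases h2 : p ^ j = 2
  · exact la3_two hC hD hl hlp h2 hg
  · have h2' : 2 < p ^ j := by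
      have h1 : p ≤ p ^ j := Nat.le_self_pow hC.pos.ne' p
      have := hC.prime.two_le
      omega
    obtain ⟨F₀, _, _, _, _, _, _, _, m, θ, ρ, ρ', hA⟩ := hol3_aff (ι := ι) hC hg hH
    exact la3_main hA hC hD hl hlp h2'

end LA

end Pool.Agent.RS3
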