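import Pool.Agent.Lib_helper17.RS.P_PX2
import Pool.Agent.Lib_helper17.RS.P_WA
import Pool.Agent.Lib_helper17.RS.P_LF
import Pool.Agent.Lib_helper17.RS.P_TR2
import Pool.Agent.Lib_helper17.RS.P_IF
import Pool.Agent.Lib_helper35.RS2.P_CA
import Pool.Agent.Lib_helper35.RS2.P_QK
import Pool.Agent.Lib_helper35.RS2.P_CG
import Pool.Agent.Lib_helper35.RS2.P_GP
import Pool.Agent.Lib_helper35.RS2.P_CB
import Pool.Agent.Lib_helper35.RS2.P_LY
import Pool.Agent.Lib_helper35.RS3.P_LA3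
import Pool.Agent.Lib_helper35.RS3.DefsH
import Pool.Agent.Lib_helper27.RS3.Defs3

/-!
# Rubin's conjecture for abelian `p`-groups: the final assembly
-/

namespace Pool.Agent.RS3

set_option linter.unusedSectionVars false

open Pool.Agent.RSK Pool.Agent.RS2
open NumberField IsDedekindDomain Filter Topology Complex

section FT

variable {F H : Type} [Field F] [NumberField F] [Field H] [NumberField H] [Algebra F H]
  [IsGalois F H] {G : Type} [CommGroup G] [Fintype G] {p : ℕ} {ι : G ≃* (H ≃ₐ[F] H)}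
  {S T : Finset (HeightOneSpectrum (𝓞 F))} {r : ℕ} {w : Fin r → Pl H}
  {fr : HeightOneSpectrum (𝓞 F) → G}

/-- the data provided by the subgroup `N` -/
structure Ft3Q (ι : G ≃* (H ≃ₐ[F] H)) (S T : Finset (HeightOneSpectrum (𝓞 F))) {r : ℕ}
    (w : Fin r → Pl H) (fr : HeightOneSpectrum (𝓞 F) → G) (N : Subgroup G)
    (c : (G →* ℂˣ) → ℂ) (b : Fin r → UM ι S T) (x : MonoidAlgebra ℚ G) : Prop where
  lead : ∀ χ : G →* ℂˣ, χ.ker = N → ∃ Λ : ℂ → ℂ, MeromorphicOn Λ Set.univ ∧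
    (∀ s : ℂ, 1 < s.re → Λ s = LST S T fr χ s) ∧
    Tendsto (fun s : ℂ => Λ s / s ^ r) (𝓝[≠] 0) (𝓝 (c χ))
  off : ∀ χ : G →* ℂˣ, χ.ker ≠ N → evQ χ x = 0
  val : ∀ χ : G →* ℂˣ, χ.ker = N → evQ χ x * evR χ (wmat ι S T w b).det = c χ⁻¹
  van : ∀ χ : G →* ℂˣ, χ.ker = N → c χ = 0 → evQ χ x = 0
  int : ∀ ψ : Fin r → (UM ι S T →ₗ[MonoidAlgebra ℤ G] MonoidAlgebra ℤ G),
    ∃ a : MonoidAlgebra ℤ G, x * toQ G (pmat ψ b).det = toQ G a

/-- the character of `G/N` -/
noncomputable def ft3L (N : Subgroup G) (χ : G →* ℂˣ) (h : N ≤ χ.ker) : G ⧸ N →* ℂˣ :=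
  QuotientGroup.lift N χ (fun _ hx => h hx)

theorem ft3L_comp (N : Subgroup G) (χ : G →* ℂˣ) (h : N ≤ χ.ker) :
    (ft3L N χ h).comp (QuotientGroup.mk' N) = χ := by
  ext g
  rfl

theorem ft3L_eq (N : Subgroup G) (χ' : G ⧸ N →* ℂˣ)
    (h : N ≤ (χ'.comp (QuotientGroup.mk' N)).ker) :
    ft3L N (χ'.comp (QuotientGroup.mk' N)) h = χ' := by
  apply MonoidHom.ext
  intro g
  obtain ⟨g, rfl⟩ := QuotientGroup.mk_surjective g
  rfl

theorem ft3_ker_inv (χ : G →* ℂˣ) : χ⁻¹.ker = χ.ker := by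
  ext g
  rw [MonoidHom.mem_ker, MonoidHom.mem_ker, MonoidHom.inv_apply, inv_eq_one]

theorem ft3_le_comp (N : Subgroup G) (χ' : G ⧸ N →* ℂˣ) :
    N ≤ (χ'.comp (QuotientGroup.mk' N)).ker := by
  intro x hx
  rw [MonoidHom.mem_ker]
  show χ' (QuotientGroup.mk' N x) = 1
  have : (QuotientGroup.mk' N x) = 1 := by
    rw [← MonoidHom.mem_ker, QuotientGroup.ker_mk']
    exact hx
  rw [this, map_one]

/-- the kernel of the character of `G` given by an injective character of `G/N` -/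
theorem ft3_ker_comp (N : Subgroup G) (χ' : G ⧸ N →* ℂˣ) (h : ∀ g, g ≠ 1 → χ' g ≠ 1) :
    (χ'.comp (QuotientGroup.mk' N)).ker = N := by
  refine le_antisymm ?_ (ft3_le_comp N χ')
  intro x hx
  rw [MonoidHom.mem_ker] at hx
  by_contra hxN
  refine h (QuotientGroup.mk' N x) ?_ hx
  intro h1
  apply hxN
  rw [← MonoidHom.mem_ker, QuotientGroup.ker_mk'] at h1
  exact h1

theorem ft3_fth {G' : Type} [CommGroup G'] [Fintype G'] {p j : ℕ} {P' : Subgroup G'}
    (hC : CycP p j P') {χ : G' →* ℂˣ} (h : ∀ g, g ≠ 1 → χ g ≠ 1) : Fth P' χ := by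
  have h1 : 1 < Nat.card P' := by
    rw [hC.cardP]
    exact hC.prime.one_lt
  haveI := Finite.one_lt_card_iff_nontrivial.1 h1
  obtain ⟨g, hg⟩ := exists_ne (1 : P')
  refine ⟨g, g.2, h _ ?_⟩
  intro h2
  exact hg (Subtype.ext h2)

theorem ft3_cycp {G' : Type} [CommGroup G'] [Fintype G'] {p j : ℕ} (hp : p.Prime) (hj : 0 < j)
    (hc : IsCyclic G') (hcard : Nat.card G' = p ^ j) : ∃ P' : Subgroup G', CycP p j P' := by
  haveI := Fact.mk hp
  obtain ⟨g, hg⟩ := exists_prime_orderOf_dvd_card' (G := G') p (by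
    rw [hcard]
    exact dvd_pow_self p hj.ne')
  exact ⟨Subgroup.zpowers g, hp, hj, hc, hcard, by rw [Nat.card_zpowers, hg]⟩

theorem ft3_N2 (hp : p.Prime) (hG : IsPGroup p G) (N : Subgroup G) (hcyc : IsCyclic (G ⧸ N))
    (hN : N ≠ ⊤) (hD : Data ι S T r w fr) (hθ : Hol3 p N.index F (Kf ι N))
    (hS : r + 2 ≤ Fintype.card (InfinitePlace F) + S.card)
    (hS' : ∀ (N' : Subgroup G) (i : ℕ), N ≤ N' → N.index = p * N'.index →
      Nat.card N = p ^ i →
      (∀ W : Pl H, InS S (dn F W) → (∀ g : G, act (ι g) W = W → g ∈ N) →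
        ∃ l, dn F W = dn F (w l)) →
      N'.index * (r + 1 + i * (p - 1)) < Fintype.card (PS (ovr (Kf ι N') S))) :
    ∃ (c : (G →* ℂˣ) → ℂ) (b : Fin r → UM ι S T) (x : MonoidAlgebra ℚ G),
      Ft3Q ι S T w fr N c b x := by
  classical
  haveI := Fact.mk hp
  haveI := kf_galois ι N
  obtain ⟨ι', hq⟩ := kf_quo ι N
  haveI : Fintype (G ⧸ N) := Fintype.ofFinite _
  obtain ⟨j, hj⟩ := IsPGroup.iff_card.1 (hG.to_quotient N)
  obtain ⟨i, hi⟩ := IsPGroup.iff_card.1 (hG.to_subgroup N)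
  have hidx : N.index = p ^ j := hj
  have hj0 : 0 < j := by
    rcases Nat.eq_zero_or_pos j with h | h
    · exfalso
      rw [h, pow_zero] at hidx
      exact hN (Subgroup.index_eq_one.1 hidx)
    · exact h
  obtain ⟨P', hC⟩ := ft3_cycp hp hj0 hcyc hj
  have hH : Hol3 p (p ^ j) F (Kf ι N) := hidx ▸ hθ
  have hl : ∀ (S' T' : Finset (HeightOneSpectrum (𝓞 F))) (r' : ℕ) (w' : Fin r' → Pl (Kf ι N))
      (fr' : HeightOneSpectrum (𝓞 F) → G ⧸ N), Data ι' S' T' r' w' fr' →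
      ∀ l : ℕ, l.Prime → l ≠ p → LCore2 ι' S' T' P' w' fr' l := by
    intro S' T' r' w' fr' hD' l hl hlp
    exact lcore_all3 hC hH hD' hl hlp
  have hinj : ∀ χ' : G ⧸ N →* ℂˣ, Fth P' χ' → ∀ g, g ≠ 1 → χ' g ≠ 1 := by
    intro χ' hχ g hg
    exact fth_ne hC hχ hg
  have hlin : ∀ (χ : G →* ℂˣ) (h : χ.ker = N), Fth P' (ft3L N χ h.ge) := by
    intro χ h
    refine ft3_fth hC ?_
    intro g hg h1
    obtain ⟨g, rfl⟩ := QuotientGroup.mk_surjective g
    apply hg
    have h2 : χ g = 1 := h1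
    rw [← MonoidHom.mem_ker, h] at h2
    exact (QuotientGroup.eq_one_iff g).2 h2
  rcases case_K2 hq hC hl hD hS with ⟨hK, hW⟩ | hK
  · have hN' : N ≤ P'.comap (QuotientGroup.mk' N) := by
      intro x hx
      rw [Subgroup.mem_comap]
      have : (QuotientGroup.mk' N x) = 1 := by
        rw [← MonoidHom.mem_ker, QuotientGroup.ker_mk']
        exact hx
      rw [this]
      exact one_mem _
    have hidx' : (P'.comap (QuotientGroup.mk' N)).index = P'.index :=
      Subgroup.index_comap_of_surjective _ (QuotientGroup.mk'_surjective N)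
    have hP' : p * P'.index = p ^ j := by
      have := P'.card_mul_index
      rw [hC.cardP, hj] at this
      exact this
    have hP'' : P'.index = p ^ (j - 1) := by
      obtain ⟨l, rfl⟩ : ∃ l, j = l + 1 := ⟨j - 1, by omega⟩
      rw [pow_succ, mul_comm (p ^ l)] at hP'
      rw [Nat.add_sub_cancel]
      exact Nat.eq_of_mul_eq_mul_left hp.pos hP'
    have hbig := hS' (P'.comap (QuotientGroup.mk' N)) i hN' (by rw [hidx', hP', hidx]) hi (by
      intro W hWS hWN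
      refine hW W hWS ?_
      intro g hg
      have := hWN g hg
      rw [← MonoidHom.mem_ker, QuotientGroup.ker_mk']
      exact this)
    obtain ⟨e⟩ := kf_kf N hq P'
    rw [hidx', hP'', ← card_ovr_congr e S] at hbig
    obtain ⟨ιE, hE⟩ := lay_exists (ι := ι') P'
    obtain ⟨m, hm⟩ : ∃ m, Fintype.card (PS (ovr (Kf ι' P') S)) = r * p ^ (j - 1) + m + 1 := by
      refine ⟨Fintype.card (PS (ovr (Kf ι' P') S)) - r * p ^ (j - 1) - 1, ?_⟩
      have h1 : r * p ^ (j - 1) ≤ p ^ (j - 1) * (r + 1 + i * (p - 1)) := by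
        rw [mul_comm r]
        exact Nat.mul_le_mul_left _ (by omega)
      omega
    have hκ : p ^ (j - 1) * (i * (p - 1) + 1) ≤ m := by
      rw [hm] at hbig
      have h1 : p ^ (j - 1) * (r + 1 + i * (p - 1)) =
          r * p ^ (j - 1) + p ^ (j - 1) * (i * (p - 1) + 1) := by ring
      omega
    obtain ⟨c, hc, hc0, b, x, hco, hint⟩ := core_gen2 hC hK hE hm
      (fun l h1 h2 => hl S T r _ _ hK l h1 h2) hκ
    obtain ⟨b₁, x₁, h1, h2, h3, h4⟩ := transport hq hD.split b x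
    have hker : Nat.card (QuotientGroup.mk' N).ker = p ^ i := by
      rw [QuotientGroup.ker_mk', hi]
    refine ⟨fun χ => if h : N ≤ χ.ker then c (ft3L N χ h) else 0, b₁, x₁, ?_, ?_, ?_, ?_, ?_⟩
    · intro χ hχ
      obtain ⟨Λ, g1, g2, g3⟩ := hc (ft3L N χ hχ.ge) (hlin χ hχ)
      refine ⟨Λ, g1, g2, ?_⟩
      rw [dif_pos hχ.ge]
      exact g3
    · intro χ hχ
      by_cases hf : ∃ χ' : G ⧸ N →* ℂˣ, χ = χ'.comp (QuotientGroup.mk' N)
      · obtain ⟨χ', rfl⟩ := hf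
        have hn : ¬ Fth P' χ' := fun h => hχ (ft3_ker_comp N χ' (hinj χ' h))
        have := h1 χ'
        rw [(nP_zero_iff x).1 hco.xminus χ' hn] at this
        rcases mul_eq_zero.1 this with h | h
        · exact h
        · exfalso
          rw [hker] at h
          exact pow_ne_zero _ (by exact_mod_cast (pow_pos hp.pos _).ne') h
      · exact h2 χ hf
    · intro χ hχ
      have h := h3 (ft3L N χ hχ.ge)
      rw [ft3L_comp, hco.value _ (hlin χ hχ)] at h
      rw [h, dif_pos (by rw [ft3_ker_inv]; exact hχ.ge)]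
      congr 1
      apply MonoidHom.ext
      intro g
      obtain ⟨g, rfl⟩ := QuotientGroup.mk_surjective g
      rfl
    · intro χ hχ h0
      rw [dif_pos hχ.ge] at h0
      exact absurd h0 (hc0 _ (hlin χ hχ))
    · intro ψ
      obtain ⟨ψ', hψ'⟩ := h4 ψ
      obtain ⟨a, ha⟩ := hint ψ'
      refine hψ' a ?_
      rw [ha, hker]
      push_cast
      rfl
  · refine ⟨fun _ => 0, fun _ => 0, 0, ?_, ?_, ?_, ?_, ?_⟩
    · intro χ hχ
      exact hK (ft3L N χ hχ.ge) (hlin χ hχ)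
    · intro χ _
      exact map_zero _
    · intro χ _
      rw [map_zero, zero_mul]
    · intro χ _ _
      exact map_zero _
    · intro ψ
      exact ⟨0, by rw [zero_mul, map_zero]⟩

/-- Rubin's conjecture for abelian `p`-groups: `rubin_p` with `Hol3`. -/
theorem rubin_p3 (hp : p.Prime) (hG : IsPGroup p G) (hD : Data ι S T r w fr)
    (hθ : ∀ N : Subgroup G, IsCyclic (G ⧸ N) → Hol3 p N.index F (Kf ι N))
    (hS : r + 2 ≤ Fintype.card (InfinitePlace F) + S.card)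
    (hS' : ∀ (N N' : Subgroup G) (i : ℕ), IsCyclic (G ⧸ N) → N ≤ N' → N.index = p * N'.index →
      Nat.card N = p ^ i →
      (∀ W : Pl H, InS S (dn F W) → (∀ g : G, act (ι g) W = W → g ∈ N) →
        ∃ l, dn F W = dn F (w l)) →
      N'.index * (r + 1 + i * (p - 1)) < Fintype.card (PS (ovr (Kf ι N') S))) :
    RubinStark ι S T w fr := by
  classical
  have hall : ∀ N : Subgroup G, IsCyclic (G ⧸ N) ∧ N ≠ ⊤ → ∃ (c : (G →* ℂˣ) → ℂ)
      (b : Fin r → UM ι S T) (x : MonoidAlgebra ℚ G), Ft3Q ι S T w fr N c b x := fun N hN =>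
    ft3_N2 hp hG N hN.1 hN.2 hD (hθ N hN.1) hS (fun N' i h1 h2 h3 h4 => hS' N N' i hN.1 h1 h2 h3 h4)
  choose C B X hP using hall
  -- the kernel of a nontrivial character
  have hker : ∀ χ : G →* ℂˣ, χ ≠ 1 → IsCyclic (G ⧸ χ.ker) ∧ χ.ker ≠ ⊤ := by
    intro χ hχ
    constructor
    · haveI : Finite χ.range := Set.finite_range χ |>.to_subtype
      haveI : IsCyclic χ.range := inferInstance
      exact (QuotientGroup.quotientKerEquivRange χ).symm.isCyclic.1 inferInstance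
    · intro h
      apply hχ
      ext g
      have : g ∈ χ.ker := by rw [h]; trivial
      rw [MonoidHom.mem_ker] at this
      rw [this]; rfl
  have h1ker : ∀ N : Subgroup G, N ≠ ⊤ → (1 : G →* ℂˣ).ker ≠ N := by
    intro N hN h
    apply hN
    rw [← h]
    exact MonoidHom.ker_one
  let c : (G →* ℂˣ) → ℂ := fun χ =>
    if h : χ ≠ 1 then C χ.ker (hker χ h) χ else 0
  have hc : ∀ N (hN : IsCyclic (G ⧸ N) ∧ N ≠ ⊤) (χ : G →* ℂˣ), χ.ker = N → χ ≠ 1 →
      c χ = C N hN χ := by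
    intro N hN χ h hχ
    subst h
    simp only [c]
    rw [dif_pos hχ]
  have hlead : LeadX S T r fr c := by
    intro χ hχ
    obtain ⟨Λ, h1, h2, h3⟩ := (hP χ.ker (hker χ hχ)).lead χ rfl
    refine ⟨Λ, h1, h2, ?_⟩
    rw [hc _ (hker χ hχ) χ rfl hχ]
    exact h3
  obtain ⟨c', hL, hcc, hc1⟩ := RSK.lead_full hD hlead
  have hc1' : c' 1 = 0 := hc1 hS
  refine ⟨c', hL, ?_⟩
  let K := {N : Subgroup G // IsCyclic (G ⧸ N) ∧ N ≠ ⊤}
  haveI : Fintype K := Fintype.ofFinite K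
  refine wrap ι S T w c' (K := K) (fun N => B N.1 N.2) (fun N => X N.1 N.2) ?_ ?_ ?_
  · intro χ
    by_cases hχ : χ = 1
    · subst hχ
      have e1 : (1 : G →* ℂˣ)⁻¹ = 1 := by
        apply MonoidHom.ext
        intro g
        show ((1 : G →* ℂˣ) g)⁻¹ = 1
        rw [MonoidHom.one_apply, inv_one]
      rw [e1, hc1']
      refine Finset.sum_eq_zero fun N _ => ?_
      rw [(hP N.1 N.2).off 1 (h1ker N.1 N.2.2), zero_mul]
    · have hχi : χ⁻¹ ≠ 1 := by
        intro h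
        apply hχ
        apply MonoidHom.ext
        intro g
        have h2 : χ⁻¹ g = 1 := by rw [h]; rfl
        have h3 : (χ g)⁻¹ = 1 := h2
        rw [inv_eq_one] at h3
        exact h3
      rw [Finset.sum_eq_single ⟨χ.ker, hker χ hχ⟩]
      · have h := (hP χ.ker (hker χ hχ)).val χ rfl
        rw [h, hcc _ hχi]
        rw [hc χ.ker (hker χ hχ) χ⁻¹ (ft3_ker_inv χ) hχi]
      · intro N _ hN
        have : χ.ker ≠ N.1 := fun h => hN (Subtype.ext h.symm)
        rw [(hP N.1 N.2).off χ this, zero_mul]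
      · intro h
        exact absurd (Finset.mem_univ _) h
  · intro χ N h0
    by_cases hf : χ.ker = N.1
    · have hχ : χ ≠ 1 := by
        rintro rfl
        exact h1ker N.1 N.2.2 hf
      apply (hP N.1 N.2).van χ hf
      rw [← hc N.1 N.2 χ hf hχ, ← hcc χ hχ]
      exact h0
    · exact (hP N.1 N.2).off χ hf
  · intro ψ
    have h : ∀ N : K, ∃ a : MonoidAlgebra ℤ G, X N.1 N.2 * toQ G (pmat ψ (B N.1 N.2)).det =
        toQ G a := fun N => (hP N.1 N.2).int ψ
    choose a ha using h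
    refine ⟨∑ N, a N, ?_⟩
    rw [map_sum]
    exact Finset.sum_congr rfl fun N _ => ha N

end FT

end Pool.Agent.RS3
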