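import Pool.Agent.Lib_helper27.RS3.Defs3

/-! # Block CFI: the induced character -/

namespace Pool.Agent.RS3

open Pool.Agent.RSK Pool.Agent.RS2

theorem cfi_ker {p k v : ℕ} (hp : p.Prime) (hv : v ≤ k) :
    Nat.card {z : ZMod (p ^ k) // ((p ^ v : ℕ) : ZMod (p ^ k)) * z = 0} = p ^ v := by
  have hk0 : p ^ k ≠ 0 := pow_ne_zero _ hp.ne_zero
  let f : ZMod (p ^ k) →+ ZMod (p ^ k) := AddMonoidHom.mulLeft ((p ^ v : ℕ) : ZMod (p ^ k))
  have h1 : Nat.card f.ker * Nat.card f.range = p ^ k := by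
    rw [← AddSubgroup.index_ker, AddSubgroup.card_mul_index, Nat.card_zmod]
  have h2 : f.range = AddSubgroup.zmultiples ((p ^ v : ℕ) : ZMod (p ^ k)) := by
    ext y
    rw [AddSubgroup.mem_zmultiples_iff, AddMonoidHom.mem_range]
    constructor
    · rintro ⟨x, rfl⟩
      obtain ⟨n, rfl⟩ := ZMod.intCast_surjective x
      refine ⟨n, ?_⟩
      rw [zsmul_eq_mul, mul_comm]
      rfl
    · rintro ⟨n, rfl⟩
      refine ⟨n, ?_⟩
      rw [zsmul_eq_mul, mul_comm]
      rfl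
  have h3 : Nat.card f.range = p ^ (k - v) := by
    rw [h2, Nat.card_zmultiples, ZMod.addOrderOf_coe _ hk0,
      Nat.gcd_eq_right (pow_dvd_pow p hv), Nat.pow_div hv hp.pos]
  rw [h3] at h1
  have h5 : p ^ v * p ^ (k - v) = p ^ k := by rw [← pow_add, Nat.add_sub_cancel' hv]
  exact Nat.eq_of_mul_eq_mul_right (pow_pos hp.pos _) (h1.trans h5.symm)

theorem cfi_count {p k v u w : ℕ} (hp : p.Prime) (hv : v ≤ k) (hu : ¬ p ∣ u) :
    Nat.card {y : ZMod (p ^ k) // ((p ^ v * u : ℕ) : ZMod (p ^ k)) * y + (w : ZMod (p ^ k)) = 0} =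
      if p ^ v ∣ w then p ^ v else 0 := by
  split_ifs with h
  · obtain ⟨w', rfl⟩ := h
    have hcop : Nat.Coprime u (p ^ k) := Nat.Coprime.pow_right k
      ((Nat.Prime.coprime_iff_not_dvd hp).2 hu).symm
    let u' : (ZMod (p ^ k))ˣ := ZMod.unitOfCoprime u hcop
    have hu' : (u' : ZMod (p ^ k)) = u := rfl
    refine Eq.trans (Nat.card_congr ?_) (cfi_ker hp hv)
    refine Equiv.subtypeEquiv ((Units.mulLeft u').trans (Equiv.addRight (w' : ZMod (p ^ k)))) ?_
    intro y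
    show _ ↔ ((p ^ v : ℕ) : ZMod (p ^ k)) * ((u' : ZMod (p ^ k)) * y + w') = 0
    rw [hu', Nat.cast_mul, Nat.cast_mul, mul_add, mul_assoc]
  · rw [Nat.card_eq_zero]
    left
    refine ⟨fun ⟨y, hy⟩ => h ?_⟩
    have : NeZero (p ^ k) := ⟨pow_ne_zero _ hp.ne_zero⟩
    obtain ⟨n, rfl⟩ := ZMod.natCast_zmod_surjective y
    rw [← Nat.cast_mul, ← Nat.cast_add, ZMod.natCast_eq_zero_iff] at hy
    have h1 : p ^ v ∣ p ^ v * u * n + w := (pow_dvd_pow p hv).trans hy
    exact (Nat.dvd_add_right (Dvd.intro _ (by rw [mul_assoc]))).1 h1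

theorem cfi_geom {n : ℕ} (ω : ℂ) (h : ω ^ n = 1) :
    ∑ b ∈ Finset.range n, ω ^ b = if ω = 1 then (n : ℂ) else 0 := by
  split_ifs with h1
  · subst h1
    simp
  · have h2 := geom_sum_mul ω n
    rw [h, sub_self] at h2
    exact (mul_eq_zero.1 h2).resolve_right (sub_ne_zero.2 h1)

theorem cfi_units {p m : ℕ} (hp : p.Prime) (hm : 0 < m) [Fintype (ZMod (p ^ m))ˣ] (f : ℕ → ℂ) :
    ∑ b : (ZMod (p ^ m))ˣ, f (b : ZMod (p ^ m)).val =
      ∑ b ∈ Finset.range (p ^ m), f b - ∑ b ∈ Finset.range (p ^ (m - 1)), f (p * b) := by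
  have : NeZero (p ^ m) := ⟨pow_ne_zero _ hp.ne_zero⟩
  have hpm : p * p ^ (m - 1) = p ^ m := by
    rw [← pow_succ', Nat.sub_add_cancel hm]
  have h1 : ∑ b : (ZMod (p ^ m))ˣ, f (b : ZMod (p ^ m)).val =
      ∑ b ∈ (Finset.range (p ^ m)).filter (fun b => ¬ p ∣ b), f b := by
    refine Finset.sum_bij (fun b _ => (b : ZMod (p ^ m)).val) ?_ ?_ ?_ ?_
    · intro b _
      rw [Finset.mem_filter, Finset.mem_range]
      refine ⟨ZMod.val_lt _, fun h => ?_⟩
      have h2 := ZMod.val_coe_unit_coprime b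
      have h3 : Nat.Coprime p (p ^ m) := Nat.Coprime.coprime_dvd_left h h2
      have h4 := (Nat.coprime_pow_right_iff hm p p).1 h3
      rw [Nat.coprime_self] at h4
      exact hp.one_lt.ne' h4
    · intro b _ b' _ h
      exact Units.ext (ZMod.val_injective _ h)
    · intro b hb
      rw [Finset.mem_filter, Finset.mem_range] at hb
      refine ⟨ZMod.unitOfCoprime b (Nat.Coprime.pow_right m
        ((Nat.Prime.coprime_iff_not_dvd hp).2 hb.2).symm), Finset.mem_univ _, ?_⟩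
      rw [ZMod.coe_unitOfCoprime, ZMod.val_natCast, Nat.mod_eq_of_lt hb.1]
    · intro b _
      rfl
  have h2 : ∑ b ∈ Finset.range (p ^ (m - 1)), f (p * b) =
      ∑ b ∈ (Finset.range (p ^ m)).filter (fun b => p ∣ b), f b := by
    refine Finset.sum_bij (fun b _ => p * b) ?_ ?_ ?_ ?_
    · intro b hb
      rw [Finset.mem_filter, Finset.mem_range]
      refine ⟨?_, dvd_mul_right _ _⟩
      rw [← hpm]
      exact Nat.mul_lt_mul_of_pos_left (Finset.mem_range.1 hb) hp.pos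
    · intro b _ b' _ h
      exact Nat.eq_of_mul_eq_mul_left hp.pos h
    · intro b hb
      rw [Finset.mem_filter, Finset.mem_range] at hb
      obtain ⟨h3, b', rfl⟩ := hb
      refine ⟨b', Finset.mem_range.2 ?_, rfl⟩
      rw [← hpm] at h3
      exact Nat.lt_of_mul_lt_mul_left h3
    · intro b _
      rfl
  rw [h1, h2, eq_sub_iff_add_eq, add_comm]
  exact Finset.sum_filter_add_sum_filter_not _ _ _

/-- the values of `χ` on the powers of `g₀` -/
theorem cfi_chi {p j : ℕ} {G : Type} [CommGroup G] [Fintype G] {P : Subgroup G}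
    (hC : CycP p j P) {g₀ : G} (hg : orderOf g₀ = p ^ j) {χ : G →* ℂˣ} (hχ : Fth P χ) (n : ℕ) :
    ((χ g₀ : ℂˣ) : ℂ) ^ n = 1 ↔ p ^ j ∣ n := by
  have hp := hC.prime
  have hj := hC.pos
  have : Fact p.Prime := ⟨hp⟩
  have hpj : p * p ^ (j - 1) = p ^ j := by rw [← pow_succ', Nat.sub_add_cancel hj]
  have htop : ∀ h : G, ∃ x : ℕ, g₀ ^ x = h := by
    intro h
    have h1 : Nat.card (Subgroup.zpowers g₀) = Nat.card G := by
      rw [Nat.card_zpowers, hg, hC.card]
    have h2 : Subgroup.zpowers g₀ = ⊤ := Subgroup.eq_top_of_card_eq _ h1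
    have h3 : h ∈ Subgroup.zpowers g₀ := by rw [h2]; exact Subgroup.mem_top h
    exact (mem_powers_iff_mem_zpowers.2 h3)
  have hne : (χ g₀) ^ p ^ (j - 1) ≠ 1 := by
    intro h0
    obtain ⟨h, hP, hh⟩ := hχ
    apply hh
    obtain ⟨x, rfl⟩ := htop h
    have h1 : (g₀ ^ x) ^ p = 1 := by
      have h2 := pow_card_eq_one' (x := (⟨g₀ ^ x, hP⟩ : P))
      rw [hC.cardP] at h2
      exact congrArg Subtype.val h2
    rw [← pow_mul, ← orderOf_dvd_iff_pow_eq_one, hg, ← hpj, mul_comm x p] at h1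
    obtain ⟨y, rfl⟩ := Nat.dvd_of_mul_dvd_mul_left hp.pos h1
    rw [map_pow, pow_mul, h0, one_pow]
  have hord : orderOf (χ g₀) = p ^ j := by
    have h1 : orderOf (χ g₀) = p ^ (j - 1 + 1) := by
      apply orderOf_eq_prime_pow hne
      rw [Nat.sub_add_cancel hj, ← map_pow, ← hg, pow_orderOf_eq_one, map_one]
    rw [h1, Nat.sub_add_cancel hj]
  rw [← hord, orderOf_dvd_iff_pow_eq_one, ← Units.val_pow_eq_pow_val, Units.val_eq_one]

open scoped Classical in
theorem cfi {Γ : Type} [Group Γ] [Fintype Γ] {p m j : ℕ} {c : Γ} {θ : (ZMod (p ^ m))ˣ →* Γ}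
    {ρ : Γ →* Equiv.Perm (ZMod (p ^ m))} {ρ' : Γ →* Equiv.Perm (ZMod (p ^ (m - 1)))}
    (hA : AffD p m j c θ ρ ρ') {G : Type} [CommGroup G] [Fintype G] {P : Subgroup G}
    (hC : CycP p j P) (ι₀ : G →* Γ) (hι : Function.Injective ι₀) {g₀ : G} (hg : ι₀ g₀ = c)
    {χ : G →* ℂˣ} (hχ : Fth P χ) (γ : Γ) :
    (Nat.card {y // ρ γ y = y} : ℂ) * Nat.card G = (Nat.card {y // ρ' γ y = y} : ℂ) * Nat.card G +
      ∑ δ : Γ, ∑ h : G, if δ⁻¹ * γ * δ = ι₀ h then (χ h : ℂ) else 0 := by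
  have hp := hA.prime
  have hj := hA.pos
  have hm : 0 < m := lt_of_lt_of_le hA.pos hA.le
  have hF : Fact p.Prime := ⟨hp⟩
  have hN : NeZero (p ^ m) := ⟨pow_ne_zero _ hp.ne_zero⟩
  have hN' : NeZero (p ^ (m - 1)) := ⟨pow_ne_zero _ hp.ne_zero⟩
  have hdvd : p ^ (m - 1) ∣ p ^ m := pow_dvd_pow p (Nat.sub_le _ _)
  have hord : orderOf g₀ = p ^ j := by
    rw [← orderOf_injective ι₀ hι, hg, hA.ord]
  have hcG : Nat.card G = p ^ j := hC.card
  have htop : ∀ h : G, ∃ x : ℕ, g₀ ^ x = h := by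
    intro h
    have h1 : Nat.card (Subgroup.zpowers g₀) = Nat.card G := by
      rw [Nat.card_zpowers, hord, hC.card]
    have h2 : Subgroup.zpowers g₀ = ⊤ := Subgroup.eq_top_of_card_eq _ h1
    have h3 : h ∈ Subgroup.zpowers g₀ := by rw [h2]; exact Subgroup.mem_top h
    exact (mem_powers_iff_mem_zpowers.2 h3)
  -- the action
  have hcx : ∀ (x : ℕ) y, ρ (c ^ x) y = y + ((x * p ^ (m - j) : ℕ) : ZMod (p ^ m)) := by
    intro x
    induction x with
    | zero => intro y; simp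
    | succ x ih =>
      intro y
      rw [pow_succ', map_mul, Equiv.Perm.mul_apply, ih, hA.actc]
      push_cast
      ring
  have hxa : ∀ (x : ℕ) (a : (ZMod (p ^ m))ˣ) y, ρ (c ^ x * θ a) y =
      a * y + ((x * p ^ (m - j) : ℕ) : ZMod (p ^ m)) := by
    intro x a y
    rw [map_mul, Equiv.Perm.mul_apply, hA.actθ, hcx]
  have hxa' : ∀ (x : ℕ) (a : (ZMod (p ^ m))ˣ) y', ρ' (c ^ x * θ a) y' =
      ((a : ZMod (p ^ m)).cast : ZMod (p ^ (m - 1))) * y' +
        ((x * p ^ (m - j) : ℕ) : ZMod (p ^ (m - 1))) := by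
    intro x a y'
    have h1 : (((ZMod.val y' : ℕ) : ZMod (p ^ m)).cast : ZMod (p ^ (m - 1))) = y' := by
      rw [ZMod.cast_natCast hdvd, ZMod.natCast_val, ZMod.cast_id', id]
    rw [← h1, hA.proj, hxa, ZMod.cast_add hdvd, ZMod.cast_mul hdvd, ZMod.cast_natCast hdvd,
      ZMod.cast_natCast hdvd]
  -- conjugation
  have hconj : ∀ (b : (ZMod (p ^ m))ˣ) (z x : ℕ),
      (c ^ z * θ b) * c ^ x * (c ^ z * θ b)⁻¹ = c ^ ((b : ZMod (p ^ m)).val * x) := by
    intro b z x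
    have h1 : θ b * c ^ x * (θ b)⁻¹ = c ^ ((b : ZMod (p ^ m)).val * x) := by
      rw [← conj_pow, hA.conj, ← pow_mul]
    calc (c ^ z * θ b) * c ^ x * (c ^ z * θ b)⁻¹
        = c ^ z * (θ b * c ^ x * (θ b)⁻¹) * (c ^ z)⁻¹ := by group
      _ = c ^ z * c ^ ((b : ZMod (p ^ m)).val * x) * (c ^ z)⁻¹ := by rw [h1]
      _ = c ^ ((b : ZMod (p ^ m)).val * x) := by
        rw [← pow_add, Nat.add_comm, pow_add, mul_inv_cancel_right]
  have hιx : ∀ x : ℕ, ι₀ (g₀ ^ x) = c ^ x := fun x => by rw [map_pow, hg]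
  obtain ⟨x, a, rfl⟩ := hA.dec γ
  -- reindex the sum
  have hsum : (∑ δ : Γ, ∑ h : G, if δ⁻¹ * (c ^ x * θ a) * δ = ι₀ h then (χ h : ℂ) else 0) =
      ∑ δ : Γ, ∑ h : G, if δ * (c ^ x * θ a) * δ⁻¹ = ι₀ h then (χ h : ℂ) else 0 := by
    rw [← Equiv.sum_comp (Equiv.inv Γ)]
    refine Finset.sum_congr rfl fun δ _ => ?_
    rw [Equiv.inv_apply, inv_inv]
  rw [hsum]
  by_cases ha : a = 1
  · subst ha
    rw [map_one, mul_one]
    -- the bijection
    have hE : Function.Bijective (fun q : Fin (p ^ j) × (ZMod (p ^ m))ˣ => c ^ q.1.val * θ q.2) := by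
      constructor
      · rintro ⟨z, b⟩ ⟨z', b'⟩ h
        have h1 : c ^ z.val * θ b = c ^ z'.val * θ b' := h
        have hz' : z'.val ≤ p ^ j := z'.2.le
        have h2 : c ^ (z.val + (p ^ j - z'.val)) * θ (b * b'⁻¹) = 1 := by
          have h3 : c ^ (p ^ j - z'.val) * c ^ z'.val = 1 := by
            rw [← pow_add, Nat.sub_add_cancel hz', ← hA.ord, pow_orderOf_eq_one]
          have h4 : c ^ z.val * c ^ (p ^ j - z'.val) = c ^ (p ^ j - z'.val) * c ^ z.val := by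
            rw [← pow_add, ← pow_add, Nat.add_comm]
          rw [map_mul, map_inv, pow_add, h4, mul_assoc, ← mul_assoc (c ^ z.val), h1, ← mul_assoc,
            ← mul_assoc, h3, one_mul, mul_inv_cancel]
        have h5 := hA.triv _ _ h2
        have h6 : b = b' := mul_inv_eq_one.1 h5
        subst h6
        have h7 : c ^ z.val = c ^ z'.val := mul_right_cancel h1
        have h8 : z.val = z'.val := pow_injOn_Iio_orderOf (by
          show z.val < orderOf c
          rw [hA.ord]; exact z.2) (by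
          show z'.val < orderOf c
          rw [hA.ord]; exact z'.2) h7
        exact Prod.ext (Fin.ext h8) rfl
      · intro δ
        obtain ⟨z, b, rfl⟩ := hA.dec δ
        refine ⟨(⟨z % p ^ j, Nat.mod_lt _ (pow_pos hp.pos _)⟩, b), ?_⟩
        show c ^ (z % p ^ j) * θ b = c ^ z * θ b
        rw [← hA.ord, pow_mod_orderOf]
    have h1 : (∑ δ : Γ, ∑ h : G, if δ * c ^ x * δ⁻¹ = ι₀ h then (χ h : ℂ) else 0) =
        (p ^ j : ℕ) * ∑ b : (ZMod (p ^ m))ˣ,
          (((χ g₀ : ℂˣ) : ℂ) ^ x) ^ (b : ZMod (p ^ m)).val := by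
      rw [← (Equiv.ofBijective _ hE).sum_comp, Fintype.sum_prod_type]
      have h2 : ∀ (z : Fin (p ^ j)), (∑ b : (ZMod (p ^ m))ˣ, ∑ h : G,
          if (Equiv.ofBijective _ hE) (z, b) * c ^ x * ((Equiv.ofBijective _ hE) (z, b))⁻¹ = ι₀ h
            then (χ h : ℂ) else 0) =
          ∑ b : (ZMod (p ^ m))ˣ, (((χ g₀ : ℂˣ) : ℂ) ^ x) ^ (b : ZMod (p ^ m)).val := by
        intro z
        refine Finset.sum_congr rfl fun b _ => ?_
        have h3 : (Equiv.ofBijective _ hE) (z, b) * c ^ x *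
            ((Equiv.ofBijective _ hE) (z, b))⁻¹ = ι₀ (g₀ ^ ((b : ZMod (p ^ m)).val * x)) := by
          rw [hιx]
          exact hconj b z.val x
        rw [h3, Finset.sum_eq_single (g₀ ^ ((b : ZMod (p ^ m)).val * x))]
        · rw [if_pos rfl, map_pow, Units.val_pow_eq_pow_val, ← pow_mul, mul_comm x]
        · intro h _ hne
          rw [if_neg]
          intro h4
          exact hne (hι h4).symm
        · intro h
          exact absurd (Finset.mem_univ _) h
      rw [Finset.sum_congr rfl fun z _ => h2 z, Finset.sum_const, Finset.card_univ,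
        Fintype.card_fin, nsmul_eq_mul]
    have hroot : (((χ g₀ : ℂˣ) : ℂ) ^ x) ^ (p ^ m) = 1 := by
      rw [← pow_mul, cfi_chi hC hord hχ]
      exact (pow_dvd_pow p hA.le).mul_left x
    have hroot' : ((((χ g₀ : ℂˣ) : ℂ) ^ x) ^ p) ^ (p ^ (m - 1)) = 1 := by
      rw [← pow_mul, ← pow_succ', Nat.sub_add_cancel hm]
      exact hroot
    have hpj : p * p ^ (j - 1) = p ^ j := by rw [← pow_succ', Nat.sub_add_cancel hj]
    have h2 : (∑ b : (ZMod (p ^ m))ˣ, (((χ g₀ : ℂˣ) : ℂ) ^ x) ^ (b : ZMod (p ^ m)).val) =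
        (if p ^ j ∣ x then ((p ^ m : ℕ) : ℂ) else 0) -
          (if p ^ (j - 1) ∣ x then ((p ^ (m - 1) : ℕ) : ℂ) else 0) := by
      rw [cfi_units hp hm (fun b => (((χ g₀ : ℂˣ) : ℂ) ^ x) ^ b), cfi_geom _ hroot,
        Finset.sum_congr rfl (fun b _ => pow_mul (((χ g₀ : ℂˣ) : ℂ) ^ x) p b), cfi_geom _ hroot',
        ← pow_mul]
      simp only [cfi_chi hC hord hχ]
      have h3 : p ^ j ∣ x * p ↔ p ^ (j - 1) ∣ x := by
        rw [← hpj, mul_comm x p]
        exact Nat.mul_dvd_mul_iff_left hp.pos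
      simp only [h3]
    have h4 : (Nat.card {y // ρ (c ^ x) y = y} : ℂ) =
        if p ^ j ∣ x then ((p ^ m : ℕ) : ℂ) else 0 := by
      have h5 : ∀ y, ρ (c ^ x) y = y ↔ p ^ j ∣ x := by
        intro y
        rw [hcx, add_eq_left, ZMod.natCast_eq_zero_iff]
        have h6 : p ^ m = p ^ j * p ^ (m - j) := by
          rw [← pow_add, Nat.add_sub_cancel' hA.le]
        rw [h6]
        exact Nat.mul_dvd_mul_iff_right (pow_pos hp.pos _)
      simp only [h5]
      split_ifs with h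
      · rw [Nat.card_congr (Equiv.subtypeUnivEquiv fun _ => h), Nat.card_zmod]
      · rw [Nat.card_eq_zero.2 (Or.inl ⟨fun y => h y.2⟩), Nat.cast_zero]
    have h7 : (Nat.card {y // ρ' (c ^ x) y = y} : ℂ) =
        if p ^ (j - 1) ∣ x then ((p ^ (m - 1) : ℕ) : ℂ) else 0 := by
      have h5 : ∀ y, ρ' (c ^ x) y = y ↔ p ^ (j - 1) ∣ x := by
        intro y
        have h8 := hxa' x 1 y
        rw [map_one, mul_one, Units.val_one, ZMod.cast_one hdvd, one_mul] at h8
        rw [h8, add_eq_left, ZMod.natCast_eq_zero_iff]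
        have h6 : p ^ (m - 1) = p ^ (j - 1) * p ^ (m - j) := by
          rw [← pow_add]
          congr 1
          have := hA.le
          omega
        rw [h6]
        exact Nat.mul_dvd_mul_iff_right (pow_pos hp.pos _)
      simp only [h5]
      split_ifs with h
      · rw [Nat.card_congr (Equiv.subtypeUnivEquiv fun _ => h), Nat.card_zmod]
      · rw [Nat.card_eq_zero.2 (Or.inl ⟨fun y => h y.2⟩), Nat.cast_zero]
    rw [h1, h2, h4, h7, hcG]
    ring
  · -- the sum is zero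
    have h1 : (∑ δ : Γ, ∑ h : G, if δ * (c ^ x * θ a) * δ⁻¹ = ι₀ h then (χ h : ℂ) else 0) = 0 := by
      refine Finset.sum_eq_zero fun δ _ => Finset.sum_eq_zero fun h _ => if_neg fun h2 => ?_
      obtain ⟨y, rfl⟩ := htop h
      rw [hιx] at h2
      obtain ⟨z, b, hδ⟩ := hA.dec δ⁻¹
      have h3 : c ^ x * θ a = c ^ ((b : ZMod (p ^ m)).val * y) := by
        rw [← hconj b z y, ← hδ, inv_inv, ← h2]
        group
      have h4 : c ^ (x + (b : ZMod (p ^ m)).val * y * (p ^ j - 1)) * θ a = 1 := by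
        rw [Nat.add_comm, pow_add, mul_assoc, h3, ← pow_add, ← orderOf_dvd_iff_pow_eq_one, hA.ord,
          ← Nat.mul_succ, Nat.succ_eq_add_one, Nat.sub_add_cancel (Nat.one_le_pow _ _ hp.pos)]
        exact dvd_mul_left _ _
      exact ha (hA.triv _ _ h4)
    rw [h1, add_zero]
    congr 2
    -- the fixed points
    have hU0 : ((a : ZMod (p ^ m)) - 1).val ≠ 0 := by
      rw [Ne, ZMod.val_eq_zero, sub_eq_zero]
      intro h
      exact ha (Units.ext h)
    obtain ⟨v, u, hu, hvu⟩ := Nat.exists_eq_pow_mul_and_not_dvd hU0 p hp.ne_one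
    have hv : v < m := by
      have h2 : ((a : ZMod (p ^ m)) - 1).val < p ^ m := ZMod.val_lt _
      rw [hvu] at h2
      have hu0 : 0 < u := Nat.pos_of_ne_zero fun h => hu (h ▸ dvd_zero p)
      have h3 : p ^ v < p ^ m := lt_of_le_of_lt (Nat.le_mul_of_pos_right _ hu0) h2
      exact (Nat.pow_lt_pow_iff_right hp.one_lt).1 h3
    have h5 : Nat.card {y // ρ (c ^ x * θ a) y = y} =
        if p ^ v ∣ x * p ^ (m - j) then p ^ v else 0 := by
      rw [← cfi_count (k := m) hp hv.le hu]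
      refine Nat.card_congr (Equiv.subtypeEquivRight fun y => ?_)
      rw [hxa, ← hvu, ZMod.natCast_val, ZMod.cast_id', id, sub_mul, one_mul, ← sub_eq_zero]
      have : (a : ZMod (p ^ m)) * y + ((x * p ^ (m - j) : ℕ) : ZMod (p ^ m)) - y =
        a * y - y + ((x * p ^ (m - j) : ℕ) : ZMod (p ^ m)) := by ring
      rw [this]
    have h6 : Nat.card {y // ρ' (c ^ x * θ a) y = y} =
        if p ^ v ∣ x * p ^ (m - j) then p ^ v else 0 := by
      rw [← cfi_count (k := m - 1) hp (Nat.le_sub_one_of_lt hv) hu]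
      refine Nat.card_congr (Equiv.subtypeEquivRight fun y => ?_)
      rw [hxa', ← hvu, ZMod.natCast_val, ZMod.cast_sub hdvd, ZMod.cast_one hdvd, sub_mul, one_mul,
        ← sub_eq_zero]
      have : ((a : ZMod (p ^ m)).cast : ZMod (p ^ (m - 1))) * y +
          ((x * p ^ (m - j) : ℕ) : ZMod (p ^ (m - 1))) - y =
        ((a : ZMod (p ^ m)).cast : ZMod (p ^ (m - 1))) * y - y +
          ((x * p ^ (m - j) : ℕ) : ZMod (p ^ (m - 1))) := by ring
      rw [this]
    rw [h5, h6]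

end Pool.Agent.RS3
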