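import Pool.Agent.Lib_helper35.RS3.P_KUM
import Pool.Agent.Lib_helper35.RS3.DefsH

/-!
# Rubin's conjecture for abelian `p`-groups
-/

namespace Pool.Agent.RS3

open Pool.Agent.RSK Pool.Agent.RS2
open NumberField IsDedekindDomain

variable {F H : Type} [Field F] [NumberField F] [Field H] [NumberField H] [Algebra F H]
  [IsGalois F H] {G : Type} [CommGroup G] [Fintype G] {p : ℕ} {ι : G ≃* (H ≃ₐ[F] H)}
  {S T : Finset (HeightOneSpectrum (𝓞 F))} {r : ℕ} {w : Fin r → Pl H}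
  {fr : HeightOneSpectrum (𝓞 F) → G}

theorem rubin_main (hp : p.Prime) (hG : IsPGroup p G) (hD : Data ι S T r w fr)
    (hext : KumP p F H ∨ ∀ N : Subgroup G, IsCyclic (G ⧸ N) → Hol3 p N.index F (Kf ι N))
    (hS : SBig p r F G S ∨ SSharp p ι S w) : RubinStark ι S T w fr := by
  rcases hS with ⟨k, d, hk, hd, hS⟩ | ⟨hS, hS'⟩
  · have hdk : d ≤ k := by
      rw [← Nat.pow_dvd_pow_iff_le_right hp.one_lt, ← hd, ← hk]
      exact Group.exponent_dvd_nat_card
    rcases hext with ⟨F₀, i1, i2, i3, i4, i5, e, ζ, B, hK, h2⟩ | hθ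
    · exact rubin_kummer hp hK h2 hk hd hD hS
    · exact rubin_p_size3 hp hk hdk (fun g => by rw [← hd]; exact Monoid.pow_exponent_eq_one g) hD
        hθ hS
  · rcases hext with ⟨F₀, i1, i2, i3, i4, i5, e, ζ, B, hK, h2⟩ | hθ
    · exact rubin_kummer' hp hK h2 hD hS hS'
    · exact rubin_p3 hp hG hD hθ hS hS'

end Pool.Agent.RS3
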