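import Pool.Agent.Lib_helper27.RS3.Defs3

/-!
# RS3: block AFF (the affine action)
-/

namespace Pool.Agent.RS3

set_option linter.unusedSectionVars false

open Pool.Agent.RSK Pool.Agent.RS2
open NumberField IsDedekindDomain Filter Topology Complex

section AFF

variable {Γ : Type} [Group Γ] {p m j : ℕ}

theorem aff_uniq (hp : p.Prime) (c : Γ) (θ : (ZMod (p ^ m))ˣ →* Γ) (ord : orderOf c = p ^ j)
    (triv : ∀ (x : ℕ) (a : (ZMod (p ^ m))ˣ), c ^ x * θ a = 1 → a = 1) {x x' : ℕ}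
    {a a' : (ZMod (p ^ m))ˣ} (h : c ^ x * θ a = c ^ x' * θ a') :
    a = a' ∧ x ≡ x' [MOD p ^ j] := by
  have hN : c ^ (p ^ j) = 1 := by rw [← ord]; exact pow_orderOf_eq_one c
  have hpos : 0 < p ^ j := pow_pos hp.pos j
  have h1 : c ^ (x' + (p ^ j - 1) * x) * θ (a' * a⁻¹) = 1 := by
    have h2 : c ^ ((p ^ j - 1) * x) = (c ^ x)⁻¹ := by
      rw [eq_inv_iff_mul_eq_one, ← pow_add]
      have h3 : (p ^ j - 1) * x + x = p ^ j * x := by
        obtain ⟨n, hn⟩ : ∃ n, p ^ j = n + 1 := ⟨p ^ j - 1, by omega⟩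
        rw [hn]
        simp only [Nat.add_sub_cancel]
        ring
      rw [h3, pow_mul, hN, one_pow]
    rw [add_comm, pow_add, h2, map_mul, map_inv]
    calc (c ^ x)⁻¹ * c ^ x' * (θ a' * (θ a)⁻¹) = (c ^ x)⁻¹ * (c ^ x' * θ a') * (θ a)⁻¹ := by group
      _ = 1 := by rw [← h]; group
  have h4 := triv _ _ h1
  have h5 : a = a' := (mul_inv_eq_one.1 h4).symm
  refine ⟨h5, ?_⟩
  subst h5
  have h6 : c ^ x = c ^ x' := mul_right_cancel h
  rw [pow_eq_pow_iff_modEq, ord] at h6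
  exact h6

theorem aff_tr (hjm : j ≤ m) {x x' : ℕ} (h : x ≡ x' [MOD p ^ j]) :
    ((x * p ^ (m - j) : ℕ) : ZMod (p ^ m)) = ((x' * p ^ (m - j) : ℕ) : ZMod (p ^ m)) := by
  rw [ZMod.natCast_eq_natCast_iff]
  have h1 := Nat.ModEq.mul_right' (p ^ (m - j)) h
  rwa [← pow_add, Nat.add_sub_cancel' hjm] at h1

theorem aff_exists (hp : p.Prime) (hj : 0 < j) (hjm : j ≤ m)
    (c : Γ) (θ : (ZMod (p ^ m))ˣ →* Γ) (ord : orderOf c = p ^ j)
    (conj : ∀ a : (ZMod (p ^ m))ˣ, θ a * c * (θ a)⁻¹ = c ^ (a : ZMod (p ^ m)).val)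
    (dec : ∀ γ : Γ, ∃ (x : ℕ) (a : (ZMod (p ^ m))ˣ), γ = c ^ x * θ a)
    (triv : ∀ (x : ℕ) (a : (ZMod (p ^ m))ˣ), c ^ x * θ a = 1 → a = 1) :
    ∃ (ρ : Γ →* Equiv.Perm (ZMod (p ^ m))) (ρ' : Γ →* Equiv.Perm (ZMod (p ^ (m - 1)))),
      AffD p m j c θ ρ ρ' := by
  have hne : NeZero (p ^ m) := ⟨(pow_pos hp.pos m).ne'⟩
  choose X A hXA using dec
  have hdvd : p ^ (m - 1) ∣ p ^ m := pow_dvd_pow p (Nat.sub_le m 1)
  obtain ⟨f, hf⟩ : ∃ f : Γ → ZMod (p ^ m) → ZMod (p ^ m),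
      ∀ γ y, f γ y = (A γ : ZMod (p ^ m)) * y + ((X γ * p ^ (m - j) : ℕ) : ZMod (p ^ m)) :=
    ⟨_, fun _ _ => rfl⟩
  have hfe : ∀ (x : ℕ) (a : (ZMod (p ^ m))ˣ) (y : ZMod (p ^ m)), f (c ^ x * θ a) y =
      (a : ZMod (p ^ m)) * y + ((x * p ^ (m - j) : ℕ) : ZMod (p ^ m)) := fun x a y => by
    obtain ⟨h1, h2⟩ := aff_uniq hp c θ ord triv (hXA (c ^ x * θ a)).symm
    rw [hf, h1, aff_tr hjm h2]
  have hc : ∀ (a : (ZMod (p ^ m))ˣ) (x : ℕ), θ a * c ^ x = c ^ ((a : ZMod (p ^ m)).val * x) * θ a :=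
    fun a x => by
      have h1 : (θ a * c * (θ a)⁻¹) ^ x = θ a * c ^ x * (θ a)⁻¹ := conj_pow
      rw [conj, ← pow_mul] at h1
      rw [h1]
      group
  have hf1 : ∀ y, f 1 y = y := fun y => by
    have h1 := hfe 0 1 y
    rw [pow_zero, map_one, mul_one] at h1
    rw [h1]
    simp
  have hfm : ∀ γ δ y, f (γ * δ) y = f γ (f δ y) := fun γ δ y => by
    have h1 : γ * δ = c ^ (X γ + (A γ : ZMod (p ^ m)).val * X δ) * θ (A γ * A δ) := by
      conv_lhs => rw [hXA γ, hXA δ]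
      rw [pow_add, map_mul]
      calc c ^ X γ * θ (A γ) * (c ^ X δ * θ (A δ)) = c ^ X γ * (θ (A γ) * c ^ X δ) * θ (A δ) := by
            group
        _ = _ := by rw [hc]; group
    rw [h1, hfe, hf γ, hf δ]
    push_cast
    rw [ZMod.natCast_zmod_val]
    ring
  have hcs : Function.Surjective (ZMod.castHom hdvd (ZMod (p ^ (m - 1)))) :=
    ZMod.castHom_surjective hdvd
  obtain ⟨f', hf'⟩ : ∃ f' : Γ → ZMod (p ^ (m - 1)) → ZMod (p ^ (m - 1)),
      ∀ γ y, f' γ y = ZMod.castHom hdvd (ZMod (p ^ (m - 1))) (A γ : ZMod (p ^ m)) * y +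
        ((X γ * p ^ (m - j) : ℕ) : ZMod (p ^ (m - 1))) :=
    ⟨_, fun _ _ => rfl⟩
  have hff : ∀ γ y, f' γ (ZMod.castHom hdvd (ZMod (p ^ (m - 1))) y) =
      ZMod.castHom hdvd (ZMod (p ^ (m - 1))) (f γ y) := fun γ y => by
    rw [hf', hf, map_add, map_mul, map_natCast]
  have hf'1 : ∀ y, f' 1 y = y := fun y => by
    obtain ⟨z, rfl⟩ := hcs y
    rw [hff, hf1]
  have hf'm : ∀ γ δ y, f' (γ * δ) y = f' γ (f' δ y) := fun γ δ y => by
    obtain ⟨z, rfl⟩ := hcs y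
    rw [hff, hff, hff, hfm]
  refine ⟨{
      toFun := fun γ =>
        { toFun := f γ
          invFun := f γ⁻¹
          left_inv := fun y => by rw [← hfm, inv_mul_cancel, hf1]
          right_inv := fun y => by rw [← hfm, mul_inv_cancel, hf1] }
      map_one' := Equiv.ext fun y => hf1 y
      map_mul' := fun γ δ => Equiv.ext fun y => hfm γ δ y },
    { toFun := fun γ =>
        { toFun := f' γ
          invFun := f' γ⁻¹
          left_inv := fun y => by rw [← hf'm, inv_mul_cancel, hf'1]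
          right_inv := fun y => by rw [← hf'm, mul_inv_cancel, hf'1] }
      map_one' := Equiv.ext fun y => hf'1 y
      map_mul' := fun γ δ => Equiv.ext fun y => hf'm γ δ y }, ?_⟩
  refine ⟨hp, hj, hjm, ord, conj, fun γ => ⟨X γ, A γ, hXA γ⟩, triv, fun y => ?_, fun a y => ?_,
    fun γ y => ?_⟩
  · show f c y = _
    have h1 := hfe 1 1 y
    rw [pow_one, map_one, mul_one] at h1
    rw [h1]
    simp
  · show f (θ a) y = _
    have h1 := hfe 0 a y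
    rw [pow_zero, one_mul] at h1
    rw [h1]
    simp
  · exact hff γ y

end AFF

end Pool.Agent.RS3
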