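import Pool.Agent.Lib_helper17.RS.P_IF
import Pool.Agent.Lib_helper35.RS3.DefsH
import Pool.Agent.Lib_helper27.RS3.Defs3

/-!
# RS3, block HL3: one action on `H` gives all layers
-/

namespace Pool.Agent.RS3

set_option linter.unusedSectionVars false

open Pool.Agent.RSK Pool.Agent.RS2
open NumberField IsDedekindDomain Filter Topology Complex

section HL3

variable {F H : Type} [Field F] [NumberField F] [Field H] [NumberField H] [Algebra F H]
  [IsGalois F H] {G : Type} [CommGroup G] [Fintype G] {p : ℕ} {ι : G ≃* (H ≃ₐ[F] H)}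

theorem hl3_mem {ι : G ≃* (H ≃ₐ[F] H)} {N : Subgroup G} {x : H} :
    x ∈ Kf ι N ↔ ∀ g ∈ N, ι g x = x := by
  constructor
  · intro hx g hg
    exact hx ⟨ι g, ⟨g, hg, rfl⟩⟩
  · rintro h ⟨-, g, hg, rfl⟩
    exact h g hg

theorem hol3_layers (hp : p.Prime) {m : ℕ} (hexp : ∀ g : G, g ^ p ^ m = 1) (hH : ∃ θ : (ZMod (p ^ m))ˣ →* (H ≃+* H),
      (∀ (a : (ZMod (p ^ m))ˣ) (σ : H ≃ₐ[F] H) (x : H),
        θ a (σ x) = (σ ^ (a : ZMod (p ^ m)).val) (θ a x)) ∧
      ∀ (a : (ZMod (p ^ m))ˣ) (σ : H ≃ₐ[F] H), (∀ x, θ a x = σ x) → ∀ x, θ a x = x)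
    (N : Subgroup G) (hN : IsCyclic (G ⧸ N)) : Hol3 p N.index F (Kf ι N) := by
  obtain ⟨θ, hθ1, hθ2⟩ := hH
  have hne : NeZero (p ^ m) := ⟨pow_ne_zero _ hp.ne_zero⟩
  -- `θ a` maps `K` to `K`
  have hst : ∀ (a : (ZMod (p ^ m))ˣ) (x : H), x ∈ Kf ι N → θ a x ∈ Kf ι N := by
    intro a x hx
    rw [hl3_mem] at hx ⊢
    intro g hg
    have h1 := hθ1 a (ι (g ^ ((a⁻¹ : (ZMod (p ^ m))ˣ) : ZMod (p ^ m)).val)) x
    rw [hx _ (N.pow_mem hg _), ← map_pow, ← pow_mul] at h1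
    have h2 : g ^ (((a⁻¹ : (ZMod (p ^ m))ˣ) : ZMod (p ^ m)).val * (a : ZMod (p ^ m)).val) = g := by
      conv_rhs => rw [← pow_one g]
      refine pow_eq_pow_of_modEq ?_ (hexp g)
      rw [← ZMod.natCast_eq_natCast_iff, Nat.cast_mul, ZMod.natCast_zmod_val,
        ZMod.natCast_zmod_val, Units.inv_mul, Nat.cast_one]
    rw [h2] at h1
    exact h1.symm
  have hmul : ∀ (a b : (ZMod (p ^ m))ˣ) (x : H), θ (a * b) x = θ a (θ b x) := by
    intro a b x
    rw [map_mul]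
    rfl
  have hone : ∀ x : H, θ 1 x = x := by
    intro x
    rw [map_one]
    rfl
  have hinv : ∀ (a : (ZMod (p ^ m))ˣ) (x : H), θ a⁻¹ (θ a x) = x := by
    intro a x
    rw [← hmul, inv_mul_cancel, hone]
  have hinv' : ∀ (a : (ZMod (p ^ m))ˣ) (x : H), θ a (θ a⁻¹ x) = x := by
    intro a x
    rw [← hmul, mul_inv_cancel, hone]
  let θ' : (ZMod (p ^ m))ˣ →* (Kf ι N ≃+* Kf ι N) :=
    { toFun := fun a =>
        { toFun := fun x => ⟨θ a x, hst a x x.2⟩
          invFun := fun x => ⟨θ a⁻¹ x, hst a⁻¹ x x.2⟩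
          left_inv := fun x => Subtype.ext (hinv a x)
          right_inv := fun x => Subtype.ext (hinv' a x)
          map_mul' := fun x y => Subtype.ext (map_mul (θ a) (x : H) y)
          map_add' := fun x y => Subtype.ext (map_add (θ a) (x : H) y) }
      map_one' := RingEquiv.ext fun x => Subtype.ext (hone x)
      map_mul' := fun a b => RingEquiv.ext fun x => Subtype.ext (hmul a b x) }
  have hθ' : ∀ (a : (ZMod (p ^ m))ˣ) (x : Kf ι N), ((θ' a x : Kf ι N) : H) = θ a x :=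
    fun a x => rfl
  obtain ⟨ι', hq⟩ := kf_quo (ι := ι) N
  have hlift : ∀ σ : Kf ι N ≃ₐ[F] Kf ι N, ∃ τ : H ≃ₐ[F] H, ∀ x : Kf ι N,
      ((σ x : Kf ι N) : H) = τ x := by
    intro σ
    obtain ⟨g, hg⟩ := hq.surj (ι'.symm σ)
    refine ⟨ι g, fun x => ?_⟩
    have h1 := hq.compat g x
    rw [hg, MulEquiv.apply_symm_apply] at h1
    exact h1
  refine ⟨m, θ', ?_, ?_, ?_⟩
  · -- the index
    have h1 : Monoid.exponent (G ⧸ N) = Nat.card (G ⧸ N) := IsCyclic.exponent_eq_card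
    have h2 : N.index = Nat.card (G ⧸ N) := rfl
    rw [h2, ← h1]
    refine Monoid.exponent_dvd_of_forall_pow_eq_one fun x => ?_
    obtain ⟨g, rfl⟩ := QuotientGroup.mk_surjective x
    rw [← QuotientGroup.mk_pow, hexp, QuotientGroup.mk_one]
  · intro a σ x
    obtain ⟨τ, hτ⟩ := hlift σ
    have hpow : ∀ (k : ℕ) (y : Kf ι N), (((σ ^ k) y : Kf ι N) : H) = (τ ^ k) y := by
      intro k
      induction k with
      | zero => intro y; rfl
      | succ k ih =>
        intro y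
        rw [pow_succ', pow_succ', AlgEquiv.mul_apply, AlgEquiv.mul_apply, hτ, ih]
    refine Subtype.ext ?_
    rw [hθ', hpow, hθ', hτ]
    exact hθ1 a τ x
  · intro a σ h x
    refine Subtype.ext ?_
    rw [hθ']
    have hcom : ∀ y : F, θ a (algebraMap F H y) = algebraMap F H y := by
      intro y
      have h1 := congrArg Subtype.val (h (algebraMap F (Kf ι N) y))
      rw [σ.commutes] at h1
      exact h1
    let τ : H ≃ₐ[F] H := AlgEquiv.ofRingEquiv (f := θ a) hcom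
    exact hθ2 a τ (fun _ => rfl) x

end HL3

end Pool.Agent.RS3
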