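import Pool.Agent.Lib_helper35.RS2.P_CC
import Pool.Agent.Lib_helper35.RS3.P_FT3
import Pool.Agent.Lib_helper35.RS3.DefsH
import Pool.Agent.Lib_helper27.RS3.Defs3

/-!
# RS3: block SZ3 (`rubin_p_size3` from `rubin_p3`, `card_ovr_ge`, `data_W`)
-/

namespace Pool.Agent.RS3

set_option linter.unusedSectionVars false

open Pool.Agent.RSK Pool.Agent.RS2
open NumberField IsDedekindDomain Filter Topology Complex

theorem sz3_mono {p k f : ℕ} (hp : 1 ≤ p) (hf : 1 ≤ f) (e : ℕ) (hfe : f ≤ e) :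
    e ≤ k → p ^ (f - 1) * ((k - f) * (p - 1) + 1) ≤ p ^ (e - 1) * ((k - e) * (p - 1) + 1) := by
  induction e, hfe using Nat.le_induction with
  | base => intro _; exact le_rfl
  | succ e hfe ih =>
    intro hek
    refine (ih (by omega)).trans ?_
    obtain ⟨u, hu⟩ : ∃ u, k = u + e + 1 := ⟨k - e - 1, by omega⟩
    obtain ⟨q, rfl⟩ : ∃ q, p = q + 1 := ⟨p - 1, by omega⟩
    obtain ⟨e', rfl⟩ : ∃ e', e = e' + 1 := ⟨e - 1, by omega⟩
    have h1 : k - (e' + 1) = u + 1 := by omega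
    have h2 : k - (e' + 1 + 1) = u := by omega
    rw [h1, h2]
    simp only [Nat.add_sub_cancel]
    rw [pow_succ, mul_assoc]
    refine Nat.mul_le_mul_left _ ?_
    nlinarith [Nat.zero_le (u * q * q)]

theorem sz3_index {G : Type} [CommGroup G] [Fintype G] {p : ℕ} (hp : p.Prime) {k e : ℕ}
    (hG : Nat.card G = p ^ k) (hexp : ∀ g : G, g ^ p ^ e = 1) (N N' : Subgroup G) (i : ℕ)
    (hN : IsCyclic (G ⧸ N)) (hNN : N.index = p * N'.index) (hi : Nat.card N = p ^ i) :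
    ∃ f, 1 ≤ f ∧ f ≤ e ∧ i = k - f ∧ N'.index = p ^ (f - 1) := by
  obtain ⟨q, hq⟩ := hN.exists_generator
  have h1 : orderOf q = N.index := by
    rw [orderOf_eq_card_of_forall_mem_zpowers hq]
    rfl
  have h2 : N.index ∣ p ^ e := by
    rw [← h1]
    refine orderOf_dvd_of_pow_eq_one ?_
    obtain ⟨g, rfl⟩ := QuotientGroup.mk_surjective q
    rw [← QuotientGroup.mk_pow, hexp, QuotientGroup.mk_one]
  obtain ⟨f, hfe, hf⟩ := (Nat.dvd_prime_pow hp).1 h2
  have h3 : Nat.card N * N.index = Nat.card G := N.card_mul_index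
  rw [hi, hf, ← pow_add, hG] at h3
  have h4 : i + f = k := Nat.pow_right_injective hp.two_le h3
  have h5 : 1 ≤ f := by
    rcases Nat.eq_zero_or_pos f with h | h
    · exfalso
      subst h
      rw [pow_zero, hNN] at hf
      exact hp.one_lt.ne' (Nat.eq_one_of_mul_eq_one_right hf)
    · exact h
  refine ⟨f, h5, hfe, by omega, ?_⟩
  obtain ⟨f', rfl⟩ : ∃ f', f = f' + 1 := ⟨f - 1, by omega⟩
  rw [Nat.add_sub_cancel]
  rw [hNN, pow_succ, mul_comm (p ^ f') p] at hf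
  exact Nat.eq_of_mul_eq_mul_left hp.pos hf

section FT

variable {F H : Type} [Field F] [NumberField F] [Field H] [NumberField H] [Algebra F H]
  [IsGalois F H] {G : Type} [CommGroup G] [Fintype G] {p : ℕ} {ι : G ≃* (H ≃ₐ[F] H)}
  {S T : Finset (HeightOneSpectrum (𝓞 F))} {r : ℕ} {w : Fin r → Pl H}
  {fr : HeightOneSpectrum (𝓞 F) → G}

/-- Rubin's conjecture for abelian `p`-groups, if `S` is large: `rubin_p_size` with `Hol3`. -/
theorem rubin_p_size3 (hp : p.Prime) {k e : ℕ} (hG : Nat.card G = p ^ k) (hek : e ≤ k)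
    (hexp : ∀ g : G, g ^ p ^ e = 1) (hD : Data ι S T r w fr)
    (hθ : ∀ N : Subgroup G, IsCyclic (G ⧸ N) → Hol3 p N.index F (Kf ι N))
    (hS : r + 1 + p ^ (e - 1) * ((k - e) * (p - 1) + 1) ≤
      Fintype.card (InfinitePlace F) + S.card) :
    RubinStark ι S T w fr := by
  have hpos : 1 ≤ p ^ (e - 1) * ((k - e) * (p - 1) + 1) :=
    Nat.mul_pos (pow_pos hp.pos _) (Nat.succ_pos _)
  refine rubin_p3 hp (IsPGroup.of_card hG) hD hθ (by omega) ?_
  intro N N' i hN _ hNN hi _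
  obtain ⟨f, hf1, hfe, rfl, hN'⟩ := sz3_index hp hG hexp N N' i hN hNN hi
  have h1 := card_ovr_ge hD N'
  have h2 := sz3_mono hp.one_le hf1 e hfe hek
  rw [hN'] at h1 ⊢
  have h3 : p ^ (f - 1) * (r + 1 + (k - f) * (p - 1)) =
      r * p ^ (f - 1) + p ^ (f - 1) * ((k - f) * (p - 1) + 1) := by ring
  rw [h3]
  omega

end FT

end Pool.Agent.RS3
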