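import Pool.Agent.Lib_helper35.RS3.P_HL3
import Pool.Agent.Lib_helper35.RS3.P_FT3
import Pool.Agent.Lib_helper35.RS3.P_SZ3
import Pool.Agent.Lib_helper35.RS3.DefsH
import Pool.Agent.Lib_helper27.RS3.Defs3

/-!
# Rubin's conjecture for Kummer extensions of `p`-power exponent
-/

namespace Pool.Agent.RS3

set_option linter.unusedSectionVars false

open Pool.Agent.RSK Pool.Agent.RS2
open NumberField IsDedekindDomain Filter Topology Complex

section KUM

variable {F₀ F H : Type} [Field F₀] [NumberField F₀] [Field F] [NumberField F] [Field H]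
  [NumberField H] [Algebra F₀ F] [Algebra F₀ H] [Algebra F H] [IsScalarTower F₀ F H]

variable {n : ℕ} {ζ : F} {B : Set H}

theorem kum_ext (hK : Kum F₀ n ζ B) {K : Type} [Field K] [Algebra F₀ K] (f g : H →ₐ[F₀] K)
    (h1 : f (algebraMap F H ζ) = g (algebraMap F H ζ)) (h2 : ∀ β ∈ B, f β = g β) : f = g := by
  have hF : ∀ y : F, f (algebraMap F H y) = g (algebraMap F H y) := by
    intro y
    have hy : y ∈ IntermediateField.adjoin F₀ {ζ} := by rw [hK.gen]; exact IntermediateField.mem_top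
    induction hy using IntermediateField.adjoin_induction with
    | mem x hx =>
      rw [Set.mem_singleton_iff] at hx
      rw [hx, h1]
    | algebraMap x => rw [← IsScalarTower.algebraMap_apply, AlgHom.commutes, AlgHom.commutes]
    | add x y hx hy h h' => rw [map_add, map_add, map_add, h, h']
    | inv x hx h => rw [map_inv₀, map_inv₀, map_inv₀, h]
    | mul x y hx hy h h' => rw [map_mul, map_mul, map_mul, h, h']
  refine AlgHom.ext fun x => ?_
  have hx : x ∈ IntermediateField.adjoin F B := by rw [hK.top]; exact IntermediateField.mem_top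
  induction hx using IntermediateField.adjoin_induction with
  | mem x hx => exact h2 x hx
  | algebraMap x => exact hF x
  | add x y hx hy h h' => rw [map_add, map_add, h, h']
  | inv x hx h => rw [map_inv₀, map_inv₀, h]
  | mul x y hx hy h h' => rw [map_mul, map_mul, h, h']

theorem kum_prim (hK : Kum F₀ n ζ B) : IsPrimitiveRoot (algebraMap F H ζ) n :=
  hK.prim.map_of_injective (algebraMap F H).injective

theorem kum_adj (hK : Kum F₀ n ζ B) :
    IntermediateField.adjoin F₀ (insert (algebraMap F H ζ) B) = ⊤ := by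
  have hF : ∀ y : F, algebraMap F H y ∈ IntermediateField.adjoin F₀ (insert (algebraMap F H ζ) B) := by
    intro y
    have hy : y ∈ IntermediateField.adjoin F₀ {ζ} := by rw [hK.gen]; exact IntermediateField.mem_top
    induction hy using IntermediateField.adjoin_induction with
    | mem x hx =>
      rw [Set.mem_singleton_iff] at hx
      rw [hx]
      exact IntermediateField.subset_adjoin _ _ (Set.mem_insert _ _)
    | algebraMap x =>
      rw [← IsScalarTower.algebraMap_apply]
      exact IntermediateField.algebraMap_mem _ x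
    | add x y hx hy h h' => rw [map_add]; exact add_mem h h'
    | inv x hx h => rw [map_inv₀]; exact inv_mem h
    | mul x y hx hy h h' => rw [map_mul]; exact mul_mem h h'
  rw [eq_top_iff]
  intro x _
  have hx : x ∈ IntermediateField.adjoin F B := by rw [hK.top]; exact IntermediateField.mem_top
  induction hx using IntermediateField.adjoin_induction with
  | mem x hx => exact IntermediateField.subset_adjoin _ _ (Set.mem_insert_of_mem _ hx)
  | algebraMap x => exact hF x
  | add x y hx hy h h' => exact add_mem (h trivial) (h' trivial)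
  | inv x hx h => exact inv_mem (h trivial)
  | mul x y hx hy h h' => exact mul_mem (h trivial) (h' trivial)

theorem kum_pow (hK : Kum F₀ n ζ B) {β : H} (hβ : β ∈ insert (algebraMap F H ζ) B) :
    ∃ a : F₀, β ^ n = algebraMap F₀ H a := by
  rcases Set.mem_insert_iff.1 hβ with rfl | hβ
  · exact ⟨1, by rw [(kum_prim hK).pow_eq_one, map_one]⟩
  · exact hK.pow β hβ

theorem kum_galois (hK : Kum F₀ n ζ B) (hn : 0 < n) : IsGalois F₀ H := by
  have hz := kum_prim hK
  have : NeZero n := ⟨hn.ne'⟩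
  refine { to_normal := normal_iff.2 fun x => ⟨Algebra.IsIntegral.isIntegral x, ?_⟩ }
  have hx : x ∈ IntermediateField.adjoin F₀ (insert (algebraMap F H ζ) B) := by
    rw [kum_adj hK]; exact IntermediateField.mem_top
  refine IntermediateField.splits_of_mem_adjoin F₀ H (L := H) (fun y hy => ?_) hx
  refine ⟨Algebra.IsIntegral.isIntegral y, ?_⟩
  obtain ⟨a, ha⟩ := kum_pow hK hy
  have h1 : (Polynomial.X ^ n - Polynomial.C (algebraMap F₀ H a)).Splits :=
    X_pow_sub_C_splits_of_isPrimitiveRoot hz ha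
  have h2 : minpoly F₀ y ∣ Polynomial.X ^ n - Polynomial.C a := by
    apply minpoly.dvd
    rw [map_sub, map_pow, Polynomial.aeval_X, Polynomial.aeval_C, ha, sub_self]
  have h3 : (minpoly F₀ y).map (algebraMap F₀ H) ∣
      Polynomial.X ^ n - Polynomial.C (algebraMap F₀ H a) := by
    have := Polynomial.map_dvd (algebraMap F₀ H) h2
    rwa [Polynomial.map_sub, Polynomial.map_pow, Polynomial.map_X, Polynomial.map_C] at this
  exact h1.of_dvd (Polynomial.X_pow_sub_C_ne_zero hn _) h3

/-- `τ β = ζ ^ i β` -/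
theorem kum_act (hK : Kum F₀ n ζ B) (hn : 0 < n) (τ : H ≃ₐ[F₀] H) {β : H} (hβ : β ∈ B) :
    ∃ i : ℕ, τ β = algebraMap F H ζ ^ i * β := by
  obtain ⟨a, ha⟩ := hK.pow β hβ
  have : NeZero n := ⟨hn.ne'⟩
  by_cases h0 : β = 0
  · exact ⟨0, by rw [h0, map_zero, mul_zero]⟩
  · have h1 : (τ β / β) ^ n = 1 := by
      rw [div_pow, ← map_pow, ha, AlgEquiv.commutes, div_self]
      rw [← ha]
      exact pow_ne_zero _ h0
    obtain ⟨i, -, hi⟩ := (kum_prim hK).eq_pow_of_pow_eq_one h1
    exact ⟨i, by rw [hi, div_mul_cancel₀ _ h0]⟩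

/-- the cyclotomic character -/
noncomputable def kchi (hK : Kum F₀ n ζ B) [NeZero n] : (H ≃ₐ[F₀] H) →* (ZMod n)ˣ :=
  (kum_prim hK).autToPow F₀

theorem kchi_spec (hK : Kum F₀ n ζ B) [NeZero n] (τ : H ≃ₐ[F₀] H) :
    τ (algebraMap F H ζ) = algebraMap F H ζ ^ ((kchi hK τ : (ZMod n)ˣ) : ZMod n).val :=
  ((kum_prim hK).autToPow_spec F₀ τ).symm

theorem kum_powH (hK : Kum F₀ n ζ B) (σ : H ≃ₐ[F] H) {β : H} {i : ℕ}
    (h : σ β = algebraMap F H ζ ^ i * β) (k : ℕ) :
    (σ ^ k) β = algebraMap F H ζ ^ (k * i) * β := by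
  induction k with
  | zero => simp
  | succ k ih =>
    rw [pow_succ', AlgEquiv.mul_apply, ih, map_mul, map_pow, AlgEquiv.commutes, h, ← mul_assoc,
      ← pow_add]
    congr 2
    ring

/-- `g ^ n = 1` in `Gal(H/F)` -/
theorem kum_exp (hK : Kum F₀ n ζ B) (hn : 0 < n) (σ : H ≃ₐ[F] H) : σ ^ n = 1 := by
  have h : ((σ ^ n).restrictScalars F₀ : H →ₐ[F₀] H) = AlgHom.id F₀ H := by
    refine kum_ext hK _ _ ?_ fun β hβ => ?_
    · show (σ ^ n) (algebraMap F H ζ) = algebraMap F H ζ
      exact AlgEquiv.commutes _ _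
    · show (σ ^ n) β = β
      obtain ⟨i, hi⟩ := kum_act hK hn (σ.restrictScalars F₀) hβ
      rw [kum_powH hK σ hi n, pow_mul, (kum_prim hK).pow_eq_one, one_pow, one_mul]
  refine AlgEquiv.ext fun x => ?_
  exact congrArg (fun f : H →ₐ[F₀] H => f x) h

/-- `τ σ = σ ^ χ(τ) τ` -/
theorem kum_rel (hK : Kum F₀ n ζ B) [NeZero n] (τ : H ≃ₐ[F₀] H) (σ : H ≃ₐ[F] H) (x : H) :
    τ (σ x) = (σ ^ ((kchi hK τ : (ZMod n)ˣ) : ZMod n).val) (τ x) := by
  have hn : 0 < n := Nat.pos_of_ne_zero (NeZero.ne n)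
  have h : ((τ : H →ₐ[F₀] H).comp (σ.restrictScalars F₀ : H →ₐ[F₀] H)) =
      (((σ ^ ((kchi hK τ : (ZMod n)ˣ) : ZMod n).val).restrictScalars F₀ : H →ₐ[F₀] H)).comp
        (τ : H →ₐ[F₀] H) := by
    refine kum_ext hK _ _ ?_ fun β hβ => ?_
    · show τ (σ (algebraMap F H ζ)) =
        (σ ^ ((kchi hK τ : (ZMod n)ˣ) : ZMod n).val) (τ (algebraMap F H ζ))
      rw [AlgEquiv.commutes, kchi_spec hK τ, map_pow, AlgEquiv.commutes]
    · show τ (σ β) = (σ ^ ((kchi hK τ : (ZMod n)ˣ) : ZMod n).val) (τ β)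
      obtain ⟨i, hi⟩ := kum_act hK hn (σ.restrictScalars F₀) hβ
      obtain ⟨k, hk⟩ := kum_act hK hn τ hβ
      have hi' : σ β = algebraMap F H ζ ^ i * β := hi
      rw [hi', map_mul, map_pow, kchi_spec hK τ, hk, map_mul, map_pow, AlgEquiv.commutes,
        kum_powH hK σ hi', ← pow_mul]
      ring
  exact congrArg (fun f : H →ₐ[F₀] H => f x) h

/-- `χ(τ) = 1` if and only if `τ ∈ Gal(H/F)` -/
theorem kchi_one (hK : Kum F₀ n ζ B) [NeZero n] (σ : H ≃ₐ[F] H) :
    kchi hK (σ.restrictScalars F₀) = 1 := by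
  have hn : 0 < n := Nat.pos_of_ne_zero (NeZero.ne n)
  have h := kchi_spec hK (σ.restrictScalars F₀)
  have h' : algebraMap F H ζ = algebraMap F H ζ ^
      ((kchi hK (σ.restrictScalars F₀) : (ZMod n)ˣ) : ZMod n).val := by
    rw [← h]
    exact (AlgEquiv.commutes σ ζ).symm
  apply Units.ext
  rw [Units.val_one]
  rcases Nat.lt_or_ge 1 n with h1 | h1
  · have h2 : (1 : ℕ) = ((kchi hK (σ.restrictScalars F₀) : (ZMod n)ˣ) : ZMod n).val :=
      (kum_prim hK).pow_inj h1 (ZMod.val_lt _) (by rw [pow_one]; exact h')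
    rw [← ZMod.natCast_zmod_val ((kchi hK (σ.restrictScalars F₀) : (ZMod n)ˣ) : ZMod n), ← h2,
      Nat.cast_one]
  · have hn1 : n = 1 := by omega
    have : Subsingleton (ZMod n) := by rw [hn1]; infer_instance
    exact Subsingleton.elim _ _

theorem kchi_ker (hK : Kum F₀ n ζ B) [NeZero n] (τ : H ≃ₐ[F₀] H) (h : kchi hK τ = 1) :
    ∃ σ : H ≃ₐ[F] H, σ.restrictScalars F₀ = τ := by
  have h1 : τ (algebraMap F H ζ) = algebraMap F H ζ := by
    rw [kchi_spec hK τ, h, Units.val_one]
    rcases Nat.lt_or_ge 1 n with h1 | h1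
    · have : Fact (1 < n) := ⟨h1⟩
      rw [ZMod.val_one, pow_one]
    · have hn : 0 < n := Nat.pos_of_ne_zero (NeZero.ne n)
      have hn1 : n = 1 := by omega
      have hz := (kum_prim hK).pow_eq_one
      rw [hn1, pow_one] at hz
      rw [hz, one_pow]
  have hF : ∀ y : F, τ (algebraMap F H y) = algebraMap F H y := by
    intro y
    have hy : y ∈ IntermediateField.adjoin F₀ {ζ} := by rw [hK.gen]; exact IntermediateField.mem_top
    induction hy using IntermediateField.adjoin_induction with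
    | mem x hx =>
      rw [Set.mem_singleton_iff] at hx
      rw [hx, h1]
    | algebraMap x => rw [← IsScalarTower.algebraMap_apply, AlgEquiv.commutes]
    | add x y hx hy h h' => rw [map_add, map_add, h, h']
    | inv x hx h => rw [map_inv₀, map_inv₀, h]
    | mul x y hx hy h h' => rw [map_mul, map_mul, h, h']
  exact ⟨AlgEquiv.ofRingEquiv (f := τ.toRingEquiv) hF, AlgEquiv.ext fun x => rfl⟩

theorem kchi_surj (hK : Kum F₀ n ζ B) [NeZero n] : Function.Surjective (kchi hK) := by
  have hn : 0 < n := Nat.pos_of_ne_zero (NeZero.ne n)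
  have : IsGalois F₀ H := kum_galois hK hn
  have : IsGalois F H := IsGalois.tower_top_of_isGalois F₀ F H
  have hker : Nat.card (kchi hK).ker = Module.finrank F H := by
    rw [← IsGalois.card_aut_eq_finrank F H]
    symm
    refine Nat.card_congr (Equiv.ofBijective (fun σ : H ≃ₐ[F] H =>
      (⟨σ.restrictScalars F₀, MonoidHom.mem_ker.2 (kchi_one hK σ)⟩ : (kchi hK).ker)) ⟨?_, ?_⟩)
    · intro σ σ' h
      exact AlgEquiv.ext fun x => congrArg (fun f : (kchi hK).ker => f.1 x) h
    · rintro ⟨τ, hτ⟩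
      obtain ⟨σ, rfl⟩ := kchi_ker hK τ (MonoidHom.mem_ker.1 hτ)
      exact ⟨σ, rfl⟩
  have h1 : Nat.card (kchi hK).ker * Nat.card (kchi hK).range = Nat.card (H ≃ₐ[F₀] H) := by
    rw [← Subgroup.index_ker]
    exact Subgroup.card_mul_index _
  rw [hker, IsGalois.card_aut_eq_finrank F₀ H, ← Module.finrank_mul_finrank F₀ F H, hK.deg,
    mul_comm] at h1
  have h2 : Nat.card (kchi hK).range = n.totient :=
    Nat.eq_of_mul_eq_mul_right (Module.finrank_pos (R := F) (M := H)) h1
  rw [← MonoidHom.range_eq_top]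
  refine Subgroup.eq_top_of_card_eq _ ?_
  rw [h2, Nat.card_eq_fintype_card, ZMod.card_units_eq_totient]

/-- the case of an odd prime `p`: a section of the cyclotomic character -/
theorem kum_odd {p e : ℕ} (hp : p.Prime) (hp2 : p ≠ 2) (hK : Kum F₀ (p ^ e) ζ B)
    [NeZero (p ^ e)] : ∃ θ : (ZMod (p ^ e))ˣ →* (H ≃ₐ[F₀] H), ∀ a, kchi hK (θ a) = a := by
  have hn : 0 < p ^ e := pow_pos hp.pos _
  have : IsCyclic (ZMod (p ^ e))ˣ := ZMod.isCyclic_units_of_prime_pow p hp hp2 e
  obtain ⟨u, hu⟩ := IsCyclic.exists_generator (α := (ZMod (p ^ e))ˣ)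
  obtain ⟨τ, hτ⟩ := kchi_surj hK u
  have ho : orderOf τ ∣ orderOf u := by
    rw [orderOf_dvd_iff_pow_eq_one]
    obtain ⟨σ, hσ⟩ := kchi_ker hK (τ ^ orderOf u) (by rw [map_pow, hτ, pow_orderOf_eq_one])
    have h1 : ∀ x, (σ ^ (u : ZMod (p ^ e)).val) x = σ x := by
      intro x
      have h2 := kum_rel hK τ σ (τ.symm x)
      rw [hτ, AlgEquiv.apply_symm_apply] at h2
      rw [← h2]
      have h3 : ∀ y, σ y = (τ ^ orderOf u) y := fun y => by rw [← hσ]; rfl
      rw [h3, h3, ← AlgEquiv.mul_apply, ← pow_succ', pow_succ, AlgEquiv.mul_apply,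
        AlgEquiv.apply_symm_apply]
    have h2 : σ ^ (u : ZMod (p ^ e)).val = σ := AlgEquiv.ext h1
    have h3 : σ = 1 := by
      rcases Nat.eq_zero_or_pos e with he | he
      · have h4 := kum_exp hK hn σ
        rwa [he, pow_zero, pow_one] at h4
      · have hu1 : 0 < (u : ZMod (p ^ e)).val := by
          rw [Nat.pos_iff_ne_zero, Ne, ZMod.val_eq_zero]
          have : Fact (1 < p ^ e) := ⟨Nat.one_lt_pow he.ne' hp.one_lt⟩
          exact u.ne_zero
        have h4 : σ ^ ((u : ZMod (p ^ e)).val - 1) = 1 := by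
          have h5 : σ ^ ((u : ZMod (p ^ e)).val - 1) * σ = 1 * σ := by
            rw [← pow_succ, Nat.sub_add_cancel hu1, h2, one_mul]
          exact mul_right_cancel h5
        have h6 : (p ^ e).Coprime ((u : ZMod (p ^ e)).val - 1) := by
          refine Nat.Coprime.pow_left _ ((Nat.Prime.coprime_iff_not_dvd hp).2 fun hd => ?_)
          have h7 : ∀ v : (ZMod (p ^ e))ˣ, ZMod.castHom (dvd_pow_self p he.ne') (ZMod p) v = 1 := by
            intro v
            obtain ⟨i, rfl⟩ := Subgroup.mem_zpowers_iff.1 (hu v)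
            have h8 : Units.map (ZMod.castHom (dvd_pow_self p he.ne') (ZMod p)).toMonoidHom u = 1 := by
              apply Units.ext
              rw [Units.coe_map, Units.val_one]
              show ZMod.castHom (dvd_pow_self p he.ne') (ZMod p) (u : ZMod (p ^ e)) = 1
              rw [← ZMod.natCast_zmod_val (u : ZMod (p ^ e)), map_natCast,
                ← Nat.sub_add_cancel hu1, Nat.cast_add, Nat.cast_one,
                (ZMod.natCast_eq_zero_iff _ _).2 hd, zero_add]
            have h9 := congrArg (fun z => ((z ^ i : (ZMod p)ˣ) : ZMod p)) h8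
            simp only [one_zpow, Units.val_one, ← map_zpow] at h9
            exact h9
          have h8 : IsUnit ((2 : ℕ) : ZMod (p ^ e)) := by
            rw [ZMod.isUnit_iff_coprime]
            exact Nat.Coprime.pow_right _ ((Nat.coprime_primes Nat.prime_two hp).2 (Ne.symm hp2))
          obtain ⟨v, hv⟩ := h8
          have h9 := h7 v
          rw [hv, map_natCast] at h9
          have h10 : ((1 : ℕ) : ZMod p) = 0 := by
            have : ((2 : ℕ) : ZMod p) = 1 + 1 := by norm_num
            rw [this] at h9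
            rw [Nat.cast_one]
            exact left_eq_add.1 h9.symm
          rw [ZMod.natCast_eq_zero_iff] at h10
          exact hp.one_lt.ne' (Nat.dvd_one.1 h10)
        exact orderOf_eq_one_iff.1 (Nat.eq_one_of_dvd_coprimes h6
          (orderOf_dvd_of_pow_eq_one (kum_exp hK hn σ)) (orderOf_dvd_of_pow_eq_one h4))
    rw [← hσ, h3]
    rfl
  refine ⟨monoidHomOfForallMemZpowers hu ho, fun a => ?_⟩
  have h1 : (kchi hK).comp (monoidHomOfForallMemZpowers hu ho) = MonoidHom.id _ := by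
    rw [MonoidHom.eq_iff_eq_on_generator hu, MonoidHom.comp_apply,
      monoidHomOfForallMemZpowers_apply_gen, hτ, MonoidHom.id_apply]
  exact congrArg (fun f : (ZMod (p ^ e))ˣ →* (ZMod (p ^ e))ˣ => f a) h1

/-- the case where `F₀(B)` and `F` are linearly disjoint -/
theorem kum_disj (hK : Kum F₀ n ζ B) [NeZero n]
    (hB : Module.finrank F₀ (IntermediateField.adjoin F₀ B) = Module.finrank F H) :
    ∃ θ : (ZMod n)ˣ →* (H ≃ₐ[F₀] H), ∀ a, kchi hK (θ a) = a := by
  have hn : 0 < n := Nat.pos_of_ne_zero (NeZero.ne n)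
  have : IsGalois F₀ H := kum_galois hK hn
  have hc : Nat.card (IntermediateField.fixingSubgroup (IntermediateField.adjoin F₀ B)) =
      n.totient := by
    rw [IsGalois.card_fixingSubgroup_eq_finrank]
    have h1 := Module.finrank_mul_finrank F₀ (IntermediateField.adjoin F₀ B) H
    rw [hB, ← Module.finrank_mul_finrank F₀ F H, hK.deg, mul_comm] at h1
    exact Nat.eq_of_mul_eq_mul_right (Module.finrank_pos (R := F) (M := H)) h1
  have hinj : Function.Injective ((kchi hK).comp
      (IntermediateField.fixingSubgroup (IntermediateField.adjoin F₀ B)).subtype) := by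
    rw [injective_iff_map_eq_one]
    rintro ⟨δ, hδ⟩ h
    have h' : kchi hK δ = 1 := h
    obtain ⟨σ, hσ⟩ := kchi_ker hK δ h'
    have h2 : (δ : H →ₐ[F₀] H) = AlgHom.id F₀ H := by
      refine kum_ext hK _ _ ?_ fun β hβ => ?_
      · rw [← hσ]
        exact AlgEquiv.commutes σ ζ
      · rw [IntermediateField.mem_fixingSubgroup_iff] at hδ
        exact hδ β (IntermediateField.subset_adjoin _ _ hβ)
    apply Subtype.ext
    exact AlgEquiv.ext fun x => congrArg (fun f : H →ₐ[F₀] H => f x) h2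
  have hbij : Function.Bijective ((kchi hK).comp
      (IntermediateField.fixingSubgroup (IntermediateField.adjoin F₀ B)).subtype) := by
    rw [Nat.bijective_iff_injective_and_card]
    exact ⟨hinj, by rw [hc, Nat.card_eq_fintype_card, ZMod.card_units_eq_totient]⟩
  refine ⟨(IntermediateField.fixingSubgroup (IntermediateField.adjoin F₀ B)).subtype.comp
    (MulEquiv.ofBijective _ hbij).symm.toMonoidHom, fun a => ?_⟩
  exact (MulEquiv.ofBijective _ hbij).apply_symm_apply a

/-- the action of `(ℤ/p^e)ˣ` on `H` -/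
theorem kum_hol {p e : ℕ} (hp : p.Prime) (hK : Kum F₀ (p ^ e) ζ B)
    (h2 : p = 2 → Module.finrank F₀ (IntermediateField.adjoin F₀ B) = Module.finrank F H) :
    ∃ θ : (ZMod (p ^ e))ˣ →* (H ≃+* H),
      (∀ (a : (ZMod (p ^ e))ˣ) (σ : H ≃ₐ[F] H) (x : H),
        θ a (σ x) = (σ ^ (a : ZMod (p ^ e)).val) (θ a x)) ∧
      ∀ (a : (ZMod (p ^ e))ˣ) (σ : H ≃ₐ[F] H), (∀ x, θ a x = σ x) → ∀ x, θ a x = x := by
  have hn : 0 < p ^ e := pow_pos hp.pos _
  have : NeZero (p ^ e) := ⟨hn.ne'⟩
  obtain ⟨θ, hθ⟩ : ∃ θ : (ZMod (p ^ e))ˣ →* (H ≃ₐ[F₀] H), ∀ a, kchi hK (θ a) = a := by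
    by_cases hp2 : p = 2
    · exact kum_disj hK (h2 hp2)
    · exact kum_odd hp hp2 hK
  let ψ : (H ≃ₐ[F₀] H) →* (H ≃+* H) :=
    { toFun := fun τ => τ.toRingEquiv
      map_one' := rfl
      map_mul' := fun τ τ' => rfl }
  refine ⟨ψ.comp θ, fun a σ x => ?_, fun a σ h x => ?_⟩
  · have h := kum_rel hK (θ a) σ x
    rw [hθ] at h
    exact h
  · have h1 : σ.restrictScalars F₀ = θ a := AlgEquiv.ext fun y => (h y).symm
    have h2 : a = 1 := by rw [← hθ a, ← h1, kchi_one hK σ]
    rw [h2, map_one]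
    rfl

end KUM

section FT

variable {F₀ F H : Type} [Field F₀] [NumberField F₀] [Field F] [NumberField F] [Field H]
  [NumberField H] [Algebra F₀ F] [Algebra F₀ H] [Algebra F H] [IsScalarTower F₀ F H]
  [IsGalois F H] {G : Type} [CommGroup G] [Fintype G] {ι : G ≃* (H ≃ₐ[F] H)}
  {S T : Finset (HeightOneSpectrum (𝓞 F))} {r : ℕ} {w : Fin r → Pl H}
  {fr : HeightOneSpectrum (𝓞 F) → G} {ζ : F} {B : Set H}

/-- Rubin's conjecture for Kummer extensions of `p`-power exponent. -/
theorem rubin_kummer {p e k d : ℕ} (hp : p.Prime) (hK : Kum F₀ (p ^ e) ζ B)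
    (h2 : p = 2 → Module.finrank F₀ (IntermediateField.adjoin F₀ B) = Module.finrank F H)
    (hG : Nat.card G = p ^ k) (hd : Monoid.exponent G = p ^ d) (hD : Data ι S T r w fr)
    (hS : r + 1 + p ^ (d - 1) * ((k - d) * (p - 1) + 1) ≤
      Fintype.card (InfinitePlace F) + S.card) :
    RubinStark ι S T w fr := by
  have hn : 0 < p ^ e := pow_pos hp.pos _
  have hexp : ∀ g : G, g ^ p ^ e = 1 := fun g => ι.injective (by
    rw [map_pow, kum_exp hK hn, map_one])
  have hdk : d ≤ k := by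
    rw [← Nat.pow_dvd_pow_iff_le_right hp.one_lt, ← hd, ← hG]
    exact Group.exponent_dvd_nat_card
  exact rubin_p_size3 hp hG hdk (fun g => by rw [← hd]; exact Monoid.pow_exponent_eq_one g) hD
    (fun N hN => hol3_layers hp hexp (kum_hol hp hK h2) N hN) hS

/-- the sharp form of the condition on `S` -/
theorem rubin_kummer' {p e : ℕ} (hp : p.Prime) (hK : Kum F₀ (p ^ e) ζ B)
    (h2 : p = 2 → Module.finrank F₀ (IntermediateField.adjoin F₀ B) = Module.finrank F H)
    (hD : Data ι S T r w fr)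
    (hS : r + 2 ≤ Fintype.card (InfinitePlace F) + S.card)
    (hS' : ∀ (N N' : Subgroup G) (i : ℕ), IsCyclic (G ⧸ N) → N ≤ N' → N.index = p * N'.index →
      Nat.card N = p ^ i →
      (∀ W : Pl H, InS S (dn F W) → (∀ g : G, act (ι g) W = W → g ∈ N) →
        ∃ l, dn F W = dn F (w l)) →
      N'.index * (r + 1 + i * (p - 1)) < Fintype.card (PS (ovr (Kf ι N') S))) :
    RubinStark ι S T w fr := by
  have hn : 0 < p ^ e := pow_pos hp.pos _
  have hexp : ∀ g : G, g ^ p ^ e = 1 := fun g => ι.injective (by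
    rw [map_pow, kum_exp hK hn, map_one])
  have hG : IsPGroup p G := fun g => ⟨e, hexp g⟩
  exact rubin_p3 hp hG hD (fun N hN => hol3_layers hp hexp (kum_hol hp hK h2) N hN) hS hS'

end FT

end Pool.Agent.RS3
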