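import Pool.Agent.Lib_helper27.RS3.Defs3

/-!
# RS3, block ORB: the number of orbits on `ℤ/p^m` and on `ℤ/p^(m-1)`
-/

namespace Pool.Agent.RS3

set_option linter.unusedSectionVars false

open Pool.Agent.RSK Pool.Agent.RS2
open NumberField IsDedekindDomain Filter Topology Complex

section

variable {Γ : Type} [Group Γ] {p m j : ℕ} {c : Γ} {θ : (ZMod (p ^ m))ˣ →* Γ}
    {ρ : Γ →* Equiv.Perm (ZMod (p ^ m))} {ρ' : Γ →* Equiv.Perm (ZMod (p ^ (m - 1)))}

theorem orb_pow (hA : AffD p m j c θ ρ ρ') (k : ℕ) (y : ZMod (p ^ m)) :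
    ρ (c ^ k) y = y + (k * p ^ (m - j) : ℕ) := by
  induction k with
  | zero => simp
  | succ k ih =>
    rw [pow_succ', map_mul, Equiv.Perm.mul_apply, ih, hA.actc]
    push_cast
    ring

/-- two elements with the same image in `ℤ/p^(m-1)` are in the same orbit -/
theorem orb_fib (hA : AffD p m j c θ ρ ρ') {y z : ZMod (p ^ m)}
    (h : (y.cast : ZMod (p ^ (m - 1))) = z.cast) : ∃ γ : Γ, ρ γ y = z := by
  have hp := hA.prime
  have hne : NeZero (p ^ m) := ⟨(pow_pos hp.pos m).ne'⟩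
  have hj := hA.pos
  have hjm := hA.le
  have hdvd : p ^ (m - 1) ∣ p ^ m := pow_dvd_pow p (by omega)
  have h1 : ((z - y).cast : ZMod (p ^ (m - 1))) = 0 := by
    rw [ZMod.cast_sub hdvd, h, sub_self]
  rw [← ZMod.natCast_val, ZMod.natCast_eq_zero_iff] at h1
  obtain ⟨k, hk⟩ := h1
  refine ⟨c ^ (p ^ (j - 1) * k), ?_⟩
  rw [orb_pow hA]
  have h2 : p ^ (j - 1) * k * p ^ (m - j) = (z - y).val := by
    rw [hk, mul_right_comm, ← pow_add]
    congr 2
    omega
  rw [h2, ZMod.natCast_zmod_val]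
  ring

/-- the number of orbits -/
theorem orb_aff {Γ : Type} [Group Γ] [Finite Γ] {p m j : ℕ} {c : Γ} {θ : (ZMod (p ^ m))ˣ →* Γ}
    {ρ : Γ →* Equiv.Perm (ZMod (p ^ m))} {ρ' : Γ →* Equiv.Perm (ZMod (p ^ (m - 1)))}
    (hA : AffD p m j c θ ρ ρ') : Nat.card (Orb ρ) = Nat.card (Orb ρ') := by
  have hp := hA.prime
  have hj := hA.pos
  have hjm := hA.le
  have hdvd : p ^ (m - 1) ∣ p ^ m := pow_dvd_pow p (by omega)
  set f : Orb ρ → Orb ρ' := Quotient.map' (s₁ := orb ρ) (s₂ := orb ρ')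
    (fun y => (y.cast : ZMod (p ^ (m - 1)))) (by
      rintro y z ⟨γ, rfl⟩
      exact ⟨γ, hA.proj γ y⟩) with hf
  refine Nat.card_eq_of_bijective f ⟨?_, ?_⟩
  · intro a b hab
    induction a using Quotient.inductionOn with | _ y =>
    induction b using Quotient.inductionOn with | _ z =>
    have h1 : (Quotient.mk (orb ρ') (y.cast : ZMod (p ^ (m - 1)))) =
        Quotient.mk (orb ρ') (z.cast : ZMod (p ^ (m - 1))) := hab
    obtain ⟨γ, hγ⟩ := Quotient.exact h1
    rw [hA.proj] at hγ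
    obtain ⟨δ, hδ⟩ := orb_fib hA hγ
    refine Quotient.sound ⟨δ * γ, ?_⟩
    rw [map_mul, Equiv.Perm.mul_apply]
    exact hδ
  · intro b
    induction b using Quotient.inductionOn with | _ z =>
    obtain ⟨y, hy⟩ := ZMod.castHom_surjective hdvd z
    refine ⟨Quotient.mk (orb ρ) y, ?_⟩
    show Quotient.mk (orb ρ') (y.cast : ZMod (p ^ (m - 1))) = _
    rw [← hy]
    rfl

end

end Pool.Agent.RS3
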