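import Pool.Agent.Lib_helper27.RS3.Defs3

/-!
Block TIB: `WY = (χ-part) × WY'`.
-/

namespace Pool.Agent.RS3

set_option linter.unusedSectionVars false

open Pool.Agent.RSK Pool.Agent.RS2
open NumberField IsDedekindDomain Filter Topology Complex

/-! ### `F` and the submodules -/

section tib1

variable {Γ : Type} [Group Γ]

theorem tib_stab {k : Type} [CommRing k] {Ω Y : Type} [Fintype Ω] (κ : Γ →* Equiv.Perm Ω)
    {F : Matrix Ω Ω k} (hF : MIv κ F) (σ : Γ →* Equiv.Perm Y) :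
    ∀ x ∈ WY k κ σ, FY Y F x ∈ WY k κ σ := by
  intro x hx γ y ω
  show (F.mulVec (x (σ γ y))) (κ γ ω) = (F.mulVec (x y)) ω
  simp only [Matrix.mulVec, dotProduct]
  rw [← Equiv.sum_comp (κ γ)]
  apply Finset.sum_congr rfl
  intro ω' _
  rw [hF γ ω ω', hx γ y ω']

/-- the `χ`-part -/
def tibX {Ω G : Type} [CommGroup G] (τ : G →* Equiv.Perm Ω) (χ : G →* ℂˣ) :
    Submodule ℂ (Ω → ℂ) where
  carrier := {x | ∀ g ω, x (τ g ω) = ((χ g : ℂˣ) : ℂ)⁻¹ * x ω}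
  zero_mem' := fun g ω => by simp
  add_mem' := fun {a b} ha hb g ω => by
    rw [Pi.add_apply, Pi.add_apply, ha, hb, mul_add]
  smul_mem' := fun c x hx g ω => by
    rw [Pi.smul_apply, Pi.smul_apply, hx, smul_eq_mul, smul_eq_mul]
    ring

theorem tib_stabX {Ω G : Type} [CommGroup G] [Fintype Ω] (τ : G →* Equiv.Perm Ω) (χ : G →* ℂˣ)
    {F : Matrix Ω Ω ℂ} (hF : ∀ g ω ω', F (τ g ω) (τ g ω') = F ω ω') :
    ∀ x ∈ tibX τ χ, Matrix.mulVecLin F x ∈ tibX τ χ := by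
  intro x hx g ω
  show (F.mulVec x) (τ g ω) = _ * (F.mulVec x) ω
  simp only [Matrix.mulVec, dotProduct]
  rw [← Equiv.sum_comp (τ g), Finset.mul_sum]
  apply Finset.sum_congr rfl
  intro ω' _
  rw [hF g ω ω', hx g ω']
  ring

end tib1

/-! ### the determinant on the `χ`-part -/

section tib2

variable {Ω G : Type} [CommGroup G] [Fintype G] [Fintype Ω] [DecidableEq Ω] (τ : G →* Equiv.Perm Ω)
  (χ : G →* ℂˣ) {r : ℕ} (w : Fin r → Ω)

/-- the function with the values `a j` at `w j` -/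
noncomputable def tibV (a : Fin r → ℂ) (ω : Ω) : ℂ :=
  ∑ j, ∑ g : G, if τ g (w j) = ω then a j * ((χ g : ℂˣ) : ℂ)⁻¹ else 0

theorem tibV_mem (a : Fin r → ℂ) : tibV τ χ w a ∈ tibX τ χ := by
  intro g ω
  unfold tibV
  rw [Finset.mul_sum]
  apply Finset.sum_congr rfl
  intro j _
  rw [← Equiv.sum_comp (Equiv.mulLeft g), Finset.mul_sum]
  apply Finset.sum_congr rfl
  intro g' _
  have h1 : τ (Equiv.mulLeft g g') (w j) = τ g ω ↔ τ g' (w j) = ω := by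
    rw [Equiv.coe_mulLeft, map_mul, Equiv.Perm.mul_apply]
    exact (τ g).injective.eq_iff
  by_cases h : τ g' (w j) = ω
  · rw [if_pos h, if_pos (h1.2 h), Equiv.coe_mulLeft, map_mul, Units.val_mul, mul_inv]
    ring
  · rw [if_neg h, if_neg (fun h2 => h (h1.1 h2)), mul_zero]

variable (hw : ∀ i g, τ g (w i) = w i → g = 1) (hinj : ∀ i i' g, τ g (w i) = w i' → i = i')
  (hall : ∀ ω, (∀ g, τ g ω = ω → g = 1) → ∃ i g, ω = τ g (w i))
  (hχ : ∀ ω g, τ g ω = ω → g ≠ 1 → ∃ g', τ g' ω = ω ∧ χ g' ≠ 1)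

include hw hinj in
theorem tibV_w (a : Fin r → ℂ) (i : Fin r) : tibV τ χ w a (w i) = a i := by
  unfold tibV
  rw [Finset.sum_eq_single i, Finset.sum_eq_single 1]
  · rw [map_one, Equiv.Perm.one_apply, if_pos rfl, map_one, Units.val_one, inv_one, mul_one]
  · intro g _ hg
    rw [if_neg]
    exact fun h => hg (hw i g h)
  · intro h
    exact absurd (Finset.mem_univ _) h
  · intro j _ hj
    apply Finset.sum_eq_zero
    intro g _
    rw [if_neg]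
    exact fun h => hj (hinj j i g h)
  · intro h
    exact absurd (Finset.mem_univ _) h

include hw hinj hall hχ in
theorem tibV_val {x : Ω → ℂ} (hx : x ∈ tibX τ χ) : tibV τ χ w (fun i => x (w i)) = x := by
  funext ω
  by_cases h0 : x ω = 0
  · rw [h0]
    unfold tibV
    apply Finset.sum_eq_zero
    intro j _
    apply Finset.sum_eq_zero
    intro g _
    split_ifs with h
    · have h1 := hx g (w j)
      rw [h, h0] at h1
      rw [mul_comm]
      exact h1.symm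
    · rfl
  · have hfree : ∀ g, τ g ω = ω → g = 1 := by
      intro g hg
      by_contra hne
      obtain ⟨g', h1, h2⟩ := hχ ω g hg hne
      have h3 := hx g' ω
      rw [h1] at h3
      apply h2
      apply Units.ext
      rw [Units.val_one]
      have h4 : (((χ g' : ℂˣ) : ℂ)⁻¹ - 1) * x ω = 0 := by
        rw [sub_mul, one_mul, ← h3, sub_self]
      have h5 := (mul_eq_zero.1 h4).resolve_right h0
      rw [sub_eq_zero, inv_eq_one] at h5
      exact h5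
    obtain ⟨i, g, hi⟩ := hall ω hfree
    unfold tibV
    rw [Finset.sum_eq_single i, Finset.sum_eq_single g]
    · rw [if_pos hi.symm, hi, hx g (w i), mul_comm]
    · intro g' _ hg'
      rw [if_neg]
      intro h
      apply hg'
      have h1 : τ (g⁻¹ * g') (w i) = w i := by
        rw [map_mul, Equiv.Perm.mul_apply, h, hi, ← Equiv.Perm.mul_apply, ← map_mul,
          inv_mul_cancel, map_one, Equiv.Perm.one_apply]
      have h2 := hw i _ h1
      rw [inv_mul_eq_one] at h2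
      exact h2.symm
    · intro h
      exact absurd (Finset.mem_univ _) h
    · intro j _ hj
      apply Finset.sum_eq_zero
      intro g' _
      rw [if_neg]
      intro h
      apply hj
      apply hinj j i (g⁻¹ * g')
      rw [map_mul, Equiv.Perm.mul_apply, h, hi, ← Equiv.Perm.mul_apply, ← map_mul,
        inv_mul_cancel, map_one, Equiv.Perm.one_apply]
    · intro h
      exact absurd (Finset.mem_univ _) h

/-- evaluation at the `w i` -/
noncomputable def tibEv : tibX τ χ ≃ₗ[ℂ] (Fin r → ℂ) where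
  toFun x := fun i => x.1 (w i)
  map_add' := fun x y => rfl
  map_smul' := fun c x => rfl
  invFun a := ⟨tibV τ χ w a, tibV_mem τ χ w a⟩
  left_inv := fun x => Subtype.ext (tibV_val τ χ w hw hinj hall hχ x.2)
  right_inv := fun a => funext fun i => tibV_w τ χ w hw hinj a i

include hw hinj hall hχ in
theorem tib_rank : Module.finrank ℂ (tibX τ χ) = r := by
  rw [(tibEv τ χ w hw hinj hall hχ).finrank_eq, Module.finrank_fin_fun]

include hw hinj hall hχ in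
theorem tib_detX (F : Matrix Ω Ω ℝ) (hF : ∀ g ω ω', F (τ g ω) (τ g ω') = F ω ω')
    (hs : ∀ x ∈ tibX τ χ, Matrix.mulVecLin (F.map (algebraMap ℝ ℂ)) x ∈ tibX τ χ) :
    LinearMap.det ((Matrix.mulVecLin (F.map (algebraMap ℝ ℂ))).restrict hs) =
      (Fchi τ F w χ).det := by
  rw [← LinearMap.det_conj _ (tibEv τ χ w hw hinj hall hχ), ← LinearMap.det_toLin']
  congr 1
  apply LinearMap.ext
  intro a
  funext i
  show ((F.map (algebraMap ℝ ℂ)).mulVec (tibV τ χ w a)) (w i) = (Fchi τ F w χ).mulVec a i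
  simp only [Matrix.mulVec, dotProduct, tibV, Fchi, Matrix.map_apply, Matrix.of_apply,
    Finset.sum_mul, Finset.mul_sum]
  rw [Finset.sum_comm]
  apply Finset.sum_congr rfl
  intro j _
  rw [Finset.sum_comm, ← Equiv.sum_comp (Equiv.inv G)]
  apply Finset.sum_congr rfl
  intro g _
  rw [Finset.sum_eq_single (τ (Equiv.inv G g) (w j))]
  · rw [if_pos rfl, Equiv.inv_apply, map_inv χ, Units.val_inv_eq_inv_val, inv_inv]
    have h1 := hF g⁻¹ (τ g (w i)) (w j)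
    rw [← Equiv.Perm.mul_apply, ← map_mul, inv_mul_cancel, map_one, Equiv.Perm.one_apply] at h1
    rw [h1]
    show ((F (τ g (w i)) (w j) : ℝ) : ℂ) * _ = _
    ring
  · intro ω _ hω
    rw [if_neg (Ne.symm hω), mul_zero]
  · intro h
    exact absurd (Finset.mem_univ _) h

end tib2

/-! ### characters of `ℤ/p^m` -/

section tib3

variable {p m : ℕ} [hp : Fact p.Prime]

/-- translation by `p^(m-1)` does not change the image in `ℤ/p^(m-1)` -/
theorem tib_cast_add (hm : 0 < m) (y : ZMod (p ^ m)) :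
    ((y + (p ^ (m - 1) : ℕ) : ZMod (p ^ m)).cast : ZMod (p ^ (m - 1))) = y.cast := by
  have hd : p ^ (m - 1) ∣ p ^ m := pow_dvd_pow p (Nat.sub_le m 1)
  show ZMod.castHom hd (ZMod (p ^ (m - 1))) (y + (p ^ (m - 1) : ℕ)) =
    ZMod.castHom hd (ZMod (p ^ (m - 1))) y
  rw [map_add, map_natCast, ZMod.natCast_self, add_zero]

/-- non-units kill the differences of elements with the same image -/
theorem tib_mul_eq (hm : 0 < m) {b y z : ZMod (p ^ m)} (hb : ¬ IsUnit b)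
    (h : (y.cast : ZMod (p ^ (m - 1))) = z.cast) : y * b = z * b := by
  have hd : p ^ (m - 1) ∣ p ^ m := pow_dvd_pow p (Nat.sub_le m 1)
  have hN : NeZero (p ^ m) := ⟨pow_ne_zero _ hp.out.ne_zero⟩
  have h1 : ZMod.castHom hd (ZMod (p ^ (m - 1))) (y - z) = 0 := by
    rw [map_sub, sub_eq_zero]
    exact h
  rw [← ZMod.natCast_zmod_val (y - z), map_natCast, ZMod.natCast_eq_zero_iff] at h1
  obtain ⟨k, hk⟩ := h1
  have h2 : p ∣ b.val := by
    by_contra h3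
    apply hb
    rw [← ZMod.natCast_zmod_val b, ZMod.isUnit_iff_coprime]
    exact Nat.Coprime.pow_right _ ((Nat.Prime.coprime_iff_not_dvd hp.out).2 h3).symm
  obtain ⟨l, hl⟩ := h2
  have h3 : (y - z) * b = 0 := by
    rw [← ZMod.natCast_zmod_val (y - z), ← ZMod.natCast_zmod_val b, ← Nat.cast_mul,
      ZMod.natCast_eq_zero_iff, hk, hl]
    refine ⟨k * l, ?_⟩
    have h4 : p ^ m = p ^ (m - 1) * p := by
      rw [← pow_succ, Nat.sub_add_cancel hm]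
    rw [h4]
    ring
  rw [sub_mul, sub_eq_zero] at h3
  exact h3

theorem tib_surj (y' : ZMod (p ^ (m - 1))) :
    ∃ y : ZMod (p ^ m), (y.cast : ZMod (p ^ (m - 1))) = y' := by
  have hd : p ^ (m - 1) ∣ p ^ m := pow_dvd_pow p (Nat.sub_le m 1)
  exact ZMod.castHom_surjective hd y'

open scoped Classical in
/-- the number of elements above `y'` -/
theorem tib_fib [NeZero (p ^ m)] (hm : 0 < m) (y' : ZMod (p ^ (m - 1))) :
    (Finset.univ.filter fun y : ZMod (p ^ m) => (y.cast : ZMod (p ^ (m - 1))) = y').card = p := by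
  have hd : p ^ (m - 1) ∣ p ^ m := pow_dvd_pow p (Nat.sub_le m 1)
  have hN' : NeZero (p ^ (m - 1)) := ⟨pow_ne_zero _ hp.out.ne_zero⟩
  have h1 : ∀ z' : ZMod (p ^ (m - 1)),
      (Finset.univ.filter fun y : ZMod (p ^ m) => (y.cast : ZMod (p ^ (m - 1))) = z').card =
      (Finset.univ.filter fun y : ZMod (p ^ m) => (y.cast : ZMod (p ^ (m - 1))) = y').card := by
    intro z'
    exact AddMonoidHom.card_fiber_eq_of_mem_range
      (ZMod.castHom hd (ZMod (p ^ (m - 1)))).toAddMonoidHom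
      (ZMod.castHom_surjective hd z') (ZMod.castHom_surjective hd y')
  have h2 := Finset.card_eq_sum_card_fiberwise (s := (Finset.univ : Finset (ZMod (p ^ m))))
    (t := (Finset.univ : Finset (ZMod (p ^ (m - 1))))) (f := fun y => y.cast)
    (fun _ _ => Finset.mem_univ _)
  rw [Finset.sum_congr rfl (fun z' _ => h1 z'), Finset.sum_const, smul_eq_mul, Finset.card_univ,
    Finset.card_univ, ZMod.card, ZMod.card] at h2
  have h4 : p ^ m = p ^ (m - 1) * p := by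
    rw [← pow_succ, Nat.sub_add_cancel hm]
  exact Nat.eq_of_mul_eq_mul_left (pow_pos hp.out.pos _) (h2.symm.trans h4)

variable [NeZero (p ^ m)] (ψ : AddChar (ZMod (p ^ m)) ℂ)

/-- sums over the fibres -/
theorem tib_zero {b : ZMod (p ^ m)} (hb : ψ (b * (p ^ (m - 1) : ℕ)) ≠ 1) (f : ZMod (p ^ m) → ℂ)
    (hf : ∀ y, f (y + (p ^ (m - 1) : ℕ)) = f y) : ∑ y, ψ (b * y) * f y = 0 := by
  have h1 : ∑ y, ψ (b * y) * f y = ψ (b * (p ^ (m - 1) : ℕ)) * ∑ y, ψ (b * y) * f y := by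
    conv_lhs => rw [← Equiv.sum_comp (Equiv.addRight ((p ^ (m - 1) : ℕ) : ZMod (p ^ m)))]
    rw [Finset.mul_sum]
    apply Finset.sum_congr rfl
    intro y _
    rw [Equiv.coe_addRight, hf, mul_add, AddChar.map_add_eq_mul]
    ring
  have h2 : (1 - ψ (b * (p ^ (m - 1) : ℕ))) * ∑ y, ψ (b * y) * f y = 0 := by
    rw [sub_mul, one_mul, ← h1, sub_self]
  refine (mul_eq_zero.1 h2).resolve_left ?_
  intro h3
  exact hb (sub_eq_zero.1 h3).symm

theorem tib_ne (hm : 0 < m) (hψ : ψ.IsPrimitive) (b : (ZMod (p ^ m))ˣ) :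
    ψ (b * (p ^ (m - 1) : ℕ)) ≠ 1 := by
  intro h
  have hd : ((p ^ (m - 1) : ℕ) : ZMod (p ^ m)) ≠ 0 := by
    rw [Ne, ZMod.natCast_eq_zero_iff]
    intro h1
    have h2 := Nat.le_of_dvd (pow_pos hp.out.pos _) h1
    have h3 : p ^ (m - 1) < p ^ m := Nat.pow_lt_pow_right hp.out.one_lt (by omega)
    omega
  have hd2 : (b : ZMod (p ^ m)) * (p ^ (m - 1) : ℕ) ≠ 0 := by
    intro h1
    apply hd
    have h2 := congrArg (fun t => ((b⁻¹ : (ZMod (p ^ m))ˣ) : ZMod (p ^ m)) * t) h1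
    simpa using h2
  apply hψ hd2
  have h5 : ∀ n : ℕ, ψ (b * (p ^ (m - 1) : ℕ) * n) = 1 := by
    intro n
    induction n with
    | zero => rw [Nat.cast_zero, mul_zero, AddChar.map_zero_eq_one]
    | succ n ih => rw [Nat.cast_succ, mul_add, AddChar.map_add_eq_mul, ih, mul_one, h, one_mul]
  ext x
  rw [AddChar.mulShift_apply, AddChar.one_apply, ← ZMod.natCast_zmod_val x]
  exact h5 _

end tib3

/-! ### the maps `T` and `A` -/

section tib4

variable {Γ : Type} [Group Γ] {p m j : ℕ} {c : Γ} {θ : (ZMod (p ^ m))ˣ →* Γ}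
  {ρ : Γ →* Equiv.Perm (ZMod (p ^ m))} {ρ' : Γ →* Equiv.Perm (ZMod (p ^ (m - 1)))}
  {G : Type} [CommGroup G] [Fintype G] {ι₀ : G →* Γ} {g₀ : G}
  {Ω : Type} [Fintype Ω] {κ : Γ →* Equiv.Perm Ω} {χ : G →* ℂˣ}
  [NeZero (p ^ m)] (ψ : AddChar (ZMod (p ^ m)) ℂ)

/-- `T h = ∑_y ψ(-y) h(y)` -/
noncomputable def tibT (Ω : Type) : (ZMod (p ^ m) → Ω → ℂ) →ₗ[ℂ] (Ω → ℂ) where
  toFun h := fun ω => ∑ y, ψ (-y) * h y ω
  map_add' := fun h h' => by
    funext ω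
    simp only [Pi.add_apply, mul_add, Finset.sum_add_distrib]
  map_smul' := fun a h => by
    funext ω
    simp only [Pi.smul_apply, smul_eq_mul, RingHom.id_apply, Finset.mul_sum]
    apply Finset.sum_congr rfl
    intro y _
    ring

variable (p m) in
open scoped Classical in
/-- `A h (y') = (1/p) ∑ h(y)` over the `y` above `y'` -/
noncomputable def tibA (Ω : Type) :
    (ZMod (p ^ m) → Ω → ℂ) →ₗ[ℂ] (ZMod (p ^ (m - 1)) → Ω → ℂ) where
  toFun h := fun y' ω => (p : ℂ)⁻¹ * ∑ y : ZMod (p ^ m),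
    if (y.cast : ZMod (p ^ (m - 1))) = y' then h y ω else 0
  map_add' := fun h h' => by
    funext y' ω
    simp only [Pi.add_apply]
    rw [← mul_add, ← Finset.sum_add_distrib]
    congr 1
    apply Finset.sum_congr rfl
    intro y _
    split_ifs
    · rfl
    · rw [add_zero]
  map_smul' := fun a h => by
    funext y' ω
    simp only [Pi.smul_apply, smul_eq_mul, RingHom.id_apply]
    rw [mul_left_comm a]
    congr 1
    rw [Finset.mul_sum]
    apply Finset.sum_congr rfl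
    intro y _
    split_ifs
    · rfl
    · rw [mul_zero]

theorem tib_gen (hA : AffD p m j c θ ρ ρ') {P : Subgroup G} (hC : CycP p j P) (hg : ι₀ g₀ = c)
    (hι : Function.Injective ι₀) (g : G) : ∃ n : ℕ, g₀ ^ n = g := by
  have h1 : orderOf g₀ = Nat.card G := by
    rw [← orderOf_injective ι₀ hι, hg, hA.ord, hC.card]
  have h2 : g ∈ Subgroup.zpowers g₀ := by
    have h3 : Subgroup.zpowers g₀ = ⊤ := by
      apply Subgroup.eq_top_of_card_eq
      rw [Nat.card_zpowers, h1]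
    rw [h3]
    exact Subgroup.mem_top g
  rw [← mem_powers_iff_mem_zpowers] at h2
  obtain ⟨n, hn⟩ := h2
  exact ⟨n, hn⟩

/-- it is enough to check the condition for the generator -/
theorem tib_memX (hA : AffD p m j c θ ρ ρ') {P : Subgroup G} (hC : CycP p j P) (hg : ι₀ g₀ = c)
    (hι : Function.Injective ι₀) {x : Ω → ℂ}
    (hx : ∀ ω, x (κ c ω) = ((χ g₀ : ℂˣ) : ℂ)⁻¹ * x ω) : x ∈ tibX (κ.comp ι₀) χ := by
  intro g
  obtain ⟨n, rfl⟩ := tib_gen hA hC hg hι g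
  induction n with
  | zero =>
    intro ω
    rw [pow_zero, map_one, map_one, Units.val_one, inv_one, one_mul, Equiv.Perm.one_apply]
  | succ n ih =>
    intro ω
    have h1 : (κ.comp ι₀) (g₀ ^ (n + 1)) ω = κ c ((κ.comp ι₀) (g₀ ^ n) ω) := by
      rw [pow_succ', map_mul, Equiv.Perm.mul_apply, MonoidHom.comp_apply, hg]
    rw [h1, hx, ih, pow_succ', map_mul, Units.val_mul, mul_inv]
    ring

theorem tib_powX {x : Ω → ℂ} (hg : ι₀ g₀ = c) (hx : x ∈ tibX (κ.comp ι₀) χ) (n : ℕ) (ω : Ω) :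
    x (κ (c ^ n) ω) = (((χ g₀ : ℂˣ) : ℂ) ^ n)⁻¹ * x ω := by
  have h1 := hx (g₀ ^ n) ω
  rw [MonoidHom.comp_apply, map_pow, hg, map_pow χ, Units.val_pow_eq_pow_val] at h1
  exact h1

/-- `T` maps `WY` to the `χ`-part -/
theorem tibT_mem (hA : AffD p m j c θ ρ ρ') {P : Subgroup G} (hC : CycP p j P) (hg : ι₀ g₀ = c)
    (hι : Function.Injective ι₀) (hψ : ψ (p ^ (m - j) : ℕ) = ((χ g₀ : ℂˣ) : ℂ))
    {h : ZMod (p ^ m) → Ω → ℂ} (hh : h ∈ WY ℂ κ ρ) : tibT ψ Ω h ∈ tibX (κ.comp ι₀) χ := by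
  apply tib_memX hA hC hg hι
  intro ω
  show ∑ y, ψ (-y) * h y (κ c ω) = _ * ∑ y, ψ (-y) * h y ω
  rw [← Equiv.sum_comp (ρ c), Finset.mul_sum]
  apply Finset.sum_congr rfl
  intro y _
  rw [hh c y ω, hA.actc, ← hψ, ← AddChar.map_neg_eq_inv, neg_add, AddChar.map_add_eq_mul]
  ring

/-- `A` maps `WY` to `WY` -/
theorem tibA_mem (hA : AffD p m j c θ ρ ρ') {h : ZMod (p ^ m) → Ω → ℂ} (hh : h ∈ WY ℂ κ ρ) :
    tibA p m Ω h ∈ WY ℂ κ ρ' := by
  classical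
  intro γ y' ω
  show (p : ℂ)⁻¹ * ∑ y : ZMod (p ^ m), (if (y.cast : ZMod (p ^ (m - 1))) = ρ' γ y' then
    h y (κ γ ω) else 0) = (p : ℂ)⁻¹ * ∑ y : ZMod (p ^ m),
      if (y.cast : ZMod (p ^ (m - 1))) = y' then h y ω else 0
  congr 1
  rw [← Equiv.sum_comp (ρ γ)]
  apply Finset.sum_congr rfl
  intro y _
  rw [hh γ y ω, ← hA.proj]
  by_cases hc : (y.cast : ZMod (p ^ (m - 1))) = y'
  · rw [if_pos hc, if_pos (by rw [hc])]
  · rw [if_neg hc, if_neg]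
    intro h2
    exact hc ((ρ' γ).injective h2)

theorem tibT_comm (F : Matrix Ω Ω ℂ) (h : ZMod (p ^ m) → Ω → ℂ) :
    tibT ψ Ω (FY _ F h) = Matrix.mulVecLin F (tibT ψ Ω h) := by
  funext ω
  show ∑ y, ψ (-y) * (F.mulVec (h y)) ω = (F.mulVec (tibT ψ Ω h)) ω
  simp only [Matrix.mulVec, dotProduct, Finset.mul_sum]
  rw [Finset.sum_comm]
  apply Finset.sum_congr rfl
  intro ω' _
  show _ = F ω ω' * ∑ y, ψ (-y) * h y ω'
  rw [Finset.mul_sum]
  apply Finset.sum_congr rfl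
  intro y _
  ring

theorem tibA_comm (F : Matrix Ω Ω ℂ) (h : ZMod (p ^ m) → Ω → ℂ) :
    tibA p m Ω (FY _ F h) = FY _ F (tibA p m Ω h) := by
  classical
  funext y' ω
  show (p : ℂ)⁻¹ * ∑ y : ZMod (p ^ m), (if (y.cast : ZMod (p ^ (m - 1))) = y' then
    (F.mulVec (h y)) ω else 0) = (F.mulVec (tibA p m Ω h y')) ω
  have h1 : (F.mulVec (tibA p m Ω h y')) ω = ∑ ω', F ω ω' * ((p : ℂ)⁻¹ *
    ∑ y : ZMod (p ^ m), if (y.cast : ZMod (p ^ (m - 1))) = y' then h y ω' else 0) := rfl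
  rw [h1]
  simp only [Finset.mul_sum]
  rw [Finset.sum_comm]
  apply Finset.sum_congr rfl
  intro y _
  by_cases hc : (y.cast : ZMod (p ^ (m - 1))) = y'
  · simp only [if_pos hc, Matrix.mulVec, dotProduct, Finset.mul_sum]
    apply Finset.sum_congr rfl
    intro ω' _
    ring
  · simp only [if_neg hc, mul_zero, Finset.sum_const_zero]

/-- the inverse of `T` -/
noncomputable def tibH (θ : (ZMod (p ^ m))ˣ →* Γ) (κ : Γ →* Equiv.Perm Ω) (x : Ω → ℂ)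
    (y : ZMod (p ^ m)) (ω : Ω) : ℂ :=
  ((p ^ m : ℕ) : ℂ)⁻¹ * ∑ a : (ZMod (p ^ m))ˣ,
    ψ (((a⁻¹ : (ZMod (p ^ m))ˣ) : ZMod (p ^ m)) * y) * x (κ (θ a)⁻¹ ω)

theorem tibH_mem (hA : AffD p m j c θ ρ ρ') (hg : ι₀ g₀ = c)
    (hψ : ψ (p ^ (m - j) : ℕ) = ((χ g₀ : ℂˣ) : ℂ)) {x : Ω → ℂ}
    (hx : x ∈ tibX (κ.comp ι₀) χ) : tibH ψ θ κ x ∈ WY ℂ κ ρ := by
  -- products
  have hmul : ∀ γ δ : Γ, (∀ y ω, tibH ψ θ κ x (ρ γ y) (κ γ ω) = tibH ψ θ κ x y ω) →
      (∀ y ω, tibH ψ θ κ x (ρ δ y) (κ δ ω) = tibH ψ θ κ x y ω) →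
      ∀ y ω, tibH ψ θ κ x (ρ (γ * δ) y) (κ (γ * δ) ω) = tibH ψ θ κ x y ω := by
    intro γ δ h1 h2 y ω
    rw [map_mul, map_mul, Equiv.Perm.mul_apply, Equiv.Perm.mul_apply, h1, h2]
  have hc : ∀ y ω, tibH ψ θ κ x (ρ c y) (κ c ω) = tibH ψ θ κ x y ω := by
    intro y ω
    unfold tibH
    congr 1
    apply Finset.sum_congr rfl
    intro a _
    set v : ℕ := ((a⁻¹ : (ZMod (p ^ m))ˣ) : ZMod (p ^ m)).val with hv
    have h1 : (θ a)⁻¹ * c = c ^ v * (θ a)⁻¹ := by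
      have h2 := hA.conj a⁻¹
      rw [map_inv, inv_inv, ← hv] at h2
      rw [← h2]
      group
    have h3 : κ (θ a)⁻¹ (κ c ω) = κ (c ^ v) (κ (θ a)⁻¹ ω) := by
      rw [← Equiv.Perm.mul_apply, ← map_mul, h1, map_mul, Equiv.Perm.mul_apply]
    rw [h3, tib_powX hg hx, hA.actc, mul_add, AddChar.map_add_eq_mul]
    have h4 : ψ (((a⁻¹ : (ZMod (p ^ m))ˣ) : ZMod (p ^ m)) * (p ^ (m - j) : ℕ)) =
        ((χ g₀ : ℂˣ) : ℂ) ^ v := by
      rw [← hψ, ← AddChar.map_nsmul_eq_pow, nsmul_eq_mul, hv, ZMod.natCast_zmod_val]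
    rw [h4]
    have h5 : ((χ g₀ : ℂˣ) : ℂ) ^ v ≠ 0 := pow_ne_zero _ (Units.ne_zero _)
    field_simp
  have hb : ∀ b : (ZMod (p ^ m))ˣ, ∀ y ω,
      tibH ψ θ κ x (ρ (θ b) y) (κ (θ b) ω) = tibH ψ θ κ x y ω := by
    intro b y ω
    unfold tibH
    congr 1
    rw [← Equiv.sum_comp (Equiv.mulLeft b)]
    apply Finset.sum_congr rfl
    intro a _
    have h1 : κ (θ (Equiv.mulLeft b a))⁻¹ (κ (θ b) ω) = κ (θ a)⁻¹ ω := by
      rw [Equiv.coe_mulLeft, ← Equiv.Perm.mul_apply, ← map_mul, map_mul θ, mul_inv_rev,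
        inv_mul_cancel_right]
    rw [h1, hA.actθ, Equiv.coe_mulLeft]
    congr 2
    rw [← mul_assoc, mul_inv, mul_comm b⁻¹ a⁻¹, Units.val_mul, mul_assoc
      ((a⁻¹ : (ZMod (p ^ m))ˣ) : ZMod (p ^ m)), Units.inv_mul, mul_one]
  have h1 : ∀ y ω, tibH ψ θ κ x (ρ 1 y) (κ 1 ω) = tibH ψ θ κ x y ω := by
    intro y ω
    rw [map_one, map_one, Equiv.Perm.one_apply, Equiv.Perm.one_apply]
  have hcn : ∀ n : ℕ, ∀ y ω, tibH ψ θ κ x (ρ (c ^ n) y) (κ (c ^ n) ω) = tibH ψ θ κ x y ω := by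
    intro n
    induction n with
    | zero => rw [pow_zero]; exact h1
    | succ n ih => rw [pow_succ]; exact hmul _ _ ih hc
  intro γ y ω
  obtain ⟨n, a, rfl⟩ := hA.dec γ
  exact hmul _ _ (hcn n) (hb a) y ω

theorem tibT_H (hψ : ψ.IsPrimitive) (x : Ω → ℂ) : tibT ψ Ω (tibH ψ θ κ x) = x := by
  classical
  funext ω
  show ∑ y, ψ (-y) * (((p ^ m : ℕ) : ℂ)⁻¹ * ∑ a : (ZMod (p ^ m))ˣ,
    ψ (((a⁻¹ : (ZMod (p ^ m))ˣ) : ZMod (p ^ m)) * y) * x (κ (θ a)⁻¹ ω)) = x ω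
  have h1 : ∀ y : ZMod (p ^ m), ψ (-y) * (((p ^ m : ℕ) : ℂ)⁻¹ * ∑ a : (ZMod (p ^ m))ˣ,
      ψ (((a⁻¹ : (ZMod (p ^ m))ˣ) : ZMod (p ^ m)) * y) * x (κ (θ a)⁻¹ ω)) =
      ∑ a : (ZMod (p ^ m))ˣ, ((p ^ m : ℕ) : ℂ)⁻¹ * x (κ (θ a)⁻¹ ω) *
        ψ (y * (((a⁻¹ : (ZMod (p ^ m))ˣ) : ZMod (p ^ m)) - 1)) := by
    intro y
    rw [Finset.mul_sum, Finset.mul_sum]
    apply Finset.sum_congr rfl
    intro a _
    have h2 : y * (((a⁻¹ : (ZMod (p ^ m))ˣ) : ZMod (p ^ m)) - 1) =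
        -y + ((a⁻¹ : (ZMod (p ^ m))ˣ) : ZMod (p ^ m)) * y := by ring
    rw [h2, AddChar.map_add_eq_mul]
    ring
  rw [Finset.sum_congr rfl (fun y _ => h1 y), Finset.sum_comm]
  have h3 : ∀ a : (ZMod (p ^ m))ˣ, ∑ y : ZMod (p ^ m), ((p ^ m : ℕ) : ℂ)⁻¹ *
      x (κ (θ a)⁻¹ ω) * ψ (y * (((a⁻¹ : (ZMod (p ^ m))ˣ) : ZMod (p ^ m)) - 1)) =
      if a = 1 then x ω else 0 := by
    intro a
    rw [← Finset.mul_sum, AddChar.sum_mulShift _ hψ]
    by_cases ha : a = 1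
    · rw [if_pos ha, ha, inv_one, Units.val_one, sub_self, if_pos rfl, map_one, inv_one, map_one,
        Equiv.Perm.one_apply, ZMod.card]
      have h4 : ((p ^ m : ℕ) : ℂ) ≠ 0 := by
        exact_mod_cast (NeZero.ne (p ^ m))
      field_simp
    · rw [if_neg ha, if_neg, Nat.cast_zero, mul_zero]
      intro h4
      apply ha
      rw [sub_eq_zero, Units.val_eq_one, inv_eq_one] at h4
      exact h4
  rw [Finset.sum_congr rfl (fun a _ => h3 a), Finset.sum_ite_eq' Finset.univ (1 : (ZMod (p ^ m))ˣ),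
    if_pos (Finset.mem_univ _)]

theorem tibA_H [Fact p.Prime] (hm : 0 < m) (hψ : ψ.IsPrimitive) (x : Ω → ℂ) :
    tibA p m Ω (tibH ψ θ κ x) = 0 := by
  classical
  funext y' ω
  show (p : ℂ)⁻¹ * ∑ y : ZMod (p ^ m), (if (y.cast : ZMod (p ^ (m - 1))) = y' then
    ((p ^ m : ℕ) : ℂ)⁻¹ * ∑ a : (ZMod (p ^ m))ˣ,
      ψ (((a⁻¹ : (ZMod (p ^ m))ˣ) : ZMod (p ^ m)) * y) * x (κ (θ a)⁻¹ ω) else 0) = 0
  have h1 : ∀ y : ZMod (p ^ m), (if (y.cast : ZMod (p ^ (m - 1))) = y' then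
      ((p ^ m : ℕ) : ℂ)⁻¹ * ∑ a : (ZMod (p ^ m))ˣ,
        ψ (((a⁻¹ : (ZMod (p ^ m))ˣ) : ZMod (p ^ m)) * y) * x (κ (θ a)⁻¹ ω) else 0) =
      ∑ a : (ZMod (p ^ m))ˣ, ((p ^ m : ℕ) : ℂ)⁻¹ * x (κ (θ a)⁻¹ ω) *
        (ψ (((a⁻¹ : (ZMod (p ^ m))ˣ) : ZMod (p ^ m)) * y) *
          if (y.cast : ZMod (p ^ (m - 1))) = y' then 1 else 0) := by
    intro y
    split_ifs
    · rw [Finset.mul_sum]
      apply Finset.sum_congr rfl
      intro a _
      ring
    · simp only [mul_zero, Finset.sum_const_zero]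
  rw [Finset.sum_congr rfl (fun y _ => h1 y), Finset.sum_comm]
  have h3 : ∀ a : (ZMod (p ^ m))ˣ, ∑ y : ZMod (p ^ m), ((p ^ m : ℕ) : ℂ)⁻¹ *
      x (κ (θ a)⁻¹ ω) * (ψ (((a⁻¹ : (ZMod (p ^ m))ˣ) : ZMod (p ^ m)) * y) *
          if (y.cast : ZMod (p ^ (m - 1))) = y' then 1 else 0) = 0 := by
    intro a
    rw [← Finset.mul_sum, tib_zero ψ (tib_ne ψ hm hψ a⁻¹)
      (fun y => if (y.cast : ZMod (p ^ (m - 1))) = y' then 1 else 0), mul_zero]
    intro y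
    simp only [tib_cast_add hm]
  rw [Finset.sum_congr rfl (fun a _ => h3 a), Finset.sum_const_zero, mul_zero]

theorem tibT_A [Fact p.Prime] (hm : 0 < m) (hψ : ψ.IsPrimitive)
    (h' : ZMod (p ^ (m - 1)) → Ω → ℂ) : tibT ψ Ω (fun y => h' y.cast) = 0 := by
  funext ω
  show ∑ y : ZMod (p ^ m), ψ (-y) * h' y.cast ω = 0
  have h1 := tib_zero ψ (tib_ne ψ hm hψ (-1)) (fun y => h' y.cast ω)
    (fun y => by simp only [tib_cast_add hm])
  rw [← h1]
  apply Finset.sum_congr rfl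
  intro y _
  rw [Units.val_neg, Units.val_one, neg_one_mul]

theorem tibA_A [Fact p.Prime] (hm : 0 < m) (h' : ZMod (p ^ (m - 1)) → Ω → ℂ) :
    tibA p m Ω (fun y => h' y.cast) = h' := by
  classical
  funext y' ω
  show (p : ℂ)⁻¹ * ∑ y : ZMod (p ^ m), (if (y.cast : ZMod (p ^ (m - 1))) = y' then
    h' y.cast ω else 0) = h' y' ω
  rw [← Finset.sum_filter]
  have h1 : ∀ y ∈ Finset.univ.filter (fun y : ZMod (p ^ m) =>
      (y.cast : ZMod (p ^ (m - 1))) = y'), h' y.cast ω = h' y' ω := by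
    intro y hy
    rw [(Finset.mem_filter.1 hy).2]
  rw [Finset.sum_congr rfl h1, Finset.sum_const, tib_fib hm, nsmul_eq_mul]
  have h2 : (p : ℂ) ≠ 0 := by
    exact_mod_cast (Fact.out : p.Prime).ne_zero
  field_simp

theorem tib_pull (hA : AffD p m j c θ ρ ρ') {h' : ZMod (p ^ (m - 1)) → Ω → ℂ}
    (hh : h' ∈ WY ℂ κ ρ') : (fun y : ZMod (p ^ m) => h' y.cast) ∈ WY ℂ κ ρ := by
  intro γ y ω
  show h' (ρ γ y).cast (κ γ ω) = h' y.cast ω
  rw [← hA.proj, hh]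

/-- injectivity -/
theorem tib_inj [Fact p.Prime] (hA : AffD p m j c θ ρ ρ') (hψ : ψ.IsPrimitive)
    {h : ZMod (p ^ m) → Ω → ℂ} (hh : h ∈ WY ℂ κ ρ) (h1 : tibT ψ Ω h = 0)
    (h2 : tibA p m Ω h = 0) : h = 0 := by
  classical
  have hp := (Fact.out : p.Prime)
  have hm : 0 < m := lt_of_lt_of_le hA.pos hA.le
  have hN' : NeZero (p ^ (m - 1)) := ⟨pow_ne_zero _ hp.ne_zero⟩
  have hT : ∀ ω, ∑ y, ψ (-y) * h y ω = 0 := fun ω => congrFun h1 ω
  have hB : ∀ (y' : ZMod (p ^ (m - 1))) (ω : Ω), ∑ y : ZMod (p ^ m),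
      (if (y.cast : ZMod (p ^ (m - 1))) = y' then h y ω else 0) = 0 := by
    intro y' ω
    have h3 := congrFun (congrFun h2 y') ω
    have h4 : (p : ℂ)⁻¹ * ∑ y : ZMod (p ^ m), (if (y.cast : ZMod (p ^ (m - 1))) = y' then
      h y ω else 0) = 0 := h3
    refine (mul_eq_zero.1 h4).resolve_left (inv_ne_zero ?_)
    exact_mod_cast hp.ne_zero
  -- all Fourier coefficients vanish
  have hF : ∀ (b : ZMod (p ^ m)) (ω : Ω), ∑ y, ψ (y * b) * h y ω = 0 := by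
    intro b ω
    by_cases hb : IsUnit b
    · obtain ⟨u, rfl⟩ := hb
      have h3 := hT (κ (θ (-u)⁻¹)⁻¹ ω)
      rw [← Equiv.sum_comp (ρ (θ (-u)⁻¹)⁻¹)] at h3
      rw [← h3]
      apply Finset.sum_congr rfl
      intro y _
      rw [hh, ← map_inv θ, inv_inv, hA.actθ, Units.val_neg]
      congr 2
      ring
    · have h3 : ∀ y : ZMod (p ^ m), ψ (y * b) * h y ω = ∑ y' : ZMod (p ^ (m - 1)),
          (ψ ((y'.val : ZMod (p ^ m)) * b) *
            if (y.cast : ZMod (p ^ (m - 1))) = y' then h y ω else 0) := by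
        intro y
        rw [Finset.sum_eq_single (y.cast : ZMod (p ^ (m - 1)))]
        · rw [if_pos rfl]
          congr 2
          apply tib_mul_eq hm hb
          have hd : p ^ (m - 1) ∣ p ^ m := pow_dvd_pow p (Nat.sub_le m 1)
          show _ = ZMod.castHom hd (ZMod (p ^ (m - 1))) _
          rw [map_natCast, ZMod.natCast_zmod_val]
        · intro y' _ hy'
          rw [if_neg (Ne.symm hy'), mul_zero]
        · intro h
          exact absurd (Finset.mem_univ _) h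
      rw [Finset.sum_congr rfl (fun y _ => h3 y), Finset.sum_comm]
      apply Finset.sum_eq_zero
      intro y' _
      rw [← Finset.mul_sum, hB, mul_zero]
  funext z ω
  have h3 : ∑ b : ZMod (p ^ m), ψ (-(z * b)) * ∑ y, ψ (y * b) * h y ω = 0 := by
    apply Finset.sum_eq_zero
    intro b _
    rw [hF, mul_zero]
  have h4 : ∀ b : ZMod (p ^ m), ψ (-(z * b)) * ∑ y, ψ (y * b) * h y ω =
      ∑ y, h y ω * ψ (b * (y - z)) := by
    intro b
    rw [Finset.mul_sum]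
    apply Finset.sum_congr rfl
    intro y _
    have h5 : b * (y - z) = -(z * b) + y * b := by ring
    rw [h5, AddChar.map_add_eq_mul]
    ring
  rw [Finset.sum_congr rfl (fun b _ => h4 b), Finset.sum_comm, Finset.sum_eq_single z] at h3
  · rw [← Finset.mul_sum, AddChar.sum_mulShift _ hψ, if_pos (sub_self z), ZMod.card] at h3
    refine (mul_eq_zero.1 h3).resolve_right ?_
    exact_mod_cast (NeZero.ne (p ^ m))
  · intro y _ hy
    rw [← Finset.mul_sum, AddChar.sum_mulShift _ hψ, if_neg (sub_ne_zero.2 hy), Nat.cast_zero,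
      mul_zero]
  · intro h
    exact absurd (Finset.mem_univ _) h

end tib4

theorem tib_chi {G : Type} [CommGroup G] [Fintype G] {P : Subgroup G} {p j : ℕ}
    (hC : CycP p j P) {g₀ : G} (hgen : ∀ g : G, ∃ n : ℕ, g₀ ^ n = g) {χ : G →* ℂˣ}
    (hχ : Fth P χ) : ((χ g₀ : ℂˣ) : ℂ) ^ p ^ (j - 1) ≠ 1 ∧ ((χ g₀ : ℂˣ) : ℂ) ^ p ^ j = 1 ∧
      ∀ g : G, χ g = 1 → g = 1 := by
  have hp : Fact p.Prime := ⟨hC.prime⟩
  have h1 : ∀ g : G, g ^ p ^ j = 1 := fun g => by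
    rw [← hC.card]
    exact pow_card_eq_one'
  have hord : orderOf g₀ = p ^ j := by
    rw [← hC.card]
    apply orderOf_eq_card_of_forall_mem_zpowers
    intro g
    obtain ⟨n, rfl⟩ := hgen g
    exact Subgroup.npow_mem_zpowers g₀ n
  have h2 : ((χ g₀ : ℂˣ) : ℂ) ^ p ^ j = 1 := by
    rw [← Units.val_pow_eq_pow_val, ← map_pow, h1, map_one, Units.val_one]
  have hj : p ^ j = p ^ (j - 1) * p := by
    rw [← pow_succ, Nat.sub_add_cancel hC.pos]
  have h3 : ((χ g₀ : ℂˣ) : ℂ) ^ p ^ (j - 1) ≠ 1 := by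
    intro h3
    obtain ⟨h, hP, hne⟩ := hχ
    obtain ⟨n, rfl⟩ := hgen h
    apply hne
    have h4 : (g₀ ^ n) ^ p = 1 := by
      have h5 : ((⟨g₀ ^ n, hP⟩ : P) : P) ^ p = 1 := by
        rw [← hC.cardP]
        exact pow_card_eq_one'
      exact congrArg Subtype.val h5
    rw [← pow_mul, ← orderOf_dvd_iff_pow_eq_one, hord, hj] at h4
    obtain ⟨l, hl⟩ := Nat.dvd_of_mul_dvd_mul_right hp.out.pos h4
    apply Units.ext
    rw [map_pow, Units.val_pow_eq_pow_val, hl, pow_mul, h3, one_pow, Units.val_one]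
  refine ⟨h3, h2, ?_⟩
  intro g hg
  obtain ⟨n, rfl⟩ := hgen g
  have h4 : orderOf ((χ g₀ : ℂˣ) : ℂ) = p ^ j := by
    have h5 := orderOf_eq_prime_pow (p := p) (n := j - 1) h3
      (by rw [Nat.sub_add_cancel hC.pos]; exact h2)
    rw [Nat.sub_add_cancel hC.pos] at h5
    exact h5
  have h6 : ((χ g₀ : ℂˣ) : ℂ) ^ n = 1 := by
    rw [← Units.val_pow_eq_pow_val, ← map_pow, hg, Units.val_one]
  rw [← orderOf_dvd_iff_pow_eq_one, h4, ← hord, orderOf_dvd_iff_pow_eq_one] at h6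
  exact h6

theorem dtW_aff {Γ : Type} [Group Γ] [Finite Γ] {p m j : ℕ} {c : Γ} {θ : (ZMod (p ^ m))ˣ →* Γ}
    {ρ : Γ →* Equiv.Perm (ZMod (p ^ m))} {ρ' : Γ →* Equiv.Perm (ZMod (p ^ (m - 1)))}
    (hA : AffD p m j c θ ρ ρ') {G : Type} [CommGroup G] [Fintype G] {P : Subgroup G}
    (hC : CycP p j P) (ι₀ : G →* Γ) {g₀ : G} (hg : ι₀ g₀ = c) (hι : Function.Injective ι₀)
    {Ω : Type} [Fintype Ω] (κ : Γ →* Equiv.Perm Ω) {F : Matrix Ω Ω ℝ} (hF : MIv κ F) {r : ℕ}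
    (w : Fin r → Ω) (hw : ∀ i g, κ (ι₀ g) (w i) = w i → g = 1)
    (hinj : ∀ i i' g, κ (ι₀ g) (w i) = w i' → i = i')
    (hall : ∀ ω, (∀ g, κ (ι₀ g) ω = ω → g = 1) → ∃ i g, ω = κ (ι₀ g) (w i))
    {χ : G →* ℂˣ} (hχ : Fth P χ) :
    dtW κ (F.map (algebraMap ℝ ℂ)) ρ =
      (Fchi (κ.comp ι₀) F w χ).det * dtW κ (F.map (algebraMap ℝ ℂ)) ρ' ∧
    Module.finrank ℂ (WY ℂ κ ρ) = r + Module.finrank ℂ (WY ℂ κ ρ') := by
  classical
  have hp : Fact p.Prime := ⟨hA.prime⟩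
  have hN : NeZero (p ^ m) := ⟨pow_ne_zero _ hA.prime.ne_zero⟩
  have hN' : NeZero (p ^ (m - 1)) := ⟨pow_ne_zero _ hA.prime.ne_zero⟩
  have hm : 0 < m := lt_of_lt_of_le hA.pos hA.le
  obtain ⟨hc1, hc2, hc3⟩ := tib_chi hC (tib_gen hA hC hg hι) hχ
  -- the additive character
  obtain ⟨ζ, hζ⟩ := IsAlgClosed.exists_pow_nat_eq ((χ g₀ : ℂˣ) : ℂ)
    (pow_pos hA.prime.pos (m - j))
  have e1 : p ^ m = p ^ (m - j) * p ^ j := by
    rw [← pow_add, Nat.sub_add_cancel hA.le]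
  have e2 : p ^ (m - 1) = p ^ (m - j) * p ^ (j - 1) := by
    rw [← pow_add]
    congr 1
    have := hA.pos
    have := hA.le
    omega
  have hζ1 : ζ ^ p ^ m = 1 := by rw [e1, pow_mul, hζ, hc2]
  have hζ2 : ζ ^ p ^ (m - 1) ≠ 1 := by rw [e2, pow_mul, hζ]; exact hc1
  have hζ3 : IsPrimitiveRoot ζ (p ^ m) := by
    have h5 := orderOf_eq_prime_pow (p := p) (n := m - 1) hζ2
      (by rw [Nat.sub_add_cancel hm]; exact hζ1)
    rw [Nat.sub_add_cancel hm] at h5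
    rw [← h5]
    exact IsPrimitiveRoot.orderOf ζ
  obtain ⟨ψ, hψ, hψc⟩ : ∃ ψ : AddChar (ZMod (p ^ m)) ℂ, ψ.IsPrimitive ∧
      ψ (p ^ (m - j) : ℕ) = ((χ g₀ : ℂˣ) : ℂ) := by
    refine ⟨_, AddChar.zmodChar_primitive_of_primitive_root (p ^ m) hζ3, ?_⟩
    rw [AddChar.zmodChar_apply', hζ]
  -- `F`
  have hF' : MIv κ (F.map (algebraMap ℝ ℂ)) := fun γ ω ω' => by
    show algebraMap ℝ ℂ (F (κ γ ω) (κ γ ω')) = algebraMap ℝ ℂ (F ω ω')
    rw [hF]
  have hs := tib_stab κ hF' ρ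
  have hs' := tib_stab κ hF' ρ'
  have hX := tib_stabX (κ.comp ι₀) χ (F := F.map (algebraMap ℝ ℂ)) (fun g => hF' (ι₀ g))
  have hfree : ∀ ω g, (κ.comp ι₀) g ω = ω → g ≠ 1 → ∃ g', (κ.comp ι₀) g' ω = ω ∧ χ g' ≠ 1 :=
    fun ω g h1 h2 => ⟨g, h1, fun h3 => h2 (hc3 g h3)⟩
  have hTm : ∀ x ∈ WY ℂ κ ρ, tibT ψ Ω x ∈ tibX (κ.comp ι₀) χ := fun x hx =>
    tibT_mem ψ hA hC hg hι hψc hx
  have hAm : ∀ x ∈ WY ℂ κ ρ, tibA p m Ω x ∈ WY ℂ κ ρ' := fun x hx => tibA_mem hA hx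
  let Φ : WY ℂ κ ρ →ₗ[ℂ] tibX (κ.comp ι₀) χ × WY ℂ κ ρ' :=
    ((tibT ψ Ω).restrict hTm).prod ((tibA p m Ω).restrict hAm)
  have hinjΦ : Function.Injective Φ := by
    rw [injective_iff_map_eq_zero]
    intro x hx
    apply Subtype.ext
    apply tib_inj ψ hA hψ x.2
    · exact congrArg Subtype.val (congrArg Prod.fst hx)
    · exact congrArg Subtype.val (congrArg Prod.snd hx)
  have hsurjΦ : Function.Surjective Φ := by
    rintro ⟨x, h'⟩
    refine ⟨⟨tibH ψ θ κ x.1, tibH_mem ψ hA hg hψc x.2⟩ +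
      ⟨fun y => h'.1 y.cast, tib_pull hA h'.2⟩, ?_⟩
    rw [map_add]
    apply Prod.ext
    · apply Subtype.ext
      show tibT ψ Ω (tibH ψ θ κ x.1) + tibT ψ Ω (fun y => h'.1 y.cast) = x.1
      rw [tibT_H ψ hψ, tibT_A ψ hm hψ, add_zero]
    · apply Subtype.ext
      show tibA p m Ω (tibH ψ θ κ x.1) + tibA p m Ω (fun y => h'.1 y.cast) = h'.1
      rw [tibA_H ψ hm hψ, tibA_A hm, zero_add]
  let E := LinearEquiv.ofBijective Φ ⟨hinjΦ, hsurjΦ⟩
  have hrank := tib_rank (κ.comp ι₀) χ w hw hinj hall hfree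
  constructor
  · unfold dtW
    rw [dif_pos hs, dif_pos hs', ← LinearMap.det_conj _ E]
    have h1 : (E : WY ℂ κ ρ →ₗ[ℂ] tibX (κ.comp ι₀) χ × WY ℂ κ ρ') ∘ₗ
        (FY (ZMod (p ^ m)) (F.map (algebraMap ℝ ℂ))).restrict hs ∘ₗ
        (E.symm : tibX (κ.comp ι₀) χ × WY ℂ κ ρ' →ₗ[ℂ] WY ℂ κ ρ) =
        ((Matrix.mulVecLin (F.map (algebraMap ℝ ℂ))).restrict hX).prodMap
          ((FY (ZMod (p ^ (m - 1))) (F.map (algebraMap ℝ ℂ))).restrict hs') := by
      apply LinearMap.ext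
      intro z
      obtain ⟨x, rfl⟩ := E.surjective z
      show E ((FY (ZMod (p ^ m)) (F.map (algebraMap ℝ ℂ))).restrict hs (E.symm (E x))) = _
      rw [LinearEquiv.symm_apply_apply]
      apply Prod.ext
      · apply Subtype.ext
        exact tibT_comm ψ (F.map (algebraMap ℝ ℂ)) x.1
      · apply Subtype.ext
        exact tibA_comm (F.map (algebraMap ℝ ℂ)) x.1
    rw [h1, LinearMap.det_prodMap, tib_detX (κ.comp ι₀) χ w hw hinj hall hfree F
      (fun g => hF (ι₀ g)) hX]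
  · rw [E.finrank_eq, Module.finrank_prod, hrank]

end Pool.Agent.RS3
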