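import Pool.Agent.Lib_helper35.RS2.P_GP
import Pool.Agent.Lib_helper35.RS3.P_TIB
import Pool.Agent.Lib_helper35.RS3.P_TIA
import Pool.Agent.Lib_helper35.RS3.P_TIC
import Pool.Agent.Lib_helper35.RS3.P_ORB
import Pool.Agent.Lib_helper27.RS3.Defs3

/-!
# Rubin's conjecture for abelian `p`-groups: the determinant on the `χ`-part
-/

namespace Pool.Agent.RS3

set_option linter.unusedSectionVars false

open Pool.Agent.RSK Pool.Agent.RS2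
open NumberField IsDedekindDomain Filter Topology Complex

theorem ti_finite {n p : ℕ} (hp : p.Prime) : Finite (ZMod (p ^ n)) := by
  have : NeZero (p ^ n) := ⟨pow_ne_zero _ hp.ne_zero⟩
  infer_instance

theorem ti_miv {Γ : Type} [Group Γ] {Ω : Type} {κ : Γ →* Equiv.Perm Ω} {F : Matrix Ω Ω ℝ}
    (hF : MIv κ F) : MIv κ (F.map (algebraMap ℝ ℂ)) := by
  intro γ ω ω'
  show (algebraMap ℝ ℂ) (F _ _) = (algebraMap ℝ ℂ) (F _ _)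
  rw [hF γ ω ω']

theorem ti_dtY {Γ : Type} [Group Γ] [Finite Γ] {Ω Y : Type} [Fintype Ω] [Finite Y]
    (κ : Γ →* Equiv.Perm Ω) {F : Matrix Ω Ω ℝ} (hF : MIv κ F) (σ : Γ →* Equiv.Perm Y) :
    ((dtY κ F σ : ℝ) : ℂ) = dtW κ (F.map (algebraMap ℝ ℂ)) σ := by
  rw [(dtW_eq κ (ti_miv hF) σ).2.1]
  unfold dtY
  have h := map_finprod (algebraMap ℝ ℂ : ℝ →* ℂ) (f := fun o : Orb σ => dt κ F (ost σ o))
    (Set.toFinite _)
  refine h.trans ?_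
  refine finprod_congr fun o => ?_
  exact (dt_base κ hF (ost σ o)).1

theorem dt_aff {Γ : Type} [Group Γ] [Finite Γ] {p m j : ℕ} {c : Γ} {θ : (ZMod (p ^ m))ˣ →* Γ}
    {ρ : Γ →* Equiv.Perm (ZMod (p ^ m))} {ρ' : Γ →* Equiv.Perm (ZMod (p ^ (m - 1)))}
    (hA : AffD p m j c θ ρ ρ') {G : Type} [CommGroup G] [Fintype G] {P : Subgroup G}
    (hC : CycP p j P) (ι₀ : G →* Γ) {g₀ : G} (hg : ι₀ g₀ = c) (hι : Function.Injective ι₀)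
    {Ω : Type} [Fintype Ω] (κ : Γ →* Equiv.Perm Ω) {F : Matrix Ω Ω ℝ} (hF : MIv κ F) {r : ℕ}
    (w : Fin r → Ω)
    (hw : ∀ i g, κ (ι₀ g) (w i) = w i → g = 1)
    (hinj : ∀ i i' g, κ (ι₀ g) (w i) = w i' → i = i')
    (hall : ∀ ω, (∀ g, κ (ι₀ g) ω = ω → g = 1) → ∃ i g, ω = κ (ι₀ g) (w i))
    {χ : G →* ℂˣ} (hχ : Fth P χ) :
    ((dtY κ F ρ : ℝ) : ℂ) = (Fchi (κ.comp ι₀) F w χ).det * ((dtY κ F ρ' : ℝ) : ℂ) := by
  have := ti_finite (n := m) hA.prime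
  have := ti_finite (n := m - 1) hA.prime
  rw [ti_dtY κ hF ρ, ti_dtY κ hF ρ']
  exact (dtW_aff hA hC ι₀ hg hι κ hF w hw hinj hall hχ).1

theorem dim_aff {Γ : Type} [Group Γ] [Finite Γ] {p m j : ℕ} {c : Γ} {θ : (ZMod (p ^ m))ˣ →* Γ}
    {ρ : Γ →* Equiv.Perm (ZMod (p ^ m))} {ρ' : Γ →* Equiv.Perm (ZMod (p ^ (m - 1)))}
    (hA : AffD p m j c θ ρ ρ') {G : Type} [CommGroup G] [Fintype G] {P : Subgroup G}
    (hC : CycP p j P) (ι₀ : G →* Γ) {g₀ : G} (hg : ι₀ g₀ = c) (hι : Function.Injective ι₀)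
    {Ω : Type} [Fintype Ω] (κ : Γ →* Equiv.Perm Ω) {r : ℕ} (w : Fin r → Ω)
    (hw : ∀ i g, κ (ι₀ g) (w i) = w i → g = 1)
    (hinj : ∀ i i' g, κ (ι₀ g) (w i) = w i' → i = i')
    (hall : ∀ ω, (∀ g, κ (ι₀ g) ω = ω → g = 1) → ∃ i g, ω = κ (ι₀ g) (w i)) :
    Nat.card (Orb ρ) = Nat.card (Orb ρ') ∧
    ∑ᶠ o : Orb ρ, Module.finrank ℝ (ivt ℝ κ (ost ρ o)) =
      r + ∑ᶠ o : Orb ρ', Module.finrank ℝ (ivt ℝ κ (ost ρ' o)) := by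
  classical
  have := ti_finite (n := m) hA.prime
  have := ti_finite (n := m - 1) hA.prime
  refine ⟨orb_aff hA, ?_⟩
  have hF : MIv κ (0 : Matrix Ω Ω ℝ) := fun γ ω ω' => rfl
  obtain ⟨χ, hχ⟩ := fth_exists hC
  have h := (dtW_aff hA hC ι₀ hg hι κ hF w hw hinj hall hχ).2
  rw [(dtW_eq κ (ti_miv hF) ρ).2.2, (dtW_eq κ (ti_miv hF) ρ').2.2] at h
  have e : ∀ {Y : Type} (σ : Γ →* Equiv.Perm Y),
      ∑ᶠ o : Orb σ, Module.finrank ℂ (ivt ℂ κ (ost σ o)) =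
        ∑ᶠ o : Orb σ, Module.finrank ℝ (ivt ℝ κ (ost σ o)) := fun σ =>
    finsum_congr fun o => (dt_base κ hF (ost σ o)).2
  rw [e, e] at h
  exact h

end Pool.Agent.RS3
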